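import Pool.Agent.ZGap.PS.Crowd

/-!
# From close pairs with positive density off a small set of centres to windows
-/

namespace Pool.Agent.ZShortAA

open MeasureTheory Set Filter Pool.Agent.Hadamard Pool.Agent.ZetaGaps Pool.Agent.HalfGap
open Pool.Agent.ShortPos

/-- Chebyshev for the density of a set in windows. -/
theorem cheb_windows {B : Set ℝ} (hB : MeasurableSet B) {H δ : ℝ} (hH : 0 < H)
    (hδ : 0 < δ) : volume {y : ℝ | ENNReal.ofReal (δ * H) ≤ volume (B ∩ Icc y (y + H))} ≤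
      volume B / ENNReal.ofReal δ := by
  set s : Set (ℝ × ℝ) := {p | p.2 ∈ B ∧ p.1 ≤ p.2 ∧ p.2 ≤ p.1 + H} with hs
  have hsm : MeasurableSet s := by
    have h1 : MeasurableSet {p : ℝ × ℝ | p.2 ∈ B} := measurable_snd hB
    have h2 : MeasurableSet {p : ℝ × ℝ | p.1 ≤ p.2} := measurableSet_le measurable_fst measurable_snd
    have h3 : MeasurableSet {p : ℝ × ℝ | p.2 ≤ p.1 + H} :=
      measurableSet_le measurable_snd (measurable_fst.add_const H)
    exact h1.inter (h2.inter h3)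
  have e1 : ∀ y : ℝ, Prod.mk y ⁻¹' s = B ∩ Icc y (y + H) := by
    intro y
    ext x
    simp only [hs, mem_preimage, mem_setOf_eq, mem_inter_iff, mem_Icc]
  have e2 : ∀ x : ℝ, volume ((fun y => (y, x)) ⁻¹' s) = B.indicator (fun _ => ENNReal.ofReal H) x := by
    intro x
    by_cases hx : x ∈ B
    · rw [indicator_of_mem hx]
      have : (fun y => (y, x)) ⁻¹' s = Icc (x - H) x := by
        ext y
        simp only [hs, mem_preimage, mem_setOf_eq, mem_Icc]
        constructor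
        · rintro ⟨-, h1, h2⟩; exact ⟨by linarith, h1⟩
        · rintro ⟨h1, h2⟩; exact ⟨hx, h2, by linarith⟩
      rw [this, Real.volume_Icc]
      congr 1; ring
    · rw [indicator_of_notMem hx]
      have : (fun y => (y, x)) ⁻¹' s = ∅ := by
        ext y
        simp only [hs, mem_preimage, mem_setOf_eq, mem_empty_iff_false, iff_false]
        exact fun h => hx h.1
      rw [this, measure_empty]
  have h1 : ∫⁻ y : ℝ, volume (B ∩ Icc y (y + H)) = ENNReal.ofReal H * volume B := by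
    have h2 : (volume.prod volume : Measure (ℝ × ℝ)) s = ∫⁻ y : ℝ, volume (B ∩ Icc y (y + H)) := by
      rw [Measure.prod_apply hsm]
      simp_rw [e1]
    rw [← h2, Measure.prod_apply_symm hsm]
    simp_rw [e2]
    rw [lintegral_indicator hB, setLIntegral_const]
  have hmeas : Measurable fun y : ℝ => volume (B ∩ Icc y (y + H)) := by
    have := measurable_measure_prodMk_left (ν := (volume : Measure ℝ)) hsm
    simpa only [e1] using this
  have h3 := mul_meas_ge_le_lintegral (μ := (volume : Measure ℝ)) hmeas (ENNReal.ofReal (δ * H))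
  rw [h1] at h3
  have hH' : ENNReal.ofReal H ≠ 0 := (ENNReal.ofReal_pos.mpr hH).ne'
  have hδ' : ENNReal.ofReal δ ≠ 0 := (ENNReal.ofReal_pos.mpr hδ).ne'
  rw [ENNReal.le_div_iff_mul_le (Or.inl hδ') (Or.inl ENNReal.ofReal_ne_top)]
  rw [ENNReal.ofReal_mul hδ.le] at h3 ⊢
  set v := volume {y : ℝ | ENNReal.ofReal δ * ENNReal.ofReal H ≤ volume (B ∩ Icc y (y + H))} with hv
  have h4 : ENNReal.ofReal H * (v * ENNReal.ofReal δ) ≤ ENNReal.ofReal H * volume B := by
    calc ENNReal.ofReal H * (v * ENNReal.ofReal δ) = ENNReal.ofReal δ * ENNReal.ofReal H * v := by ring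
      _ ≤ _ := h3
  exact (ENNReal.mul_le_mul_iff_right hH' ENNReal.ofReal_ne_top).mp h4

/-- The close pairs have positive density off a small set of centres. -/
def PropEEAA : Prop :=
  ∀ {a τ : ℝ}, 0 < a → a < 1 → 2 / (3 + a) < τ → τ < 1 →
    ∃ κ0 : ℝ, 0 < κ0 ∧ ∃ c : ℝ, 0 < c ∧ ∃ T0 : ℝ, ∀ T : ℝ, T0 ≤ T → ∃ B : Set ℝ,
      MeasurableSet B ∧ B ⊆ Icc T (2 * T) ∧ volume.real B ≤ T ^ (1 - c) ∧
      ∀ y H : ℝ, T ≤ y → y + H ≤ 2 * T → T ^ a ≤ H → volume.real (B ∩ Icc y (y + H)) ≤ H / 8 →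
        κ0 * H ≤ volume.real (EE (2 * Real.pi * τ / Real.log T) ∩ Icc y (y + H))

/-- **Positive proportion of small gaps in almost all windows of length `T ^ a`**. -/
theorem small_windows_of (hP : PropEEAA) {a ε : ℝ} (ha : 0 < a) (ha1 : a < 1) (hε : 0 < ε) :
    ∃ κ c T0 : ℝ, 0 < κ ∧ 0 < c ∧ ∀ T : ℝ, T0 ≤ T →
      volume {t : ℝ | t ∈ Icc T (2 * T) ∧ ¬ (κ * (T ^ a * Real.log T) ≤
        ({n ∈ Finset.Ioo (zeroCount t) (zeroCount (t + T ^ a)) | gap n < 2 / (3 + a) + ε}.card : ℝ))}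
        ≤ ENNReal.ofReal (T ^ (1 - c)) := by
  have h3a : 0 < 3 + a := by linarith
  have hs : 2 / (3 + a) + (1 + a) / (3 + a) = 1 := by field_simp; ring
  have hs0 : 0 < (1 + a) / (3 + a) := by positivity
  have hp0 : 0 < 2 / (3 + a) := by positivity
  set p := 2 / (3 + a) with hp
  set m := min ε ((1 + a) / (3 + a)) with hm
  have hm0 : 0 < m := lt_min hε hs0
  have hm2 : m ≤ (1 + a) / (3 + a) := min_le_right _ _
  have hmε : m ≤ ε := min_le_left _ _
  have hpm : p + m ≤ 1 := by linarith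
  set τ := p + m / 2 with hτ
  have hτ0 : 0 < τ := by rw [hτ]; linarith
  have hτ1 : τ < 1 := by rw [hτ]; linarith
  -- a slightly smaller exponent
  obtain ⟨a', ha'0, ha'a, ha'τ⟩ : ∃ a' : ℝ, 0 < a' ∧ a' < a ∧ 2 / (3 + a') < τ := by
    have hτp : 2 / τ - 3 < a := by
      rw [sub_lt_iff_lt_add, div_lt_iff₀ hτ0]
      have h1 : p * (3 + a) = 2 := by rw [hp]; field_simp
      have h2 : p * (3 + a) < τ * (3 + a) := by
        apply mul_lt_mul_of_pos_right _ h3a
        rw [hτ]; linarith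
      linarith
    refine ⟨max (a / 2) ((2 / τ - 3 + a) / 2), lt_max_of_lt_left (by linarith),
      max_lt (by linarith) (by linarith), ?_⟩
    have h4 : 2 / τ - 3 < max (a / 2) ((2 / τ - 3 + a) / 2) := lt_max_of_lt_right (by linarith)
    have h5 : 0 < max (a / 2) ((2 / τ - 3 + a) / 2) := lt_max_of_lt_left (by linarith)
    rw [div_lt_iff₀ (by linarith)]
    rw [sub_lt_iff_lt_add, div_lt_iff₀ hτ0] at h4
    linarith
  obtain ⟨κ0, hκ0, c0, hc0, T1, h1⟩ := hP ha'0 (by linarith : a' < 1) ha'τ hτ1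
  obtain ⟨κ, hκ, T2, h2⟩ := count_of_EE (τ := τ) (c := p + 3 * m / 4) (d := p + ε) (κ0 := κ0) hτ0
    (by rw [hτ]; linarith) (by linarith) hκ0
  set c1 := min c0 (1 - a) with hc1
  have hc10 : 0 < c1 := lt_min hc0 (by linarith)
  have hc1a : c1 ≤ c0 := min_le_left _ _
  have hc1b : c1 ≤ 1 - a := min_le_right _ _
  have ev1 : ∀ᶠ T : ℝ in atTop, 2 ≤ T ^ (a - a') :=
    (tendsto_rpow_atTop (by linarith)).eventually_ge_atTop _
  have ev2 : ∀ᶠ T : ℝ in atTop, 4 ≤ T ^ a :=
    (tendsto_rpow_atTop ha).eventually_ge_atTop _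
  have ev3 : ∀ᶠ T : ℝ in atTop, 9 ≤ T ^ (c1 / 2) :=
    (tendsto_rpow_atTop (by linarith)).eventually_ge_atTop _
  obtain ⟨T0, hT0⟩ := eventually_atTop.1
    ((ev1.and ev2).and (ev3.and (eventually_ge_atTop (max (max T1 T2) 1))))
  refine ⟨κ / 2, c1 / 2, T0, by positivity, by positivity, fun T hT => ?_⟩
  obtain ⟨⟨s1, s2⟩, s3, s4⟩ := hT0 T hT
  have hT1 : T1 ≤ T := (le_max_left _ _).trans ((le_max_left _ _).trans s4)
  have hT2 : T2 ≤ T := (le_max_right _ _).trans ((le_max_left _ _).trans s4)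
  have hTone : 1 ≤ T := (le_max_right _ _).trans s4
  have hTpos : 0 < T := by linarith
  have hL0 : 0 ≤ Real.log T := Real.log_nonneg hTone
  obtain ⟨B, hB1, hB2, hB3, hB4⟩ := h1 T hT1
  set H := T ^ a - 2 with hH
  have hHpos : 0 < H := by rw [hH]; linarith
  have hHa' : T ^ a' ≤ H := by
    have e2 : T ^ a = T ^ a' * T ^ (a - a') := by
      rw [← Real.rpow_add hTpos]; congr 1; ring
    have e3 : 0 < T ^ a' := Real.rpow_pos_of_pos hTpos _
    have e4 : 2 * T ^ a' ≤ T ^ a := by rw [e2]; nlinarith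
    rw [hH]
    linarith
  have hHhalf : T ^ a / 2 ≤ H := by rw [hH]; linarith
  have hBfin : volume B ≠ ⊤ :=
    ne_top_of_le_ne_top (by rw [Real.volume_Icc]; exact ENNReal.ofReal_ne_top) (measure_mono hB2)
  have hBvol : volume B ≤ ENNReal.ofReal (T ^ (1 - c0)) := by
    rw [← ENNReal.ofReal_toReal hBfin]
    exact ENNReal.ofReal_le_ofReal hB3
  set W := {y : ℝ | ENNReal.ofReal (1 / 8 * H) ≤ volume (B ∩ Icc y (y + H))} with hW
  have hWvol : volume W ≤ volume B / ENNReal.ofReal (1 / 8) :=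
    cheb_windows hB1 hHpos (by norm_num)
  have hsub : {t : ℝ | t ∈ Icc T (2 * T) ∧ ¬ (κ / 2 * (T ^ a * Real.log T) ≤
        ({n ∈ Finset.Ioo (zeroCount t) (zeroCount (t + T ^ a)) | gap n < p + ε}.card : ℝ))} ⊆
      ((fun t => t + 1) ⁻¹' W) ∪ Icc (2 * T - T ^ a) (2 * T) := by
    rintro t ⟨ht, hno⟩
    rcases le_or_gt (t + T ^ a) (2 * T) with hc | hc
    · left
      rw [mem_preimage, hW, mem_setOf_eq]
      by_contra hcon
      rw [not_le] at hcon
      apply hno
      have h5 : volume.real (B ∩ Icc (t + 1) (t + 1 + H)) ≤ H / 8 := by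
        rw [measureReal_def]
        have := ENNReal.toReal_mono ENNReal.ofReal_ne_top hcon.le
        rw [ENNReal.toReal_ofReal (by positivity)] at this
        linarith
      have h6 := hB4 (t + 1) H (by linarith [ht.1]) (by rw [hH]; linarith) hHa' h5
      have h7 := h2 T hT2 (t + 1) H (by linarith [ht.1]) (by rw [hH]; linarith) h6
      have e1 : t + 1 - 1 = t := by ring
      have e2 : t + 1 + H + 1 = t + T ^ a := by rw [hH]; ring
      rw [e1, e2] at h7
      refine le_trans ?_ h7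
      have : T ^ a / 2 * Real.log T ≤ H * Real.log T := by gcongr
      nlinarith
    · right
      exact ⟨by linarith, ht.2⟩
  have hvol1 : volume ((fun t => t + 1) ⁻¹' W) = volume W := measure_preimage_add_right volume 1 W
  have hvol2 : volume (Icc (2 * T - T ^ a) (2 * T)) = ENNReal.ofReal (T ^ a) := by
    rw [Real.volume_Icc]; congr 1; ring
  have h8 : volume B / ENNReal.ofReal (1 / 8) ≤ ENNReal.ofReal (8 * T ^ (1 - c0)) := by
    have e1 : ENNReal.ofReal (8 * T ^ (1 - c0)) =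
        ENNReal.ofReal (T ^ (1 - c0)) / ENNReal.ofReal (1 / 8) := by
      rw [← ENNReal.ofReal_div_of_pos (by norm_num)]
      congr 1; ring
    rw [e1]
    gcongr
  calc volume _ ≤ volume (((fun t => t + 1) ⁻¹' W) ∪ Icc (2 * T - T ^ a) (2 * T)) :=
        measure_mono hsub
    _ ≤ volume ((fun t => t + 1) ⁻¹' W) + volume (Icc (2 * T - T ^ a) (2 * T)) :=
        measure_union_le _ _
    _ ≤ ENNReal.ofReal (8 * T ^ (1 - c0)) + ENNReal.ofReal (T ^ a) := by
        rw [hvol1, hvol2]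
        gcongr
        exact hWvol.trans h8
    _ = ENNReal.ofReal (8 * T ^ (1 - c0) + T ^ a) := by
        rw [ENNReal.ofReal_add (by positivity) (by positivity)]
    _ ≤ _ := by
        apply ENNReal.ofReal_le_ofReal
        have a1 : T ^ (1 - c0) ≤ T ^ (1 - c1) := Real.rpow_le_rpow_of_exponent_le hTone (by linarith)
        have a2 : T ^ a ≤ T ^ (1 - c1) := Real.rpow_le_rpow_of_exponent_le hTone (by linarith)
        have a3 : T ^ (1 - c1) * T ^ (c1 / 2) = T ^ (1 - c1 / 2) := by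
          rw [← Real.rpow_add hTpos]; congr 1; ring
        have a4 : 0 < T ^ (1 - c1) := Real.rpow_pos_of_pos hTpos _
        calc 8 * T ^ (1 - c0) + T ^ a ≤ T ^ (1 - c1) * 9 := by linarith
          _ ≤ T ^ (1 - c1) * T ^ (c1 / 2) := by gcongr
          _ = _ := a3

end Pool.Agent.ZShortAA
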