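import Pool.Agent.ZShort.BForm
import Pool.Agent.ZShort.CountAA0

/-!
# The small gaps in the common format
-/

namespace Pool.Agent.ZShortAA

open MeasureTheory Set Filter Pool.Agent.Hadamard Pool.Agent.ZetaGaps Pool.Agent.HalfGap
open Pool.Agent.ShortPos

/-- **(C4)** -/
theorem small_B_of (hP : PropEEAA) {a d : ℝ} (ha : 0 < a) (ha1 : a < 1) (hd : 2 / (3 + a) < d) :
    Pool.Agent.ZShort.BForm a (fun n => gap n < d) := by
  have h3a : 0 < 3 + a := by linarith
  have hp1 : 2 / (3 + a) < 1 := by rw [div_lt_one h3a]; linarith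
  have hp0 : 0 < 2 / (3 + a) := by positivity
  set p := 2 / (3 + a) with hp
  set d' := min d 1 with hd'
  have hpd : p < d' := lt_min hd hp1
  have hd'1 : d' ≤ 1 := min_le_right _ _
  have hd'd : d' ≤ d := min_le_left _ _
  obtain ⟨κ0, hκ0, c, hc, T1, h1⟩ := hP ha ha1 (τ := (2 * p + d') / 3) (by linarith) (by linarith)
  obtain ⟨κ, hκ, T2, h2⟩ := count_of_EE (τ := (2 * p + d') / 3) (c := (p + 2 * d') / 3) (d := d)
    (κ0 := κ0) (by linarith) (by linarith) (by linarith) hκ0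
  refine ⟨κ, c, max T1 T2, hκ, hc, fun T hT => ?_⟩
  obtain ⟨B, hB1, hB2, hB3, hB4⟩ := h1 T ((le_max_left _ _).trans hT)
  refine ⟨B, hB1, hB2, hB3, fun y H hy1 hy2 hy3 hy4 => ?_⟩
  exact h2 T ((le_max_right _ _).trans hT) y H hy1 hy2 (hB4 y H hy1 hy2 hy3 hy4)

end Pool.Agent.ZShortAA
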