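import Pool.Agent.ZGap.Res.Gap

/-!
# The numeric inequality for large gaps in short intervals

For every `0 < α ≤ 1` the resonance inequality holds for some `c > 1 + α + α ^ 2` and some length
exponent `θ < α / 2`.
-/

set_option autoImplicit false

namespace Pool.Agent.ZShort

open Pool.Agent.ZGap.Res Filter Topology

/-- The resonator with constant coefficients, two terms of the sine series. -/
lemma num_one (c θ : ℝ) : 2 / Real.pi * (|(1 : ℝ)| * Num (Real.pi * c * θ) 1 0 (1 ^ 2) 1) =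
    2 * (c * θ) - Real.pi ^ 2 * (c * θ) ^ 3 / 18 := by
  have hpi := Real.pi_pos
  unfold Pool.Agent.ZGap.Res.Num sk term
  simp only [Finset.sum_range_succ, Finset.sum_range_zero, Nat.factorial, rho, abs_one,
    show 2 * 1 = 2 from rfl]
  push_cast
  field_simp
  ring

lemma den_one : Den 1 0 (1 ^ 2) = 1 := by
  unfold Den
  ring

lemma num_core {α : ℝ} (h0 : 0 < α) (h1 : α ≤ 4 / 5) :
    0 < 2 * ((1 + α + α ^ 2) * (α / 2)) - Real.pi ^ 2 * ((1 + α + α ^ 2) * (α / 2)) ^ 3 / 18 -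
      ((1 + α + α ^ 2) - 1) := by
  have hc : 1 + α + α ^ 2 ≤ 61 / 25 := by nlinarith
  have hc0 : 0 < 1 + α + α ^ 2 := by positivity
  have h2 : (1 + α + α ^ 2) ^ 3 ≤ (61 / 25) ^ 3 := by gcongr
  have p2 : Real.pi ^ 2 < 3.141593 ^ 2 := by
    have b2 := Real.pi_lt_d6
    have := Real.pi_pos
    gcongr
  have h3 : Real.pi ^ 2 * (1 + α + α ^ 2) ^ 3 < 144 := by
    calc Real.pi ^ 2 * (1 + α + α ^ 2) ^ 3 ≤ Real.pi ^ 2 * (61 / 25) ^ 3 := by gcongr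
      _ ≤ 3.141593 ^ 2 * (61 / 25) ^ 3 := by gcongr
      _ < 144 := by norm_num
  have e : 2 * ((1 + α + α ^ 2) * (α / 2)) - Real.pi ^ 2 * ((1 + α + α ^ 2) * (α / 2)) ^ 3 / 18 -
      ((1 + α + α ^ 2) - 1) = α ^ 3 * (144 - Real.pi ^ 2 * (1 + α + α ^ 2) ^ 3) / 144 := by ring
  rw [e]
  have h4 : 0 < α ^ 3 := by positivity
  have h5 : 0 < 144 - Real.pi ^ 2 * (1 + α + α ^ 2) ^ 3 := by linarith
  positivity

lemma lam_small {α : ℝ} (h0 : 0 < α) (h1 : α ≤ 4 / 5) : ∃ θ c : ℝ, 0 < θ ∧ 2 * θ < α ∧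
    1 + α + α ^ 2 < c ∧ |c - 1| * Den 1 0 (1 ^ 2) <
      2 / Real.pi * (|(1 : ℝ)| * Num (Real.pi * c * θ) 1 0 (1 ^ 2) 1) := by
  set c0 := 1 + α + α ^ 2 with hc0
  have hcore := num_core h0 h1
  rw [← hc0] at hcore
  have hf : Continuous fun t : ℝ => 2 * ((c0 + t) * (α / 2 - t)) -
      Real.pi ^ 2 * ((c0 + t) * (α / 2 - t)) ^ 3 / 18 - ((c0 + t) - 1) := by fun_prop
  have h2 : ∀ᶠ t in 𝓝[>] (0 : ℝ), 0 < 2 * ((c0 + t) * (α / 2 - t)) -
      Real.pi ^ 2 * ((c0 + t) * (α / 2 - t)) ^ 3 / 18 - ((c0 + t) - 1) := by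
    have h4 : 0 < 2 * ((c0 + 0) * (α / 2 - 0)) -
      Real.pi ^ 2 * ((c0 + 0) * (α / 2 - 0)) ^ 3 / 18 - ((c0 + 0) - 1) := by
      rw [add_zero, sub_zero]
      exact hcore
    have h3 := (hf.tendsto 0).eventually (lt_mem_nhds h4)
    exact h3.filter_mono nhdsWithin_le_nhds
  have h3 : ∀ᶠ t in 𝓝[>] (0 : ℝ), t < α / 4 :=
    (gt_mem_nhds (by positivity)).filter_mono nhdsWithin_le_nhds
  obtain ⟨t, ht1, ht2, ht3⟩ := (h2.and (h3.and self_mem_nhdsWithin)).exists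
  have ht0 : 0 < t := ht3
  refine ⟨α / 2 - t, c0 + t, by linarith, by linarith, by linarith, ?_⟩
  have hc1 : 0 < c0 + t - 1 := by
    rw [hc0]
    nlinarith
  rw [num_one, den_one, mul_one, abs_of_pos hc1]
  linarith

theorem num_mid : |(2711 / 1000 : ℝ) - 1| * Den (1 / 5) (4 / 5) (2 ^ 2) <
    2 / Real.pi * (|(2 : ℝ)| * Num (Real.pi * (2711 / 1000) * (2 / 5)) (1 / 5) (4 / 5) (2 ^ 2) 2) := by
  have hpi := Real.pi_pos
  have e : 2 / Real.pi * (|(2 : ℝ)| * Num (Real.pi * (2711 / 1000) * (2 / 5))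
      (1 / 5) (4 / 5) (2 ^ 2) 2) = 2 *
      (4 * ((2711 / 1000) * (2 / 5)) * term (1 / 5) (4 / 5) 0 (rho (2 ^ 2)) -
      2 / 3 * Real.pi ^ 2 * ((2711 / 1000) * (2 / 5)) ^ 3 *
        term (1 / 5) (4 / 5) 1 (rho (2 ^ 2)) +
      1 / 30 * Real.pi ^ 4 * ((2711 / 1000) * (2 / 5)) ^ 5 *
        term (1 / 5) (4 / 5) 2 (rho (2 ^ 2)) -
      1 / 1260 * Real.pi ^ 6 * ((2711 / 1000) * (2 / 5)) ^ 7 *
        term (1 / 5) (4 / 5) 3 (rho (2 ^ 2))) := by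
    have h1 : |(2 : ℝ)| = 2 := by norm_num [abs_of_pos]
    rw [h1]
    unfold Pool.Agent.ZGap.Res.Num sk
    simp only [Finset.sum_range_succ, Finset.sum_range_zero, Nat.factorial, show 2 * 2 = 4 from rfl]
    field_simp
    ring
  rw [e]
  have b1 := Real.pi_gt_d6
  have b2 := Real.pi_lt_d6
  have p2 : Real.pi ^ 2 < 3.141593 ^ 2 := by gcongr
  have p4 : 3.141592 ^ 4 < Real.pi ^ 4 := by gcongr
  have p6 : Real.pi ^ 6 < 3.141593 ^ 6 := by gcongr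
  have habs : |(2711 / 1000 : ℝ) - 1| = 2711 / 1000 - 1 := by
    rw [abs_of_pos (by norm_num)]
  rw [habs]
  unfold Den term
  simp only [rho, Nat.cast_ofNat, Nat.cast_zero, Nat.cast_one, mul_zero, mul_one, zero_add]
  norm_num
  nlinarith [p2, p4, p6]

theorem num_top : |(3001 / 1000 : ℝ) - 1| * Den (1 / 5) (4 / 5) (2 ^ 2) <
    2 / Real.pi * (|(2 : ℝ)| * Num (Real.pi * (3001 / 1000) * (9 / 20)) (1 / 5) (4 / 5) (2 ^ 2) 2) := by
  have hpi := Real.pi_pos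
  have e : 2 / Real.pi * (|(2 : ℝ)| * Num (Real.pi * (3001 / 1000) * (9 / 20))
      (1 / 5) (4 / 5) (2 ^ 2) 2) = 2 *
      (4 * ((3001 / 1000) * (9 / 20)) * term (1 / 5) (4 / 5) 0 (rho (2 ^ 2)) -
      2 / 3 * Real.pi ^ 2 * ((3001 / 1000) * (9 / 20)) ^ 3 *
        term (1 / 5) (4 / 5) 1 (rho (2 ^ 2)) +
      1 / 30 * Real.pi ^ 4 * ((3001 / 1000) * (9 / 20)) ^ 5 *
        term (1 / 5) (4 / 5) 2 (rho (2 ^ 2)) -
      1 / 1260 * Real.pi ^ 6 * ((3001 / 1000) * (9 / 20)) ^ 7 *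
        term (1 / 5) (4 / 5) 3 (rho (2 ^ 2))) := by
    have h1 : |(2 : ℝ)| = 2 := by norm_num [abs_of_pos]
    rw [h1]
    unfold Pool.Agent.ZGap.Res.Num sk
    simp only [Finset.sum_range_succ, Finset.sum_range_zero, Nat.factorial, show 2 * 2 = 4 from rfl]
    field_simp
    ring
  rw [e]
  have b1 := Real.pi_gt_d6
  have b2 := Real.pi_lt_d6
  have p2 : Real.pi ^ 2 < 3.141593 ^ 2 := by gcongr
  have p4 : 3.141592 ^ 4 < Real.pi ^ 4 := by gcongr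
  have p6 : Real.pi ^ 6 < 3.141593 ^ 6 := by gcongr
  have habs : |(3001 / 1000 : ℝ) - 1| = 3001 / 1000 - 1 := by
    rw [abs_of_pos (by norm_num)]
  rw [habs]
  unfold Den term
  simp only [rho, Nat.cast_ofNat, Nat.cast_zero, Nat.cast_one, mul_zero, mul_one, zero_add]
  norm_num
  nlinarith [p2, p4, p6]

/-- **The numeric inequality**: for every `0 < α ≤ 1` there are parameters with `2 θ < α` and
`c > 1 + α + α ^ 2`. -/
theorem lam_num {α : ℝ} (h0 : 0 < α) (h1 : α ≤ 1) : ∃ r θ c a b : ℝ, ∃ m : ℕ, m ≠ 0 ∧ 0 ≤ r ∧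
    0 < θ ∧ 2 * θ < α ∧ 1 + α + α ^ 2 < c ∧ 0 ≤ a ∧ 0 ≤ b ∧ a + b ≤ 1 ∧ 0 < a + b ∧
    |c - 1| * Den a b (r ^ 2) < 2 / Real.pi * (|r| * Num (Real.pi * c * θ) a b (r ^ 2) m) := by
  rcases le_or_gt α (4 / 5) with h2 | h2
  · obtain ⟨θ, c, h3, h4, h5, h6⟩ := lam_small h0 h2
    exact ⟨1, θ, c, 1, 0, 1, one_ne_zero, zero_le_one, h3, h4, h5, zero_le_one, le_rfl, by norm_num,
      by norm_num, h6⟩
  · rcases le_or_gt α (9 / 10) with h3 | h3
    · exact ⟨2, 2 / 5, 2711 / 1000, 1 / 5, 4 / 5, 2, two_ne_zero, by norm_num, by norm_num,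
        by linarith, by nlinarith, by norm_num, by norm_num, by norm_num, by norm_num, num_mid⟩
    · exact ⟨2, 9 / 20, 3001 / 1000, 1 / 5, 4 / 5, 2, two_ne_zero, by norm_num, by norm_num,
        by linarith, by nlinarith, by norm_num, by norm_num, by norm_num, by norm_num, num_top⟩

end Pool.Agent.ZShort
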