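import Pool.Agent.ZShort.LargeIndex

/-!
# A positive proportion of large gaps, pointwise in the window
-/

open Filter Topology Finset MeasureTheory
open Pool.Agent.Hadamard (ntz mult)
open Pool.Agent.ZetaGaps

namespace Pool.Agent.ZShort

/-- **Large gaps in one window** `[y, y + H]`, `H ≥ T ^ a`, in which the centres of voids of
half-length `π c / log T` have measure at least `c0 H`. -/
theorem large_pt (hRH : RiemannHypothesis) {a c d c0 : ℝ} (ha : 0 < a) (hc : 0 < c) (hd : d < c)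
    (hc0 : 0 < c0) :
    ∃ κ T0 : ℝ, 0 < κ ∧ ∀ T : ℝ, T0 ≤ T → ∀ y H : ℝ, T ≤ y → y + H ≤ 2 * T → T ^ a ≤ H →
      c0 * H ≤ volume.real {t : ℝ | t ∈ Set.Icc y (y + H) ∧
        ∀ ρ ∈ ntz, Real.pi * c / Real.log T < |ρ.im - t|} →
      κ * (H * Real.log T) ≤
        (#{n ∈ Finset.Icc (zeroCount y) (zeroCount (y + H)) | d < gap n} : ℝ) := by
  obtain ⟨b', hb'⟩ := exists_nat_ge (1 / a)
  obtain ⟨b, hb, hba⟩ : ∃ b : ℕ, 1 ≤ b ∧ 1 / (b:ℝ) ≤ a := by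
    refine ⟨max b' 1, le_max_right _ _, ?_⟩
    have h2 : 1 / a ≤ ((max b' 1 : ℕ) : ℝ) := hb'.trans (by exact_mod_cast le_max_left _ _)
    exact (one_div_le ha (lt_of_lt_of_le (by positivity) h2)).mp h2
  obtain ⟨C, k0, T2, hC, -, h2⟩ := gap_measure_short hRH hb (ε := 1) one_pos
  obtain ⟨k, hk0, hk1, hk⟩ := exists_k_small (c0 := c0 / 2) (by positivity) hC k0
  have hb0 : (0:ℝ) < b := by exact_mod_cast hb
  have hk0' : (0:ℝ) < k := by exact_mod_cast hk1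
  obtain ⟨κ, T3, hκ, h3⟩ := count_void_win hRH hc hd hc0 (K := 2 * (b * k)) (by positivity)
  refine ⟨κ, max T2 (max T3 ((2:ℝ) ^ (b * k))), hκ, fun T hT y H hy hyH hH h1 => ?_⟩
  have hT2 : T2 ≤ T := (le_max_left _ _).trans hT
  have hT3 : T3 ≤ T := (le_max_left _ _).trans ((le_max_right _ _).trans hT)
  have hT4 : (2:ℝ) ^ (b * k) ≤ T := (le_max_right _ _).trans ((le_max_right _ _).trans hT)
  have hT1' : 1 ≤ T := (one_le_pow₀ (by norm_num)).trans hT4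
  have hH1 : 1 ≤ H := (Real.one_le_rpow hT1' ha.le).trans hH
  refine h3 T hT3 y H hy hyH hH1 h1 ?_
  have h4 := h2 T hT2 y H hy (by linarith)
    ((Real.rpow_le_rpow_of_exponent_le hT1' hba).trans hH) k hk0 hT4
  have e1 : Real.pi * (1 + 1) * (b * k) / Real.log T =
      Real.pi * (2 * (b * k)) / Real.log T := by ring
  rw [e1] at h4
  have e2 : {t : ℝ | t ∈ Set.Icc y (y + H) ∧
      ∀ ρ ∈ ntz, Real.pi * (2 * (b * k)) / Real.log T ≤ |ρ.im - t|} =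
      {t : ℝ | t ∈ Set.Icc y (y + H) ∧
        ∀ ρ : ntz, Real.pi * (2 * (b * k)) / Real.log T ≤ |(ρ : ℂ).im - t|} := by
    ext t
    simp only [Set.mem_ofPred_eq, Subtype.forall]
  rw [e2]
  refine h4.trans ?_
  have hH0 : 0 ≤ H := by linarith
  calc H * (C / k) ^ k ≤ H * (c0 / 2) := by gcongr
    _ = c0 / 2 * H := by ring

/-- **From void centres to large gaps, off an exceptional set** (text (C), C7). -/
theorem large_B_of (hRH : RiemannHypothesis) {a c d : ℝ} (ha : 0 < a) (hc : 0 < c) (hd : d < c)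
    (h5 : ∃ c0 δ T0 : ℝ, 0 < c0 ∧ 0 < δ ∧ ∀ T : ℝ, T0 ≤ T → ∃ B : Set ℝ, MeasurableSet B ∧
      B ⊆ Set.Icc T (2 * T) ∧ volume.real B ≤ T ^ (1 - δ) ∧ ∀ y H : ℝ, T ≤ y → y + H ≤ 2 * T →
        T ^ a ≤ H → volume.real (B ∩ Set.Icc y (y + H)) ≤ H / 8 →
        c0 * H ≤ volume.real {t : ℝ | t ∈ Set.Icc y (y + H) ∧
          ∀ ρ ∈ ntz, Real.pi * c / Real.log T < |ρ.im - t|}) :
    ∃ κ δ T0 : ℝ, 0 < κ ∧ 0 < δ ∧ ∀ T : ℝ, T0 ≤ T → ∃ B : Set ℝ, MeasurableSet B ∧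
      B ⊆ Set.Icc T (2 * T) ∧ volume.real B ≤ T ^ (1 - δ) ∧ ∀ y H : ℝ, T ≤ y → y + H ≤ 2 * T →
        T ^ a ≤ H → volume.real (B ∩ Set.Icc y (y + H)) ≤ H / 8 →
        κ * (H * Real.log T) ≤
          (#{n ∈ Finset.Icc (zeroCount y) (zeroCount (y + H)) | d < gap n} : ℝ) := by
  obtain ⟨c0, δ, T1, hc0, hδ, h5⟩ := h5
  obtain ⟨κ, T2, hκ, h6⟩ := large_pt hRH ha hc hd hc0
  refine ⟨κ, δ, max T1 T2, hκ, hδ, fun T hT => ?_⟩
  obtain ⟨B, hB, hBs, hBm, h7⟩ := h5 T ((le_max_left _ _).trans hT)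
  exact ⟨B, hB, hBs, hBm, fun y H hy hyH hH hBy =>
    h6 T ((le_max_right _ _).trans hT) y H hy hyH hH (h7 y H hy hyH hH hBy)⟩

end Pool.Agent.ZShort
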