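import Pool.Agent.ZShort.VoidAA
import Pool.Agent.ZShort.LargeB
import Pool.Agent.ZShort.LamNum

/-!
# A positive proportion of large gaps in every window off a small exceptional set (RH)
-/

namespace Pool.Agent.ZShort

open MeasureTheory Real Set Pool.Agent.ZGap.Res Pool.Agent.TypBlk Pool.Agent.Hadamard
  Pool.Agent.ZetaGaps

/-- Void sets of positive measure off a small exceptional set, from the numerical inequality
(text (C), C5). -/
theorem void_B_of_num (hRH : RiemannHypothesis) {r θ c a b α : ℝ} {m : ℕ} (hm : m ≠ 0)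
    (hθ : 0 < θ) (hθα : 4 * θ < 1 + α) (hα0 : 0 < α) (hα1 : α < 1) (hc1 : 1 ≤ c) (ha : 0 ≤ a)
    (hb : 0 ≤ b) (hab : a + b ≤ 1) (h0 : 0 < a + b) (hr : 0 ≤ r)
    (hgap : |c - 1| * Den a b (r ^ 2) <
      2 / Real.pi * (|r| * Num (Real.pi * c * θ) a b (r ^ 2) m)) :
    ∃ c0 δ T0 : ℝ, 0 < c0 ∧ 0 < δ ∧ ∀ T : ℝ, T0 ≤ T → ∃ B : Set ℝ, MeasurableSet B ∧
      B ⊆ Icc T (2 * T) ∧ volume.real B ≤ T ^ (1 - δ) ∧ ∀ y H : ℝ, T ≤ y → y + H ≤ 2 * T →
        T ^ α ≤ H → volume.real (B ∩ Icc y (y + H)) ≤ H / 8 →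
        c0 * H ≤ volume.real {t : ℝ | t ∈ Icc y (y + H) ∧
          ∀ ρ ∈ ntz, π * c / Real.log T < |ρ.im - t|} := by
  have hpi := Real.pi_pos
  have hc : 0 < c := by linarith
  obtain ⟨κ, hκ, e, he, main⟩ := arith_sum hm hθ (by linarith) hc.le ha hb hab h0 hgap
  set ep := min e (θ / 4) with hep
  have hep0 : 0 < ep := lt_min he (by linarith)
  have hep1 : ep ≤ θ / 4 := min_le_right _ _
  set δ := min e (1 / 2) with hδ
  have hδ0 : 0 < δ := lt_min he (by norm_num)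
  obtain ⟨R, hRth, hRep, hRr, hLP⟩ := exists_linProf (th := θ) (ep := ep) (δ := δ) r hep0
    (by linarith) (by linarith) ha hb hab hδ0 (min_le_right _ _)
  set e' := min e (Real.pi * κ) with he'
  have he'0 : 0 < e' := lt_min he (by positivity)
  obtain ⟨ψ, hψ, hψ00, hψle, hψ1, hψ0, ⟨K, M, hK, hlip, hbd⟩, hclose⟩ := exists_majorant hc he'0
  obtain ⟨T1, hT1, harith⟩ := main R hRr hRth (by rw [hRep]; exact min_le_left _ _) δ
    (min_le_left _ _) hLP (chat ψ) K M e' 1 hK hlip hbd he'0.le (min_le_left _ _)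
    (fun x _ _ => hclose x) (by norm_num) (by rw [abs_of_nonneg hr]; ring)
  have hF : ∀ x, 0 ≤ x → R.F x ≤ 1 := fun x hx => hLP.F_le_one hx
  have hF0 : 0 < R.F 0 := by
    rw [hLP.eq 0 le_rfl (by linarith [hLP.hδ'])]
    linarith
  have hψc : chat ψ 0 / (2 * Real.pi) ≤ c + κ / 2 := by
    have h1 := (abs_le.mp (hclose 0)).2
    have h2 : k0 c 0 = 2 * (Real.pi * c) := by unfold k0; simp
    have h3 : e' ≤ Real.pi * κ := min_le_right _ _
    rw [div_le_iff₀ (by positivity)]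
    rw [h2] at h1
    linarith only [h1, h3]
  exact LargeAA.void_B hRH R hF hF0 hα0 hα1 (by rw [hRth]; exact hθα) hκ hψ hψ00 hψle hψ1 hψ0
    hψc (T1 := T1) (fun T hT => by
      have h1 := harith T hT ⌊T⌋₊ le_rfl
      rw [abs_of_nonneg (by linarith)] at h1
      linarith)

/-- **Large gaps with positive proportion in every window off a small exceptional set** (RH;
text (C), C7). -/
theorem large_B (hRH : RiemannHypothesis) {a : ℝ} (ha : 0 < a) (ha1 : a < 1) :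
    ∃ κ δ T0 : ℝ, 0 < κ ∧ 0 < δ ∧ ∀ T : ℝ, T0 ≤ T → ∃ B : Set ℝ, MeasurableSet B ∧
      B ⊆ Set.Icc T (2 * T) ∧ volume.real B ≤ T ^ (1 - δ) ∧ ∀ y H : ℝ, T ≤ y → y + H ≤ 2 * T →
        T ^ a ≤ H → volume.real (B ∩ Set.Icc y (y + H)) ≤ H / 8 →
        κ * (H * Real.log T) ≤
          (({n ∈ Finset.Icc (zeroCount y) (zeroCount (y + H)) |
            1 + (1 + a) / 2 + ((1 + a) / 2) ^ 2 < gap n} : Finset ℕ).card : ℝ) := by
  obtain ⟨r, θ, c, a', b', m, hm, hr, hθ, hθa, hc, ha', hb', hab, h0, hgap⟩ :=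
    lam_num (α := (1 + a) / 2) (by linarith) (by linarith)
  have hc1 : 1 ≤ c := by nlinarith [sq_nonneg ((1 + a) / 2)]
  exact large_B_of hRH ha (by linarith) hc
    (void_B_of_num hRH hm hθ (by linarith) ha ha1 hc1 ha' hb' hab h0 hr hgap)

end Pool.Agent.ZShort
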