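import Pool.Agent.ZGap.GapMeasure
import Pool.Agent.ZGap.PS.Poly

/-!
# Measure of the set of heights of a short interval with a long zero-free window (under RH)
-/

namespace Pool.Agent.ZShort

open MeasureTheory Real Set ArithmeticFunction Pool.Agent.Hadamard Pool.Agent.DirPoly
  Pool.Agent.ZGap Pool.Agent.ShortPos

/-- Large values of the prime polynomial in a short interval. -/
theorem primePoly_large_short {k x : ℕ} {H B V : ℝ} (hH : 0 < H) (hV : 0 < V) (hx : 2 ≤ x)
    (hxH : (x : ℝ) ^ k ≤ H) (b : ℕ → ℂ) (hb : ∀ n, ‖b n‖ ≤ B) (y : ℝ) :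
    volume.real {t : ℝ | t ∈ Icc y (y + H) ∧ V ≤ ‖primePoly b x t‖} ≤
      8 * H * (k.factorial * (6 * B ^ 2 * Real.log x ^ 2 / V ^ 2) ^ k) := by
  have h1 := primePoly_short hH hx hxH b hb y
  have hc : Continuous (fun t : ℝ => ‖primePoly b x t‖ ^ (2 * k)) :=
    (primePoly_continuous b x).norm.pow _
  have hle : y ≤ y + H := by linarith
  have hset : MeasurableSet {t : ℝ | t ∈ Icc y (y + H) ∧ V ≤ ‖primePoly b x t‖} :=
    (isClosed_Icc.inter
      (isClosed_le continuous_const (primePoly_continuous b x).norm)).measurableSet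
  have hsub : {t : ℝ | t ∈ Icc y (y + H) ∧ V ≤ ‖primePoly b x t‖} ⊆ Icc y (y + H) :=
    fun t ht => ht.1
  have hfin : volume {t : ℝ | t ∈ Icc y (y + H) ∧ V ≤ ‖primePoly b x t‖} ≠ ⊤ := by
    refine ne_top_of_le_ne_top ?_ (measure_mono hsub)
    rw [Real.volume_Icc]; exact ENNReal.ofReal_ne_top
  have h6 : V ^ (2 * k) * volume.real {t : ℝ | t ∈ Icc y (y + H) ∧ V ≤ ‖primePoly b x t‖} ≤
      ∫ t in y..(y + H), ‖primePoly b x t‖ ^ (2 * k) := by
    calc _ = ∫ t in {t : ℝ | t ∈ Icc y (y + H) ∧ V ≤ ‖primePoly b x t‖}, V ^ (2 * k) := by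
          rw [setIntegral_const, smul_eq_mul, mul_comm]
      _ ≤ ∫ t in {t : ℝ | t ∈ Icc y (y + H) ∧ V ≤ ‖primePoly b x t‖},
            ‖primePoly b x t‖ ^ (2 * k) := by
          refine setIntegral_mono_on (integrableOn_const hfin)
            (hc.integrableOn_Icc.mono_set hsub) hset fun t ht => ?_
          have := ht.2
          gcongr
      _ ≤ ∫ t in Icc y (y + H), ‖primePoly b x t‖ ^ (2 * k) := by
          refine setIntegral_mono_set hc.integrableOn_Icc
            (Filter.Eventually.of_forall fun t => by positivity) hsub.eventuallyLE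
      _ = _ := by
          rw [intervalIntegral.integral_of_le hle, integral_Icc_eq_integral_Ioc]
  have h7 : V ^ (2 * k) * volume.real {t : ℝ | t ∈ Icc y (y + H) ∧ V ≤ ‖primePoly b x t‖} ≤
      8 * H * (k.factorial * (6 * B ^ 2 * Real.log x ^ 2) ^ k) := by
    refine (h6.trans h1).trans ?_
    have hpi := Real.pi_lt_d2
    have h8 : 5 / 2 * Real.pi * H ≤ 8 * H := by nlinarith
    have h9 : 0 ≤ (k.factorial : ℝ) * (6 * B ^ 2 * Real.log x ^ 2) ^ k := by positivity
    exact mul_le_mul_of_nonneg_right h8 h9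
  have hV2 : 0 < V ^ (2 * k) := by positivity
  rw [← mul_le_mul_iff_right₀ hV2]
  refine h7.trans (le_of_eq ?_)
  rw [div_pow, ← pow_mul]
  field_simp

/-- **LP2.** Under RH, the set of `t ∈ [y, y+H]`, `H ≥ T ^ (1/b)`, whose window of normalised
length `(1+ε) b k` contains no zero has measure at most `H (C/k)^k`. -/
theorem gap_measure_short (hRH : RiemannHypothesis) {b : ℕ} (hb : 1 ≤ b) {ε : ℝ} (hε : 0 < ε) :
    ∃ (C : ℝ) (k0 : ℕ) (T0 : ℝ), 0 < C ∧ 1 ≤ k0 ∧ ∀ T ≥ T0, ∀ y H : ℝ, T ≤ y → y + H ≤ 3 * T →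
      T ^ (1 / (b : ℝ)) ≤ H → ∀ k : ℕ, k0 ≤ k → (2 : ℝ) ^ (b * k) ≤ T →
      volume.real {t : ℝ | t ∈ Icc y (y + H) ∧
        ∀ ρ : ntz, π * (1 + ε) * (b * k) / Real.log T ≤ |(ρ : ℂ).im - t|} ≤ H * (C / k) ^ k := by
  obtain ⟨C1, hC1, hlarge⟩ := exists_vmPoly_large hRH
  obtain ⟨C2, hC2, hpp⟩ := exists_vmPoly_sub_primePoly_le
  set lam := min ε 1 with hlam
  have h0 : 0 < lam := lt_min hε one_pos
  have h1 : lam ≤ 1 := min_le_right _ _
  have hle : lam ≤ ε := min_le_left _ _
  obtain ⟨k1, hk1⟩ := exists_nat_ge (32 * C2 / lam)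
  refine ⟨24 * 384 / lam ^ 2, max 4 k1, max (Real.exp 8) ((64 * C1 / lam) ^ 4), by positivity,
    ?_, fun T hT y H hy hyH hH k hk h2k => ?_⟩
  · omega
  have hbr : (1 : ℝ) ≤ b := by exact_mod_cast hb
  have hb0 : (0 : ℝ) < b := by linarith
  have hT8 : Real.exp 8 ≤ T := (le_max_left _ _).trans hT
  have hTC : (64 * C1 / lam) ^ 4 ≤ T := (le_max_right _ _).trans hT
  have hT1 : 1 ≤ T := (Real.one_le_exp (by norm_num)).trans hT8
  have hT0 : 0 < T := by linarith
  have hH0 : 0 < H := (Real.rpow_pos_of_pos hT0 _).trans_le hH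
  set L := Real.log T with hL
  have hL8 : 8 ≤ L := by rw [hL, Real.le_log_iff_exp_le hT0]; exact hT8
  have hk4 : 4 ≤ k := (le_max_left _ _).trans hk
  have hkr : (4 : ℝ) ≤ k := by exact_mod_cast hk4
  have hk0 : (0 : ℝ) < k := by linarith
  have hbk0 : (0 : ℝ) < b * k := by positivity
  have hkbk : (k : ℝ) ≤ b * k := le_mul_of_one_le_left hk0.le hbr
  have hkC : 32 * C2 / lam ≤ k := hk1.trans (by exact_mod_cast (le_max_right _ _).trans hk)
  set D := L / (b * k) with hD
  have hD2 : Real.log 2 ≤ D := by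
    rw [hD, le_div_iff₀ hbk0, mul_comm, ← Nat.cast_mul, ← Real.log_pow]
    exact Real.log_le_log (by positivity) h2k
  have hl2 := Real.log_two_gt_d9
  have hD12 : 1 / 2 ≤ D := by linarith
  have hD0 : 0 < D := by linarith
  have hDk : D ≤ L / k := by
    rw [hD]
    gcongr
  have hexpD : 2 ≤ Real.exp D := by
    rw [← Real.log_le_iff_le_exp (by norm_num)]; exact hD2
  set x := ⌊Real.exp D⌋₊ with hx
  have hx2 : 2 ≤ x := by
    rw [hx]; exact Nat.le_floor (by exact_mod_cast hexpD)
  have hxle : (x : ℝ) ≤ Real.exp D := Nat.floor_le (Real.exp_pos D).le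
  have hxlt : Real.exp D ≤ x + 1 := (Nat.lt_floor_add_one _).le
  have hxk : (x : ℝ) ^ k ≤ H := by
    calc (x : ℝ) ^ k ≤ (Real.exp D) ^ k := by gcongr
      _ = T ^ (1 / (b : ℝ)) := by
        rw [← Real.exp_nat_mul, Real.rpow_def_of_pos hT0]
        congr 1
        rw [hD]
        field_simp
        rw [hL]
      _ ≤ H := hH
  have hlogx : Real.log x ≤ D := by
    rw [Real.log_le_iff_le_exp (by exact_mod_cast (by omega : 0 < x))]
    exact hxle
  have hlogx0 : 0 ≤ Real.log x := Real.log_natCast_nonneg x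
  set V := lam / 4 * L with hV
  have hV0 : 0 < V := by positivity
  have hsub : {t : ℝ | t ∈ Icc y (y + H) ∧
        ∀ ρ : ntz, π * (1 + ε) * (b * k) / L ≤ |(ρ : ℂ).im - t|} ⊆
      {t : ℝ | t ∈ Icc y (y + H) ∧ V ≤ ‖primePoly (bb lam D) x t‖} := by
    rintro t ⟨ht, hz⟩
    have ht1 : T ≤ t := hy.trans ht.1
    have ht3 : t ≤ 3 * T := ht.2.trans hyH
    have ht0 : 0 < t := by linarith
    refine ⟨ht, ?_⟩
    have hz' : ∀ ρ : ntz, π ^ 2 * (1 + 2 * lam) ≤ (D * (t - (ρ : ℂ).im)) ^ 2 := by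
      intro ρ
      have h2 := hz ρ
      rw [abs_sub_comm] at h2
      have h3 : π * (1 + ε) ≤ |D * (t - (ρ : ℂ).im)| := by
        rw [abs_mul, abs_of_pos hD0]
        calc π * (1 + ε) = D * (π * (1 + ε) * (b * k) / L) := by
              rw [hD]
              field_simp
          _ ≤ _ := by gcongr
      calc π ^ 2 * (1 + 2 * lam) ≤ π ^ 2 * (1 + ε) ^ 2 := by
            gcongr
            nlinarith only [hle, sq_nonneg ε]
        _ = (π * (1 + ε)) ^ 2 := by ring
        _ ≤ |D * (t - (ρ : ℂ).im)| ^ 2 := by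
            gcongr
        _ = _ := sq_abs _
    have h4 := hlarge lam D x t h0 h1 hD12 hxlt (by linarith) hz'
    have h5 := hpp x 2 (bb lam D) t hx2 (fun n => norm_bb_le h0.le h1 hD0 n)
    have h6 : ‖vmPoly (bb lam D) x t‖ ≤ ‖primePoly (bb lam D) x t‖ + C2 * 2 * Real.log x := by
      have := norm_sub_norm_le (vmPoly (bb lam D) x t) (primePoly (bb lam D) x t)
      linarith
    have h7 : C2 * 2 * Real.log x ≤ lam / 16 * L := by
      have : C2 * 2 * Real.log x ≤ C2 * 2 * (L / k) := by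
        have := hlogx.trans hDk
        gcongr
      refine this.trans ?_
      rw [div_le_iff₀ h0] at hkC
      rw [← mul_div_assoc, div_le_iff₀ hk0]
      linarith only [mul_le_mul_of_nonneg_right hkC (by linarith only [hL8] : 0 ≤ L)]
    have h8 : lam / 2 * (3 / 4 * L) ≤ lam / 2 * Real.log (t / (2 * π)) := by
      have h9 : Real.log (2 * π) ≤ 2 := by
        rw [Real.log_le_iff_le_exp (by positivity)]
        have := Real.pi_lt_d2
        have h10 := Real.exp_one_gt_d9
        have h11 : Real.exp 2 = Real.exp 1 * Real.exp 1 := by rw [← Real.exp_add]; norm_num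
        rw [h11]
        nlinarith only [this, h10]
      have h12 : L ≤ Real.log t := Real.log_le_log hT0 ht1
      rw [Real.log_div ht0.ne' (by positivity)]
      gcongr
      linarith
    have h9 : C1 * Real.exp D * (1 + Real.log t) / Real.sqrt t ≤ lam / 16 * L := by
      have e1 : Real.log t ≤ 2 + L := by
        have : Real.log t ≤ Real.log (3 * T) := Real.log_le_log ht0 ht3
        rw [Real.log_mul (by norm_num) hT0.ne'] at this
        have h3 : Real.log 3 ≤ 2 := by
          have := Real.log_le_sub_one_of_pos (x := 3) (by norm_num); linarith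
        linarith
      have e2 : 1 + Real.log t ≤ 4 * L := by linarith
      have e3 : Real.exp D ≤ Real.exp (L / 4) := by
        apply Real.exp_le_exp.mpr
        refine hDk.trans ?_
        gcongr
      have e4 : Real.sqrt T = Real.exp (L / 2) := by
        rw [Real.sqrt_eq_iff_mul_self_eq hT0.le (Real.exp_pos _).le, ← Real.exp_add]
        rw [add_halves, hL, Real.exp_log hT0]
      have e5 : Real.sqrt T ≤ Real.sqrt t := Real.sqrt_le_sqrt ht1
      have e6 : 0 < Real.sqrt T := Real.sqrt_pos.mpr hT0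
      have e7 : 64 * C1 / lam ≤ Real.exp (L / 4) := by
        have e8 : Real.exp (L / 4) ^ 4 = T := by
          rw [← Real.exp_nat_mul]
          push_cast
          rw [mul_div_cancel₀ _ (by norm_num : (4:ℝ) ≠ 0), hL, Real.exp_log hT0]
        rw [← e8] at hTC
        exact le_of_pow_le_pow_left₀ (by norm_num) (Real.exp_pos _).le hTC
      have h1t : 0 ≤ 1 + Real.log t := by
        have := Real.log_nonneg (x := t) (by linarith)
        linarith
      calc C1 * Real.exp D * (1 + Real.log t) / Real.sqrt t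
          ≤ C1 * Real.exp (L / 4) * (4 * L) / Real.exp (L / 2) := by
            rw [← e4]
            gcongr
        _ = 4 * C1 * L / Real.exp (L / 4) := by
            have : Real.exp (L / 2) = Real.exp (L / 4) * Real.exp (L / 4) := by
              rw [← Real.exp_add]; congr 1; ring
            rw [this]
            have hne := (Real.exp_pos (L / 4)).ne'
            field_simp
        _ ≤ lam / 16 * L := by
            rw [div_le_iff₀ (Real.exp_pos _)]
            rw [div_le_iff₀ h0] at e7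
            linarith only [mul_le_mul_of_nonneg_right e7 (by linarith only [hL8] : 0 ≤ L)]
    rw [hV]
    linarith only [h4, h6, h7, h8, h9, mul_pos h0 (by linarith only [hL8] : 0 < L)]
  have hfin : volume {t : ℝ | t ∈ Icc y (y + H) ∧ V ≤ ‖primePoly (bb lam D) x t‖} ≠ ⊤ := by
    refine ne_top_of_le_ne_top ?_ (measure_mono (t := Set.Icc y (y + H)) fun t ht => ht.1)
    rw [Real.volume_Icc]; exact ENNReal.ofReal_ne_top
  have h3 := primePoly_large_short (k := k) (x := x) (H := H) (B := 2) (V := V) hH0 hV0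
    hx2 hxk (bb lam D) (fun n => norm_bb_le h0.le h1 hD0 n) y
  have h4 := (measureReal_mono hsub hfin).trans h3
  refine h4.trans ?_
  have hfact : (k.factorial : ℝ) ≤ (k : ℝ) ^ k := by
    exact_mod_cast Nat.factorial_le_pow k
  have hq : 6 * 2 ^ 2 * Real.log x ^ 2 / V ^ 2 ≤ 384 / (lam ^ 2 * k ^ 2) := by
    rw [hV, div_le_div_iff₀ (by positivity) (by positivity)]
    have e1 : Real.log x ^ 2 ≤ (L / k) ^ 2 := by
      have := hlogx.trans hDk
      gcongr
    calc 6 * 2 ^ 2 * Real.log x ^ 2 * (lam ^ 2 * k ^ 2) ≤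
        6 * 2 ^ 2 * (L / k) ^ 2 * (lam ^ 2 * k ^ 2) := by gcongr
      _ = 384 * (lam / 4 * L) ^ 2 := by field_simp; ring
  calc 8 * H * (k.factorial * (6 * 2 ^ 2 * Real.log x ^ 2 / V ^ 2) ^ k)
      ≤ 8 * H * ((k : ℝ) ^ k * (384 / (lam ^ 2 * k ^ 2)) ^ k) := by gcongr
    _ = H * (8 * (384 / lam ^ 2 / k) ^ k) := by
        rw [← mul_pow]
        have : (k : ℝ) * (384 / (lam ^ 2 * k ^ 2)) = 384 / lam ^ 2 / k := by
          field_simp
        rw [this]; ring
    _ ≤ H * (24 ^ k * (384 / lam ^ 2 / k) ^ k) := by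
        gcongr
        calc (8 : ℝ) ≤ 24 := by norm_num
          _ ≤ 24 ^ k := le_self_pow₀ (by norm_num) (by omega)
    _ = H * (24 * 384 / lam ^ 2 / k) ^ k := by
        rw [← mul_pow]
        congr 2
        ring

end Pool.Agent.ZShort
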