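import Pool.Agent.ZShort.CountPos
import Pool.Agent.ZShort.IndexPred
import Pool.Agent.ZShort.GapMeasS

/-!
# A positive proportion of large gaps in every window of length `T ^ a`
-/

open Filter Topology Finset MeasureTheory
open Pool.Agent.Hadamard (ntz mult)
open Pool.Agent.ZetaGaps

namespace Pool.Agent.ZShort

/-- A fixed `k` beyond which the measure of the long voids is small. -/
lemma exists_k_small {C c0 : ℝ} (hc0 : 0 < c0) (hC : 0 < C) (k0 : ℕ) :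
    ∃ k : ℕ, k0 ≤ k ∧ 1 ≤ k ∧ (C / k) ^ k ≤ c0 := by
  obtain ⟨k1, hk1⟩ := exists_nat_ge (2 * C)
  obtain ⟨k2, hk2⟩ := exists_pow_lt_of_lt_one hc0 (show (1 / 2 : ℝ) < 1 by norm_num)
  refine ⟨max (max k0 k1) (max k2 1), ?_, ?_, ?_⟩
  · exact (le_max_left _ _).trans (le_max_left _ _)
  · exact (le_max_right _ _).trans (le_max_right _ _)
  set k := max (max k0 k1) (max k2 1) with hk
  have h1 : 1 ≤ k := (le_max_right _ _).trans (le_max_right _ _)
  have h2 : k2 ≤ k := (le_max_left _ _).trans (le_max_right _ _)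
  have h3 : k1 ≤ k := (le_max_right _ _).trans (le_max_left _ _)
  have hk0 : (0:ℝ) < k := by exact_mod_cast h1
  have h4 : C / k ≤ 1 / 2 := by
    rw [div_le_div_iff₀ hk0 (by norm_num)]
    have : (k1:ℝ) ≤ k := by exact_mod_cast h3
    linarith
  calc (C / k) ^ k ≤ (1 / 2) ^ k := pow_le_pow_left₀ (by positivity) h4 _
    _ ≤ (1 / 2) ^ k2 := pow_le_pow_of_le_one (by norm_num) (by norm_num) h2
    _ ≤ c0 := hk2.le

/-- **Large gaps in windows**: from the measure of the void centres (`h1`) to a positive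
proportion of the gaps, in every window `[y, y + H]`, `H ≥ T ^ a`. -/
theorem win_large (hRH : RiemannHypothesis) {a α c d : ℝ} (ha : 0 < a) (hα : α ≤ a)
    (hc : 0 < c) (hd : d < c)
    (h1 : ∃ c0 T0 : ℝ, 0 < c0 ∧ ∀ T ≥ T0, ∀ y H : ℝ, T ≤ y → y + H ≤ 2 * T →
      T ^ α ≤ H → c0 * H ≤ volume.real {t : ℝ | t ∈ Set.Icc y (y + H) ∧
        ∀ ρ ∈ ntz, Real.pi * c / Real.log T < |ρ.im - t|}) :
    ∃ κ T0 : ℝ, 0 < κ ∧ ∀ T : ℝ, T0 ≤ T → ∀ y H : ℝ, T ≤ y → y + H ≤ 2 * T → T ^ a ≤ H →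
      κ * (H * Real.log T) ≤
        (#{n ∈ Finset.Icc (zeroCount y) (zeroCount (y + H)) | d < gap n} : ℝ) := by
  obtain ⟨b', hb'⟩ := exists_nat_ge (1 / a)
  obtain ⟨b, hb, hba⟩ : ∃ b : ℕ, 1 ≤ b ∧ 1 / (b:ℝ) ≤ a := by
    refine ⟨max b' 1, le_max_right _ _, ?_⟩
    have h2 : 1 / a ≤ ((max b' 1 : ℕ) : ℝ) := hb'.trans (by exact_mod_cast le_max_left _ _)
    exact (one_div_le ha (lt_of_lt_of_le (by positivity) h2)).mp h2
  obtain ⟨c0, T1, hc0, h1⟩ := h1
  obtain ⟨C, k0, T2, hC, -, h2⟩ := gap_measure_short hRH hb (ε := 1) one_pos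
  obtain ⟨k, hk0, hk1, hk⟩ := exists_k_small (c0 := c0 / 2) (by positivity) hC k0
  have hb0 : (0:ℝ) < b := by exact_mod_cast hb
  have hk0' : (0:ℝ) < k := by exact_mod_cast hk1
  obtain ⟨κ, T3, hκ, h3⟩ := count_void_win hRH hc hd hc0 (K := 2 * (b * k)) (by positivity)
  refine ⟨κ, max (max T1 T2) (max T3 ((2:ℝ) ^ (b * k))), hκ, fun T hT y H hy hyH hH => ?_⟩
  have hT1 : T1 ≤ T := (le_max_left _ _).trans ((le_max_left _ _).trans hT)
  have hT2 : T2 ≤ T := (le_max_right _ _).trans ((le_max_left _ _).trans hT)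
  have hT3 : T3 ≤ T := (le_max_left _ _).trans ((le_max_right _ _).trans hT)
  have hT4 : (2:ℝ) ^ (b * k) ≤ T := (le_max_right _ _).trans ((le_max_right _ _).trans hT)
  have hT1' : 1 ≤ T := (one_le_pow₀ (by norm_num)).trans hT4
  have hH1 : 1 ≤ H := (Real.one_le_rpow hT1' ha.le).trans hH
  refine h3 T hT3 y H hy hyH hH1 ?_ ?_
  · exact h1 T hT1 y H hy hyH ((Real.rpow_le_rpow_of_exponent_le hT1' hα).trans hH)
  · have h4 := h2 T hT2 y H hy (by linarith)
      ((Real.rpow_le_rpow_of_exponent_le hT1' hba).trans hH) k hk0 hT4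
    have e1 : Real.pi * (1 + 1) * (b * k) / Real.log T =
        Real.pi * (2 * (b * k)) / Real.log T := by ring
    rw [e1] at h4
    have e2 : {t : ℝ | t ∈ Set.Icc y (y + H) ∧
        ∀ ρ ∈ ntz, Real.pi * (2 * (b * k)) / Real.log T ≤ |ρ.im - t|} =
        {t : ℝ | t ∈ Set.Icc y (y + H) ∧
          ∀ ρ : ntz, Real.pi * (2 * (b * k)) / Real.log T ≤ |(ρ : ℂ).im - t|} := by
      ext t
      simp only [Set.mem_ofPred_eq, Subtype.forall]
    rw [e2]
    refine h4.trans ?_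
    have hH0 : 0 ≤ H := by linarith
    calc H * (C / k) ^ k ≤ H * (c0 / 2) := by gcongr
      _ = c0 / 2 * H := by ring

/-- **A positive proportion of large gaps in every window of indices of length `N ^ a`**, from
the measure of the void centres in windows of length `T ^ α`, `α < a`. -/
theorem large_index (hRH : RiemannHypothesis) {a c d : ℝ} (ha : 0 < a) (ha1 : a ≤ 1)
    (hc : 0 < c) (hd : d < c)
    (hvol : ∃ α < a, ∃ c0 T0 : ℝ, 0 < c0 ∧ ∀ T ≥ T0, ∀ y H : ℝ, T ≤ y → y + H ≤ 2 * T →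
      T ^ α ≤ H → c0 * H ≤ volume.real {t : ℝ | t ∈ Set.Icc y (y + H) ∧
        ∀ ρ ∈ ntz, Real.pi * c / Real.log T < |ρ.im - t|}) :
    ∃ κ : ℝ, 0 < κ ∧ ∃ N0 : ℕ, ∀ N M : ℕ, N0 ≤ N → (N:ℝ) ^ a ≤ M →
      κ * M ≤ (#{n ∈ Finset.Ioc N (N + M) | d < gap n} : ℝ) := by
  obtain ⟨α, hα, h1⟩ := hvol
  obtain ⟨a', ha', hαa', ha'a⟩ : ∃ a' : ℝ, 0 < a' ∧ α ≤ a' ∧ a' < a :=
    ⟨max α (a / 2), lt_max_of_lt_right (by positivity), le_max_left _ _,
      max_lt hα (by linarith)⟩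
  obtain ⟨κ, T0, hκ, h2⟩ := win_large hRH ha' hαa' hc hd h1
  obtain ⟨N0, hN0⟩ := index_of_window_pred (P := fun n => d < gap n) ha' ha'a ha1 hκ (T1 := T0)
    (fun T hT y H hy hyH hH => by
      refine (h2 T hT y H hy hyH hH).trans ?_
      rw [Nat.cast_le]
      apply Finset.card_le_card
      intro n hn
      rw [Finset.mem_filter, Finset.mem_Icc] at hn ⊢
      have e1 : zeroCount (y - 1) ≤ zeroCount y := zeroCount_mono (by linarith)
      have e2 : zeroCount (y + H) ≤ zeroCount (y + H + 1) := zeroCount_mono (by linarith)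
      exact ⟨⟨by omega, by omega⟩, hn.2⟩)
  exact ⟨κ / 12, by positivity, N0, hN0⟩

end Pool.Agent.ZShort
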