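import Pool.Agent.ZShort.VoidPos
import Pool.Agent.ZShort.LamNum
import Pool.Agent.ZShort.LargeIndex
import Pool.Agent.ZGap.Res.LargeFinal

/-!
# A positive proportion of large gaps in every short block of zeros (RH)
-/

namespace Pool.Agent.ZShort

open MeasureTheory Pool.Agent.ZGap.Res Pool.Agent.ZetaGaps

/-- From the numerical data to a positive proportion of gaps above `d`, `d < c`, in all blocks of
length at least `N ^ a`. -/
theorem large_index_of_num (hRH : RiemannHypothesis) {r θ c d a a' b' : ℝ} {m : ℕ} (hm : m ≠ 0)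
    (hθ : 0 < θ) (hθa : 2 * θ < a) (ha1 : a ≤ 1) (hc1 : 1 ≤ c) (hd : d < c) (ha' : 0 ≤ a')
    (hb' : 0 ≤ b') (hab : a' + b' ≤ 1) (h0 : 0 < a' + b') (hr : 0 ≤ r)
    (hgap : |c - 1| * Den a' b' (r ^ 2) <
      2 / Real.pi * (|r| * Num (Real.pi * c * θ) a' b' (r ^ 2) m)) :
    ∃ κ : ℝ, 0 < κ ∧ ∃ N₀ : ℕ, ∀ N M : ℕ, N₀ ≤ N → (N : ℝ) ^ a ≤ M →
      κ * M ≤ (({n ∈ Finset.Ioc N (N + M) | d < gap n} : Finset ℕ).card : ℝ) := by
  obtain ⟨c0, T0, hc0, h⟩ := void_pos_of_num hRH (α := (2 * θ + a) / 2) hm hθ (by linarith)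
    (by linarith) hc1 ha' hb' hab h0 hr hgap
  exact large_index hRH (by linarith) ha1 (by linarith) hd
    ⟨(2 * θ + a) / 2, by linarith, c0, T0, hc0, h⟩

/-- **A positive proportion of large gaps in every short block** (RH). -/
theorem large_positive (hRH : RiemannHypothesis) {a : ℝ} (ha : 0 < a) (ha1 : a ≤ 1) :
    ∃ κ : ℝ, 0 < κ ∧ ∃ N₀ : ℕ, ∀ N M : ℕ, N₀ ≤ N → (N : ℝ) ^ a ≤ M →
      κ * M ≤ (({n ∈ Finset.Ioc N (N + M) | (if a = 1 then 3.58 else 1 + a + a ^ 2) < gap n} :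
        Finset ℕ).card : ℝ) := by
  by_cases h1 : a = 1
  · subst h1
    simp only [if_true]
    exact large_index_of_num hRH (r := 23 / 10) (θ := 49999 / 100000) (c := 35801 / 10000)
      (a' := 5 / 64) (b' := 59 / 64) (m := 3) (by norm_num) (by norm_num) (by norm_num)
      (by norm_num) (by norm_num) (by norm_num) (by norm_num) (by norm_num) (by norm_num)
      (by norm_num) (by norm_num) num_large
  · simp only [if_neg h1]
    obtain ⟨r, θ, c, a', b', m, hm, hr, hθ, hθa, hc, ha', hb', hab, h0, hgap⟩ := lam_num ha ha1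
    exact large_index_of_num hRH hm hθ hθa ha1 (by nlinarith [sq_nonneg a]) hc ha' hb' hab h0 hr
      hgap

end Pool.Agent.ZShort
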