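import Pool.Agent.ZShort.AAIndex
import Pool.Agent.ZShort.LargeAA
import Pool.Agent.ZShort.LargePos
import Pool.Agent.ZGap.PS.Final
import Pool.Agent.ZGap.PS.SmallB

/-!
# Small and large gaps in almost every block of consecutive gaps
-/

namespace Pool.Agent.ZShort

open MeasureTheory Set Filter Pool.Agent.Hadamard Pool.Agent.ZetaGaps Pool.Agent.ShortPos
open Pool.Agent.ZGap.Res

namespace AAFin

/-- All blocks of length `≥ n ^ b` beginning at `n`, off few `n`: the common conclusion. -/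
def AllBlocks (b : ℝ) (P : ℕ → Prop) [DecidablePred P] : Prop :=
  ∃ κ c : ℝ, ∃ N0 : ℕ, 0 < κ ∧ 0 < c ∧ ∀ N : ℕ, N0 ≤ N → ∀ Z : Finset ℕ,
    (∀ n ∈ Z, 1 ≤ n ∧ n ≤ N ∧ ∃ M : ℕ, (n:ℝ) ^ b ≤ M ∧
      (({k ∈ Finset.Ioc n (n + M) | P k} : Finset ℕ).card : ℝ) < κ * M) →
    (Z.card : ℝ) ≤ (N:ℝ) ^ (1 - c)

/-- The numeric inequality at `θ` near `1 / 4`. -/
theorem num_quarter : |(18905 / 10000 : ℝ) - 1| * Den (7 / 10) (3 / 10) ((6 / 5) ^ 2) <
    2 / Real.pi * (|(6 / 5 : ℝ)| * Num (Real.pi * (18905 / 10000) * (2499 / 10000))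
      (7 / 10) (3 / 10) ((6 / 5) ^ 2) 2) := by
  have hpi := Real.pi_pos
  have e : 2 / Real.pi * (|(6 / 5 : ℝ)| * Num (Real.pi * (18905 / 10000) * (2499 / 10000))
      (7 / 10) (3 / 10) ((6 / 5) ^ 2) 2) = (6 / 5) *
      (4 * ((18905 / 10000) * (2499 / 10000)) * term (7 / 10) (3 / 10) 0 (rho ((6 / 5) ^ 2)) -
      2 / 3 * Real.pi ^ 2 * ((18905 / 10000) * (2499 / 10000)) ^ 3 *
        term (7 / 10) (3 / 10) 1 (rho ((6 / 5) ^ 2)) +
      1 / 30 * Real.pi ^ 4 * ((18905 / 10000) * (2499 / 10000)) ^ 5 *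
        term (7 / 10) (3 / 10) 2 (rho ((6 / 5) ^ 2)) -
      1 / 1260 * Real.pi ^ 6 * ((18905 / 10000) * (2499 / 10000)) ^ 7 *
        term (7 / 10) (3 / 10) 3 (rho ((6 / 5) ^ 2))) := by
    have h1 : |(6 / 5 : ℝ)| = 6 / 5 := by norm_num [abs_of_pos]
    rw [h1]
    unfold Pool.Agent.ZGap.Res.Num sk
    simp only [Finset.sum_range_succ, Finset.sum_range_zero, Nat.factorial, show 2 * 2 = 4 from rfl]
    field_simp
    ring
  rw [e]
  have b1 := Real.pi_gt_d6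
  have b2 := Real.pi_lt_d6
  have p2 : Real.pi ^ 2 < 3.141593 ^ 2 := by gcongr
  have p4 : 3.141592 ^ 4 < Real.pi ^ 4 := by gcongr
  have p6 : Real.pi ^ 6 < 3.141593 ^ 6 := by gcongr
  have habs : |(18905 / 10000 : ℝ) - 1| = 18905 / 10000 - 1 := by
    rw [abs_of_pos (by norm_num)]
  rw [habs]
  unfold Den term
  simp only [rho, Nat.cast_ofNat, Nat.cast_zero, Nat.cast_one, mul_zero, mul_one, zero_add]
  norm_num
  nlinarith [p2, p4, p6]

/-- Large gaps, from the parameters of the resonator. -/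
theorem large_all_of_num (hRH : RiemannHypothesis) {r θ c d a a' b' : ℝ} {m : ℕ} (hm : m ≠ 0)
    (hθ : 0 < θ) (ha : 0 < a) (ha1 : a < 1) (hθa : 4 * θ < 1 + a) (hc1 : 1 ≤ c) (hd : d < c)
    (ha' : 0 ≤ a') (hb' : 0 ≤ b') (hab : a' + b' ≤ 1) (h0 : 0 < a' + b') (hr : 0 ≤ r)
    (hgap : |c - 1| * Den a' b' (r ^ 2) <
      2 / Real.pi * (|r| * Num (Real.pi * c * θ) a' b' (r ^ 2) m)) :
    AllBlocks a (fun n => d < gap n) := by
  obtain ⟨a0, ha0⟩ : ∃ a0 : ℝ, a0 = (max (4 * θ - 1) 0 + a) / 2 := ⟨_, rfl⟩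
  have h1 : max (4 * θ - 1) 0 < a := max_lt (by linarith) ha
  have h2 : 4 * θ - 1 ≤ max (4 * θ - 1) 0 := le_max_left _ _
  have h3 : 0 ≤ max (4 * θ - 1) 0 := le_max_right _ _
  have hB : BFormI a0 (fun n => d < gap n) := by
    obtain ⟨κ, δ, T0, hκ, hδ, h⟩ := large_B_of hRH (a := a0) (by linarith) (by linarith) hd
      (void_B_of_num hRH hm hθ (by linarith) (by linarith) (by linarith) hc1 ha' hb' hab h0 hr hgap)
    refine ⟨κ, δ, T0, hκ, hδ, fun T hT => ?_⟩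
    obtain ⟨B, hB, hBs, hBv, h⟩ := h T hT
    refine ⟨B, hB, hBs, hBv, fun y H hy hyH hH hBy => (h y H hy hyH hH hBy).trans ?_⟩
    rw [Nat.cast_le]
    apply Finset.card_le_card
    intro n hn
    rw [Finset.mem_filter, Finset.mem_Icc] at hn ⊢
    exact ⟨⟨(zeroCount_mono (by linarith)).trans hn.1.1,
      hn.1.2.trans (zeroCount_mono (by linarith))⟩, hn.2⟩
  obtain ⟨κE, hκE, NE, hE⟩ := large_index_of_num hRH (a := (1 + a) / 2) hm hθ (by linarith)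
    (by linarith) hc1 hd ha' hb' hab h0 hr hgap
  exact index_of_BFormI (b := a) (b2 := (1 + a) / 2) (by linarith) (by linarith) ha1 (by linarith)
    hB hκE hE

/-- The constant for the large gaps. -/
theorem large_all (hRH : RiemannHypothesis) {a : ℝ} (ha : 0 < a) (ha1 : a < 1) :
    AllBlocks a (fun n => max 1.89 (1 + (1 + a) / 2 + ((1 + a) / 2) ^ 2) < gap n) := by
  rcases le_or_gt (1 + (1 + a) / 2 + ((1 + a) / 2) ^ 2) 1.89 with h | h
  · rw [max_eq_left h]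
    exact large_all_of_num hRH (r := 6 / 5) (θ := 2499 / 10000) (c := 18905 / 10000)
      (a' := 7 / 10) (b' := 3 / 10) (m := 2) (by norm_num) (by norm_num) ha ha1 (by linarith)
      (by norm_num) (by norm_num) (by norm_num) (by norm_num) (by norm_num) (by norm_num)
      (by norm_num) num_quarter
  · rw [max_eq_right h.le]
    obtain ⟨r, θ, c, a', b', m, hm, hr, hθ, hθa, hc, ha', hb', hab, h0, hgap⟩ :=
      lam_num (α := (1 + a) / 2) (by linarith) (by linarith)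
    have hc1 : 1 ≤ c := by nlinarith [sq_nonneg ((1 + a) / 2)]
    exact large_all_of_num hRH hm hθ ha ha1 (by linarith) hc1 hc ha' hb' hab h0 hr hgap

/-- The small gaps. -/
theorem small_all (hRH : RiemannHypothesis) {a ε : ℝ} (ha : 0 < a) (ha1 : a < 1)
    (hε : 0 < ε) :
    AllBlocks a (fun n => gap n < 2 / (3 + a) + ε) := by
  obtain ⟨a0, ha0⟩ : ∃ a0 : ℝ, a0 = max (a / 2) (a - ε) := ⟨_, rfl⟩
  have h1 : a0 < a := by rw [ha0]; exact max_lt (by linarith) (by linarith)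
  have h2 : a / 2 ≤ a0 := by rw [ha0]; exact le_max_left _ _
  have h3 : a - ε ≤ a0 := by rw [ha0]; exact le_max_right _ _
  have h4 : 2 / (3 + a0) < 2 / (3 + a) + ε := by
    rw [div_lt_iff₀ (by linarith), add_mul, div_mul_eq_mul_div, ← sub_lt_iff_lt_add, lt_div_iff₀
      (by linarith)]
    have k1 : 9 ≤ (3 + a0) * (3 + a) := by nlinarith
    have k2 := mul_le_mul_of_nonneg_left k1 hε.le
    have k3 : (2 - ε * (3 + a0)) * (3 + a) = 2 * (3 + a) - ε * ((3 + a0) * (3 + a)) := by ring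
    rw [k3]
    linarith
  have hB := (small_B hRH (a := a0) (by linarith) (by linarith) h4).toI
  obtain ⟨κE, hκE, NE, hE⟩ := pos_index hRH (a := (1 + a) / 2) (ε := ε) (by linarith)
    (by linarith) hε
  have e : 1 / (1 + (1 + a) / 2) = 2 / (3 + a) := by
    rw [div_eq_div_iff (by linarith) (by linarith)]
    ring
  rw [e] at hE
  exact index_of_BFormI (b := a) (b2 := (1 + a) / 2) (by linarith) h1 ha1 (by linarith)
    hB hκE hE

/-- Two properties at once. -/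
theorem both {b : ℝ} {P Q : ℕ → Prop} [DecidablePred P] [DecidablePred Q]
    (hP : AllBlocks b P) (hQ : AllBlocks b Q) :
    ∃ κ c : ℝ, ∃ N0 : ℕ, 0 < κ ∧ 0 < c ∧ ∀ N : ℕ, N0 ≤ N → ∀ Z : Finset ℕ,
      (∀ n ∈ Z, 1 ≤ n ∧ n ≤ N ∧ ∃ M : ℕ, (n:ℝ) ^ b ≤ M ∧
        ((({k ∈ Finset.Ioc n (n + M) | P k} : Finset ℕ).card : ℝ) < κ * M ∨
          (({k ∈ Finset.Ioc n (n + M) | Q k} : Finset ℕ).card : ℝ) < κ * M)) →
      (Z.card : ℝ) ≤ (N:ℝ) ^ (1 - c) := by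
  classical
  obtain ⟨κ1, c1, N1, hκ1, hc1, h1⟩ := hP
  obtain ⟨κ2, c2, N2, hκ2, hc2, h2⟩ := hQ
  obtain ⟨c, hc⟩ : ∃ c : ℝ, c = min c1 c2 := ⟨_, rfl⟩
  have hc0 : 0 < c := by rw [hc]; exact lt_min hc1 hc2
  have hcc1 : c ≤ c1 := by rw [hc]; exact min_le_left _ _
  have hcc2 : c ≤ c2 := by rw [hc]; exact min_le_right _ _
  have ev : ∀ᶠ x : ℝ in atTop, 2 ≤ x ^ (c / 2) :=
    (tendsto_rpow_atTop (by linarith)).eventually_ge_atTop 2
  obtain ⟨X, hX⟩ := eventually_atTop.1 ev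
  obtain ⟨N3, hN3⟩ := exists_nat_ge X
  refine ⟨min κ1 κ2, c / 2, max (max N1 N2) (max N3 1), lt_min hκ1 hκ2, by positivity,
    fun N hN Z hZ => ?_⟩
  have hNN1 : N1 ≤ N := (le_max_left _ _).trans ((le_max_left _ _).trans hN)
  have hNN2 : N2 ≤ N := (le_max_right _ _).trans ((le_max_left _ _).trans hN)
  have hNN3 : N3 ≤ N := (le_max_left _ _).trans ((le_max_right _ _).trans hN)
  have hN1 : 1 ≤ N := (le_max_right _ _).trans ((le_max_right _ _).trans hN)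
  have hNR : (1:ℝ) ≤ N := by exact_mod_cast hN1
  have hN0 : (0:ℝ) < N := by linarith
  set Z1 : Finset ℕ := Z.filter fun n : ℕ => ∃ M : ℕ, (n:ℝ) ^ b ≤ M ∧
    (({k ∈ Finset.Ioc n (n + M) | P k} : Finset ℕ).card : ℝ) < κ1 * M with hZ1
  set Z2 : Finset ℕ := Z.filter fun n : ℕ => ∃ M : ℕ, (n:ℝ) ^ b ≤ M ∧
    (({k ∈ Finset.Ioc n (n + M) | Q k} : Finset ℕ).card : ℝ) < κ2 * M with hZ2
  have hcov : Z ⊆ Z1 ∪ Z2 := by
    intro n hn
    obtain ⟨n1, n2, M, m1, m2⟩ := hZ n hn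
    have hM0 : (0:ℝ) ≤ M := Nat.cast_nonneg _
    rw [Finset.mem_union, hZ1, hZ2, Finset.mem_filter, Finset.mem_filter]
    rcases m2 with m2 | m2
    · left
      refine ⟨hn, M, m1, m2.trans_le ?_⟩
      gcongr
      exact min_le_left _ _
    · right
      refine ⟨hn, M, m1, m2.trans_le ?_⟩
      gcongr
      exact min_le_right _ _
  have g1 := h1 N hNN1 Z1 (fun n hn => by
    rw [hZ1, Finset.mem_filter] at hn
    obtain ⟨n1, n2, -⟩ := hZ n hn.1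
    exact ⟨n1, n2, hn.2⟩)
  have g2 := h2 N hNN2 Z2 (fun n hn => by
    rw [hZ2, Finset.mem_filter] at hn
    obtain ⟨n1, n2, -⟩ := hZ n hn.1
    exact ⟨n1, n2, hn.2⟩)
  have hcard : (Z.card : ℝ) ≤ Z1.card + Z2.card := by
    exact_mod_cast (Finset.card_le_card hcov).trans (Finset.card_union_le _ _)
  have k1 : (N:ℝ) ^ (1 - c1) ≤ (N:ℝ) ^ (1 - c) :=
    Real.rpow_le_rpow_of_exponent_le hNR (by linarith)
  have k2 : (N:ℝ) ^ (1 - c2) ≤ (N:ℝ) ^ (1 - c) :=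
    Real.rpow_le_rpow_of_exponent_le hNR (by linarith)
  have hX' := hX N (hN3.trans (by exact_mod_cast hNN3))
  have e1 : (N:ℝ) ^ (1 - c / 2) = (N:ℝ) ^ (c / 2) * (N:ℝ) ^ (1 - c) := by
    rw [← Real.rpow_add hN0]; congr 1; ring
  have e2 : 0 < (N:ℝ) ^ (1 - c) := Real.rpow_pos_of_pos hN0 _
  rw [e1]
  nlinarith

end AAFin

open Classical AAFin in
/-- **Small and large gaps in almost every block** (RH). -/
theorem almost_all_blocks (hRH : RiemannHypothesis) {a ε : ℝ} (ha : 0 < a) (ha1 : a < 1)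
    (hε : 0 < ε) :
    ∃ κ c : ℝ, 0 < κ ∧ 0 < c ∧ ∃ N₀ : ℕ, ∀ N : ℕ, N₀ ≤ N →
      (({n ∈ Finset.Icc 1 N | ¬ ∀ M : ℕ, (n:ℝ) ^ a ≤ M →
        κ * M ≤ (({k ∈ Finset.Ioc n (n + M) | gap k < 2 / (3 + a) + ε} : Finset ℕ).card : ℝ) ∧
        κ * M ≤ (({k ∈ Finset.Ioc n (n + M) |
          max 1.89 (1 + (1 + a) / 2 + ((1 + a) / 2) ^ 2) < gap k} : Finset ℕ).card : ℝ)} :
          Finset ℕ).card : ℝ) ≤ (N:ℝ) ^ (1 - c) := by
  obtain ⟨κ, c, N0, hκ, hc, h⟩ := both (small_all hRH ha ha1 hε) (large_all hRH ha ha1)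
  refine ⟨κ, c, hκ, hc, N0, fun N hN => h N hN _ fun n hn => ?_⟩
  rw [Finset.mem_filter, Finset.mem_Icc] at hn
  obtain ⟨⟨n1, n2⟩, n3⟩ := hn
  push Not at n3
  obtain ⟨M, m1, m2⟩ := n3
  refine ⟨n1, n2, M, m1, ?_⟩
  by_cases hh : (({k ∈ Finset.Ioc n (n + M) | gap k < 2 / (3 + a) + ε} :
      Finset ℕ).card : ℝ) < κ * M
  · left
    convert hh
  · right
    have := m2 (not_lt.1 hh)
    convert this

end Pool.Agent.ZShort
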