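import Pool.Agent.ZShort.NearMS
import Pool.Agent.TypBlk.Var

/-!
# Windows of width `T ^ α`: the mean square of the off-diagonal terms
-/

namespace Pool.Agent.ZShort

open MeasureTheory Finset Pool.Agent.ZGap.Res Pool.Agent.TypBlk Pool.Agent.TypBlk.VarAux

/-- The off-diagonal part of a combination of local means. -/
noncomputable def OD (R : ResData) (k : ℕ → ℝ) (K T t0 : ℝ) : ℝ :=
  ∑ n ∈ Icc 1 ⌊T⌋₊, k n * ((∫ t : ℝ, VL R K T t0 t * Real.cos (t * Real.log n)) - CC R T n)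

/-- The coefficients of the off-diagonal part. -/
noncomputable def oc (R : ResData) (k : ℕ → ℝ) (K T : ℝ) (x : IX) : ℝ :=
  if lam x.1 x.2.1 x.2.2 = 0 then 0 else
    k x.1 * (al R T x.2.1 * al R T x.2.2) * Wh (K / Real.log T * lam x.1 x.2.1 x.2.2)

lemma OD_eq (R : ResData) (k : ℕ → ℝ) {K T : ℝ} (t0 : ℝ) (hK : 0 < K) (hT : 1 < T) :
    OD R k K T t0 = ∑ x ∈ SX T, oc R k K T x * Real.cos (t0 * lam x.1 x.2.1 x.2.2) := by
  unfold OD SX oc
  rw [sum_product]
  refine sum_congr rfl fun n hn => ?_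
  have hn0 : 0 < n := (mem_Icc.mp hn).1
  rw [int_VL_cos R hK hT, sum_product, CC, ← sum_sub_distrib, mul_sum]
  refine sum_congr rfl fun q hq => ?_
  rw [← sum_sub_distrib, mul_sum]
  refine sum_congr rfl fun q' hq' => ?_
  simp only
  have hl := ExpAux.lam_eq_zero_iff hq hq' hn0
  by_cases h : lam n q q' = 0
  · rw [if_pos h, if_pos (hl.mp h), h, mul_zero, mul_zero, Wh_zero, Real.cos_zero]
    ring
  · rw [if_neg h, if_neg (fun h' => h (hl.mpr h'))]
    ring

lemma OD_continuous (R : ResData) (k : ℕ → ℝ) {K T : ℝ} (hK : 0 < K) (hT : 1 < T) :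
    Continuous (fun t0 => OD R k K T t0) := by
  simp_rw [OD_eq R k _ hK hT]
  fun_prop

/-- The weight of a denominator is bounded. -/
lemma ZZ_le {R : ResData} {T : ℝ} (hT : 1 < T) {b : ℕ} (hb : 0 < b) (hbT : (b : ℝ) ≤ T ^ (3 : ℕ)) :
    ZZ R T b ≤ 4 := by
  classical
  have hTp : 0 < T := by linarith
  have hL : 0 < Real.log T := Real.log_pos hT
  have hb' : (0:ℝ) < b := by exact_mod_cast hb
  unfold ZZ
  have h1 : (if Rg R T b then (1:ℝ) else 0) ≤ 1 := by split_ifs <;> norm_num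
  have h2 : ∑ n ∈ Icc 1 ⌊T⌋₊, (if n ∣ b ∧ Rg R T (b / n) ∧ ¬ Rg R T n then
      ArithmeticFunction.vonMangoldt n / Real.log T else 0) ≤ 3 := by
    rw [← sum_filter]
    calc _ ≤ ∑ n ∈ b.divisors, ArithmeticFunction.vonMangoldt n / Real.log T := by
          apply sum_le_sum_of_subset_of_nonneg
          · intro n hn
            rw [Nat.mem_divisors]
            exact ⟨(mem_filter.mp hn).2.1, hb.ne'⟩
          · intro n _ _
            exact div_nonneg ArithmeticFunction.vonMangoldt_nonneg hL.le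
      _ = Real.log b / Real.log T := by
          rw [← sum_div, ArithmeticFunction.vonMangoldt_sum]
      _ ≤ 3 := by
          rw [div_le_iff₀ hL]
          calc Real.log b ≤ Real.log (T ^ (3 : ℕ)) := Real.log_le_log hb' hbT
            _ = 3 * Real.log T := by rw [Real.log_pow]; norm_num
  linarith

/-- From a small logarithmic distance to a small relative distance. -/
lemma abs_sub_le_of_log {a b : ℕ} (ha : 0 < a) (hb : 0 < b) {e : ℝ} (he : 0 ≤ e) (he1 : e ≤ 1)
    (h : |Real.log a - Real.log b| ≤ e) : |(a : ℝ) - b| ≤ 2 * e * a := by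
  have ha' : (0:ℝ) < a := by exact_mod_cast ha
  have hb' : (0:ℝ) < b := by exact_mod_cast hb
  have h1 := abs_le.mp h
  have hba : (b : ℝ) / a = Real.exp (Real.log b - Real.log a) := by
    rw [Real.exp_sub, Real.exp_log hb', Real.exp_log ha']
  have h2 : |Real.exp (Real.log b - Real.log a) - 1| ≤ 2 * |Real.log b - Real.log a| := by
    apply Real.abs_exp_sub_one_le
    rw [abs_le]
    constructor <;> linarith
  have h3 : |Real.log b - Real.log a| ≤ e := by rwa [abs_sub_comm]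
  have h4 : (a : ℝ) - b = -((b / a - 1) * a) := by
    field_simp
    ring
  rw [h4, abs_neg, abs_mul, abs_of_pos ha', hba]
  apply mul_le_mul_of_nonneg_right _ ha'.le
  linarith

/-- The coefficient of a ratio. -/
lemma exists_coef (R : ResData) (hF : ∀ x, 0 ≤ x → R.F x ≤ 1) : ∃ C : ℝ, 0 < C ∧ ∀ T : ℝ,
    Real.exp 3 ≤ T → ∀ K : ℝ, 0 < K → Real.log T / K ≤ 1 → ∀ i : ℕ × ℕ, EE R T K i ≠ 0 →
      EE R T K i * i.1 ≤ C := by
  obtain ⟨C, hC, hEB⟩ := exists_EB R hF
  refine ⟨C * 4 * 2, by positivity, fun T hT K hK hLK i hi => ?_⟩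
  have h1T : 1 < T := lt_of_lt_of_le (Real.one_lt_exp_iff.mpr (by norm_num)) hT
  have hL := Real.log_pos h1T
  obtain ⟨h1, h2, h3, h4, h5, h6, h7⟩ := EE_ne h1T hi
  have h1' : (0:ℝ) < i.1 := by exact_mod_cast h1
  have h2' : (0:ℝ) < i.2 := by exact_mod_cast h2
  obtain ⟨g1, g2⟩ := hEB T hT i.1 i.2 h1 h2 h3 h7
  have g3 := EE_le (R := R) (K := K) h1T i
  have g0 := EE_nonneg (R := R) (K := K) h1T i
  by_cases hR : Rg R T i.1
  swap
  · exact absurd (le_antisymm (g3.trans (g2 hR)) g0) hi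
  have g4 := g3.trans (g1 hR)
  have g5 : ZZ R T i.2 ≤ 4 := ZZ_le h1T h2 h7
  have h8 : (i.1 : ℝ) ≤ 4 * i.2 := by
    have e1 : (i.1 : ℝ) = Real.exp (Real.log i.1 - Real.log i.2) * i.2 := by
      rw [Real.exp_sub, Real.exp_log h1', Real.exp_log h2', div_mul_cancel₀ _ h2'.ne']
    rw [e1]
    apply mul_le_mul_of_nonneg_right _ h2'.le
    calc Real.exp (Real.log i.1 - Real.log i.2) ≤ Real.exp 1 := by
          apply Real.exp_le_exp.mpr
          linarith [(abs_le.mp h5).2]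
      _ ≤ 4 := by linarith [Real.exp_one_lt_d9]
  have h9 : (i.1 : ℝ) / Real.sqrt (i.1 * i.2) ≤ 2 := by
    rw [div_le_iff₀ (Real.sqrt_pos.mpr (by positivity))]
    rw [show (i.1 : ℝ) = Real.sqrt (i.1 * i.1) from (Real.sqrt_mul_self h1'.le).symm]
    rw [show (2:ℝ) = Real.sqrt 4 by
      rw [show (4:ℝ) = 2 ^ 2 by norm_num, Real.sqrt_sq (by norm_num)]]
    rw [← Real.sqrt_mul (by norm_num)]
    apply Real.sqrt_le_sqrt
    rw [Real.sqrt_mul_self h1'.le]
    nlinarith
  calc EE R T K i * i.1 ≤ (C * (ZZ R T i.2 / Real.sqrt (i.1 * i.2))) * i.1 :=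
        mul_le_mul_of_nonneg_right g4 h1'.le
    _ = C * ZZ R T i.2 * (i.1 / Real.sqrt (i.1 * i.2)) := by ring
    _ ≤ C * 4 * 2 := by
        apply mul_le_mul _ h9 (by positivity) (by positivity)
        exact mul_le_mul_of_nonneg_left g5 hC.le

/-- The final numerical bound. -/
lemma final_bound {α θ : ℝ} (h0 : 0 < α) (hθ0 : 0 < θ) (hθ : θ < 1 / 2) (hth : 4 * θ < 1 + α) :
    ∃ δ : ℝ, 0 < δ ∧ ∀ C M0 : ℝ, 0 < C → 0 < M0 → ∃ T0 : ℝ, Real.exp 3 ≤ T0 ∧ ∀ T : ℝ, T0 ≤ T →
      1 ≤ T ^ (2 * θ) ∧ T ^ (2 * θ) ≤ M0 * T ∧ T ^ (-α) ≤ 1 / 4 ∧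
      C * T * (2 * T ^ (-α)) * (1 + Real.log (T ^ (2 * θ))) ^ 3 *
        (1 + (T ^ (2 * θ)) ^ 2 / T) ≤ T ^ (1 - δ) := by
  set δ1 := min α (1 + α - 4 * θ) with hδ1
  have hδ1p : 0 < δ1 := lt_min h0 (by linarith)
  have hδa : δ1 ≤ α := min_le_left _ _
  have hδb : δ1 ≤ 1 + α - 4 * θ := min_le_right _ _
  refine ⟨δ1 / 2, by positivity, fun C M0 hC hM0 => ?_⟩
  set δ := δ1 / 2 with hδ
  have hδp : 0 < δ := by positivity
  set C2 := C * 2 * 8 * 2 * (6 / δ) ^ 3 with hC2
  have hC2p : 0 < C2 := by positivity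
  have ev1 : ∀ᶠ T : ℝ in Filter.atTop, C2 ≤ T ^ (δ / 2) :=
    (tendsto_rpow_atTop (by positivity)).eventually_ge_atTop _
  have ev2 : ∀ᶠ T : ℝ in Filter.atTop, 1 / M0 ≤ T ^ (1 - 2 * θ) :=
    (tendsto_rpow_atTop (by linarith)).eventually_ge_atTop _
  have ev3 : ∀ᶠ T : ℝ in Filter.atTop, 4 ≤ T ^ α :=
    (tendsto_rpow_atTop h0).eventually_ge_atTop _
  obtain ⟨T0, hT0⟩ := Filter.eventually_atTop.1 (ev1.and (ev2.and ev3))
  refine ⟨max T0 (Real.exp 3), le_max_right _ _, fun T hT => ?_⟩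
  obtain ⟨e1, e2, e3⟩ := hT0 T ((le_max_left _ _).trans hT)
  have hTe : Real.exp 3 ≤ T := (le_max_right _ _).trans hT
  have h1T : 1 < T := lt_of_lt_of_le (Real.one_lt_exp_iff.mpr (by norm_num)) hTe
  have hTp : 0 < T := by linarith
  have hL3 : 3 ≤ Real.log T := by rw [Real.le_log_iff_exp_le hTp]; exact hTe
  have hL : 0 < Real.log T := by linarith
  refine ⟨Real.one_le_rpow h1T.le (by linarith), ?_, ?_, ?_⟩
  · have h1 : T = T ^ (2 * θ) * T ^ (1 - 2 * θ) := by
      rw [← Real.rpow_add hTp]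
      simp
    have h2 : 1 ≤ M0 * T ^ (1 - 2 * θ) := by
      rw [div_le_iff₀ hM0] at e2
      linarith
    have h3 : 0 ≤ T ^ (2 * θ) := by positivity
    calc T ^ (2 * θ) = T ^ (2 * θ) * 1 := by ring
      _ ≤ T ^ (2 * θ) * (M0 * T ^ (1 - 2 * θ)) := mul_le_mul_of_nonneg_left h2 h3
      _ = M0 * (T ^ (2 * θ) * T ^ (1 - 2 * θ)) := by ring
      _ = M0 * T := by rw [← h1]
  · rw [Real.rpow_neg hTp.le, inv_eq_one_div]
    exact one_div_le_one_div_of_le (by norm_num) e3
  · have hlogX : Real.log (T ^ (2 * θ)) = 2 * θ * Real.log T := Real.log_rpow hTp _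
    have g1 : 1 + Real.log (T ^ (2 * θ)) ≤ 2 * Real.log T := by
      rw [hlogX]
      nlinarith
    have g0 : 0 ≤ 1 + Real.log (T ^ (2 * θ)) := by
      rw [hlogX]
      positivity
    have g2 : (1 + Real.log (T ^ (2 * θ))) ^ 3 ≤ 8 * Real.log T ^ 3 := by
      calc _ ≤ (2 * Real.log T) ^ 3 := pow_le_pow_left₀ g0 g1 3
        _ = _ := by ring
    have g3 : Real.log T ^ 3 ≤ (6 / δ) ^ 3 * T ^ (δ / 2) := by
      have h1 := Real.log_le_rpow_div hTp.le (show 0 < δ / 6 by positivity)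
      calc Real.log T ^ 3 ≤ (T ^ (δ / 6) / (δ / 6)) ^ 3 := pow_le_pow_left₀ hL.le h1 3
        _ = (6 / δ) ^ 3 * (T ^ (δ / 6)) ^ 3 := by
            field_simp
        _ = _ := by
            congr 1
            rw [← Real.rpow_natCast (T ^ (δ / 6)) 3, ← Real.rpow_mul hTp.le]
            congr 1
            push_cast
            ring
    have g4 : T * T ^ (-α) * (1 + (T ^ (2 * θ)) ^ 2 / T) ≤ 2 * T ^ (1 - 2 * δ) := by
      have h1 : T * T ^ (-α) = T ^ (1 - α) := by
        rw [show (1:ℝ) - α = 1 + -α by ring, Real.rpow_add hTp, Real.rpow_one]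
      have h2 : T * T ^ (-α) * ((T ^ (2 * θ)) ^ 2 / T) = T ^ (4 * θ - α) := by
        rw [← Real.rpow_natCast (T ^ (2 * θ)) 2, ← Real.rpow_mul hTp.le,
          show 4 * θ - α = 2 * θ * ((2:ℕ):ℝ) + -α by push_cast; ring, Real.rpow_add hTp]
        field_simp
      rw [mul_add, mul_one, h2, h1]
      have h3 : T ^ (1 - α) ≤ T ^ (1 - 2 * δ) :=
        Real.rpow_le_rpow_of_exponent_le h1T.le (by rw [hδ]; linarith)
      have h4 : T ^ (4 * θ - α) ≤ T ^ (1 - 2 * δ) :=
        Real.rpow_le_rpow_of_exponent_le h1T.le (by rw [hδ]; linarith)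
      linarith
    have hXT : 0 ≤ T * T ^ (-α) * (1 + (T ^ (2 * θ)) ^ 2 / T) := by positivity
    calc C * T * (2 * T ^ (-α)) * (1 + Real.log (T ^ (2 * θ))) ^ 3 * (1 + (T ^ (2 * θ)) ^ 2 / T) =
          C * 2 * (1 + Real.log (T ^ (2 * θ))) ^ 3 *
            (T * T ^ (-α) * (1 + (T ^ (2 * θ)) ^ 2 / T)) := by ring
      _ ≤ C * 2 * (8 * ((6 / δ) ^ 3 * T ^ (δ / 2))) * (2 * T ^ (1 - 2 * δ)) := by
          apply mul_le_mul _ g4 hXT (by positivity)
          apply mul_le_mul_of_nonneg_left _ (by positivity)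
          exact g2.trans (mul_le_mul_of_nonneg_left g3 (by norm_num))
      _ = C2 * (T ^ (δ / 2) * T ^ (1 - 2 * δ)) := by rw [hC2]; ring
      _ ≤ T ^ (δ / 2) * (T ^ (δ / 2) * T ^ (1 - 2 * δ)) :=
          mul_le_mul_of_nonneg_right e1 (by positivity)
      _ = T ^ (1 - δ) := by
          rw [← Real.rpow_add hTp, ← Real.rpow_add hTp]
          congr 1
          ring

/-- The mean square of the off-diagonal part. -/
theorem exists_var_near (R : ResData) (hF : ∀ x, 0 ≤ x → R.F x ≤ 1) {α : ℝ} (h0 : 0 < α)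
    (hth : 4 * R.th < 1 + α) : ∃ δ : ℝ, 0 < δ ∧ ∀ C : ℝ, 0 < C → ∃ T0 : ℝ, Real.exp 3 ≤ T0 ∧
      ∀ T : ℝ, T0 ≤ T → ∀ k : ℕ → ℝ, (∀ n, |k n| ≤ C * kb T n) →
        ∫ t0 in T..(2 * T), (OD R k (T ^ α * Real.log T) T t0) ^ 2 ≤ T ^ (1 - δ) := by
  classical
  have hth0 : 0 < R.th := by linarith [R.ep_pos, R.ep_th]
  obtain ⟨δ, hδ, hfin⟩ := final_bound h0 hth0 R.th_lt hth
  obtain ⟨Cn, M0, hCn, hM0, hnear⟩ := near_ms
  obtain ⟨C1, hC1, hcoef⟩ := exists_coef R hF
  refine ⟨δ, hδ, fun C hC => ?_⟩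
  obtain ⟨T0, hT0, hb⟩ := hfin (Cn * (C * C1) ^ 2) M0 (by positivity) hM0
  refine ⟨T0, hT0, fun T hT k hk => ?_⟩
  obtain ⟨b1, b2, b3, b4⟩ := hb T hT
  have hTe : Real.exp 3 ≤ T := hT0.trans hT
  have h1T : 1 < T := lt_of_lt_of_le (Real.one_lt_exp_iff.mpr (by norm_num)) hTe
  have hTp : 0 < T := by linarith
  have hL : 0 < Real.log T := Real.log_pos h1T
  have hTa : 0 < T ^ α := Real.rpow_pos_of_pos hTp α
  set K := T ^ α * Real.log T with hK
  have hKp : 0 < K := mul_pos hTa hL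
  have hLK : Real.log T / K = T ^ (-α) := by
    rw [hK, Real.rpow_neg hTp.le]
    field_simp
  -- the coefficients
  have hocn : ∀ x, oc R k K T x ≠ 0 → lam x.1 x.2.1 x.2.2 ≠ 0 ∧
      |lam x.1 x.2.1 x.2.2| ≤ Real.log T / K ∧ al R T x.2.1 ≠ 0 ∧ al R T x.2.2 ≠ 0 := by
    intro x hx
    unfold oc at hx
    split_ifs at hx with hl
    · exact absurd rfl hx
    · have hW := right_ne_zero_of_mul hx
      have hal := right_ne_zero_of_mul (left_ne_zero_of_mul hx)
      refine ⟨hl, ?_, left_ne_zero_of_mul hal, right_ne_zero_of_mul hal⟩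
      by_contra hcon
      apply hW
      apply Wh_eq_zero
      rw [abs_mul, abs_of_pos (by positivity : 0 < K / Real.log T)]
      have h2 := not_le.mp hcon
      rw [div_lt_iff₀ hKp] at h2
      rw [div_mul_eq_mul_div, le_div_iff₀ hL]
      linarith
  have hocu : ∀ x, |oc R k K T x| ≤ C * ux R T K x := by
    intro x
    by_cases hx : oc R k K T x = 0
    · rw [hx, abs_zero]
      exact mul_nonneg hC.le (ux_nonneg h1T x)
    · obtain ⟨h1, h2, -, -⟩ := hocn x hx
      unfold ux oc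
      rw [if_neg h1, if_pos ⟨h1, h2⟩, abs_mul, abs_mul, abs_mul]
      have h3 := abs_Wh_le (K / Real.log T * lam x.1 x.2.1 x.2.2)
      have h4 := hk x.1
      calc |k x.1| * (|al R T x.2.1| * |al R T x.2.2|) *
            |Wh (K / Real.log T * lam x.1 x.2.1 x.2.2)| ≤
            |k x.1| * (|al R T x.2.1| * |al R T x.2.2|) * 1 := by gcongr
        _ ≤ (C * kb T x.1) * (|al R T x.2.1| * |al R T x.2.2|) * 1 := by gcongr
        _ = _ := by ring
  -- grouping by the reduced ratio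
  set d : ℕ × ℕ → ℝ := fun i =>
    ∑ x ∈ (SX T).filter (fun x => red (An x) (Bn x) = i), oc R k K T x with hd
  have hdE : ∀ i, |d i| ≤ C * EE R T K i := by
    intro i
    simp only [hd]
    refine (abs_sum_le_sum_abs _ _).trans ?_
    unfold EE
    rw [mul_sum]
    exact sum_le_sum fun x _ => hocu x
  set F : Finset (ℕ × ℕ) := ((SX T).image (fun x => red (An x) (Bn x))).filter
    (fun i => d i ≠ 0) with hFdef
  have hOD : ∀ t : ℝ, OD R k K T t = ∑ i ∈ F, d i * Real.cos (t * Real.log (i.2 / i.1)) := by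
    intro t
    rw [OD_eq R k t hKp h1T, hFdef, sum_filter]
    rw [← sum_fiberwise_of_maps_to (s := SX T) (t := (SX T).image (fun x => red (An x) (Bn x)))
      (g := fun x => red (An x) (Bn x)) (fun x hx => mem_image_of_mem _ hx)]
    refine sum_congr rfl fun i _ => ?_
    have e1 : ∑ x ∈ (SX T).filter (fun x => red (An x) (Bn x) = i), oc R k K T x *
        Real.cos (t * lam x.1 x.2.1 x.2.2) = d i * Real.cos (t * Real.log (i.2 / i.1)) := by
      simp only [hd]
      rw [sum_mul]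
      refine sum_congr rfl fun x hx => ?_
      obtain ⟨hxS, hxi⟩ := mem_filter.mp hx
      obtain ⟨pA, pB⟩ := AB_pos hxS
      have hp := red_pos pA pB
      have hr := red_log pA pB
      rw [hxi] at hp hr
      have h1' : (0:ℝ) < i.1 := by exact_mod_cast hp.1
      have h2' : (0:ℝ) < i.2 := by exact_mod_cast hp.2
      rw [lam_eq hxS, ← hr, Real.log_div h2'.ne' h1'.ne']
      rw [← Real.cos_neg (t * (Real.log i.1 - Real.log i.2))]
      congr 2
      ring
    rw [e1]
    split_ifs with h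
    · rfl
    · rw [not_not] at h
      rw [h, zero_mul]
  have hmain := hnear T (T ^ (2 * R.th)) (2 * T ^ (-α)) (C * C1) b1 b2 (by positivity)
    (by linarith) (by positivity) F (fun i => ((d i : ℝ) : ℂ)) (by
      intro i hi
      obtain ⟨himg, hdi⟩ := mem_filter.mp hi
      have hEi : EE R T K i ≠ 0 := by
        intro h
        have := hdE i
        rw [h, mul_zero] at this
        exact hdi (abs_eq_zero.mp (le_antisymm this (abs_nonneg _)))
      obtain ⟨x, hx, hox⟩ := exists_ne_zero_of_sum_ne_zero hdi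
      obtain ⟨hxS, hxi⟩ := mem_filter.mp hx
      obtain ⟨hl1, hl2, ha1, ha2⟩ := hocn x hox
      obtain ⟨pA, pB⟩ := AB_pos hxS
      obtain ⟨m0, m1, m2⟩ := mem_SX.mp hxS
      have hp := red_pos pA pB
      have hr := red_log pA pB
      have hle := red_fst_le (A := An x) (B := Bn x)
      have hll := lam_eq hxS
      rw [hxi] at hp hr hle
      rw [← hll] at hr
      have h1' : (0:ℝ) < i.1 := by exact_mod_cast hp.1
      refine ⟨hp.1, ?_, ?_, ?_, ?_⟩
      · have h3 : (i.1 : ℝ) ≤ (An x : ℕ) := by exact_mod_cast hle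
        refine h3.trans ?_
        have h4 := SepAux.num_log_le h1T m1 m2 ha1 ha2
        have h5 : (0:ℝ) < (An x : ℕ) := by exact_mod_cast pA
        rw [Real.rpow_def_of_pos hTp, ← Real.log_le_iff_le_exp h5]
        refine le_trans (le_of_eq ?_) (h4.trans (le_of_eq (by ring)))
        rfl
      · intro heq
        apply hl1
        rw [← hr, heq, sub_self]
      · have h3 := abs_sub_le_of_log hp.1 hp.2 (e := T ^ (-α)) (by positivity) (by linarith)
          (by rw [hr]; exact hl2.trans (le_of_eq hLK))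
        exact h3
      · rw [Complex.norm_real, Real.norm_eq_abs]
        calc |d i| * i.1 ≤ (C * EE R T K i) * i.1 := mul_le_mul_of_nonneg_right (hdE i) h1'.le
          _ = C * (EE R T K i * i.1) := by ring
          _ ≤ C * C1 := mul_le_mul_of_nonneg_left
              (hcoef T hTe K hKp (by rw [hLK]; linarith) i hEi) hC.le)
  refine le_trans ?_ (hmain.trans (le_trans (le_of_eq ?_) b4))
  · have hcont : Continuous (fun t : ℝ => ‖∑ p ∈ F, ((d p : ℝ) : ℂ) *
        Complex.exp (-((t * Real.log (p.2 / p.1) : ℝ) : ℂ) * Complex.I)‖ ^ 2) := by fun_prop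
    have hc2 := OD_continuous R k hKp h1T
    calc ∫ t0 in T..(2 * T), (OD R k K T t0) ^ 2 ≤ ∫ t in T..(2 * T), ‖∑ p ∈ F, ((d p : ℝ) : ℂ) *
          Complex.exp (-((t * Real.log (p.2 / p.1) : ℝ) : ℂ) * Complex.I)‖ ^ 2 := by
          apply intervalIntegral.integral_mono_on (by linarith)
          · exact (hc2.pow 2).intervalIntegrable _ _
          · exact hcont.intervalIntegrable _ _
          · intro t _
            have hre : (∑ p ∈ F, ((d p : ℝ) : ℂ) *
                Complex.exp (-((t * Real.log (p.2 / p.1) : ℝ) : ℂ) * Complex.I)).re =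
                OD R k K T t := by
              rw [hOD, Complex.re_sum]
              refine sum_congr rfl fun p _ => ?_
              rw [← Complex.ofReal_neg, Complex.re_ofReal_mul, Complex.exp_ofReal_mul_I_re,
                Real.cos_neg]
            rw [← hre, ← sq_abs]
            exact pow_le_pow_left₀ (abs_nonneg _) (Complex.abs_re_le_norm _) 2
      _ ≤ _ := by
          apply intervalIntegral.integral_mono_interval (by linarith) (by linarith) (by linarith)
          · exact Filter.Eventually.of_forall fun t => by positivity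
          · exact hcont.intervalIntegrable _ _
  · ring

end Pool.Agent.ZShort
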