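import Pool.Agent.ZShort.Win
import Pool.Agent.ZShort.Diag
import Pool.Agent.ZShort.Tail
import Pool.Agent.ZGap.PS.Box
import Pool.Agent.TypBlk.GoodV

/-!
# Centres of void windows have positive density in every window of length `T ^ α`
-/

open scoped ContDiff

namespace Pool.Agent.ZShort

open MeasureTheory Real Set Pool.Agent.ZGap.Res Pool.Agent.TypBlk Pool.Agent.Hadamard
open Pool.Agent.ZetaGaps

/-- The weight minus the weighted count is at most the weight of the void set plus the tail. -/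
lemma int_le_void {V N : ℝ → ℝ} (hV : ∀ t, 0 ≤ V t) (hN : ∀ t, 0 ≤ N t) (hVi : Integrable V)
    (hVN : Integrable fun t => V t * N t) {t0 r : ℝ} {E : Set ℝ} (hE : MeasurableSet E)
    (h1 : ∀ t, |t - t0| ≤ r → t ∉ E → 1 ≤ N t) :
    (∫ t, V t) - (∫ t, V t * N t) ≤ (∫ t in E, V t) +
      ∫ t in {t : ℝ | r < |t - t0|}, V t * (1 + N t) := by
  have hm : MeasurableSet {t : ℝ | r < |t - t0|} :=
    (isOpen_lt continuous_const (by fun_prop)).measurableSet
  have hi : Integrable fun t => V t * (1 + N t) := by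
    have := hVi.add hVN
    refine this.congr (Filter.Eventually.of_forall fun t => ?_)
    simp only [Pi.add_apply]
    ring
  rw [← integral_sub hVi hVN, ← integral_indicator hm, ← integral_indicator hE,
    ← integral_add (hVi.indicator hE) (hi.indicator hm)]
  refine integral_mono (hVi.sub hVN) ((hVi.indicator hE).add (hi.indicator hm)) fun t => ?_
  simp only
  have hVN0 := mul_nonneg (hV t) (hN t)
  have hV0 := hV t
  by_cases ht : r < |t - t0|
  · rw [indicator_of_mem (show t ∈ {t : ℝ | r < |t - t0|} from ht)]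
    have h2 : 0 ≤ E.indicator V t := indicator_nonneg (fun x _ => hV x) t
    nlinarith
  · rw [indicator_of_notMem (show t ∉ {t : ℝ | r < |t - t0|} from ht), add_zero]
    by_cases htE : t ∈ E
    · rw [indicator_of_mem htE]
      linarith
    · rw [indicator_of_notMem htE]
      have h2 := mul_le_mul_of_nonneg_left (h1 t (not_lt.mp ht) htE) hV0
      linarith

/-- The weights of all centres together are at most the mass of the set. -/
lemma centre_mass {a : ℝ} (ha : 0 < a) {G : ℝ → ℝ} (hGc : Continuous G) (hG0 : ∀ t, 0 ≤ G t)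
    {E Gs : Set ℝ} (hEb : Bornology.IsBounded E) (hGs : MeasurableSet Gs)
    {m : ℝ} (hm : 0 ≤ m)
    (h : ∀ t0 ∈ Gs, m ≤ ∫ t in E, a * WW ((t - t0) * a) * G t) :
    m * volume.real Gs ≤ ∫ t in E, G t := by
  have hWc := WW_continuous
  obtain ⟨x, y, hxy⟩ : ∃ x y : ℝ, E ⊆ Icc x y := by
    obtain ⟨r, hr⟩ := hEb.subset_closedBall 0
    refine ⟨-r, r, fun t ht => ?_⟩
    have := hr ht
    rw [Real.closedBall_eq_Icc] at this
    simpa using this
  have hGi : IntegrableOn G E := hGc.integrableOn_Icc.mono_set hxy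
  have h1 : ∀ t0 ∈ Gs, ENNReal.ofReal m ≤ ∫⁻ t in E, TailAux.FF a G univ t0 t := by
    intro t0 ht0
    have h2 := ENNReal.ofReal_le_ofReal (h t0 ht0)
    refine h2.trans (le_of_eq ?_)
    have hc : Continuous fun t => a * WW ((t - t0) * a) * G t := by fun_prop
    have hi : IntegrableOn (fun t => a * WW ((t - t0) * a) * G t) E :=
      hc.integrableOn_Icc.mono_set hxy
    rw [ofReal_integral_eq_lintegral_ofReal hi (Filter.Eventually.of_forall fun t => ?_)]
    · refine lintegral_congr fun t => ?_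
      rw [TailAux.FF_eq, indicator_of_mem]
      exact mem_univ _
    · have := WW_nonneg ((t - t0) * a)
      have := hG0 t
      simp only [Pi.zero_apply]
      positivity
  have h3 : ENNReal.ofReal m * volume Gs ≤ ∫⁻ t0 in Gs, ∫⁻ t in E, TailAux.FF a G univ t0 t := by
    calc ENNReal.ofReal m * volume Gs = ∫⁻ t0 in Gs, ENNReal.ofReal m := by
          rw [setLIntegral_const]
      _ ≤ _ := setLIntegral_mono' hGs h1
  have h4 : (∫⁻ t0 in Gs, ∫⁻ t in E, TailAux.FF a G univ t0 t) ≤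
      ENNReal.ofReal (∫ t in E, G t) := by
    rw [lintegral_lintegral_swap (TailAux.FF_measurable hGc MeasurableSet.univ).aemeasurable]
    calc ∫⁻ t in E, ∫⁻ t0 in Gs, TailAux.FF a G univ t0 t ≤
        ∫⁻ t in E, ENNReal.ofReal (G t) := by
          apply lintegral_mono
          intro t
          refine (setLIntegral_le_lintegral _ _).trans ?_
          rw [TailAux.lintegral_centre ha hG0 MeasurableSet.univ]
          calc ENNReal.ofReal (G t) * ∫⁻ s in univ, ENNReal.ofReal (WW s) ≤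
              ENNReal.ofReal (G t) * ENNReal.ofReal 1 := mul_le_mul' le_rfl TailAux.WW_mass
            _ = _ := by rw [ENNReal.ofReal_one, mul_one]
      _ = _ := (ofReal_integral_eq_lintegral_ofReal hGi (Filter.Eventually.of_forall hG0)).symm
  have h5 := ENNReal.toReal_mono ENNReal.ofReal_ne_top (h3.trans h4)
  rw [ENNReal.toReal_mul, ENNReal.toReal_ofReal hm,
    ENNReal.toReal_ofReal (integral_nonneg hG0)] at h5
  exact h5

/-- The Cauchy-Schwarz step with the fourth moment. -/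
lemma cs_step {R : ResData} {T y H B μ : ℝ} (hH : 0 ≤ H) (hμ : 0 < μ) {E : Set ℝ}
    (hEI : E ⊆ Icc y (y + H))
    (hf : ∫ t in y..(y + H), ‖Amp R T t‖ ^ 4 ≤ B) :
    ∫ t in E, ‖Amp R T t‖ ^ 2 ≤ μ / 2 * B + 1 / (2 * μ) * volume.real E := by
  have hAc := Amp_continuous R T
  have hEfin : volume E ≠ ⊤ := by
    refine ne_top_of_le_ne_top ?_ (measure_mono hEI)
    rw [Real.volume_Icc]; exact ENNReal.ofReal_ne_top
  rw [intervalIntegral.integral_of_le (by linarith), ← integral_Icc_eq_integral_Ioc] at hf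
  have hi4 : IntegrableOn (fun t => ‖Amp R T t‖ ^ 4) (Icc y (y + H)) :=
    (by fun_prop : Continuous fun t => ‖Amp R T t‖ ^ 4).integrableOn_Icc
  have hi2 : IntegrableOn (fun t => ‖Amp R T t‖ ^ 2) E :=
    (by fun_prop : Continuous fun t => ‖Amp R T t‖ ^ 2).integrableOn_Icc.mono_set hEI
  have hi4E := hi4.mono_set hEI
  have hic : IntegrableOn (fun _ : ℝ => 1 / (2 * μ)) E := integrableOn_const hEfin
  calc ∫ t in E, ‖Amp R T t‖ ^ 2 ≤ ∫ t in E, (μ / 2 * ‖Amp R T t‖ ^ 4 + 1 / (2 * μ)) := by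
        refine integral_mono hi2 ((hi4E.const_mul _).add hic) fun t => ?_
        have h3 : 0 ≤ (μ * ‖Amp R T t‖ ^ 2 - 1) ^ 2 / (2 * μ) := by positivity
        have h4 : (μ * ‖Amp R T t‖ ^ 2 - 1) ^ 2 / (2 * μ) =
            μ / 2 * ‖Amp R T t‖ ^ 4 + 1 / (2 * μ) - ‖Amp R T t‖ ^ 2 := by
          field_simp
          ring
        simp only
        linarith
    _ = μ / 2 * (∫ t in E, ‖Amp R T t‖ ^ 4) + 1 / (2 * μ) * volume.real E := by
        rw [integral_add (hi4E.const_mul _) hic, integral_const_mul, setIntegral_const,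
          smul_eq_mul, mul_comm (volume.real E)]
    _ ≤ μ / 2 * (∫ t in Icc y (y + H), ‖Amp R T t‖ ^ 4) + 1 / (2 * μ) * volume.real E := by
        have h5 : ∫ t in E, ‖Amp R T t‖ ^ 4 ≤ ∫ t in Icc y (y + H), ‖Amp R T t‖ ^ 4 :=
          setIntegral_mono_set hi4 (Filter.Eventually.of_forall fun t => by positivity)
            (Filter.Eventually.of_forall hEI)
        have h6 := mul_le_mul_of_nonneg_left h5 (show 0 ≤ μ / 2 by positivity)
        linarith
    _ ≤ _ := by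
        have h6 := mul_le_mul_of_nonneg_left hf (show 0 ≤ μ / 2 by positivity)
        linarith

/-- **The local inequality**: the weight of the void set is at least the local mean `DT`. -/
theorem exists_local (hRH : RiemannHypothesis) (R : ResData) (hF : ∀ x, 0 ≤ x → R.F x ≤ 1)
    {α a β : ℝ} (h0 : 0 < α) (hαa : α < a) (ha : a ≤ 1) (hb : 2 * R.th < β) (hβ1 : β < 1)
    {c e : ℝ} {ψ : ℝ → ℝ} (hψ : RS ψ)
    (hψ00 : ∀ x, 0 ≤ ψ x) (hψle : ∀ x, ψ x ≤ 1) (hψ1 : ∀ x, |x| ≤ π * c → ψ x = 1)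
    (hψ0 : ∀ x, e ≤ |x| → ψ x = 0) :
    ∃ C T0 : ℝ, 0 < C ∧ Real.exp 3 ≤ T0 ∧ ∀ T : ℝ, T0 ≤ T → ∀ t0 ∈ Icc T (2 * T),
      ∀ E : Set ℝ, MeasurableSet E → (∀ t, |t - t0| ≤ T ^ a / 4 →
        (∀ ρ ∈ ntz, π * c / Real.log T < |ρ.im - t|) → t ∈ E) →
      DT R ψ (T ^ α * Real.log T) T t0 -
        C / Real.log T * (∫ t : ℝ, VL R (T ^ α * Real.log T) T t0 t) - C / T ≤
        ∫ t in E, (Real.log T / (T ^ α * Real.log T)) *
          WW ((t - t0) * (Real.log T / (T ^ α * Real.log T))) * ‖Amp R T t‖ ^ 2 := by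
  have hth0 : 0 < R.th := by linarith [R.ep_pos, R.ep_th]
  set A : ℝ := 1 + e ^ 2 with hA
  have hψA : ∀ x, |ψ x| ≤ A / (1 + x ^ 2) := GoodVAux.psi_bound hψ00 hψle hψ0
  obtain ⟨Cc, Tc, hCc, hTc3, hcnt⟩ := exists_cntS hRH R hF h0 (by linarith) hb
    (by linarith) hβ1 hψ
  obtain ⟨Tw, hTw3, hwin⟩ := exists_winS R hF h0 (by linarith : α < 1) hb
  obtain ⟨Tt, hTt3, htail⟩ := exists_tailS R hF h0 hαa ha hψ00 hψ.continuous hψA
  obtain ⟨C6, hC6, hNCle⟩ := exists_NC_le
  refine ⟨Cc + 1, max Tc (max Tw Tt), by positivity, hTc3.trans (le_max_left _ _),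
    fun T hT t0 ht0 E hEm hE => ?_⟩
  have hTc : Tc ≤ T := (le_max_left _ _).trans hT
  have hTw : Tw ≤ T := (le_max_left _ _).trans ((le_max_right _ _).trans hT)
  have hTt : Tt ≤ T := (le_max_right _ _).trans ((le_max_right _ _).trans hT)
  have hTe : Real.exp 3 ≤ T := hTc3.trans hTc
  have h1T : 1 < T := lt_of_lt_of_le (Real.one_lt_exp_iff.mpr (by norm_num)) hTe
  have hTp : 0 < T := by linarith
  have hL3 : 3 ≤ Real.log T := by rw [Real.le_log_iff_exp_le hTp]; exact hTe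
  have hL1 : 1 ≤ Real.log T := by linarith
  have hL : 0 < Real.log T := by linarith
  obtain ⟨⟨Mw, hWt⟩, -, -⟩ := hwin T hTw t0 ht0
  have hiV : Integrable (VL R (T ^ α * Real.log T) T t0) := hWt.integrable
  have hiVN : Integrable (fun t => VL R (T ^ α * Real.log T) T t0 t * NC ψ T t) := by
    have hcont : Continuous (NC ψ T) := NC_continuous hψ.continuous hψA hL1
    refine hWt.integrable_mul (A := C6 * A * 2) hcont fun t => ?_
    refine (hNCle ψ A T hψA hL1 t).trans ?_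
    have := log_abs_add_two_le t
    have hA0 : 0 ≤ A := by rw [hA]; positivity
    calc C6 * A * Real.log (|t| + 2) ≤ C6 * A * (2 * (1 + t ^ 2)) :=
          mul_le_mul_of_nonneg_left this (by positivity)
      _ = _ := by ring
  have hNCnn : ∀ t, 0 ≤ NC ψ T t := fun t =>
    tsum_nonneg fun ρ => mul_nonneg (Nat.cast_nonneg _) (hψ00 _)
  have hN1 : ∀ t, |t - t0| ≤ T ^ a / 4 → t ∉ E → 1 ≤ NC ψ T t := by
    intro t ht htE
    have h1 : ¬ ∀ ρ ∈ ntz, π * c / Real.log T < |ρ.im - t| := fun h => htE (hE t ht h)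
    push Not at h1
    obtain ⟨ρ, hρ, hρt⟩ := h1
    exact one_le_NC hL1 hψ00 hψA hψ1 hρ hρt
  have h4 := int_le_void hWt.nonneg hNCnn hiV hiVN hEm hN1
  have h5 := (abs_le.mp (hcnt T hTc t0 ht0)).1
  have h6 := htail T hTt t0 ht0
  have h13 : ∫ t in E, VL R (T ^ α * Real.log T) T t0 t =
      ∫ t in E, (Real.log T / (T ^ α * Real.log T)) *
        WW ((t - t0) * (Real.log T / (T ^ α * Real.log T))) * ‖Amp R T t‖ ^ 2 := rfl
  rw [← h13]
  have h14 : 0 ≤ ∫ t : ℝ, VL R (T ^ α * Real.log T) T t0 t := integral_nonneg hWt.nonneg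
  have h15 : (Cc + 1) / Real.log T * (∫ t : ℝ, VL R (T ^ α * Real.log T) T t0 t) =
      Cc / Real.log T * (∫ t : ℝ, VL R (T ^ α * Real.log T) T t0 t) +
        1 / Real.log T * (∫ t : ℝ, VL R (T ^ α * Real.log T) T t0 t) := by ring
  have h16 : 0 ≤ 1 / Real.log T * (∫ t : ℝ, VL R (T ^ α * Real.log T) T t0 t) := by positivity
  have h17 : (Cc + 1) / T = Cc / T + 1 / T := by ring
  linarith

lemma mT_ge_Sig (R : ResData) {c κ : ℝ} {ψ : ℝ → ℝ}
    (hψc : chat ψ 0 / (2 * π) ≤ c + κ / 2) {T : ℝ} (hT : 1 ≤ T)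
    (h : (c - 1 + κ) * Sig R T ≤ (π * Real.log T)⁻¹ *
      ∑ n ∈ Finset.Icc 1 ⌊T⌋₊, ArithmeticFunction.vonMangoldt n / Real.sqrt n *
        chat ψ (Real.log n / Real.log T) * CC R T n) : κ / 2 * Sig R T ≤ mT R ψ T := by
  rw [GoodVAux.mT_eq R ψ hT]
  have hS : 0 ≤ Sig R T := Finset.sum_nonneg fun _ _ => sq_nonneg _
  have h1 : (1 - (c + κ / 2)) * Sig R T ≤ (1 - chat ψ 0 / (2 * π)) * Sig R T :=
    mul_le_mul_of_nonneg_right (by linarith) hS
  have h3 : (1 - (c + κ / 2)) * Sig R T + (c - 1 + κ) * Sig R T = κ / 2 * Sig R T := by ring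
  linarith

/-- **Void windows in short windows**, from the arithmetic inequality. -/
theorem void_pos_of_arith (hRH : RiemannHypothesis) (R : ResData)
    (hF : ∀ x, 0 ≤ x → R.F x ≤ 1) (hF0 : 0 < R.F 0) {c κ e α : ℝ} (hα : 2 * R.th < α)
    (hα1 : α < 1) (hκ : 0 < κ) {ψ : ℝ → ℝ} (hψ : RS ψ)
    (hψ00 : ∀ x, 0 ≤ ψ x) (hψle : ∀ x, ψ x ≤ 1) (hψ1 : ∀ x, |x| ≤ π * c → ψ x = 1)
    (hψ0 : ∀ x, e ≤ |x| → ψ x = 0)
    (hψc : chat ψ 0 / (2 * π) ≤ c + κ / 2) {T1 : ℝ}
    (harith : ∀ T : ℝ, T1 ≤ T → (c - 1 + κ) * Sig R T ≤ (π * Real.log T)⁻¹ *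
      ∑ n ∈ Finset.Icc 1 ⌊T⌋₊, ArithmeticFunction.vonMangoldt n / Real.sqrt n *
        chat ψ (Real.log n / Real.log T) * CC R T n) :
    ∃ c0 T0 : ℝ, 0 < c0 ∧ ∀ T : ℝ, T0 ≤ T → ∀ y H : ℝ, T ≤ y → y + H ≤ 2 * T → T ^ α ≤ H →
      c0 * H ≤ volume.real {t : ℝ | t ∈ Icc y (y + H) ∧
        ∀ ρ ∈ ntz, π * c / Real.log T < |ρ.im - t|} := by
  have hth : 0 < R.th := by linarith [R.ep_th, R.ep_pos]
  have hα0 : 0 < α := by linarith
  -- the exponents
  set a : ℝ := (2 * R.th + 2 * α) / 3 with ha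
  set α' : ℝ := (4 * R.th + α) / 3 with hα'
  have e1 : 2 * R.th < α' := by rw [hα']; linarith
  have e2 : α' < a := by rw [hα', ha]; linarith
  have e3 : a < α := by rw [ha]; linarith
  have hα'0 : 0 < α' := by linarith
  have hα'1 : α' < 1 := by linarith
  set b : ℕ := ⌈1 / α⌉₊ with hb
  have hbα : 1 / α ≤ (b : ℝ) := Nat.le_ceil _
  have hb0 : (0 : ℝ) < b := lt_of_lt_of_le (by positivity) hbα
  have hb1 : 1 ≤ b := Nat.succ_le_of_lt (by exact_mod_cast hb0)
  have hbinv : 1 / (b : ℝ) ≤ α := by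
    rw [div_le_iff₀ hb0]
    rw [div_le_iff₀ hα0] at hbα
    linarith
  obtain ⟨Cc, Tc, hCc, hTc3, hloc⟩ := exists_local hRH R hF hα'0 e2 (by linarith) e1 hα'1 hψ
    hψ00 hψle hψ1 hψ0
  obtain ⟨K1, Tf, hK1, hTf2, hfour⟩ := ShortPos.fourth_moment_short hRH hb1 R
  set s0 : ℝ := R.F 0 ^ 4 with hs0
  have hs0p : 0 < s0 := by positivity
  set m1 : ℝ := κ / 8 * s0 with hm1
  have hm1p : 0 < m1 := by positivity
  set μ : ℝ := m1 / (4 * K1) with hμ
  have hμ0 : 0 < μ := by positivity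
  -- the large parameters
  have hlim1 : ∀ᶠ T : ℝ in Filter.atTop, 2 ≤ T ^ (α' - 2 * R.th) :=
    (tendsto_rpow_atTop (by linarith)).eventually_ge_atTop 2
  obtain ⟨T5, hT5⟩ := Filter.eventually_atTop.mp hlim1
  refine ⟨m1 * μ / 4, max (max T1 Tc) (max (max Tf T5)
    (max (Real.exp (8 * Cc / κ)) (Cc / m1))), by positivity, fun T hT y H hy hyH hH => ?_⟩
  have hT1 : T1 ≤ T := (le_max_left _ _).trans ((le_max_left _ _).trans hT)
  have hTc : Tc ≤ T := (le_max_right _ _).trans ((le_max_left _ _).trans hT)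
  have hTf : Tf ≤ T := (le_max_left _ _).trans ((le_max_left _ _).trans ((le_max_right _ _).trans hT))
  have hT5' : T5 ≤ T := (le_max_right _ _).trans ((le_max_left _ _).trans ((le_max_right _ _).trans hT))
  have hT6 : Real.exp (8 * Cc / κ) ≤ T :=
    (le_max_left _ _).trans ((le_max_right _ _).trans ((le_max_right _ _).trans hT))
  have hT7 : Cc / m1 ≤ T :=
    (le_max_right _ _).trans ((le_max_right _ _).trans ((le_max_right _ _).trans hT))
  have hTe : Real.exp 3 ≤ T := hTc3.trans hTc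
  have h1T : 1 < T := lt_of_lt_of_le (Real.one_lt_exp_iff.mpr (by norm_num)) hTe
  have hTp : 0 < T := by linarith
  have hL3 : 3 ≤ Real.log T := by rw [Real.le_log_iff_exp_le hTp]; exact hTe
  have hL : 0 < Real.log T := by linarith
  have hp1 := hT5 T hT5'
  have hHp : 0 < H := (Real.rpow_pos_of_pos hTp _).trans_le hH
  have haH : T ^ a ≤ H := (Real.rpow_le_rpow_of_exponent_le h1T.le e3.le).trans hH
  have haT : 0 < T ^ a := Real.rpow_pos_of_pos hTp _
  -- the void set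
  set r := π * c / Real.log T with hr
  set E : Set ℝ := {t : ℝ | t ∈ Icc y (y + H) ∧ ∀ ρ ∈ ntz, r < |ρ.im - t|} with hE
  have hEI : E ⊆ Icc y (y + H) := fun t ht => ht.1
  have hEmeas : MeasurableSet E := measurableSet_Icc.inter (measurableSet_void r)
  have hEb : Bornology.IsBounded E := (Metric.isBounded_Icc _ _).subset hEI
  -- the lower bound for every centre
  have hmT : κ / 2 * Sig R T ≤ mT R ψ T := mT_ge_Sig R hψc h1T.le (harith T hT1)
  have hSig : s0 ≤ Sig R T := le_Sig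
  have hcen : ∀ t0 ∈ Icc (y + T ^ a / 4) (y + H - T ^ a / 4),
      m1 ≤ ∫ t in E, (Real.log T / (T ^ α' * Real.log T)) *
        WW ((t - t0) * (Real.log T / (T ^ α' * Real.log T))) * ‖Amp R T t‖ ^ 2 := by
    intro t0 ht0
    have ht0I : t0 ∈ Icc T (2 * T) := ⟨by linarith [ht0.1], by linarith [ht0.2]⟩
    have h4 := hloc T hTc t0 ht0I E hEmeas fun t ht hv => by
      have h2 := abs_le.mp ht
      exact ⟨⟨by linarith [ht0.1, h2.1], by linarith [ht0.2, h2.2]⟩, hv⟩
    rw [DT_eq_mT h1T hp1, int_VL h1T hp1] at h4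
    have h9 : Cc / Real.log T * Sig R T ≤ κ / 8 * Sig R T := by
      apply mul_le_mul_of_nonneg_right _ (by linarith)
      have h10 : 8 * Cc / κ ≤ Real.log T := by
        rw [Real.le_log_iff_exp_le hTp]; exact hT6
      rw [div_le_iff₀ hκ] at h10
      rw [div_le_iff₀ hL]
      linarith
    have h11 : Cc / T ≤ m1 := by
      rw [div_le_iff₀ hTp]
      rwa [div_le_iff₀ hm1p, mul_comm] at hT7
    have h12 : κ / 8 * s0 ≤ κ / 8 * Sig R T := mul_le_mul_of_nonneg_left hSig (by positivity)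
    refine le_trans ?_ h4
    linarith
  have hAc := Amp_continuous R T
  have hcm := centre_mass (a := Real.log T / (T ^ α' * Real.log T)) (by positivity)
    (G := fun t => ‖Amp R T t‖ ^ 2) (by fun_prop) (fun t => by positivity) hEb
    measurableSet_Icc hm1p.le hcen
  rw [Real.volume_real_Icc_of_le (by linarith)] at hcm
  -- the fourth moment
  have hf := hfour T hTf y H (by linarith) (by linarith)
    ((Real.rpow_le_rpow_of_exponent_le h1T.le hbinv).trans hH) 0
  simp only [sub_zero, abs_zero, add_zero, one_pow, mul_one] at hf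
  have hup := cs_step hHp.le hμ0 hEI hf
  have hlow : m1 * (H / 2) ≤ ∫ t in E, ‖Amp R T t‖ ^ 2 := by
    refine le_trans ?_ hcm
    gcongr
    linarith
  have e5 : μ / 2 * (K1 * H) = m1 * H / 8 := by
    rw [hμ]
    field_simp
    ring
  have h20 : m1 * H / 8 ≤ 1 / (2 * μ) * volume.real E := by
    have : 0 ≤ m1 * H := by positivity
    linarith
  have h21 : 2 * μ * (m1 * H / 8) ≤ 2 * μ * (1 / (2 * μ) * volume.real E) :=
    mul_le_mul_of_nonneg_left h20 (by positivity)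
  have h22 : 2 * μ * (1 / (2 * μ) * volume.real E) = volume.real E := by field_simp
  rw [h22] at h21
  calc m1 * μ / 4 * H = 2 * μ * (m1 * H / 8) := by ring
    _ ≤ _ := h21

/-- **Void windows in short windows**, given the numerical inequality. -/
theorem void_pos_of_num (hRH : RiemannHypothesis) {r θ c a' b' α : ℝ} {m : ℕ} (hm : m ≠ 0)
    (hθ : 0 < θ) (hα : 2 * θ < α) (hα1 : α < 1) (hc1 : 1 ≤ c) (ha : 0 ≤ a') (hb : 0 ≤ b')
    (hab : a' + b' ≤ 1) (h0 : 0 < a' + b') (hr : 0 ≤ r)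
    (hgap : |c - 1| * Den a' b' (r ^ 2) <
      2 / Real.pi * (|r| * Num (Real.pi * c * θ) a' b' (r ^ 2) m)) :
    ∃ c0 T0 : ℝ, 0 < c0 ∧ ∀ T : ℝ, T0 ≤ T → ∀ y H : ℝ, T ≤ y → y + H ≤ 2 * T → T ^ α ≤ H →
      c0 * H ≤ volume.real {t : ℝ | t ∈ Icc y (y + H) ∧
        ∀ ρ ∈ ntz, π * c / Real.log T < |ρ.im - t|} := by
  have hpi := Real.pi_pos
  have hc : 0 < c := by linarith
  have hθ' : θ < 1 / 2 := by linarith
  obtain ⟨κ, hκ, e, he, main⟩ := arith_sum hm hθ hθ'.le hc.le ha hb hab h0 hgap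
  set ep := min e (θ / 4) with hep
  have hep0 : 0 < ep := lt_min he (by linarith)
  have hep1 : ep ≤ θ / 4 := min_le_right _ _
  set δ := min e (1 / 2) with hδ
  have hδ0 : 0 < δ := lt_min he (by norm_num)
  obtain ⟨R, hRth, hRep, hRr, hLP⟩ := exists_linProf (th := θ) (ep := ep) (δ := δ) r hep0
    (by linarith) hθ' ha hb hab hδ0 (min_le_right _ _)
  set e' := min e (π * κ) with he'
  have he'0 : 0 < e' := lt_min he (by positivity)
  obtain ⟨ψ, hψ, hψ00, hψle, hψ1, hψ0, ⟨K, M, hK, hlip, hbd⟩, hclose⟩ := exists_majorant hc he'0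
  obtain ⟨T1, hT1, harith⟩ := main R hRr hRth (by rw [hRep]; exact min_le_left _ _) δ
    (min_le_left _ _) hLP (chat ψ) K M e' 1 hK hlip hbd he'0.le (min_le_left _ _)
    (fun x _ _ => hclose x) (by norm_num) (by rw [abs_of_nonneg hr]; ring)
  have hF : ∀ x, 0 ≤ x → R.F x ≤ 1 := fun x hx => hLP.F_le_one hx
  have hF0 : 0 < R.F 0 := by
    rw [hLP.eq 0 le_rfl (by linarith [hLP.hδ'])]
    linarith
  have hψc : chat ψ 0 / (2 * π) ≤ c + κ / 2 := by
    have h1 := (abs_le.mp (hclose 0)).2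
    have h2 : k0 c 0 = 2 * (π * c) := by unfold k0; simp
    have h3 : e' ≤ π * κ := min_le_right _ _
    rw [div_le_iff₀ (by positivity)]
    rw [h2] at h1
    linarith only [h1, h3]
  exact void_pos_of_arith hRH R hF hF0 (by rw [hRth]; exact hα) hα1 hκ hψ hψ00 hψle hψ1 hψ0 hψc
    (T1 := T1) (fun T hT => by
      have h1 := harith T hT ⌊T⌋₊ le_rfl
      rw [abs_of_nonneg (by linarith)] at h1
      linarith)

end Pool.Agent.ZShort
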