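import Pool.Agent.ZetaGaps.Void
import Pool.Agent.ZetaGaps.RvMCount

/-!
# From a void of the zeros in a short interval to a large gap
-/

set_option autoImplicit false

namespace Pool.Agent.ZShort

open Filter Pool.Agent.ZetaGaps

/-- `b log b - a log a ≥ (b - a) log a`. -/
lemma mul_log_sub_ge {a b : ℝ} (ha : 0 < a) (hab : a ≤ b) :
    (b - a) * Real.log a ≤ b * Real.log b - a * Real.log a := by
  have hb : 0 < b := lt_of_lt_of_le ha hab
  have h1 : Real.log a ≤ Real.log b := Real.log_le_log ha hab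
  nlinarith [mul_nonneg hb.le (sub_nonneg.2 h1)]

/-- every interval of length `T ^ a / 5` near `T` contains a zero -/
lemma zeroCount_lt {a : ℝ} (ha : 0 < a) (ha1 : a ≤ 1) : ∃ T0 : ℝ, 1 ≤ T0 ∧ ∀ T : ℝ, T0 ≤ T →
    ∀ S : ℝ, T ≤ S → S ≤ 2 * T → zeroCount S < zeroCount (S + T ^ a / 5) := by
  obtain ⟨C, hC, hN⟩ := zeroCount_asymp
  have hpi := Real.pi_pos
  have hpi3 := Real.pi_gt_three
  obtain ⟨E, hE⟩ : ∃ E : ℝ, E = 2 * Real.pi * Real.exp 1 := ⟨_, rfl⟩
  have hE0 : 0 < E := by
    rw [hE]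
    positivity
  have ev1 : ∀ᶠ T : ℝ in atTop, 2 * Real.log E ≤ Real.log T :=
    Real.tendsto_log_atTop.eventually_ge_atTop _
  have ev2 : ∀ᶠ T : ℝ in atTop, 20 * Real.pi * (4 * C) + 1 ≤ T ^ a :=
    (tendsto_rpow_atTop ha).eventually_ge_atTop _
  obtain ⟨T0, hT0⟩ := eventually_atTop.1 (ev1.and (ev2.and (eventually_ge_atTop (max 3 E))))
  refine ⟨max T0 3, le_max_of_le_right (by norm_num), fun T hT S hS1 hS2 => ?_⟩
  obtain ⟨h1, h2, h3⟩ := hT0 T ((le_max_left _ _).trans hT)
  have hT3 : 3 ≤ T := (le_max_left _ _).trans h3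
  have hTpos : 0 < T := by linarith
  have hTa0 : 0 < T ^ a := Real.rpow_pos_of_pos hTpos a
  have hTa : T ^ a ≤ T := by
    calc T ^ a ≤ T ^ (1:ℝ) := Real.rpow_le_rpow_of_exponent_le (by linarith) ha1
      _ = T := Real.rpow_one T
  obtain ⟨U, hU⟩ : ∃ U : ℝ, U = S + T ^ a / 5 := ⟨_, rfl⟩
  rw [← hU]
  have hSU : S ≤ U := by
    rw [hU]
    linarith
  have hU3 : U ≤ 3 * T := by
    rw [hU]
    linarith
  have hS0 : 0 < S := by linarith
  have hU0 : 0 < U := by linarith
  have hlT : 1 ≤ Real.log T := by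
    rw [Real.le_log_iff_exp_le hTpos]
    have := Real.exp_one_lt_d9
    linarith
  have hlog3 : ∀ V : ℝ, 0 < V → V ≤ 3 * T → Real.log V ≤ 2 * Real.log T := by
    intro V hV hV3
    calc Real.log V ≤ Real.log (T * T) := Real.log_le_log hV (by nlinarith)
      _ = 2 * Real.log T := by rw [Real.log_mul hTpos.ne' hTpos.ne']; ring
  have hS := abs_le.1 (hN S (by linarith))
  have hU' := abs_le.1 (hN U (by linarith))
  have hlS := hlog3 S hS0 (by linarith)
  have hlU := hlog3 U hU0 hU3
  rw [← hE, Real.log_div hS0.ne' hE0.ne'] at hS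
  rw [← hE, Real.log_div hU0.ne' hE0.ne'] at hU'
  have hlTS : Real.log T ≤ Real.log S := Real.log_le_log hTpos hS1
  have h4 := mul_log_sub_ge hS0 hSU
  have h5 : (T ^ a / 5) * (Real.log T / 2) ≤
      U * (Real.log U - Real.log E) - S * (Real.log S - Real.log E) := by
    have h6 : U - S = T ^ a / 5 := by
      rw [hU]
      ring
    have h7 : (T ^ a / 5) * (Real.log T / 2) ≤ (T ^ a / 5) * (Real.log S - Real.log E) :=
      mul_le_mul_of_nonneg_left (by linarith) (by positivity)
    rw [h6] at h4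
    have h8 : U = S + T ^ a / 5 := hU
    have h9 : U * Real.log E = S * Real.log E + T ^ a / 5 * Real.log E := by
      rw [h8]
      ring
    linarith
  have h6 : (T ^ a / 5) * (Real.log T / 2) / (2 * Real.pi) ≤
      U / (2 * Real.pi) * (Real.log U - Real.log E) -
        S / (2 * Real.pi) * (Real.log S - Real.log E) := by
    have e : U / (2 * Real.pi) * (Real.log U - Real.log E) -
        S / (2 * Real.pi) * (Real.log S - Real.log E) =
        (U * (Real.log U - Real.log E) - S * (Real.log S - Real.log E)) / (2 * Real.pi) := by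
      ring
    rw [e]
    exact div_le_div_of_nonneg_right h5 (by positivity)
  have h7 : 4 * C * Real.log T < (T ^ a / 5) * (Real.log T / 2) / (2 * Real.pi) := by
    rw [lt_div_iff₀ (by positivity)]
    have h8 : 20 * Real.pi * (4 * C) * Real.log T < T ^ a * Real.log T := by
      apply mul_lt_mul_of_pos_right _ (by linarith)
      linarith
    linarith
  have h8 : C * Real.log S ≤ C * (2 * Real.log T) := mul_le_mul_of_nonneg_left hlS hC.le
  have h9 : C * Real.log U ≤ C * (2 * Real.log T) := mul_le_mul_of_nonneg_left hlU hC.le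
  have h10 : (zeroCount S : ℝ) < zeroCount U := by linarith [hS.2, hU'.1]
  exact_mod_cast h10

/-- A large gap from a void in the middle of `[T, T + T ^ a]`. -/
theorem gap_of_void {c a : ℝ} (hc : 0 < c) (ha : 0 < a) (ha1 : a ≤ 1) : ∃ T0 : ℝ, ∀ T : ℝ,
    T0 ≤ T → ∀ t : ℝ, T + T ^ a / 4 ≤ t → t ≤ T + 3 * T ^ a / 4 →
    (∀ ρ ∈ Pool.Agent.Hadamard.ntz, Real.pi * c / Real.log T < |ρ.im - t|) →
    ∃ n : ℕ, 1 ≤ n ∧ T ≤ ordinate n ∧ ordinate (n + 1) ≤ T + T ^ a ∧ c ≤ gap n := by
  obtain ⟨T0, hT01, h⟩ := zeroCount_lt ha ha1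
  refine ⟨max T0 2, fun T hT t ht1 ht2 hv => ?_⟩
  have hTT0 : T0 ≤ T := (le_max_left _ _).trans hT
  have hT2 : 2 ≤ T := (le_max_right _ _).trans hT
  have hTpos : 0 < T := by linarith
  have hTa0 : 0 < T ^ a := Real.rpow_pos_of_pos hTpos a
  have hTa : T ^ a ≤ T := by
    calc T ^ a ≤ T ^ (1:ℝ) := Real.rpow_le_rpow_of_exponent_le (by linarith) ha1
      _ = T := Real.rpow_one T
  have hL : 0 < Real.log T := Real.log_pos (by linarith)
  have hpi := Real.pi_pos
  have h1 := h T hTT0 T le_rfl (by linarith)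
  have h2 := h T hTT0 t (by linarith) (by linarith)
  have h3 : zeroCount (T + T ^ a / 5) ≤ zeroCount t := zeroCount_mono (by linarith)
  have h4 : zeroCount (t + T ^ a / 5) ≤ zeroCount (T + T ^ a) := zeroCount_mono (by linarith)
  obtain ⟨n, hn⟩ : ∃ n : ℕ, n = zeroCount t := ⟨_, rfl⟩
  have hn1 : 1 ≤ n := by omega
  -- the two ordinates
  have h5 : T < ordinate n := by
    by_contra hcon
    push Not at hcon
    rw [← le_zeroCount_iff (zeroCount_unbounded _) hn1] at hcon
    omega
  have h6 : ordinate (n + 1) ≤ T + T ^ a := by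
    rw [← le_zeroCount_iff (zeroCount_unbounded _) (by omega)]
    omega
  have h7 : ordinate n ≤ t := by
    rw [← le_zeroCount_iff (zeroCount_unbounded _) hn1]
    omega
  have h8 : t < ordinate (n + 1) := by
    by_contra hcon
    push Not at hcon
    rw [← le_zeroCount_iff (zeroCount_unbounded _) (by omega)] at hcon
    omega
  obtain ⟨ρ, hρ, hρi⟩ := exists_zero_ordinate (zeroCount_unbounded n) hn1
  obtain ⟨ρ', hρ', hρi'⟩ := exists_zero_ordinate (zeroCount_unbounded (n + 1)) (by omega)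
  have h9 := hv ρ hρ
  have h10 := hv ρ' hρ'
  rw [hρi, abs_of_nonpos (by linarith)] at h9
  rw [hρi', abs_of_pos (by linarith)] at h10
  refine ⟨n, hn1, h5.le, h6, ?_⟩
  have h11 : 2 * (Real.pi * c / Real.log T) ≤ ordinate (n + 1) - ordinate n := by linarith
  have hop : 0 < ordinate n := by linarith
  have h12 := mul_log_sub_ge hop (by linarith : ordinate n ≤ ordinate (n + 1))
  have h13 : Real.log T ≤ Real.log (ordinate n) := Real.log_le_log hTpos h5.le
  have h14 : 2 * (Real.pi * c / Real.log T) * Real.log T ≤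
      (ordinate (n + 1) - ordinate n) * Real.log (ordinate n) := by
    apply mul_le_mul h11 h13 hL.le
    linarith [h7, h8]
  have h15 : 2 * (Real.pi * c / Real.log T) * Real.log T = 2 * Real.pi * c := by
    field_simp
  unfold gap normOrdinate
  rw [← sub_div, le_div_iff₀ (by positivity)]
  linarith

end Pool.Agent.ZShort
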