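import Pool.Agent.ZShort.LargePos
import Pool.Agent.ZGap.PS.Height

/-!
# A positive proportion of large gaps in every interval `[T, T + H]`, `H ≥ T ^ a` (RH)
-/

namespace Pool.Agent.ZShort

open MeasureTheory Pool.Agent.ZGap.Res Pool.Agent.ZetaGaps

/-- From blocks of indices to intervals of heights. -/
theorem height_of_index {a a' κ : ℝ} {P : ℕ → Prop} [DecidablePred P] (h0 : 0 < a')
    (h1 : a' < a) (ha1 : a ≤ 1) (hκ : 0 < κ) {N0 : ℕ}
    (h : ∀ N M : ℕ, N0 ≤ N → (N : ℝ) ^ a' ≤ M →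
      κ * M ≤ (({n ∈ Finset.Ioc N (N + M) | P n} : Finset ℕ).card : ℝ)) :
    ∃ T0 : ℝ, ∀ T H : ℝ, T0 ≤ T → T ^ a ≤ H →
      κ / 2 * ((zeroCount (T + H) : ℝ) - zeroCount T) ≤
        (({n ∈ Finset.Ioo (zeroCount T) (zeroCount (T + H)) | P n} : Finset ℕ).card : ℝ) := by
  obtain ⟨T1, hT1⟩ := Pool.Agent.ShortPos.many_zeros h0 h1 ha1
  obtain ⟨C, T2, hC, hzc⟩ := Pool.Agent.ShortPos.zc_short
  obtain ⟨T3, hT3⟩ := exists_nat_ge (max (max T1 T2) (max 1 (N0 : ℝ)) + 1)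
  refine ⟨T3, fun T H hT hH => ?_⟩
  have hTT : max (max T1 T2) (max 1 (N0 : ℝ)) + 1 ≤ T := hT3.trans hT
  have hTT1 : T1 ≤ T := by
    have := (le_max_left T1 T2).trans (le_max_left _ (max 1 (N0 : ℝ)))
    linarith
  have hTT2 : T2 ≤ T := by
    have := (le_max_right T1 T2).trans (le_max_left _ (max 1 (N0 : ℝ)))
    linarith
  have hTN : (N0 : ℝ) ≤ T := by
    have := (le_max_right 1 (N0 : ℝ)).trans (le_max_right (max T1 T2) _)
    linarith
  have g1 := hT1 T hTT1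
  obtain ⟨N, hN⟩ : ∃ N : ℕ, N = zeroCount T := ⟨_, rfl⟩
  have g2 : zeroCount (T + T ^ a) ≤ zeroCount (T + H) := zeroCount_mono (by linarith)
  have g2' : (zeroCount (T + T ^ a) : ℝ) ≤ zeroCount (T + H) := by exact_mod_cast g2
  have g3 : (0:ℝ) ≤ (zeroCount T : ℝ) ^ a' := Real.rpow_nonneg (Nat.cast_nonneg _) _
  have g4 : zeroCount T + 2 ≤ zeroCount (T + H) := by
    have : (zeroCount T : ℝ) + 2 ≤ zeroCount (T + H) := by linarith
    exact_mod_cast this
  obtain ⟨M, hM⟩ : ∃ M : ℕ, M = zeroCount (T + H) - zeroCount T - 1 := ⟨_, rfl⟩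
  have hM2 : zeroCount (T + H) = N + M + 1 := by omega
  have hM3 : (zeroCount (T + H) : ℝ) = N + M + 1 := by exact_mod_cast hM2
  have hMN : (N : ℝ) ^ a' ≤ M := by
    rw [hN]
    rw [hN] at hM3
    linarith
  have hN0 : N0 ≤ N := by
    have g5 : T ≤ zeroCount (T - 1) := (hzc T hTT2).2.1
    have g6 : zeroCount (T - 1) ≤ N := by rw [hN]; exact zeroCount_mono (by linarith)
    have g7 : (zeroCount (T - 1) : ℝ) ≤ N := by exact_mod_cast g6
    exact_mod_cast hTN.trans (g5.trans g7)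
  have g8 := h N M hN0 hMN
  have hM1 : (1:ℝ) ≤ M := by
    have : 1 ≤ M := by omega
    exact_mod_cast this
  have g9 : (({n ∈ Finset.Ioc N (N + M) | P n} : Finset ℕ).card : ℝ) ≤
      (({n ∈ Finset.Ioo (zeroCount T) (zeroCount (T + H)) | P n} : Finset ℕ).card : ℝ) := by
    rw [Nat.cast_le]
    apply Finset.card_le_card
    intro n hn
    rw [Finset.mem_filter, Finset.mem_Ioc] at hn
    rw [Finset.mem_filter, Finset.mem_Ioo]
    exact ⟨⟨by omega, by omega⟩, hn.2⟩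
  refine le_trans ?_ (g8.trans g9)
  rw [hM3, ← hN]
  have : 0 ≤ κ * ((M : ℝ) - 1) := mul_nonneg hκ.le (by linarith)
  linarith

/-- Both forms, heights and indices, from the numerical data. -/
theorem large_every_of_num (hRH : RiemannHypothesis) {r θ c d a a' b' : ℝ} {m : ℕ} (hm : m ≠ 0)
    (hθ : 0 < θ) (hθa : 2 * θ < a) (ha1 : a ≤ 1) (hc1 : 1 ≤ c) (hd : d < c) (ha' : 0 ≤ a')
    (hb' : 0 ≤ b') (hab : a' + b' ≤ 1) (h0 : 0 < a' + b') (hr : 0 ≤ r)
    (hgap : |c - 1| * Den a' b' (r ^ 2) <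
      2 / Real.pi * (|r| * Num (Real.pi * c * θ) a' b' (r ^ 2) m)) :
    ∃ κ : ℝ, 0 < κ ∧
      (∃ T₀ : ℝ, ∀ T H : ℝ, T₀ ≤ T → T ^ a ≤ H →
        κ * ((zeroCount (T + H) : ℝ) - zeroCount T) ≤
          (({n ∈ Finset.Ioo (zeroCount T) (zeroCount (T + H)) | d < gap n} :
            Finset ℕ).card : ℝ)) ∧
      (∃ N₀ : ℕ, ∀ N M : ℕ, N₀ ≤ N → (N : ℝ) ^ a ≤ M →
        κ * M ≤ (({n ∈ Finset.Ioc N (N + M) | d < gap n} : Finset ℕ).card : ℝ)) := by
  have ha0 : 0 < (2 * θ + a) / 2 := by linarith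
  obtain ⟨κ, hκ, N0, h⟩ := large_index_of_num hRH (a := (2 * θ + a) / 2) hm hθ (by linarith)
    (by linarith) hc1 hd ha' hb' hab h0 hr hgap
  obtain ⟨T0, hT0⟩ := height_of_index (a := a) (P := fun n => d < gap n) ha0 (by linarith) ha1 hκ h
  refine ⟨κ / 2, by positivity, ⟨T0, hT0⟩, max N0 1, fun N M hN hM => ?_⟩
  have hN0 : N0 ≤ N := (le_max_left _ _).trans hN
  have hN1 : (1:ℝ) ≤ N := by exact_mod_cast (le_max_right _ _).trans hN
  have h2 := h N M hN0 ((Real.rpow_le_rpow_of_exponent_le hN1 (by linarith)).trans hM)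
  have h3 : κ / 2 * (M : ℝ) ≤ κ * M := by
    have : 0 ≤ κ * (M : ℝ) := by positivity
    linarith
  exact h3.trans h2

/-- **A positive proportion of large gaps in every short interval** (RH). -/
theorem large_every (hRH : RiemannHypothesis) {a : ℝ} (ha : 0 < a) (ha1 : a ≤ 1) :
    ∃ κ : ℝ, 0 < κ ∧
      (∃ T₀ : ℝ, ∀ T H : ℝ, T₀ ≤ T → T ^ a ≤ H →
        κ * ((zeroCount (T + H) : ℝ) - zeroCount T) ≤
          (({n ∈ Finset.Ioo (zeroCount T) (zeroCount (T + H)) |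
            (if a = 1 then 3.58 else 1 + a + a ^ 2) < gap n} : Finset ℕ).card : ℝ)) ∧
      (∃ N₀ : ℕ, ∀ N M : ℕ, N₀ ≤ N → (N : ℝ) ^ a ≤ M →
        κ * M ≤ (({n ∈ Finset.Ioc N (N + M) |
          (if a = 1 then 3.58 else 1 + a + a ^ 2) < gap n} : Finset ℕ).card : ℝ)) := by
  by_cases h1 : a = 1
  · subst h1
    simp only [if_true]
    exact large_every_of_num hRH (r := 23 / 10) (θ := 49999 / 100000) (c := 35801 / 10000)
      (a' := 5 / 64) (b' := 59 / 64) (m := 3) (by norm_num) (by norm_num) (by norm_num)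
      (by norm_num) (by norm_num) (by norm_num) (by norm_num) (by norm_num) (by norm_num)
      (by norm_num) (by norm_num) num_large
  · simp only [if_neg h1]
    obtain ⟨r, θ, c, a', b', m, hm, hr, hθ, hθa, hc, ha', hb', hab, h0, hgap⟩ := lam_num ha ha1
    exact large_every_of_num hRH hm hθ hθa ha1 (by nlinarith [sq_nonneg a]) hc ha' hb' hab h0 hr
      hgap

end Pool.Agent.ZShort
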