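import Pool.Agent.TypBlk.Win
import Pool.Agent.TypBlk.Cnt

/-!
# Windows of width `T ^ α`: the resonated window weight is admissible
-/

namespace Pool.Agent.ZShort

open MeasureTheory Set Pool.Agent.ZGap.Res Pool.Agent.TypBlk

/-- The window weight of width `T ^ α`. -/
lemma ww_pow {α T : ℝ} (hT : 1 < T) (t0 t : ℝ) :
    ww (T ^ α * Real.log T) T t0 t = (T ^ α)⁻¹ * WW ((t - t0) / T ^ α) := by
  have hTp : 0 < T := by linarith
  have hL : 0 < Real.log T := Real.log_pos hT
  have hp := Real.rpow_pos_of_pos hTp α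
  have e : Real.log T / (T ^ α * Real.log T) = (T ^ α)⁻¹ := by
    field_simp
  unfold ww
  rw [e, ← div_eq_mul_inv (t - t0)]

/-- Decay far from `[T, 2T]`. -/
lemma ww_far_pow {α : ℝ} (h0 : 0 < α) (h1 : α < 1) : ∃ C : ℝ, 0 < C ∧ ∀ T : ℝ, 8 ≤ T →
    ∀ t0 ∈ Icc T (2 * T), ∀ t, t ∉ Icc (T / 2) (3 * T) →
      ww (T ^ α * Real.log T) T t0 t ≤ C * (T ^ 6)⁻¹ / (1 + t ^ 2) ^ 2 := by
  set δ := 1 - α with hδd
  have hδ : 0 < δ := by linarith
  obtain ⟨n, hn⟩ := exists_nat_ge ((6 + 4 : ℝ) / δ)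
  rw [div_le_iff₀ hδ] at hn
  obtain ⟨C, hC, hdec⟩ := WW_decay (n + 4)
  refine ⟨C * 2 ^ n * 324, by positivity, fun T hT t0 ht0 t ht => ?_⟩
  have hT0 : 0 < T := by linarith
  have hT1 : 1 ≤ T := by linarith
  rw [ww_pow (by linarith)]
  set H := T ^ α with hH
  have hH1 : 1 ≤ H := Real.one_le_rpow hT1 h0.le
  have hH0 : 0 < H := by linarith
  have hHT : H ≤ T := by
    calc H ≤ T ^ (1:ℝ) := Real.rpow_le_rpow_of_exponent_le hT1 h1.le
      _ = T := Real.rpow_one T
  have hHd : H / T = T ^ (-δ) := by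
    have e : -δ = α - 1 := by rw [hδd]; ring
    rw [hH, e, Real.rpow_sub hT0, Real.rpow_one]
  obtain ⟨h2, h3⟩ := far_facts hT ht ht0.1 ht0.2
  set u := |t - t0| with hu
  have hu0 : 0 < u := by linarith
  have h4 := hdec ((t - t0) / H)
  rw [abs_div, abs_of_pos hH0, ← hu] at h4
  have h5 : WW ((t - t0) / H) ≤ C * (H / u) ^ (n + 4) := by
    have h5 : 0 < (u / H) ^ (n + 4) := by positivity
    rw [mul_comm, ← le_div_iff₀ h5] at h4
    refine h4.trans (le_of_eq ?_)
    rw [div_eq_mul_inv, ← inv_pow, inv_div]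
  have h6 : (H / u) ^ n ≤ 2 ^ n * (T ^ (-δ)) ^ n := by
    rw [← mul_pow]
    apply pow_le_pow_left₀ (by positivity)
    rw [← hHd, div_le_iff₀ hu0]
    calc H = 2 * (H / T) * (T / 2) := by field_simp
      _ ≤ 2 * (H / T) * u := by gcongr
  have h7 : (H / u) ^ 4 ≤ (T ^ 4 * 324) / (1 + t ^ 2) ^ 2 := by
    rw [div_pow, div_le_div_iff₀ (by positivity) (by positivity)]
    have h8 : (1 + t ^ 2) ^ 2 ≤ 324 * u ^ 4 := by
      have h9 : 1 + t ^ 2 ≤ 18 * u ^ 2 := by linarith
      calc (1 + t ^ 2) ^ 2 ≤ (18 * u ^ 2) ^ 2 := by gcongr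
        _ = _ := by ring
    calc H ^ 4 * (1 + t ^ 2) ^ 2 ≤ T ^ 4 * (324 * u ^ 4) := by gcongr
      _ = _ := by ring
  have hpow : T ^ 4 * (T ^ (-δ)) ^ n ≤ (T ^ 6)⁻¹ := by
    have e1 : (T ^ (-δ)) ^ n = T ^ (-(δ * n)) := by
      rw [← Real.rpow_natCast (T ^ (-δ)) n, ← Real.rpow_mul hT0.le]
      congr 1; ring
    have e2 : T ^ 4 * T ^ (-(δ * n)) = T ^ (4 - δ * n) := by
      rw [← Real.rpow_natCast T 4, ← Real.rpow_add hT0]
      congr 1
    have e3 : (T ^ 6)⁻¹ = T ^ (-(6:ℝ)) := by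
      rw [Real.rpow_neg hT0.le, ← Real.rpow_natCast T 6]
      norm_num
    rw [e1, e2, e3]
    apply Real.rpow_le_rpow_of_exponent_le hT1
    linarith
  have hinv : H⁻¹ ≤ 1 := inv_le_one_of_one_le₀ hH1
  have hWn := WW_nonneg ((t - t0) / H)
  calc H⁻¹ * WW ((t - t0) / H) ≤ 1 * (C * (H / u) ^ (n + 4)) :=
        mul_le_mul hinv h5 hWn zero_le_one
    _ = C * ((H / u) ^ n * (H / u) ^ 4) := by rw [one_mul, pow_add]
    _ ≤ C * ((2 ^ n * (T ^ (-δ)) ^ n) * ((T ^ 4 * 324) / (1 + t ^ 2) ^ 2)) := by gcongr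
    _ = C * 2 ^ n * 324 * (T ^ 4 * (T ^ (-δ)) ^ n) / (1 + t ^ 2) ^ 2 := by ring
    _ ≤ C * 2 ^ n * 324 * (T ^ 6)⁻¹ / (1 + t ^ 2) ^ 2 := by gcongr

/-- All facts on the resonated window weight of width `T ^ α`, uniformly in the centre. -/
theorem exists_winS (R : ResData) (hF : ∀ x, 0 ≤ x → R.F x ≤ 1) {α β : ℝ} (h0 : 0 < α)
    (h1 : α < 1) (hb : 2 * R.th < β) : ∃ T0 : ℝ, Real.exp 3 ≤ T0 ∧ ∀ T : ℝ, T0 ≤ T →
    ∀ t0 ∈ Icc T (2 * T),
      (∃ M : ℝ, Wt (VL R (T ^ α * Real.log T) T t0) M) ∧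
      (∀ t, t ∉ Icc (T / 2) (3 * T) →
        VL R (T ^ α * Real.log T) T t0 t ≤ (T ^ 3)⁻¹ / (1 + t ^ 2) ^ 2) ∧
      Band (VL R (T ^ α * Real.log T) T t0) (β * Real.log T) := by
  obtain ⟨C, hC, hfar⟩ := ww_far_pow h0 h1
  have hE1 := E1_pos (R := R)
  refine ⟨max (max (Real.exp 3) (Real.exp (1 / (β - 2 * R.th)))) (C * E1 R ^ 2),
    (le_max_left _ _).trans (le_max_left _ _), fun T hT t0 ht0 => ?_⟩
  have hTe : Real.exp 3 ≤ T := (le_max_left _ _).trans ((le_max_left _ _).trans hT)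
  have hTK : Real.exp (1 / (β - 2 * R.th)) ≤ T :=
    (le_max_right _ _).trans ((le_max_left _ _).trans hT)
  have hTC : C * E1 R ^ 2 ≤ T := (le_max_right _ _).trans hT
  have h1T : 1 < T := lt_of_lt_of_le (Real.one_lt_exp_iff.mpr (by norm_num)) hTe
  have h8 : 8 ≤ T := by
    have := Real.quadratic_le_exp_of_nonneg (x := 3) (by norm_num)
    linarith
  have hT0 : 0 < T := by linarith
  have hL : 0 < Real.log T := Real.log_pos h1T
  have hbp : 0 < β - 2 * R.th := by linarith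
  have hKL : 1 ≤ (β - 2 * R.th) * Real.log T := by
    have h2 : 1 / (β - 2 * R.th) ≤ Real.log T := by rwa [Real.le_log_iff_exp_le hT0]
    rwa [div_le_iff₀ hbp, mul_comm] at h2
  set K := T ^ α * Real.log T with hK
  have hH1 : 1 ≤ T ^ α := Real.one_le_rpow h1T.le h0.le
  have hK0 : 0 < K := mul_pos (by linarith) hL
  have hLK : Real.log T / K ≤ 1 := by
    rw [div_le_one hK0, hK]
    exact le_mul_of_one_le_left hL.le hH1
  have hAE : ∀ t, ‖Amp R T t‖ ^ 2 ≤ T ^ 2 * E1 R ^ 2 := by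
    intro t
    rw [← mul_pow]
    apply pow_le_pow_left₀ (norm_nonneg _)
    exact (norm_Amp_le h1T hF t).trans (mul_le_mul_of_nonneg_left (E0_le_E1 hTe) hT0.le)
  refine ⟨?_, fun t ht => ?_, ?_⟩
  · obtain ⟨M, hM, hb⟩ := WinAux.ww_bound hK0 h1T t0
    refine ⟨M * (T ^ 2 * E1 R ^ 2), ?_, fun t => ?_, fun t => ?_⟩
    · have h1 := WinAux.ww_continuous K T t0
      have h2 := Amp_continuous R T
      unfold VL
      fun_prop
    · exact mul_nonneg (WinAux.ww_nonneg hK0 h1T t0 t) (by positivity)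
    · unfold VL
      calc _ ≤ M / (1 + t ^ 2) ^ 2 * (T ^ 2 * E1 R ^ 2) :=
            mul_le_mul (hb t) (hAE t) (by positivity) (by positivity)
        _ = _ := by ring
  · have h1 := hfar T h8 t0 ht0 t ht
    rw [← hK] at h1
    unfold VL
    calc _ ≤ C * (T ^ 6)⁻¹ / (1 + t ^ 2) ^ 2 * (T ^ 2 * E1 R ^ 2) :=
          mul_le_mul h1 (hAE t) (by positivity) (by positivity)
      _ = (C * E1 R ^ 2) * (T ^ 4)⁻¹ / (1 + t ^ 2) ^ 2 := by
          field_simp
      _ ≤ T * (T ^ 4)⁻¹ / (1 + t ^ 2) ^ 2 := by gcongr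
      _ = _ := by
          congr 1
          field_simp
  · -- the band
    have hVeq : ∀ t, VL R K T t0 t = ∑ q ∈ QQ T, ∑ q' ∈ QQ T, al R T q * al R T q' *
        (ww K T t0 t * Real.cos (t * (fr q - fr q'))) := by
      intro t
      unfold VL
      rw [norm_sq_Amp, Finset.mul_sum]
      refine Finset.sum_congr rfl fun q _ => ?_
      rw [Finset.mul_sum]
      refine Finset.sum_congr rfl fun q' _ => ?_
      ring
    have hint := WinAux.ww_integrable hK0 h1T t0
    have hicos : ∀ la : ℝ, Integrable (fun t => ww K T t0 t * Real.cos (t * la)) := by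
      intro la
      refine hint.norm.mono' (hint.aestronglyMeasurable.mul
        (Continuous.aestronglyMeasurable (by fun_prop))) (Filter.Eventually.of_forall fun t => ?_)
      rw [norm_mul]
      exact mul_le_of_le_one_right (norm_nonneg _) (Real.abs_cos_le_one _)
    have hisin : ∀ la : ℝ, Integrable (fun t => ww K T t0 t * Real.sin (t * la)) := by
      intro la
      refine hint.norm.mono' (hint.aestronglyMeasurable.mul
        (Continuous.aestronglyMeasurable (by fun_prop))) (Filter.Eventually.of_forall fun t => ?_)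
      rw [norm_mul]
      exact mul_le_of_le_one_right (norm_nonneg _) (Real.abs_sin_le_one _)
    have hcos : ∀ la : ℝ, Real.log T / K ≤ |la| →
        ∫ t : ℝ, ww K T t0 t * Real.cos (t * la) = 0 := by
      intro la hla
      have := WinAux.ww_cos hK0 h1T t0 hla
      simpa [mul_comm] using this
    have hsin : ∀ la : ℝ, Real.log T / K ≤ |la| →
        ∫ t : ℝ, ww K T t0 t * Real.sin (t * la) = 0 := by
      intro la hla
      have := WinAux.ww_sin hK0 h1T t0 hla
      simpa [mul_comm] using this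
    have hlarge : ∀ q q' : Finset ℕ × Finset ℕ, al R T q ≠ 0 → al R T q' ≠ 0 → ∀ l : ℝ,
        β * Real.log T ≤ l →
        Real.log T / K ≤ |l + (fr q - fr q')| ∧ Real.log T / K ≤ |l - (fr q - fr q')| := by
      intro q q' h h' l hl
      have a1 := abs_le.mp (abs_fr_le h1T h)
      have a2 := abs_le.mp (abs_fr_le h1T h')
      constructor
      · refine hLK.trans (le_trans ?_ (le_abs_self _))
        linarith [a1.1, a1.2, a2.1, a2.2]
      · refine hLK.trans (le_trans ?_ (le_abs_self _))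
        linarith [a1.1, a1.2, a2.1, a2.2]
    intro l hl
    constructor
    · have e1 : ∀ t, VL R K T t0 t * Real.cos (l * t) = ∑ q ∈ QQ T, ∑ q' ∈ QQ T,
          (al R T q * al R T q' / 2) * (ww K T t0 t * Real.cos (t * (l + (fr q - fr q'))) +
            ww K T t0 t * Real.cos (t * (l - (fr q - fr q')))) := by
        intro t
        rw [hVeq, Finset.sum_mul]
        refine Finset.sum_congr rfl fun q _ => ?_
        rw [Finset.sum_mul]
        refine Finset.sum_congr rfl fun q' _ => ?_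
        rw [mul_add t, mul_sub t l, Real.cos_add, Real.cos_sub, mul_comm l t]
        ring
      simp_rw [e1]
      have hi : ∀ q ∈ QQ T, ∀ q' ∈ QQ T, Integrable (fun t =>
          (al R T q * al R T q' / 2) * (ww K T t0 t * Real.cos (t * (l + (fr q - fr q'))) +
            ww K T t0 t * Real.cos (t * (l - (fr q - fr q'))))) := fun q _ q' _ =>
        ((hicos _).add (hicos _)).const_mul _
      rw [integral_finsetSum _ fun q hq => integrable_finsetSum _ fun q' hq' => hi q hq q' hq']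
      refine Finset.sum_eq_zero fun q hq => ?_
      rw [integral_finsetSum _ fun q' hq' => hi q hq q' hq']
      refine Finset.sum_eq_zero fun q' hq' => ?_
      by_cases hz : al R T q = 0
      · rw [hz]; simp
      by_cases hz' : al R T q' = 0
      · rw [hz']; simp
      obtain ⟨b1, b2⟩ := hlarge q q' hz hz' l hl
      rw [integral_const_mul, integral_add (hicos _) (hicos _), hcos _ b1, hcos _ b2]
      simp
    · have e1 : ∀ t, VL R K T t0 t * Real.sin (l * t) = ∑ q ∈ QQ T, ∑ q' ∈ QQ T,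
          (al R T q * al R T q' / 2) * (ww K T t0 t * Real.sin (t * (l + (fr q - fr q'))) +
            ww K T t0 t * Real.sin (t * (l - (fr q - fr q')))) := by
        intro t
        rw [hVeq, Finset.sum_mul]
        refine Finset.sum_congr rfl fun q _ => ?_
        rw [Finset.sum_mul]
        refine Finset.sum_congr rfl fun q' _ => ?_
        rw [mul_add t, mul_sub t l, Real.sin_add, Real.sin_sub, mul_comm l t]
        ring
      simp_rw [e1]
      have hi : ∀ q ∈ QQ T, ∀ q' ∈ QQ T, Integrable (fun t =>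
          (al R T q * al R T q' / 2) * (ww K T t0 t * Real.sin (t * (l + (fr q - fr q'))) +
            ww K T t0 t * Real.sin (t * (l - (fr q - fr q'))))) := fun q _ q' _ =>
        ((hisin _).add (hisin _)).const_mul _
      rw [integral_finsetSum _ fun q hq => integrable_finsetSum _ fun q' hq' => hi q hq q' hq']
      refine Finset.sum_eq_zero fun q hq => ?_
      rw [integral_finsetSum _ fun q' hq' => hi q hq q' hq']
      refine Finset.sum_eq_zero fun q' hq' => ?_
      by_cases hz : al R T q = 0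
      · rw [hz]; simp
      by_cases hz' : al R T q' = 0
      · rw [hz']; simp
      obtain ⟨b1, b2⟩ := hlarge q q' hz hz' l hl
      rw [integral_const_mul, integral_add (hisin _) (hisin _), hsin _ b1, hsin _ b2]
      simp

/-- The local mean of `‖Amp‖² (1 - NC ψ)` (RH). -/
theorem exists_cntS (hRH : RiemannHypothesis) (R : ResData) (hF : ∀ x, 0 ≤ x → R.F x ≤ 1)
    {α β : ℝ} (h0 : 0 < α) (h1 : α < 1) (hb : 2 * R.th < β) (hβ0 : 0 < β) (hβ1 : β < 1)
    {ψ : ℝ → ℝ} (hψ : RS ψ) :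
    ∃ C T0 : ℝ, 0 < C ∧ Real.exp 3 ≤ T0 ∧ ∀ T : ℝ, T0 ≤ T → ∀ t0 ∈ Icc T (2 * T),
      |(∫ t : ℝ, VL R (T ^ α * Real.log T) T t0 t) -
        (∫ t : ℝ, VL R (T ^ α * Real.log T) T t0 t * NC ψ T t) -
        DT R ψ (T ^ α * Real.log T) T t0| ≤
        C / Real.log T * (∫ t : ℝ, VL R (T ^ α * Real.log T) T t0 t) + C / T := by
  obtain ⟨C, T0, hC, hT0, h⟩ := exists_count hRH hψ hβ0 hβ1
  obtain ⟨T1, hT1, hV⟩ := exists_winS R hF h0 h1 hb
  refine ⟨C, max T0 T1, hC, hT1.trans (le_max_right _ _), fun T hT t0 ht0 => ?_⟩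
  have hTT0 : T0 ≤ T := (le_max_left _ _).trans hT
  have hTT1 : T1 ≤ T := (le_max_right _ _).trans hT
  have hTe : Real.exp 3 ≤ T := hT1.trans hTT1
  have h1T : 1 < T := lt_of_lt_of_le (Real.one_lt_exp_iff.mpr (by norm_num)) hTe
  have hTp : 0 < T := by linarith
  have hL : 0 < Real.log T := Real.log_pos h1T
  obtain ⟨⟨M, hWt⟩, hdec, hband⟩ := hV T hTT1 t0 ht0
  have h1 := h T hTT0 (VL R (T ^ α * Real.log T) T t0) M hWt hdec hband ⌊T⌋₊ (by
    have e1 : Real.exp (β * Real.log T) ≤ T := by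
      calc _ ≤ Real.exp (1 * Real.log T) := Real.exp_le_exp.mpr (by nlinarith)
        _ = T := by rw [one_mul, Real.exp_log hTp]
    exact e1.trans (Nat.lt_floor_add_one T).le) (Nat.floor_le hTp.le)
  rw [CntAux.DT_eq R ψ _ h1T.le t0]
  rw [abs_sub_comm] at h1
  refine le_trans (le_of_eq ?_) h1
  congr 1
  ring

end Pool.Agent.ZShort
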