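import Pool.Agent.ZShort.LinNum

/-!
# Certificates for the numeric inequality, exponents from 0.51856 to 0.80382
-/

set_option autoImplicit false

namespace Pool.Agent.ZShort

lemma lin_45 {α : ℝ} (h1 : 39983 / 50000 ≤ α) (h2 : α ≤ 40191 / 50000) : NumOK α (41 / 500 + 87 / 25 * α) :=
  numOK_on (lo := 39983 / 50000) (r := 91 / 50) (s := 35976223411 / 31250000000) (θ := 19991 / 50000) (c := 1799621 / 625000)
    (a := 19 / 100) (b := 81 / 100) (by norm_num) (by norm_num) (by norm_num) (by norm_num) (by norm_num)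
    (by norm_num) (by norm_num) (by norm_num) (by norm_num) (by linarith)
    (by norm_num [Pool.Agent.ZGap.Res.term, Pool.Agent.ZGap.Res.rho, Pool.Agent.ZGap.Res.Den]) h1

lemma lin_46 {α : ℝ} (h1 : 2486 / 3125 ≤ α) (h2 : α ≤ 39983 / 50000) : NumOK α (41 / 500 + 87 / 25 * α) :=
  numOK_on (lo := 2486 / 3125) (r := 91 / 50) (s := 2848801643 / 2500000000) (θ := 1591 / 4000) (c := 1790573 / 625000)
    (a := 19 / 100) (b := 81 / 100) (by norm_num) (by norm_num) (by norm_num) (by norm_num) (by norm_num)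
    (by norm_num) (by norm_num) (by norm_num) (by norm_num) (by linarith)
    (by norm_num [Pool.Agent.ZGap.Res.term, Pool.Agent.ZGap.Res.rho, Pool.Agent.ZGap.Res.Den]) h1

lemma lin_47 {α : ℝ} (h1 : 39569 / 50000 ≤ α) (h2 : α ≤ 2486 / 3125) : NumOK α (41 / 500 + 87 / 25 * α) :=
  numOK_on (lo := 39569 / 50000) (r := 9 / 5) (s := 8811637801 / 7812500000) (θ := 2473 / 6250) (c := 3563137 / 1250000)
    (a := 1 / 5) (b := 4 / 5) (by norm_num) (by norm_num) (by norm_num) (by norm_num) (by norm_num)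
    (by norm_num) (by norm_num) (by norm_num) (by norm_num) (by linarith)
    (by norm_num [Pool.Agent.ZGap.Res.term, Pool.Agent.ZGap.Res.rho, Pool.Agent.ZGap.Res.Den]) h1

lemma lin_48 {α : ℝ} (h1 : 39363 / 50000 ≤ α) (h2 : α ≤ 39569 / 50000) : NumOK α (41 / 500 + 87 / 25 * α) :=
  numOK_on (lo := 39363 / 50000) (r := 9 / 5) (s := 8721458021 / 7812500000) (θ := 19681 / 50000) (c := 443141 / 156250)
    (a := 1 / 5) (b := 4 / 5) (by norm_num) (by norm_num) (by norm_num) (by norm_num) (by norm_num)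
    (by norm_num) (by norm_num) (by norm_num) (by norm_num) (by linarith)
    (by norm_num [Pool.Agent.ZGap.Res.term, Pool.Agent.ZGap.Res.rho, Pool.Agent.ZGap.Res.Den]) h1

lemma lin_49 {α : ℝ} (h1 : 39157 / 50000 ≤ α) (h2 : α ≤ 39363 / 50000) : NumOK α (41 / 500 + 87 / 25 * α) :=
  numOK_on (lo := 39157 / 50000) (r := 89 / 50) (s := 17263909767 / 15625000000) (θ := 9789 / 25000) (c := 1763603 / 625000)
    (a := 21 / 100) (b := 79 / 100) (by norm_num) (by norm_num) (by norm_num) (by norm_num) (by norm_num)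
    (by norm_num) (by norm_num) (by norm_num) (by norm_num) (by linarith)
    (by norm_num [Pool.Agent.ZGap.Res.term, Pool.Agent.ZGap.Res.rho, Pool.Agent.ZGap.Res.Den]) h1

lemma lin_50 {α : ℝ} (h1 : 38951 / 50000 ≤ α) (h2 : α ≤ 39157 / 50000) : NumOK α (41 / 500 + 87 / 25 * α) :=
  numOK_on (lo := 38951 / 50000) (r := 89 / 50) (s := 683433059 / 625000000) (θ := 779 / 2000) (c := 877321 / 312500)
    (a := 21 / 100) (b := 79 / 100) (by norm_num) (by norm_num) (by norm_num) (by norm_num) (by norm_num)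
    (by norm_num) (by norm_num) (by norm_num) (by norm_num) (by linarith)
    (by norm_num [Pool.Agent.ZGap.Res.term, Pool.Agent.ZGap.Res.rho, Pool.Agent.ZGap.Res.Den]) h1

lemma lin_51 {α : ℝ} (h1 : 7749 / 10000 ≤ α) (h2 : α ≤ 38951 / 50000) : NumOK α (41 / 500 + 87 / 25 * α) :=
  numOK_on (lo := 7749 / 10000) (r := 44 / 25) (s := 8454333083 / 7812500000) (θ := 4843 / 12500) (c := 1745681 / 625000)
    (a := 21 / 100) (b := 79 / 100) (by norm_num) (by norm_num) (by norm_num) (by norm_num) (by norm_num)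
    (by norm_num) (by norm_num) (by norm_num) (by norm_num) (by linarith)
    (by norm_num [Pool.Agent.ZGap.Res.term, Pool.Agent.ZGap.Res.rho, Pool.Agent.ZGap.Res.Den]) h1

lemma lin_52 {α : ℝ} (h1 : 38539 / 50000 ≤ α) (h2 : α ≤ 7749 / 10000) : NumOK α (41 / 500 + 87 / 25 * α) :=
  numOK_on (lo := 38539 / 50000) (r := 44 / 25) (s := 418310721 / 390625000) (θ := 19269 / 50000) (c := 43418 / 15625)
    (a := 21 / 100) (b := 79 / 100) (by norm_num) (by norm_num) (by norm_num) (by norm_num) (by norm_num)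
    (by norm_num) (by norm_num) (by norm_num) (by norm_num) (by linarith)
    (by norm_num [Pool.Agent.ZGap.Res.term, Pool.Agent.ZGap.Res.rho, Pool.Agent.ZGap.Res.Den]) h1

lemma lin_53 {α : ℝ} (h1 : 9583 / 12500 ≤ α) (h2 : α ≤ 38539 / 50000) : NumOK α (41 / 500 + 87 / 25 * α) :=
  numOK_on (lo := 9583 / 12500) (r := 87 / 50) (s := 66226730229 / 62500000000) (θ := 38331 / 100000) (c := 1727759 / 625000)
    (a := 11 / 50) (b := 39 / 50) (by norm_num) (by norm_num) (by norm_num) (by norm_num) (by norm_num)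
    (by norm_num) (by norm_num) (by norm_num) (by norm_num) (by linarith)
    (by norm_num [Pool.Agent.ZGap.Res.term, Pool.Agent.ZGap.Res.rho, Pool.Agent.ZGap.Res.Den]) h1

lemma lin_54 {α : ℝ} (h1 : 61 / 80 ≤ α) (h2 : α ≤ 9583 / 12500) : NumOK α (41 / 500 + 87 / 25 * α) :=
  numOK_on (lo := 61 / 80) (r := 87 / 50) (s := 32762898279 / 31250000000) (θ := 9531 / 25000) (c := 3437509 / 1250000)
    (a := 11 / 50) (b := 39 / 50) (by norm_num) (by norm_num) (by norm_num) (by norm_num) (by norm_num)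
    (by norm_num) (by norm_num) (by norm_num) (by norm_num) (by linarith)
    (by norm_num [Pool.Agent.ZGap.Res.term, Pool.Agent.ZGap.Res.rho, Pool.Agent.ZGap.Res.Den]) h1

lemma lin_55 {α : ℝ} (h1 : 37917 / 50000 ≤ α) (h2 : α ≤ 61 / 80) : NumOK α (41 / 500 + 87 / 25 * α) :=
  numOK_on (lo := 37917 / 50000) (r := 43 / 25) (s := 64826881 / 62500000) (θ := 9479 / 25000) (c := 6839 / 2500)
    (a := 23 / 100) (b := 77 / 100) (by norm_num) (by norm_num) (by norm_num) (by norm_num) (by norm_num)
    (by norm_num) (by norm_num) (by norm_num) (by norm_num) (by linarith)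
    (by norm_num [Pool.Agent.ZGap.Res.term, Pool.Agent.ZGap.Res.rho, Pool.Agent.ZGap.Res.Den]) h1

lemma lin_56 {α : ℝ} (h1 : 9427 / 12500 ≤ α) (h2 : α ≤ 37917 / 50000) : NumOK α (41 / 500 + 87 / 25 * α) :=
  numOK_on (lo := 9427 / 12500) (r := 43 / 25) (s := 32064185157 / 31250000000) (θ := 37707 / 100000) (c := 850351 / 312500)
    (a := 23 / 100) (b := 77 / 100) (by norm_num) (by norm_num) (by norm_num) (by norm_num) (by norm_num)
    (by norm_num) (by norm_num) (by norm_num) (by norm_num) (by linarith)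
    (by norm_num [Pool.Agent.ZGap.Res.term, Pool.Agent.ZGap.Res.rho, Pool.Agent.ZGap.Res.Den]) h1

lemma lin_57 {α : ℝ} (h1 : 18749 / 25000 ≤ α) (h2 : α ≤ 9427 / 12500) : NumOK α (41 / 500 + 87 / 25 * α) :=
  numOK_on (lo := 18749 / 25000) (r := 17 / 10) (s := 126860637837 / 125000000000) (θ := 37497 / 100000) (c := 3383221 / 1250000)
    (a := 6 / 25) (b := 19 / 25) (by norm_num) (by norm_num) (by norm_num) (by norm_num) (by norm_num)
    (by norm_num) (by norm_num) (by norm_num) (by norm_num) (by linarith)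
    (by norm_num [Pool.Agent.ZGap.Res.term, Pool.Agent.ZGap.Res.rho, Pool.Agent.ZGap.Res.Den]) h1

lemma lin_58 {α : ℝ} (h1 : 37287 / 50000 ≤ α) (h2 : α ≤ 18749 / 25000) : NumOK α (41 / 500 + 87 / 25 * α) :=
  numOK_on (lo := 37287 / 50000) (r := 17 / 10) (s := 62732781493 / 62500000000) (θ := 18643 / 50000) (c := 3364951 / 1250000)
    (a := 6 / 25) (b := 19 / 25) (by norm_num) (by norm_num) (by norm_num) (by norm_num) (by norm_num)
    (by norm_num) (by norm_num) (by norm_num) (by norm_num) (by linarith)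
    (by norm_num [Pool.Agent.ZGap.Res.term, Pool.Agent.ZGap.Res.rho, Pool.Agent.ZGap.Res.Den]) h1

lemma lin_59 {α : ℝ} (h1 : 18537 / 25000 ≤ α) (h2 : α ≤ 37287 / 50000) : NumOK α (41 / 500 + 87 / 25 * α) :=
  numOK_on (lo := 18537 / 25000) (r := 42 / 25) (s := 62034139681 / 62500000000) (θ := 37073 / 100000) (c := 1673297 / 625000)
    (a := 1 / 4) (b := 3 / 4) (by norm_num) (by norm_num) (by norm_num) (by norm_num) (by norm_num)
    (by norm_num) (by norm_num) (by norm_num) (by norm_num) (by linarith)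
    (by norm_num [Pool.Agent.ZGap.Res.term, Pool.Agent.ZGap.Res.rho, Pool.Agent.ZGap.Res.Den]) h1

lemma lin_60 {α : ℝ} (h1 : 36859 / 50000 ≤ α) (h2 : α ≤ 18537 / 25000) : NumOK α (41 / 500 + 87 / 25 * α) :=
  numOK_on (lo := 36859 / 50000) (r := 42 / 25) (s := 61332873027 / 62500000000) (θ := 18429 / 50000) (c := 3328063 / 1250000)
    (a := 1 / 4) (b := 3 / 4) (by norm_num) (by norm_num) (by norm_num) (by norm_num) (by norm_num)
    (by norm_num) (by norm_num) (by norm_num) (by norm_num) (by linarith)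
    (by norm_num [Pool.Agent.ZGap.Res.term, Pool.Agent.ZGap.Res.rho, Pool.Agent.ZGap.Res.Den]) h1

lemma lin_61 {α : ℝ} (h1 : 18321 / 25000 ≤ α) (h2 : α ≤ 36859 / 50000) : NumOK α (41 / 500 + 87 / 25 * α) :=
  numOK_on (lo := 18321 / 25000) (r := 83 / 50) (s := 60629093239 / 62500000000) (θ := 36641 / 100000) (c := 1654679 / 625000)
    (a := 13 / 50) (b := 37 / 50) (by norm_num) (by norm_num) (by norm_num) (by norm_num) (by norm_num)
    (by norm_num) (by norm_num) (by norm_num) (by norm_num) (by linarith)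
    (by norm_num [Pool.Agent.ZGap.Res.term, Pool.Agent.ZGap.Res.rho, Pool.Agent.ZGap.Res.Den]) h1

lemma lin_62 {α : ℝ} (h1 : 36423 / 50000 ≤ α) (h2 : α ≤ 18321 / 25000) : NumOK α (41 / 500 + 87 / 25 * α) :=
  numOK_on (lo := 36423 / 50000) (r := 83 / 50) (s := 59922913069 / 62500000000) (θ := 18211 / 50000) (c := 3290479 / 1250000)
    (a := 13 / 50) (b := 37 / 50) (by norm_num) (by norm_num) (by norm_num) (by norm_num) (by norm_num)
    (by norm_num) (by norm_num) (by norm_num) (by norm_num) (by linarith)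
    (by norm_num [Pool.Agent.ZGap.Res.term, Pool.Agent.ZGap.Res.rho, Pool.Agent.ZGap.Res.Den]) h1

lemma lin_63 {α : ℝ} (h1 : 36201 / 50000 ≤ α) (h2 : α ≤ 36423 / 50000) : NumOK α (41 / 500 + 87 / 25 * α) :=
  numOK_on (lo := 36201 / 50000) (r := 41 / 25) (s := 296064053 / 312500000) (θ := 181 / 500) (c := 1635713 / 625000)
    (a := 27 / 100) (b := 73 / 100) (by norm_num) (by norm_num) (by norm_num) (by norm_num) (by norm_num)
    (by norm_num) (by norm_num) (by norm_num) (by norm_num) (by linarith)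
    (by norm_num [Pool.Agent.ZGap.Res.term, Pool.Agent.ZGap.Res.rho, Pool.Agent.ZGap.Res.Den]) h1

lemma lin_64 {α : ℝ} (h1 : 4497 / 6250 ≤ α) (h2 : α ≤ 36201 / 50000) : NumOK α (41 / 500 + 87 / 25 * α) :=
  numOK_on (lo := 4497 / 6250) (r := 81 / 50) (s := 292486823 / 312500000) (θ := 1439 / 4000) (c := 203257 / 78125)
    (a := 7 / 25) (b := 18 / 25) (by norm_num) (by norm_num) (by norm_num) (by norm_num) (by norm_num)
    (by norm_num) (by norm_num) (by norm_num) (by norm_num) (by linarith)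
    (by norm_num [Pool.Agent.ZGap.Res.term, Pool.Agent.ZGap.Res.rho, Pool.Agent.ZGap.Res.Den]) h1

lemma lin_65 {α : ℝ} (h1 : 35747 / 50000 ≤ α) (h2 : α ≤ 4497 / 6250) : NumOK α (41 / 500 + 87 / 25 * α) :=
  numOK_on (lo := 35747 / 50000) (r := 81 / 50) (s := 57775133801 / 62500000000) (θ := 17873 / 50000) (c := 3232537 / 1250000)
    (a := 7 / 25) (b := 18 / 25) (by norm_num) (by norm_num) (by norm_num) (by norm_num) (by norm_num)
    (by norm_num) (by norm_num) (by norm_num) (by norm_num) (by linarith)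
    (by norm_num [Pool.Agent.ZGap.Res.term, Pool.Agent.ZGap.Res.rho, Pool.Agent.ZGap.Res.Den]) h1

lemma lin_66 {α : ℝ} (h1 : 7103 / 10000 ≤ α) (h2 : α ≤ 35747 / 50000) : NumOK α (41 / 500 + 87 / 25 * α) :=
  numOK_on (lo := 7103 / 10000) (r := 8 / 5) (s := 28523193399 / 31250000000) (θ := 17757 / 50000) (c := 1606307 / 625000)
    (a := 29 / 100) (b := 71 / 100) (by norm_num) (by norm_num) (by norm_num) (by norm_num) (by norm_num)
    (by norm_num) (by norm_num) (by norm_num) (by norm_num) (by linarith)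
    (by norm_num [Pool.Agent.ZGap.Res.term, Pool.Agent.ZGap.Res.rho, Pool.Agent.ZGap.Res.Den]) h1

lemma lin_67 {α : ℝ} (h1 : 17639 / 25000 ≤ α) (h2 : α ≤ 7103 / 10000) : NumOK α (41 / 500 + 87 / 25 * α) :=
  numOK_on (lo := 17639 / 25000) (r := 8 / 5) (s := 11261935311 / 12500000000) (θ := 35277 / 100000) (c := 319243 / 125000)
    (a := 29 / 100) (b := 71 / 100) (by norm_num) (by norm_num) (by norm_num) (by norm_num) (by norm_num)
    (by norm_num) (by norm_num) (by norm_num) (by norm_num) (by linarith)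
    (by norm_num [Pool.Agent.ZGap.Res.term, Pool.Agent.ZGap.Res.rho, Pool.Agent.ZGap.Res.Den]) h1

lemma lin_68 {α : ℝ} (h1 : 8759 / 12500 ≤ α) (h2 : α ≤ 17639 / 25000) : NumOK α (41 / 500 + 87 / 25 * α) :=
  numOK_on (lo := 8759 / 12500) (r := 79 / 50) (s := 22224879677 / 25000000000) (θ := 7007 / 20000) (c := 3171811 / 1250000)
    (a := 31 / 100) (b := 69 / 100) (by norm_num) (by norm_num) (by norm_num) (by norm_num) (by norm_num)
    (by norm_num) (by norm_num) (by norm_num) (by norm_num) (by linarith)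
    (by norm_num [Pool.Agent.ZGap.Res.term, Pool.Agent.ZGap.Res.rho, Pool.Agent.ZGap.Res.Den]) h1

lemma lin_69 {α : ℝ} (h1 : 34789 / 50000 ≤ α) (h2 : α ≤ 8759 / 12500) : NumOK α (41 / 500 + 87 / 25 * α) :=
  numOK_on (lo := 34789 / 50000) (r := 79 / 50) (s := 27402133629 / 31250000000) (θ := 8697 / 25000) (c := 3150757 / 1250000)
    (a := 31 / 100) (b := 69 / 100) (by norm_num) (by norm_num) (by norm_num) (by norm_num) (by norm_num)
    (by norm_num) (by norm_num) (by norm_num) (by norm_num) (by linarith)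
    (by norm_num [Pool.Agent.ZGap.Res.term, Pool.Agent.ZGap.Res.rho, Pool.Agent.ZGap.Res.Den]) h1

lemma lin_70 {α : ℝ} (h1 : 6907 / 10000 ≤ α) (h2 : α ≤ 34789 / 50000) : NumOK α (41 / 500 + 87 / 25 * α) :=
  numOK_on (lo := 6907 / 10000) (r := 39 / 25) (s := 13508267639 / 15625000000) (θ := 17267 / 50000) (c := 782317 / 312500)
    (a := 8 / 25) (b := 17 / 25) (by norm_num) (by norm_num) (by norm_num) (by norm_num) (by norm_num)
    (by norm_num) (by norm_num) (by norm_num) (by norm_num) (by linarith)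
    (by norm_num [Pool.Agent.ZGap.Res.term, Pool.Agent.ZGap.Res.rho, Pool.Agent.ZGap.Res.Den]) h1

lemma lin_71 {α : ℝ} (h1 : 1371 / 2000 ≤ α) (h2 : α ≤ 6907 / 10000) : NumOK α (41 / 500 + 87 / 25 * α) :=
  numOK_on (lo := 1371 / 2000) (r := 39 / 25) (s := 5324757229 / 6250000000) (θ := 17137 / 50000) (c := 310717 / 125000)
    (a := 8 / 25) (b := 17 / 25) (by norm_num) (by norm_num) (by norm_num) (by norm_num) (by norm_num)
    (by norm_num) (by norm_num) (by norm_num) (by norm_num) (by linarith)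
    (by norm_num [Pool.Agent.ZGap.Res.term, Pool.Agent.ZGap.Res.rho, Pool.Agent.ZGap.Res.Den]) h1

lemma lin_72 {α : ℝ} (h1 : 34007 / 50000 ≤ α) (h2 : α ≤ 1371 / 2000) : NumOK α (41 / 500 + 87 / 25 * α) :=
  numOK_on (lo := 34007 / 50000) (r := 77 / 50) (s := 1048932073 / 1250000000) (θ := 17003 / 50000) (c := 61691 / 25000)
    (a := 33 / 100) (b := 67 / 100) (by norm_num) (by norm_num) (by norm_num) (by norm_num) (by norm_num)
    (by norm_num) (by norm_num) (by norm_num) (by norm_num) (by linarith)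
    (by norm_num [Pool.Agent.ZGap.Res.term, Pool.Agent.ZGap.Res.rho, Pool.Agent.ZGap.Res.Den]) h1

lemma lin_73 {α : ℝ} (h1 : 3373 / 5000 ≤ α) (h2 : α ≤ 34007 / 50000) : NumOK α (41 / 500 + 87 / 25 * α) :=
  numOK_on (lo := 3373 / 5000) (r := 38 / 25) (s := 51626180793 / 62500000000) (θ := 33729 / 100000) (c := 1530617 / 625000)
    (a := 7 / 20) (b := 13 / 20) (by norm_num) (by norm_num) (by norm_num) (by norm_num) (by norm_num)
    (by norm_num) (by norm_num) (by norm_num) (by norm_num) (by linarith)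
    (by norm_num [Pool.Agent.ZGap.Res.term, Pool.Agent.ZGap.Res.rho, Pool.Agent.ZGap.Res.Den]) h1

lemma lin_74 {α : ℝ} (h1 : 33443 / 50000 ≤ α) (h2 : α ≤ 3373 / 5000) : NumOK α (41 / 500 + 87 / 25 * α) :=
  numOK_on (lo := 33443 / 50000) (r := 38 / 25) (s := 10156786867 / 12500000000) (θ := 16721 / 50000) (c := 607427 / 250000)
    (a := 7 / 20) (b := 13 / 20) (by norm_num) (by norm_num) (by norm_num) (by norm_num) (by norm_num)
    (by norm_num) (by norm_num) (by norm_num) (by norm_num) (by linarith)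
    (by norm_num [Pool.Agent.ZGap.Res.term, Pool.Agent.ZGap.Res.rho, Pool.Agent.ZGap.Res.Den]) h1

lemma lin_75 {α : ℝ} (h1 : 6629 / 10000 ≤ α) (h2 : α ≤ 33443 / 50000) : NumOK α (41 / 500 + 87 / 25 * α) :=
  numOK_on (lo := 6629 / 10000) (r := 3 / 2) (s := 6239701869 / 7812500000) (θ := 4143 / 12500) (c := 1506083 / 625000)
    (a := 9 / 25) (b := 16 / 25) (by norm_num) (by norm_num) (by norm_num) (by norm_num) (by norm_num)
    (by norm_num) (by norm_num) (by norm_num) (by norm_num) (by linarith)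
    (by norm_num [Pool.Agent.ZGap.Res.term, Pool.Agent.ZGap.Res.rho, Pool.Agent.ZGap.Res.Den]) h1

lemma lin_76 {α : ℝ} (h1 : 6567 / 10000 ≤ α) (h2 : α ≤ 6629 / 10000) : NumOK α (41 / 500 + 87 / 25 * α) :=
  numOK_on (lo := 6567 / 10000) (r := 37 / 25) (s := 38300861 / 48828125) (θ := 16417 / 50000) (c := 37328 / 15625)
    (a := 19 / 50) (b := 31 / 50) (by norm_num) (by norm_num) (by norm_num) (by norm_num) (by norm_num)
    (by norm_num) (by norm_num) (by norm_num) (by norm_num) (by linarith)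
    (by norm_num [Pool.Agent.ZGap.Res.term, Pool.Agent.ZGap.Res.rho, Pool.Agent.ZGap.Res.Den]) h1

lemma lin_77 {α : ℝ} (h1 : 32511 / 50000 ≤ α) (h2 : α ≤ 6567 / 10000) : NumOK α (41 / 500 + 87 / 25 * α) :=
  numOK_on (lo := 32511 / 50000) (r := 37 / 25) (s := 962058677 / 1250000000) (θ := 3251 / 10000) (c := 295927 / 125000)
    (a := 19 / 50) (b := 31 / 50) (by norm_num) (by norm_num) (by norm_num) (by norm_num) (by norm_num)
    (by norm_num) (by norm_num) (by norm_num) (by norm_num) (by linarith)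
    (by norm_num [Pool.Agent.ZGap.Res.term, Pool.Agent.ZGap.Res.rho, Pool.Agent.ZGap.Res.Den]) h1

lemma lin_78 {α : ℝ} (h1 : 3217 / 5000 ≤ α) (h2 : α ≤ 32511 / 50000) : NumOK α (41 / 500 + 87 / 25 * α) :=
  numOK_on (lo := 3217 / 5000) (r := 73 / 50) (s := 47144988429 / 62500000000) (θ := 32169 / 100000) (c := 1465541 / 625000)
    (a := 39 / 100) (b := 61 / 100) (by norm_num) (by norm_num) (by norm_num) (by norm_num) (by norm_num)
    (by norm_num) (by norm_num) (by norm_num) (by norm_num) (by linarith)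
    (by norm_num [Pool.Agent.ZGap.Res.term, Pool.Agent.ZGap.Res.rho, Pool.Agent.ZGap.Res.Den]) h1

lemma lin_79 {α : ℝ} (h1 : 3181 / 5000 ≤ α) (h2 : α ≤ 3217 / 5000) : NumOK α (41 / 500 + 87 / 25 * α) :=
  numOK_on (lo := 3181 / 5000) (r := 36 / 25) (s := 18458221947 / 25000000000) (θ := 31809 / 100000) (c := 580283 / 250000)
    (a := 41 / 100) (b := 59 / 100) (by norm_num) (by norm_num) (by norm_num) (by norm_num) (by norm_num)
    (by norm_num) (by norm_num) (by norm_num) (by norm_num) (by linarith)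
    (by norm_num [Pool.Agent.ZGap.Res.term, Pool.Agent.ZGap.Res.rho, Pool.Agent.ZGap.Res.Den]) h1

lemma lin_80 {α : ℝ} (h1 : 31429 / 50000 ≤ α) (h2 : α ≤ 3181 / 5000) : NumOK α (41 / 500 + 87 / 25 * α) :=
  numOK_on (lo := 31429 / 50000) (r := 71 / 50) (s := 4510067283 / 6250000000) (θ := 7857 / 25000) (c := 574019 / 250000)
    (a := 43 / 100) (b := 57 / 100) (by norm_num) (by norm_num) (by norm_num) (by norm_num) (by norm_num)
    (by norm_num) (by norm_num) (by norm_num) (by norm_num) (by linarith)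
    (by norm_num [Pool.Agent.ZGap.Res.term, Pool.Agent.ZGap.Res.rho, Pool.Agent.ZGap.Res.Den]) h1

lemma lin_81 {α : ℝ} (h1 : 31023 / 50000 ≤ α) (h2 : α ≤ 31429 / 50000) : NumOK α (41 / 500 + 87 / 25 * α) :=
  numOK_on (lo := 31023 / 50000) (r := 7 / 5) (s := 11000975107 / 15625000000) (θ := 15511 / 50000) (c := 709237 / 312500)
    (a := 11 / 25) (b := 14 / 25) (by norm_num) (by norm_num) (by norm_num) (by norm_num) (by norm_num)
    (by norm_num) (by norm_num) (by norm_num) (by norm_num) (by linarith)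
    (by norm_num [Pool.Agent.ZGap.Res.term, Pool.Agent.ZGap.Res.rho, Pool.Agent.ZGap.Res.Den]) h1

lemma lin_82 {α : ℝ} (h1 : 30587 / 50000 ≤ α) (h2 : α ≤ 31023 / 50000) : NumOK α (41 / 500 + 87 / 25 * α) :=
  numOK_on (lo := 30587 / 50000) (r := 7 / 5) (s := 21422633209 / 31250000000) (θ := 15293 / 50000) (c := 1400813 / 625000)
    (a := 11 / 25) (b := 14 / 25) (by norm_num) (by norm_num) (by norm_num) (by norm_num) (by norm_num)
    (by norm_num) (by norm_num) (by norm_num) (by norm_num) (by linarith)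
    (by norm_num [Pool.Agent.ZGap.Res.term, Pool.Agent.ZGap.Res.rho, Pool.Agent.ZGap.Res.Den]) h1

lemma lin_83 {α : ℝ} (h1 : 7529 / 12500 ≤ α) (h2 : α ≤ 30587 / 50000) : NumOK α (41 / 500 + 87 / 25 * α) :=
  numOK_on (lo := 7529 / 12500) (r := 69 / 50) (s := 8322864481 / 12500000000) (θ := 6023 / 20000) (c := 1381847 / 625000)
    (a := 23 / 50) (b := 27 / 50) (by norm_num) (by norm_num) (by norm_num) (by norm_num) (by norm_num)
    (by norm_num) (by norm_num) (by norm_num) (by norm_num) (by linarith)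
    (by norm_num [Pool.Agent.ZGap.Res.term, Pool.Agent.ZGap.Res.rho, Pool.Agent.ZGap.Res.Den]) h1

lemma lin_84 {α : ℝ} (h1 : 29603 / 50000 ≤ α) (h2 : α ≤ 7529 / 12500) : NumOK α (41 / 500 + 87 / 25 * α) :=
  numOK_on (lo := 29603 / 50000) (r := 34 / 25) (s := 40298934317 / 62500000000) (θ := 14801 / 50000) (c := 2722717 / 1250000)
    (a := 12 / 25) (b := 13 / 25) (by norm_num) (by norm_num) (by norm_num) (by norm_num) (by norm_num)
    (by norm_num) (by norm_num) (by norm_num) (by norm_num) (by linarith)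
    (by norm_num [Pool.Agent.ZGap.Res.term, Pool.Agent.ZGap.Res.rho, Pool.Agent.ZGap.Res.Den]) h1

lemma lin_85 {α : ℝ} (h1 : 14519 / 25000 ≤ α) (h2 : α ≤ 29603 / 50000) : NumOK α (41 / 500 + 87 / 25 * α) :=
  numOK_on (lo := 14519 / 25000) (r := 67 / 50) (s := 38881791591 / 62500000000) (θ := 29037 / 100000) (c := 1339043 / 625000)
    (a := 1 / 2) (b := 1 / 2) (by norm_num) (by norm_num) (by norm_num) (by norm_num) (by norm_num)
    (by norm_num) (by norm_num) (by norm_num) (by norm_num) (by linarith)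
    (by norm_num [Pool.Agent.ZGap.Res.term, Pool.Agent.ZGap.Res.rho, Pool.Agent.ZGap.Res.Den]) h1

lemma lin_86 {α : ℝ} (h1 : 28409 / 50000 ≤ α) (h2 : α ≤ 14519 / 25000) : NumOK α (41 / 500 + 87 / 25 * α) :=
  numOK_on (lo := 28409 / 50000) (r := 33 / 25) (s := 9335333981 / 15625000000) (θ := 3551 / 12500) (c := 2628931 / 1250000)
    (a := 13 / 25) (b := 12 / 25) (by norm_num) (by norm_num) (by norm_num) (by norm_num) (by norm_num)
    (by norm_num) (by norm_num) (by norm_num) (by norm_num) (by linarith)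
    (by norm_num [Pool.Agent.ZGap.Res.term, Pool.Agent.ZGap.Res.rho, Pool.Agent.ZGap.Res.Den]) h1

lemma lin_87 {α : ℝ} (h1 : 27699 / 50000 ≤ α) (h2 : α ≤ 28409 / 50000) : NumOK α (41 / 500 + 87 / 25 * α) :=
  numOK_on (lo := 27699 / 50000) (r := 32 / 25) (s := 278517239 / 488281250) (θ := 13849 / 50000) (c := 160888 / 78125)
    (a := 57 / 100) (b := 43 / 100) (by norm_num) (by norm_num) (by norm_num) (by norm_num) (by norm_num)
    (by norm_num) (by norm_num) (by norm_num) (by norm_num) (by linarith)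
    (by norm_num [Pool.Agent.ZGap.Res.term, Pool.Agent.ZGap.Res.rho, Pool.Agent.ZGap.Res.Den]) h1

lemma lin_88 {α : ℝ} (h1 : 6721 / 12500 ≤ α) (h2 : α ≤ 27699 / 50000) : NumOK α (41 / 500 + 87 / 25 * α) :=
  numOK_on (lo := 6721 / 12500) (r := 63 / 50) (s := 33770935377 / 62500000000) (θ := 26883 / 100000) (c := 1256219 / 625000)
    (a := 59 / 100) (b := 41 / 100) (by norm_num) (by norm_num) (by norm_num) (by norm_num) (by norm_num)
    (by norm_num) (by norm_num) (by norm_num) (by norm_num) (by linarith)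
    (by norm_num [Pool.Agent.ZGap.Res.term, Pool.Agent.ZGap.Res.rho, Pool.Agent.ZGap.Res.Den]) h1

lemma lin_89 {α : ℝ} (h1 : 3241 / 6250 ≤ α) (h2 : α ≤ 6721 / 12500) : NumOK α (41 / 500 + 87 / 25 * α) :=
  numOK_on (lo := 3241 / 6250) (r := 31 / 25) (s := 63301626091 / 125000000000) (θ := 25927 / 100000) (c := 2441533 / 1250000)
    (a := 31 / 50) (b := 19 / 50) (by norm_num) (by norm_num) (by norm_num) (by norm_num) (by norm_num)
    (by norm_num) (by norm_num) (by norm_num) (by norm_num) (by linarith)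
    (by norm_num [Pool.Agent.ZGap.Res.term, Pool.Agent.ZGap.Res.rho, Pool.Agent.ZGap.Res.Den]) h1

theorem num_linB {α : ℝ} (h1 : 3241 / 6250 ≤ α) (h2 : α ≤ 40191 / 50000) : NumOK α (41 / 500 + 87 / 25 * α) := by
  rcases le_total (39983 / 50000) α with h | h
  · exact lin_45 h h2
  clear h2; rename _ => h2
  rcases le_total (2486 / 3125) α with h | h
  · exact lin_46 h h2
  clear h2; rename _ => h2
  rcases le_total (39569 / 50000) α with h | h
  · exact lin_47 h h2
  clear h2; rename _ => h2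
  rcases le_total (39363 / 50000) α with h | h
  · exact lin_48 h h2
  clear h2; rename _ => h2
  rcases le_total (39157 / 50000) α with h | h
  · exact lin_49 h h2
  clear h2; rename _ => h2
  rcases le_total (38951 / 50000) α with h | h
  · exact lin_50 h h2
  clear h2; rename _ => h2
  rcases le_total (7749 / 10000) α with h | h
  · exact lin_51 h h2
  clear h2; rename _ => h2
  rcases le_total (38539 / 50000) α with h | h
  · exact lin_52 h h2
  clear h2; rename _ => h2
  rcases le_total (9583 / 12500) α with h | h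
  · exact lin_53 h h2
  clear h2; rename _ => h2
  rcases le_total (61 / 80) α with h | h
  · exact lin_54 h h2
  clear h2; rename _ => h2
  rcases le_total (37917 / 50000) α with h | h
  · exact lin_55 h h2
  clear h2; rename _ => h2
  rcases le_total (9427 / 12500) α with h | h
  · exact lin_56 h h2
  clear h2; rename _ => h2
  rcases le_total (18749 / 25000) α with h | h
  · exact lin_57 h h2
  clear h2; rename _ => h2
  rcases le_total (37287 / 50000) α with h | h
  · exact lin_58 h h2
  clear h2; rename _ => h2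
  rcases le_total (18537 / 25000) α with h | h
  · exact lin_59 h h2
  clear h2; rename _ => h2
  rcases le_total (36859 / 50000) α with h | h
  · exact lin_60 h h2
  clear h2; rename _ => h2
  rcases le_total (18321 / 25000) α with h | h
  · exact lin_61 h h2
  clear h2; rename _ => h2
  rcases le_total (36423 / 50000) α with h | h
  · exact lin_62 h h2
  clear h2; rename _ => h2
  rcases le_total (36201 / 50000) α with h | h
  · exact lin_63 h h2
  clear h2; rename _ => h2
  rcases le_total (4497 / 6250) α with h | h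
  · exact lin_64 h h2
  clear h2; rename _ => h2
  rcases le_total (35747 / 50000) α with h | h
  · exact lin_65 h h2
  clear h2; rename _ => h2
  rcases le_total (7103 / 10000) α with h | h
  · exact lin_66 h h2
  clear h2; rename _ => h2
  rcases le_total (17639 / 25000) α with h | h
  · exact lin_67 h h2
  clear h2; rename _ => h2
  rcases le_total (8759 / 12500) α with h | h
  · exact lin_68 h h2
  clear h2; rename _ => h2
  rcases le_total (34789 / 50000) α with h | h
  · exact lin_69 h h2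
  clear h2; rename _ => h2
  rcases le_total (6907 / 10000) α with h | h
  · exact lin_70 h h2
  clear h2; rename _ => h2
  rcases le_total (1371 / 2000) α with h | h
  · exact lin_71 h h2
  clear h2; rename _ => h2
  rcases le_total (34007 / 50000) α with h | h
  · exact lin_72 h h2
  clear h2; rename _ => h2
  rcases le_total (3373 / 5000) α with h | h
  · exact lin_73 h h2
  clear h2; rename _ => h2
  rcases le_total (33443 / 50000) α with h | h
  · exact lin_74 h h2
  clear h2; rename _ => h2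
  rcases le_total (6629 / 10000) α with h | h
  · exact lin_75 h h2
  clear h2; rename _ => h2
  rcases le_total (6567 / 10000) α with h | h
  · exact lin_76 h h2
  clear h2; rename _ => h2
  rcases le_total (32511 / 50000) α with h | h
  · exact lin_77 h h2
  clear h2; rename _ => h2
  rcases le_total (3217 / 5000) α with h | h
  · exact lin_78 h h2
  clear h2; rename _ => h2
  rcases le_total (3181 / 5000) α with h | h
  · exact lin_79 h h2
  clear h2; rename _ => h2
  rcases le_total (31429 / 50000) α with h | h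
  · exact lin_80 h h2
  clear h2; rename _ => h2
  rcases le_total (31023 / 50000) α with h | h
  · exact lin_81 h h2
  clear h2; rename _ => h2
  rcases le_total (30587 / 50000) α with h | h
  · exact lin_82 h h2
  clear h2; rename _ => h2
  rcases le_total (7529 / 12500) α with h | h
  · exact lin_83 h h2
  clear h2; rename _ => h2
  rcases le_total (29603 / 50000) α with h | h
  · exact lin_84 h h2
  clear h2; rename _ => h2
  rcases le_total (14519 / 25000) α with h | h
  · exact lin_85 h h2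
  clear h2; rename _ => h2
  rcases le_total (28409 / 50000) α with h | h
  · exact lin_86 h h2
  clear h2; rename _ => h2
  rcases le_total (27699 / 50000) α with h | h
  · exact lin_87 h h2
  clear h2; rename _ => h2
  rcases le_total (6721 / 12500) α with h | h
  · exact lin_88 h h2
  clear h2; rename _ => h2
  exact lin_89 h1 h2

end Pool.Agent.ZShort
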