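import Pool.Agent.ZShort.LinNumA
import Pool.Agent.ZShort.LinNumB

/-!
# Small and large gaps in almost every block, linear constant for the large gaps
-/

set_option autoImplicit false

namespace Pool.Agent.ZShort

open Pool.Agent.ZetaGaps

/-- The numeric inequality with the linear constant. -/
theorem num_lin {a : ℝ} (h1 : 1.89 < 1.822 + 1.74 * a) (h2 : a ≤ 1) :
    NumOK ((1 + a) / 2) (1.822 + 1.74 * a) := by
  have e : (1.822 + 1.74 * a : ℝ) = 41 / 500 + 87 / 25 * ((1 + a) / 2) := by ring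
  rw [e]
  rcases le_total (40191 / 50000 : ℝ) ((1 + a) / 2) with h | h
  · exact num_linA h (by linarith)
  · exact num_linB (by linarith) h

open Classical in
/-- **Small and large gaps in almost every block** (RH), with a linear constant. -/
theorem almost_all_blocks_lin (hRH : RiemannHypothesis) {a ε : ℝ} (ha : 0 < a) (ha1 : a < 1)
    (hε : 0 < ε) :
    ∃ κ c : ℝ, 0 < κ ∧ 0 < c ∧ ∃ N₀ : ℕ, ∀ N : ℕ, N₀ ≤ N →
      (({n ∈ Finset.Icc 1 N | ¬ ∀ M : ℕ, (n:ℝ) ^ a ≤ M →
        κ * M ≤ (({k ∈ Finset.Ioc n (n + M) | gap k < 2 / (3 + a) + ε} : Finset ℕ).card : ℝ) ∧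
        κ * M ≤ (({k ∈ Finset.Ioc n (n + M) | max 1.89 (1.822 + 1.74 * a) < gap k} :
          Finset ℕ).card : ℝ)} : Finset ℕ).card : ℝ) ≤ (N:ℝ) ^ (1 - c) :=
  almost_all_blocks_d hRH ha ha1 hε fun h => num_lin h ha1.le

end Pool.Agent.ZShort
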