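import Pool.Agent.TypBlk.MS

/-!
# Mean squares of finite exponential sums: only near frequencies matter
-/

namespace Pool.Agent.ZShort

open MeasureTheory Finset Pool.Agent.ZGap.Res Pool.Agent.TypBlk Pool.Agent.TypBlk.MSAux

namespace MScAux

lemma int_shift_sin (k a : ℝ) (hk : 0 < k) (l : ℝ) :
    Integrable (fun t : ℝ => WW ((t - a) * k) * Real.sin (t * l)) := by
  have hc := WW_continuous
  refine (int_shift k a hk).norm.mono' (Continuous.aestronglyMeasurable (by fun_prop))
    (Filter.Eventually.of_forall fun x => ?_)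
  rw [norm_mul, Real.norm_eq_abs (Real.sin _)]
  exact mul_le_of_le_one_right (norm_nonneg _) (Real.abs_sin_le_one _)

/-- change of variables -/
lemma cov_s (k a : ℝ) (hk : 0 < k) (l : ℝ) :
    ∫ t : ℝ, WW ((t - a) * k) * Real.sin (t * l) =
      k⁻¹ * ∫ v : ℝ, WW v * Real.sin ((v / k + a) * l) := by
  have h1 := integral_sub_right_eq_self (fun u : ℝ => WW (u * k) * Real.sin ((u + a) * l)) a
    (μ := volume)
  simp only [sub_add_cancel] at h1
  rw [h1]
  have h2 := Measure.integral_comp_mul_right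
    (fun v : ℝ => WW v * Real.sin ((v / k + a) * l)) k
  rw [abs_of_pos (by positivity : 0 < k⁻¹), smul_eq_mul] at h2
  rw [← h2]
  refine integral_congr_ae (Filter.Eventually.of_forall fun u => ?_)
  simp only
  rw [mul_div_cancel_right₀ _ hk.ne']

lemma cov_zero_s (k a : ℝ) (hk : 0 < k) (l : ℝ) (hl : k ≤ |l|) :
    ∫ t : ℝ, WW ((t - a) * k) * Real.sin (t * l) = 0 := by
  rw [cov_s k a hk l]
  have e : ∀ v : ℝ, WW v * Real.sin ((v / k + a) * l) =
      Real.sin (a * l) * (WW v * Real.cos ((l / k) * v)) +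
        Real.cos (a * l) * (WW v * Real.sin ((l / k) * v)) := by
    intro v
    have : (v / k + a) * l = a * l + (l / k) * v := by ring
    rw [this, Real.sin_add]
    ring
  simp_rw [e]
  have hl' : 1 ≤ |l / k| := by
    rw [abs_div, abs_of_pos hk, le_div_iff₀ hk, one_mul]
    exact hl
  rw [integral_add ((int_cos _).const_mul _) ((int_sin _).const_mul _),
    MeasureTheory.integral_const_mul, MeasureTheory.integral_const_mul, WW_cos hl', WW_sin]
  ring

/-- The weighted exponential. -/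
noncomputable def EE (k a l t : ℝ) : ℂ :=
  (WW ((t - a) * k) : ℂ) * Complex.exp (-((t * l : ℝ) : ℂ) * Complex.I)

lemma EE_eq (k a l t : ℝ) : EE k a l t =
    ((WW ((t - a) * k) * Real.cos (t * l) : ℝ) : ℂ) -
      ((WW ((t - a) * k) * Real.sin (t * l) : ℝ) : ℂ) * Complex.I := by
  unfold EE
  have : Complex.exp (-((t * l : ℝ) : ℂ) * Complex.I) =
      (Real.cos (t * l) : ℂ) - (Real.sin (t * l) : ℂ) * Complex.I := by
    rw [Complex.exp_mul_I, Complex.cos_neg, Complex.sin_neg, Complex.ofReal_cos,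
      Complex.ofReal_sin]
    ring
  rw [this]
  push_cast
  ring

lemma EE_int (k a : ℝ) (hk : 0 < k) (l : ℝ) : Integrable (EE k a l) := by
  have h := (int_shift_cos k a hk l).ofReal (𝕜 := ℂ)
  have h' := ((int_shift_sin k a hk l).ofReal (𝕜 := ℂ)).mul_const Complex.I
  refine (h.sub h').congr (Filter.Eventually.of_forall fun t => ?_)
  rw [EE_eq]
  rfl

lemma EE_zero (k a : ℝ) (hk : 0 < k) (l : ℝ) (hl : k ≤ |l|) : ∫ t, EE k a l t = 0 := by
  have h : Integrable (fun t : ℝ => ((WW ((t - a) * k) * Real.cos (t * l) : ℝ) : ℂ)) :=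
    (int_shift_cos k a hk l).ofReal
  have h' : Integrable (fun t : ℝ =>
      ((WW ((t - a) * k) * Real.sin (t * l) : ℝ) : ℂ) * Complex.I) :=
    ((int_shift_sin k a hk l).ofReal).mul_const Complex.I
  have e : ∫ t, EE k a l t = (∫ t : ℝ, ((WW ((t - a) * k) * Real.cos (t * l) : ℝ) : ℂ)) -
      ∫ t : ℝ, ((WW ((t - a) * k) * Real.sin (t * l) : ℝ) : ℂ) * Complex.I := by
    rw [← integral_sub h h']
    refine integral_congr_ae (Filter.Eventually.of_forall fun t => ?_)
    simp only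
    rw [EE_eq]
  rw [e, MeasureTheory.integral_mul_const, integral_complex_ofReal, integral_complex_ofReal,
    cov_zero k a hk l hl, cov_zero_s k a hk l hl]
  simp

lemma EE_norm (k a : ℝ) (hk : 0 < k) (l : ℝ) : ‖∫ t, EE k a l t‖ ≤ k⁻¹ := by
  rw [← int_shift_eq k a hk]
  refine (norm_integral_le_integral_norm _).trans (le_of_eq ?_)
  refine integral_congr_ae (Filter.Eventually.of_forall fun t => ?_)
  simp only
  unfold EE
  rw [norm_mul, ← Complex.ofReal_neg, Complex.norm_exp_ofReal_mul_I, mul_one, Complex.norm_real,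
    Real.norm_of_nonneg (WW_nonneg _)]

end MScAux

open MScAux Classical in
/-- The mean square of an exponential sum is at most the sum over pairs of near frequencies. -/
theorem exists_ms_c : ∃ C C0 : ℝ, 0 < C ∧ 0 < C0 ∧
    ∀ {ι : Type} (s : Finset ι) (c : ι → ℂ) (l : ι → ℝ) (T : ℝ), 0 < T →
    ∫ t in (T / 2)..(3 * T), ‖∑ x ∈ s, c x * Complex.exp (-((t * l x : ℝ) : ℂ) * Complex.I)‖ ^ 2 ≤
      C * T * ∑ x ∈ s, ∑ y ∈ s, if |l x - l y| < C0 / T then ‖c x‖ * ‖c y‖ else 0 := by
  obtain ⟨c1, s1, hc1, hs1, hW⟩ := WW_pos_near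
  refine ⟨5 / (4 * s1 * c1), 4 * s1 / 5, by positivity, by positivity, ?_⟩
  intro ι s c l T hT0
  set k : ℝ := 4 * s1 / 5 / T with hk
  set a : ℝ := 7 * T / 4 with ha
  have hk0 : 0 < k := by positivity
  set S : ℝ → ℂ := fun t => ∑ x ∈ s, c x * Complex.exp (-((t * l x : ℝ) : ℂ) * Complex.I) with hS
  have hScont : Continuous S := by
    simp only [hS]
    fun_prop
  have hWc := WW_continuous
  have hterm : ∀ x y : ι, Integrable (fun t : ℝ => c x * (starRingEnd ℂ) (c y) *
      EE k a (l x - l y) t) := fun x y => (EE_int k a hk0 _).const_mul _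
  have hexp : ∀ t : ℝ, ((WW ((t - a) * k) * ‖S t‖ ^ 2 : ℝ) : ℂ) = ∑ x ∈ s, ∑ y ∈ s,
      c x * (starRingEnd ℂ) (c y) * EE k a (l x - l y) t := by
    intro t
    have h1 : ((‖S t‖ ^ 2 : ℝ) : ℂ) = S t * (starRingEnd ℂ) (S t) := by
      rw [Complex.mul_conj']
      push_cast
      rfl
    rw [Complex.ofReal_mul, h1]
    simp only [hS]
    rw [map_sum, sum_mul_sum, mul_sum]
    refine Finset.sum_congr rfl fun x _ => ?_
    rw [mul_sum]
    refine Finset.sum_congr rfl fun y _ => ?_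
    unfold EE
    rw [map_mul, ← Complex.exp_conj, map_mul, map_neg, Complex.conj_ofReal, Complex.conj_I]
    have h2 : Complex.exp (-((t * (l x - l y) : ℝ) : ℂ) * Complex.I) =
        Complex.exp (-((t * l x : ℝ) : ℂ) * Complex.I) *
          Complex.exp (-((t * l y : ℝ) : ℂ) * -Complex.I) := by
      rw [← Complex.exp_add]
      congr 1
      push_cast
      ring
    rw [h2]
    ring
  have hint : Integrable (fun t : ℝ => WW ((t - a) * k) * ‖S t‖ ^ 2) := by
    have h1 : Integrable (fun t : ℝ => ((WW ((t - a) * k) * ‖S t‖ ^ 2 : ℝ) : ℂ)) := by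
      simp_rw [hexp]
      exact integrable_finsetSum _ fun x _ => integrable_finsetSum _ fun y _ => hterm x y
    have h2 := h1.re
    refine h2.congr (Filter.Eventually.of_forall fun t => ?_)
    exact Complex.ofReal_re _
  -- step 1
  have step1 : ∫ t in (T / 2)..(3 * T), ‖S t‖ ^ 2 ≤
      c1⁻¹ * ∫ t : ℝ, WW ((t - a) * k) * ‖S t‖ ^ 2 := by
    have h1 : ∫ t in (T / 2)..(3 * T), ‖S t‖ ^ 2 ≤
        ∫ t in (T / 2)..(3 * T), c1⁻¹ * (WW ((t - a) * k) * ‖S t‖ ^ 2) := by
      apply intervalIntegral.integral_mono_on (by linarith)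
      · exact (hScont.norm.pow 2).intervalIntegrable _ _
      · exact Continuous.intervalIntegrable (by fun_prop) _ _
      · intro t ht
        have h2 : |(t - a) * k| ≤ s1 := by
          rw [abs_mul, abs_of_pos hk0]
          have h3 : |t - a| ≤ 5 * T / 4 := by
            rw [abs_le]
            constructor <;> [skip; skip] <;> simp only [ha] <;> linarith [ht.1, ht.2]
          calc |t - a| * k ≤ 5 * T / 4 * k := by gcongr
            _ = s1 := by rw [hk]; field_simp
        have h4 := hW _ h2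
        calc ‖S t‖ ^ 2 = c1⁻¹ * (c1 * ‖S t‖ ^ 2) := by field_simp
          _ ≤ c1⁻¹ * (WW ((t - a) * k) * ‖S t‖ ^ 2) := by gcongr
    refine h1.trans ?_
    rw [intervalIntegral.integral_const_mul, intervalIntegral.integral_of_le (by linarith)]
    have h5 := setIntegral_le_integral (s := Set.Ioc (T / 2) (3 * T)) hint
      (Filter.Eventually.of_forall fun t => mul_nonneg (WW_nonneg _) (sq_nonneg _))
    gcongr
  -- step 2
  have step2 : ∫ t : ℝ, WW ((t - a) * k) * ‖S t‖ ^ 2 ≤
      ∑ x ∈ s, ∑ y ∈ s, k⁻¹ * if |l x - l y| < k then ‖c x‖ * ‖c y‖ else 0 := by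
    have h1 : ((∫ t : ℝ, WW ((t - a) * k) * ‖S t‖ ^ 2 : ℝ) : ℂ) =
        ∑ x ∈ s, ∑ y ∈ s, c x * (starRingEnd ℂ) (c y) * ∫ t, EE k a (l x - l y) t := by
      rw [← integral_complex_ofReal]
      simp_rw [hexp]
      rw [integral_finsetSum _ fun x _ => integrable_finsetSum _ fun y _ => hterm x y]
      refine Finset.sum_congr rfl fun x _ => ?_
      rw [integral_finsetSum _ fun y _ => hterm x y]
      refine Finset.sum_congr rfl fun y _ => ?_
      rw [MeasureTheory.integral_const_mul]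
    have h2 : ∫ t : ℝ, WW ((t - a) * k) * ‖S t‖ ^ 2 ≤
        ‖((∫ t : ℝ, WW ((t - a) * k) * ‖S t‖ ^ 2 : ℝ) : ℂ)‖ := by
      rw [Complex.norm_real]
      exact le_abs_self _
    refine h2.trans ?_
    rw [h1]
    refine (norm_sum_le _ _).trans (Finset.sum_le_sum fun x _ => ?_)
    refine (norm_sum_le _ _).trans (Finset.sum_le_sum fun y _ => ?_)
    rw [norm_mul, norm_mul, RCLike.norm_conj]
    split_ifs with h
    · have := EE_norm k a hk0 (l x - l y)
      calc ‖c x‖ * ‖c y‖ * _ ≤ ‖c x‖ * ‖c y‖ * k⁻¹ := by gcongr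
        _ = _ := by ring
    · rw [EE_zero k a hk0 _ (not_lt.1 h)]
      simp
  calc ∫ t in (T / 2)..(3 * T), ‖S t‖ ^ 2 ≤ c1⁻¹ * ∫ t : ℝ, WW ((t - a) * k) * ‖S t‖ ^ 2 := step1
    _ ≤ c1⁻¹ * ∑ x ∈ s, ∑ y ∈ s, k⁻¹ * (if |l x - l y| < k then ‖c x‖ * ‖c y‖ else 0) := by
        gcongr
    _ = _ := by
        simp_rw [← Finset.mul_sum]
        rw [hk]
        field_simp

end Pool.Agent.ZShort
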