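import Pool.Agent.ZShort.NearCount
import Pool.Agent.ZShort.MSc

/-!
# The mean square of a sum over pairs near the diagonal
-/

namespace Pool.Agent.ZShort

open MeasureTheory Finset

namespace NearAux

lemma exp_diff {p q R : ℝ} (hp : Real.exp p ≤ R) (hq : Real.exp q ≤ R) :
    |Real.exp p - Real.exp q| ≤ R * |p - q| := by
  wlog h : q ≤ p generalizing p q
  · rw [abs_sub_comm, abs_sub_comm p q]
    exact this hq hp (not_le.1 h).le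
  have h1 : Real.exp q ≤ Real.exp p := Real.exp_le_exp.2 h
  rw [abs_of_nonneg (by linarith), abs_of_nonneg (by linarith)]
  have h2 : Real.exp q = Real.exp p * Real.exp (q - p) := by
    rw [← Real.exp_add]; congr 1; ring
  have h3 := Real.add_one_le_exp (q - p)
  have h4 := Real.exp_pos p
  rw [h2]
  nlinarith

/-- two near frequencies -/
lemma near_log {x y k : ℝ} (hx : 0 < x) (hy : 0 < y) (hx2 : x ≤ 3 / 2) (hy2 : y ≤ 3 / 2)
    (h : |Real.log x - Real.log y| < k) : |x - y| ≤ 3 / 2 * k := by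
  have := exp_diff (p := Real.log x) (q := Real.log y) (R := 3 / 2)
    (by rwa [Real.exp_log hx]) (by rwa [Real.exp_log hy])
  rw [Real.exp_log hx, Real.exp_log hy] at this
  linarith

/-- Data of a pair near the diagonal. -/
structure Good (X η : ℝ) (p : ℕ × ℕ) : Prop where
  h1 : 1 ≤ p.1
  h2 : (p.1:ℝ) ≤ X
  h3 : p.1 ≠ p.2
  h4 : |(p.1:ℝ) - p.2| ≤ η * p.1

/-- the distance to the diagonal -/
def dd (p : ℕ × ℕ) : ℕ := if p.1 < p.2 then p.2 - p.1 else p.1 - p.2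

lemma dd_pos {X η : ℝ} {p : ℕ × ℕ} (h : Good X η p) : 1 ≤ dd p := by
  have := h.h3
  unfold dd
  split_ifs <;> omega

lemma dd_abs (p : ℕ × ℕ) : (dd p : ℝ) = |(p.1:ℝ) - p.2| := by
  unfold dd
  split_ifs with h
  · rw [Nat.cast_sub h.le, abs_of_neg]
    · ring
    · have : (p.1:ℝ) < p.2 := by exact_mod_cast h
      linarith
  · rw [Nat.cast_sub (not_lt.1 h), abs_of_nonneg]
    have : (p.2:ℝ) ≤ p.1 := by exact_mod_cast not_lt.1 h
    linarith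

lemma dd_le {X η : ℝ} {p : ℕ × ℕ} (h : Good X η p) : (dd p : ℝ) ≤ η * p.1 := by
  rw [dd_abs]
  exact h.h4

/-- Two near frequencies: the pairs are on the same side of the diagonal and the
distances are nearly proportional. -/
lemma near_pair {X η k : ℝ} (hη : 0 < η) (hη2 : η ≤ 1 / 2)
    (hk : 3 / 2 * k * X ≤ 1 / 2) (hk0 : 0 ≤ k) {p q : ℕ × ℕ} (hp : Good X η p) (hq : Good X η q)
    (h : |Real.log ((p.2:ℝ) / p.1) - Real.log ((q.2:ℝ) / q.1)| < k) :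
    (p.1 < p.2 ↔ q.1 < q.2) ∧
      |(dd p : ℝ) * q.1 - dd q * p.1| ≤ 3 / 2 * k * (p.1 * q.1) := by
  have hp1 : (1:ℝ) ≤ p.1 := by exact_mod_cast hp.h1
  have hq1 : (1:ℝ) ≤ q.1 := by exact_mod_cast hq.h1
  have hp0 : (0:ℝ) < p.1 := by linarith
  have hq0 : (0:ℝ) < q.1 := by linarith
  obtain ⟨hp4, hp5⟩ := abs_le.1 hp.h4
  obtain ⟨hq4, hq5⟩ := abs_le.1 hq.h4
  have a1 : (p.2:ℝ) ≤ 3 / 2 * p.1 := by nlinarith
  have a2 : 1 / 2 * p.1 ≤ (p.2:ℝ) := by nlinarith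
  have b1 : (q.2:ℝ) ≤ 3 / 2 * q.1 := by nlinarith
  have b2 : 1 / 2 * q.1 ≤ (q.2:ℝ) := by nlinarith
  have c1 := near_log (x := (p.2:ℝ) / p.1) (y := (q.2:ℝ) / q.1) (k := k)
    (div_pos (by linarith) hp0) (div_pos (by linarith) hq0)
    (by rw [div_le_iff₀ hp0]; linarith) (by rw [div_le_iff₀ hq0]; linarith) h
  have c2 : |(p.2:ℝ) * q.1 - q.2 * p.1| ≤ 3 / 2 * k * (p.1 * q.1) := by
    have e : (p.2:ℝ) * q.1 - q.2 * p.1 = ((p.2:ℝ) / p.1 - (q.2:ℝ) / q.1) * (p.1 * q.1) := by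
      field_simp
    rw [e, abs_mul, abs_of_pos (by positivity : (0:ℝ) < p.1 * q.1)]
    gcongr
  have c3 : 3 / 2 * k * (p.1 * q.1) ≤ 1 / 2 * q.1 := by
    have : 3 / 2 * k * p.1 ≤ 1 / 2 := le_trans (by have := hp.h2; gcongr) hk
    nlinarith
  have c4 : 3 / 2 * k * (p.1 * q.1) ≤ 1 / 2 * p.1 := by
    have : 3 / 2 * k * q.1 ≤ 1 / 2 := le_trans (by have := hq.h2; gcongr) hk
    nlinarith
  obtain ⟨c5, c6⟩ := abs_le.1 c2
  rcases Nat.lt_or_gt_of_ne hp.h3 with s1 | s1 <;> rcases Nat.lt_or_gt_of_ne hq.h3 with s2 | s2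
  · refine ⟨by simp [s1, s2], ?_⟩
    have e1 : (dd p : ℝ) = p.2 - p.1 := by
      unfold dd; rw [if_pos s1, Nat.cast_sub s1.le]
    have e2 : (dd q : ℝ) = q.2 - q.1 := by
      unfold dd; rw [if_pos s2, Nat.cast_sub s2.le]
    rw [e1, e2]
    have e : ((p.2:ℝ) - p.1) * q.1 - (q.2 - q.1) * p.1 = (p.2:ℝ) * q.1 - q.2 * p.1 := by ring
    rw [e]
    exact c2
  · exfalso
    have t1 : (p.1:ℝ) + 1 ≤ p.2 := by exact_mod_cast s1
    have t2 : (q.2:ℝ) + 1 ≤ q.1 := by exact_mod_cast s2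
    nlinarith
  · exfalso
    have t1 : (p.2:ℝ) + 1 ≤ p.1 := by exact_mod_cast s1
    have t2 : (q.1:ℝ) + 1 ≤ q.2 := by exact_mod_cast s2
    nlinarith
  · refine ⟨iff_of_false (not_lt.2 s1.le) (not_lt.2 s2.le), ?_⟩
    have e1 : (dd p : ℝ) = p.1 - p.2 := by
      unfold dd; rw [if_neg (not_lt.2 s1.le), Nat.cast_sub s1.le]
    have e2 : (dd q : ℝ) = q.1 - q.2 := by
      unfold dd; rw [if_neg (not_lt.2 s2.le), Nat.cast_sub s2.le]
    rw [e1, e2]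
    have e : ((p.1:ℝ) - p.2) * q.1 - (q.1 - q.2) * p.1 = -((p.2:ℝ) * q.1 - q.2 * p.1) := by ring
    rw [e, abs_neg]
    exact c2

open Classical in
lemma near_sum {X η k : ℝ} (hX : 1 ≤ X) (hη : 0 < η) (hη2 : η ≤ 1 / 2)
    (hk : 3 / 2 * k * X ≤ 1 / 2) (hk0 : 0 ≤ k) (F : Finset (ℕ × ℕ))
    (hF : ∀ p ∈ F, Good X η p) :
    ∑ p ∈ F, ∑ q ∈ F, (if |Real.log ((p.2:ℝ) / p.1) - Real.log ((q.2:ℝ) / q.1)| < k then
      1 / ((p.1:ℝ) * q.1) else 0) ≤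
      32 * η * (1 + Real.log X) ^ 3 * (1 + 3 / 2 * k * X ^ 2) := by
  set M : ℝ := 3 / 2 * k with hM
  have hM0 : 0 ≤ M := by positivity
  rw [← sum_product', ← sum_filter]
  set S := (F ×ˢ F).filter
    (fun z => |Real.log ((z.1.2:ℝ) / z.1.1) - Real.log ((z.2.2:ℝ) / z.2.1)| < k) with hS
  set N := ⌊X⌋₊ with hN
  set Tg : Finset (Bool × (Σ _ : ℕ × ℕ, ℕ × ℕ)) :=
    (Finset.univ : Finset Bool) ×ˢ ((Icc 1 N ×ˢ Icc 1 N).sigma fun p => PP X M η p.1 p.2) with hTg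
  set φ : (ℕ × ℕ) × (ℕ × ℕ) → Bool × (Σ _ : ℕ × ℕ, ℕ × ℕ) :=
    fun z => (decide (z.1.1 < z.1.2), ⟨(dd z.1, dd z.2), (z.1.1, z.2.1)⟩) with hφ
  have hSm : ∀ z ∈ S, Good X η z.1 ∧ Good X η z.2 ∧ (z.1.1 < z.1.2 ↔ z.2.1 < z.2.2) ∧
      |(dd z.1 : ℝ) * z.2.1 - dd z.2 * z.1.1| ≤ M * (z.1.1 * z.2.1) := by
    intro z hz
    rw [hS, mem_filter, mem_product] at hz
    obtain ⟨⟨h1, h2⟩, h3⟩ := hz
    obtain ⟨h4, h5⟩ := near_pair hη hη2 hk hk0 (hF _ h1) (hF _ h2) h3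
    exact ⟨hF _ h1, hF _ h2, h4, h5⟩
  have hinj : Set.InjOn φ (S : Set _) := by
    intro z hz w hw hzw
    obtain ⟨a1, a2, a3, -⟩ := hSm z (mem_coe.1 hz)
    obtain ⟨b1, b2, b3, -⟩ := hSm w (mem_coe.1 hw)
    simp only [hφ, Prod.mk.injEq, Sigma.mk.injEq, heq_eq_eq, decide_eq_decide] at hzw
    obtain ⟨e1, ⟨e2, e3⟩, e4, e5⟩ := hzw
    have a4 := a1.h3
    have a5 := a2.h3
    have b4 := b1.h3
    have b5 := b2.h3
    obtain ⟨⟨z1, z2⟩, ⟨z3, z4⟩⟩ := z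
    obtain ⟨⟨w1, w2⟩, ⟨w3, w4⟩⟩ := w
    simp only [dd] at *
    subst e4 e5
    have e6 : z2 = w2 := by
      split_ifs at e2 <;> omega
    have e7 : z4 = w4 := by
      split_ifs at e3 <;> omega
    rw [e6, e7]
  have hval : ∀ z ∈ S, 1 / ((z.1.1:ℝ) * z.2.1) =
      (fun w : Bool × (Σ _ : ℕ × ℕ, ℕ × ℕ) => 1 / ((w.2.2.1:ℝ) * w.2.2.2)) (φ z) := by
    intro z _
    rfl
  rw [sum_congr rfl hval, ← sum_image (f := fun w : Bool × (Σ _ : ℕ × ℕ, ℕ × ℕ) =>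
    1 / ((w.2.2.1:ℝ) * w.2.2.2)) hinj]
  have hsub : S.image φ ⊆ Tg := by
    intro w hw
    obtain ⟨z, hz, rfl⟩ := mem_image.1 hw
    obtain ⟨a1, a2, a3, a4⟩ := hSm z hz
    have c1 := dd_pos a1
    have c2 := dd_pos a2
    have c3 := dd_le a1
    have c4 := dd_le a2
    have d1 : z.1.1 ≤ N := Nat.le_floor a1.h2
    have d2 : z.2.1 ≤ N := Nat.le_floor a2.h2
    have d3 : dd z.1 ≤ z.1.1 := by
      have : (dd z.1 : ℝ) ≤ z.1.1 := c3.trans (by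
        have : (0:ℝ) ≤ z.1.1 := by positivity
        nlinarith)
      exact_mod_cast this
    have d4 : dd z.2 ≤ z.2.1 := by
      have : (dd z.2 : ℝ) ≤ z.2.1 := c4.trans (by
        have : (0:ℝ) ≤ z.2.1 := by positivity
        nlinarith)
      exact_mod_cast this
    simp only [hTg, hφ, mem_product, mem_univ, true_and, mem_sigma, mem_Icc]
    refine ⟨⟨⟨c1, d3.trans d1⟩, ⟨c2, d4.trans d2⟩⟩, ?_⟩
    unfold PP
    rw [mem_filter, mem_product, mem_Icc, mem_Icc]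
    exact ⟨⟨⟨a1.h1, d1⟩, a2.h1, d2⟩, c3, c4, a4⟩
  refine (sum_le_sum_of_subset_of_nonneg hsub fun _ _ _ => by positivity).trans ?_
  rw [hTg, sum_product]
  simp only [sum_sigma]
  rw [sum_const, card_univ, Fintype.card_bool, nsmul_eq_mul]
  have hq := quad (X := X) (M := M) (η := η) hX hM0 hk hη (by linarith)
  have : ((2:ℕ):ℝ) * ∑ p ∈ Icc 1 N ×ˢ Icc 1 N, ∑ a ∈ PP X M η p.1 p.2, 1 / ((a.1:ℝ) * a.2) ≤
      2 * (16 * η * (1 + Real.log X) ^ 3 * (1 + M * X ^ 2)) := by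
    push_cast
    gcongr
  refine this.trans (le_of_eq ?_)
  rw [hM]
  ring

end NearAux

open NearAux in
/-- **Mean square of a sum over pairs near the diagonal.** -/
theorem near_ms : ∃ C M0 : ℝ, 0 < C ∧ 0 < M0 ∧ ∀ (T X η K : ℝ), 1 ≤ X → X ≤ M0 * T → 0 < η →
    η ≤ 1 / 2 → 0 ≤ K → ∀ (F : Finset (ℕ × ℕ)) (c : ℕ × ℕ → ℂ),
    (∀ p ∈ F, 1 ≤ p.1 ∧ (p.1 : ℝ) ≤ X ∧ p.1 ≠ p.2 ∧ |(p.1 : ℝ) - p.2| ≤ η * p.1 ∧
      ‖c p‖ * p.1 ≤ K) →
    ∫ t in (T / 2)..(3 * T),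
      ‖∑ p ∈ F, c p * Complex.exp (-((t * Real.log (p.2 / p.1) : ℝ) : ℂ) * Complex.I)‖ ^ 2 ≤
      C * K ^ 2 * T * η * (1 + Real.log X) ^ 3 * (1 + X ^ 2 / T) := by
  classical
  obtain ⟨C, C0, hC, hC0, H⟩ := exists_ms_c
  refine ⟨C * (32 * (1 + 3 / 2 * C0)), 1 / (3 * C0), by positivity, by positivity, ?_⟩
  intro T X η K hX hXT hη hη2 hK F c hF
  have hT : 0 < T := by
    by_contra hT
    have : 1 / (3 * C0) * T ≤ 0 := mul_nonpos_of_nonneg_of_nonpos (by positivity) (not_lt.1 hT)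
    linarith
  refine (H F c (fun p => Real.log (p.2 / p.1)) T hT).trans ?_
  have hk : 3 / 2 * (C0 / T) * X ≤ 1 / 2 := by
    calc 3 / 2 * (C0 / T) * X ≤ 3 / 2 * (C0 / T) * (1 / (3 * C0) * T) := by gcongr
      _ = 1 / 2 := by field_simp
  have hk0 : 0 ≤ C0 / T := by positivity
  have h1 := near_sum hX hη hη2 hk hk0 F (fun p hp => by
    obtain ⟨a, b, c, d, -⟩ := hF p hp
    exact ⟨a, b, c, d⟩)
  have h2 : ∑ p ∈ F, ∑ q ∈ F,
      (if |Real.log ((p.2:ℝ) / p.1) - Real.log ((q.2:ℝ) / q.1)| < C0 / T then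
        ‖c p‖ * ‖c q‖ else 0) ≤
      K ^ 2 * ∑ p ∈ F, ∑ q ∈ F,
        (if |Real.log ((p.2:ℝ) / p.1) - Real.log ((q.2:ℝ) / q.1)| < C0 / T then
          1 / ((p.1:ℝ) * q.1) else 0) := by
    rw [mul_sum]
    refine sum_le_sum fun p hp => ?_
    rw [mul_sum]
    refine sum_le_sum fun q hq => ?_
    split_ifs
    · obtain ⟨a1, -, -, -, a5⟩ := hF p hp
      obtain ⟨b1, -, -, -, b5⟩ := hF q hq
      have hp0 : (0:ℝ) < p.1 := by exact_mod_cast a1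
      have hq0 : (0:ℝ) < q.1 := by exact_mod_cast b1
      rw [mul_one_div, le_div_iff₀ (by positivity)]
      calc ‖c p‖ * ‖c q‖ * (p.1 * q.1) = (‖c p‖ * p.1) * (‖c q‖ * q.1) := by ring
        _ ≤ K * K := by gcongr
        _ = K ^ 2 := by ring
    · simp
  have hL : 0 ≤ Real.log X := Real.log_nonneg hX
  calc _ ≤ C * T * (K ^ 2 * (32 * η * (1 + Real.log X) ^ 3 * (1 + 3 / 2 * (C0 / T) * X ^ 2))) := by
        refine mul_le_mul_of_nonneg_left (h2.trans ?_) (by positivity)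
        exact mul_le_mul_of_nonneg_left h1 (by positivity)
    _ ≤ C * T * (K ^ 2 * (32 * η * (1 + Real.log X) ^ 3 *
        ((1 + 3 / 2 * C0) * (1 + X ^ 2 / T)))) := by
        have : 1 + 3 / 2 * (C0 / T) * X ^ 2 ≤ (1 + 3 / 2 * C0) * (1 + X ^ 2 / T) := by
          have e : 3 / 2 * (C0 / T) * X ^ 2 = 3 / 2 * C0 * (X ^ 2 / T) := by ring
          rw [e]
          have : 0 ≤ X ^ 2 / T := by positivity
          nlinarith
        gcongr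
    _ = _ := by ring

end Pool.Agent.ZShort
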