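import Pool.Agent.ZShort.AAFinal
import Pool.Agent.ZShort.LargePos2
import Pool.Agent.ZGap.PS.Height

/-!
# Small, resp. large gaps: every block, and better constants in almost every block
-/

namespace Pool.Agent.ZShort

open MeasureTheory Set Filter Pool.Agent.Hadamard Pool.Agent.ZetaGaps Pool.Agent.ShortPos

namespace AAFin

open Classical in
lemma AllBlocks.count {b : ℝ} {P : ℕ → Prop} [DecidablePred P] (h : AllBlocks b P) :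
    ∃ κ : ℝ, 0 < κ ∧ ∀ κ' : ℝ, κ' ≤ κ → ∃ c : ℝ, 0 < c ∧ ∃ N₀ : ℕ, ∀ N : ℕ, N₀ ≤ N →
      (({n ∈ Finset.Icc 1 N | ¬ ∀ M : ℕ, (n:ℝ) ^ b ≤ M →
        κ' * M ≤ (({k ∈ Finset.Ioc n (n + M) | P k} : Finset ℕ).card : ℝ)} :
          Finset ℕ).card : ℝ) ≤ (N:ℝ) ^ (1 - c) := by
  obtain ⟨κ, c, N0, hκ, hc, h⟩ := h
  refine ⟨κ, hκ, fun κ' hκ' => ⟨c, hc, N0, fun N hN => h N hN _ fun n hn => ?_⟩⟩
  rw [Finset.mem_filter, Finset.mem_Icc] at hn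
  obtain ⟨⟨n1, n2⟩, n3⟩ := hn
  push Not at n3
  obtain ⟨M, m1, m2⟩ := n3
  have hM0 : (0:ℝ) ≤ M := Nat.cast_nonneg _
  exact ⟨n1, n2, M, m1, m2.trans_le (by gcongr)⟩

end AAFin

open Classical AAFin in
/-- **Small gaps in every short interval, and in almost every short block.** (RH) -/
theorem small_three (hRH : RiemannHypothesis) {a ε : ℝ} (ha : 0 < a) (ha1 : a ≤ 1) (hε : 0 < ε) :
    ∃ κ : ℝ, 0 < κ ∧
      (∃ T₀ : ℝ, ∀ T H : ℝ, T₀ ≤ T → T ^ a ≤ H →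
        κ * ((zeroCount (T + H) : ℝ) - zeroCount T) ≤
          (({n ∈ Finset.Ioo (zeroCount T) (zeroCount (T + H)) | gap n < 1 / (1 + a) + ε} :
            Finset ℕ).card : ℝ)) ∧
      (∃ N₀ : ℕ, ∀ N M : ℕ, N₀ ≤ N → (N : ℝ) ^ a ≤ M →
        κ * M ≤ (({n ∈ Finset.Ioc N (N + M) | gap n < 1 / (1 + a) + ε} :
          Finset ℕ).card : ℝ)) ∧
      (a < 1 → ∃ c : ℝ, 0 < c ∧ ∃ N₀ : ℕ, ∀ N : ℕ, N₀ ≤ N →
        (({n ∈ Finset.Icc 1 N | ¬ ∀ M : ℕ, (n : ℝ) ^ a ≤ M →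
          κ * M ≤ (({k ∈ Finset.Ioc n (n + M) | gap k < 2 / (3 + a) + ε} :
            Finset ℕ).card : ℝ)} : Finset ℕ).card : ℝ) ≤ (N : ℝ) ^ (1 - c)) := by
  obtain ⟨κ1, hκ1, T0, h1⟩ := pos_height hRH ha ha1 hε
  obtain ⟨κ2, hκ2, N0, h2⟩ := pos_index hRH ha ha1 hε
  obtain ⟨κ3, hκ3, h3⟩ : ∃ κ3 : ℝ, 0 < κ3 ∧ ∀ κ' : ℝ, κ' ≤ κ3 → a < 1 → ∃ c : ℝ, 0 < c ∧
      ∃ N₀ : ℕ, ∀ N : ℕ, N₀ ≤ N →
        (({n ∈ Finset.Icc 1 N | ¬ ∀ M : ℕ, (n : ℝ) ^ a ≤ M →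
          κ' * M ≤ (({k ∈ Finset.Ioc n (n + M) | gap k < 2 / (3 + a) + ε} :
            Finset ℕ).card : ℝ)} : Finset ℕ).card : ℝ) ≤ (N : ℝ) ^ (1 - c) := by
    by_cases ha2 : a < 1
    · obtain ⟨κ3, hκ3, h3⟩ := (small_all hRH ha ha2 hε).count
      refine ⟨κ3, hκ3, fun κ' hκ' _ => ?_⟩
      obtain ⟨c, hc, N0, h⟩ := h3 κ' hκ'
      refine ⟨c, hc, N0, fun N hN => ?_⟩
      convert h N hN
    · exact ⟨1, one_pos, fun _ _ h => absurd h ha2⟩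
  refine ⟨min κ1 (min κ2 κ3), lt_min hκ1 (lt_min hκ2 hκ3), ⟨max T0 0, fun T H hT hH => ?_⟩,
    ⟨N0, fun N M hN hM => ?_⟩, h3 _ ((min_le_right _ _).trans (min_le_right _ _))⟩
  · refine le_trans ?_ (h1 T H ((le_max_left _ _).trans hT) hH)
    have hH0 : 0 ≤ H := (Real.rpow_nonneg ((le_max_right _ _).trans hT) a).trans hH
    have h4 : (zeroCount T : ℝ) ≤ zeroCount (T + H) := by
      exact_mod_cast zeroCount_mono (by linarith)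
    have h5 : 0 ≤ (zeroCount (T + H) : ℝ) - zeroCount T := by linarith
    gcongr
    exact min_le_left _ _
  · refine le_trans ?_ (h2 N M hN hM)
    have hM0 : (0:ℝ) ≤ M := Nat.cast_nonneg _
    gcongr
    exact (min_le_right _ _).trans (min_le_left _ _)

open Classical AAFin in
/-- **Large gaps in every short interval, and in almost every short block.** (RH) -/
theorem large_three (hRH : RiemannHypothesis) {a : ℝ} (ha : 0 < a) (ha1 : a ≤ 1) :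
    ∃ κ : ℝ, 0 < κ ∧
      (∃ T₀ : ℝ, ∀ T H : ℝ, T₀ ≤ T → T ^ a ≤ H →
        κ * ((zeroCount (T + H) : ℝ) - zeroCount T) ≤
          (({n ∈ Finset.Ioo (zeroCount T) (zeroCount (T + H)) |
            (if a = 1 then 3.58 else 1 + a + a ^ 2) < gap n} : Finset ℕ).card : ℝ)) ∧
      (∃ N₀ : ℕ, ∀ N M : ℕ, N₀ ≤ N → (N : ℝ) ^ a ≤ M →
        κ * M ≤ (({n ∈ Finset.Ioc N (N + M) |
          (if a = 1 then 3.58 else 1 + a + a ^ 2) < gap n} : Finset ℕ).card : ℝ)) ∧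
      (a < 1 → ∃ c : ℝ, 0 < c ∧ ∃ N₀ : ℕ, ∀ N : ℕ, N₀ ≤ N →
        (({n ∈ Finset.Icc 1 N | ¬ ∀ M : ℕ, (n : ℝ) ^ a ≤ M →
          κ * M ≤ (({k ∈ Finset.Ioc n (n + M) |
            max 1.89 (1 + (1 + a) / 2 + ((1 + a) / 2) ^ 2) < gap k} :
              Finset ℕ).card : ℝ)} : Finset ℕ).card : ℝ) ≤ (N : ℝ) ^ (1 - c)) := by
  obtain ⟨κ1, hκ1, ⟨T0, h1⟩, ⟨N0, h2⟩⟩ := large_every hRH ha ha1
  obtain ⟨κ3, hκ3, h3⟩ : ∃ κ3 : ℝ, 0 < κ3 ∧ ∀ κ' : ℝ, κ' ≤ κ3 → a < 1 → ∃ c : ℝ, 0 < c ∧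
      ∃ N₀ : ℕ, ∀ N : ℕ, N₀ ≤ N →
        (({n ∈ Finset.Icc 1 N | ¬ ∀ M : ℕ, (n : ℝ) ^ a ≤ M →
          κ' * M ≤ (({k ∈ Finset.Ioc n (n + M) |
            max 1.89 (1 + (1 + a) / 2 + ((1 + a) / 2) ^ 2) < gap k} :
            Finset ℕ).card : ℝ)} : Finset ℕ).card : ℝ) ≤ (N : ℝ) ^ (1 - c) := by
    by_cases ha2 : a < 1
    · obtain ⟨κ3, hκ3, h3⟩ := (large_all hRH ha ha2).count
      refine ⟨κ3, hκ3, fun κ' hκ' _ => ?_⟩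
      obtain ⟨c, hc, N0, h⟩ := h3 κ' hκ'
      refine ⟨c, hc, N0, fun N hN => ?_⟩
      convert h N hN
    · exact ⟨1, one_pos, fun _ _ h => absurd h ha2⟩
  refine ⟨min κ1 κ3, lt_min hκ1 hκ3, ⟨max T0 0, fun T H hT hH => ?_⟩,
    ⟨N0, fun N M hN hM => ?_⟩, h3 _ (min_le_right _ _)⟩
  · refine le_trans ?_ (h1 T H ((le_max_left _ _).trans hT) hH)
    have hH0 : 0 ≤ H := (Real.rpow_nonneg ((le_max_right _ _).trans hT) a).trans hH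
    have h4 : (zeroCount T : ℝ) ≤ zeroCount (T + H) := by
      exact_mod_cast zeroCount_mono (by linarith)
    have h5 : 0 ≤ (zeroCount (T + H) : ℝ) - zeroCount T := by linarith
    gcongr
    exact min_le_left _ _
  · refine le_trans ?_ (h2 N M hN hM)
    have hM0 : (0:ℝ) ≤ M := Nat.cast_nonneg _
    gcongr
    exact min_le_left _ _

end Pool.Agent.ZShort
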