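import Pool.Agent.ZShort.AAEnd0
import Pool.Agent.ZShort.NearMS

/-!
# Small gaps in almost all short intervals
-/

namespace Pool.Agent.ZShortAA

open Complex MeasureTheory Set Pool.Agent.Hadamard Filter Pool.Agent.HalfGap Pool.Agent.ZetaGaps

theorem nearMSStmt : NearMSStmt := Pool.Agent.ZShort.near_ms

/-- **Close pairs in almost all intervals of length `T ^ a`** (RH). -/
theorem exist_EE_AA (hRH : RiemannHypothesis) {a τ : ℝ} (ha : 0 < a)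
    (ha1 : a < 1) (hτ : 2 / (3 + a) < τ) (hτ1 : τ < 1) :
    ∃ η : ℝ, 0 < η ∧ η < a ∧ ∃ c T0 : ℝ, 0 < c ∧ ∀ T : ℝ, T0 ≤ T →
      volume {t0 ∈ Icc T (2 * T) | ∀ t ∈ EE (2 * Real.pi * τ / Real.log T), T ^ η < |t - t0|} ≤
        ENNReal.ofReal (T ^ (1 - c)) :=
  exist_EE_AA_of nearMSStmt hRH ha ha1 hτ hτ1

/-- **Small gaps in almost all short intervals** (RH). -/
theorem small_gaps_aa (hRH : RiemannHypothesis) {a ε : ℝ} (ha : 0 < a)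
    (ha1 : a ≤ 1) (hε : 0 < ε) : ∃ c T0 : ℝ, 0 < c ∧ ∀ T : ℝ, T0 ≤ T →
      volume {t ∈ Icc T (2 * T) | ¬ ∃ n : ℕ, 1 ≤ n ∧ t ≤ ordinate n ∧
        ordinate (n + 1) ≤ t + T ^ a ∧ gap n < 2 / (3 + a) + ε} ≤ ENNReal.ofReal (T ^ (1 - c)) :=
  small_gaps_aa_of nearMSStmt hRH ha ha1 hε

end Pool.Agent.ZShortAA
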