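import Pool.Agent.ZShort.NearMeas0
import Pool.Agent.ZGap.Half.NearWrap
import Pool.Agent.ZGap.Half.ShortEE
import Pool.Agent.ZGap.Half.ExistGap

/-!
# Small gaps in almost all short intervals, from the mean square bound
-/

namespace Pool.Agent.ZShortAA

open Complex MeasureTheory Set Pool.Agent.Hadamard Filter Pool.Agent.HalfGap Pool.Agent.ZetaGaps
open scoped ComplexConjugate Topology

/-- **Close pairs in almost all intervals of length `T ^ a`** (RH). -/
theorem exist_EE_AA_of (hMS : NearMSStmt) (hRH : RiemannHypothesis) {a τ : ℝ} (ha : 0 < a)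
    (ha1 : a < 1) (hτ : 2 / (3 + a) < τ) (hτ1 : τ < 1) :
    ∃ η : ℝ, 0 < η ∧ η < a ∧ ∃ c T0 : ℝ, 0 < c ∧ ∀ T : ℝ, T0 ≤ T →
      volume {t0 ∈ Icc T (2 * T) | ∀ t ∈ EE (2 * Real.pi * τ / Real.log T), T ^ η < |t - t0|} ≤
        ENNReal.ofReal (T ^ (1 - c)) := by
  have hpi := Real.pi_pos
  have h3a : 0 < 3 + a := by linarith
  have hhalf : 1 / 2 < 2 / (3 + a) := by
    rw [div_lt_div_iff₀ (by norm_num) h3a]; linarith
  have hτ0 : 0 < τ := by linarith
  have hτa : 2 < τ * (3 + a) := by rwa [div_lt_iff₀ h3a] at hτ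
  set b := (1 + a) / 2 with hb
  set b0 := 1 / τ - 1 with hb0
  have hτb0 : τ * (1 + b0) = 1 := by rw [hb0]; field_simp; ring
  have hb00 : 0 < b0 := by
    have : 1 < 1 / τ := by rw [lt_div_iff₀ hτ0]; linarith
    rw [hb0]; linarith
  have hb0b : b0 < b := by
    by_contra hcon
    push Not at hcon
    have h4 : τ * (1 + b) ≤ τ * (1 + b0) := by gcongr
    rw [hb] at h4
    linarith
  set κ := (b0 + b) / 2 with hκ
  have hκ0 : 0 < κ := by rw [hκ]; linarith
  have hbκ : b0 < κ := by rw [hκ]; linarith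
  have hκb : κ < b := by rw [hκ]; linarith
  have hκ1 : κ < 1 := by rw [hb] at hκb; linarith
  have hτκ : 1 < τ * (1 + κ) := by
    have : τ * (1 + b0) < τ * (1 + κ) := by gcongr
    linarith
  set g := max (2 * κ - 1) (a / 2) with hg
  have hg1 : 2 * κ - 1 ≤ g := le_max_left _ _
  have hg2 : a / 2 ≤ g := le_max_right _ _
  have hga : g < a := max_lt (by rw [hb] at hκb; linarith) (by linarith)
  set κ' := g + (a - g) / 4 with hκ'
  set η1 := g + (a - g) / 2 with hη1
  set η2 := g + 3 * (a - g) / 4 with hη2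
  set η := (η2 + a) / 2 with hη
  have hκ'0 : 0 < κ' := by rw [hκ']; linarith
  have h6 : 2 * κ < 1 + κ' := by rw [hκ']; linarith
  have hη10 : 0 < η1 := by rw [hη1]; linarith
  have hκη : κ' < η1 := by rw [hη1, hκ']; linarith
  have hη12 : η1 < η2 := by rw [hη1, hη2]; linarith
  have hη12' : η2 < 2 * η1 := by rw [hη1, hη2]; linarith
  have hη2a : η2 < a := by rw [hη2]; linarith
  have hη21 : η2 < 1 := by linarith
  have hη2η : η2 < η := by rw [hη]; linarith
  have hηa : η < a := by rw [hη]; linarith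
  refine ⟨η, by linarith, hηa, ?_⟩
  obtain ⟨c, hc, T1, hMJ⟩ := MJ_gen hτ0 hτ1 hκ0 hκ1 hτκ hη10 hη12' hη12 hη21
  obtain ⟨T2, hW⟩ := wrap_near hRH (τ := τ) (κ := κ') (η1 := η1) (η2 := η2) (A := 4)
    (by linarith) hτ1 hκη (by linarith) hη12 hη21
  obtain ⟨C, T3, hFF⟩ := FF_crude_gen hRH (τ := τ) (by linarith) hτ1
  obtain ⟨c', T4, hc', hmeas⟩ := near_meas_of hMS hτ0 hτ1 hκ0 hκ1 hκ'0 h6 hη10 hη12 hη21
  have e1 : ∀ᶠ T : ℝ in atTop, 2 * T ^ η2 < T ^ η := by
    have h1 : Tendsto (fun T : ℝ => T ^ (η - η2)) atTop atTop :=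
      tendsto_rpow_atTop (by linarith)
    filter_upwards [h1.eventually_gt_atTop 2, eventually_gt_atTop 0] with T hT hT0
    have h2 : T ^ (η - η2) * T ^ η2 = T ^ η := by
      rw [← Real.rpow_add hT0]; congr 1; ring
    have h3 : 0 < T ^ η2 := Real.rpow_pos_of_pos hT0 _
    nlinarith
  have e2 : ∀ᶠ T : ℝ in atTop, 3 / c ≤ Real.log T := Real.tendsto_log_atTop.eventually_ge_atTop _
  have e7 := ((e1.and e2).and ((eventually_ge_atTop T4).and (eventually_ge_atTop T1))).and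
    ((eventually_ge_atTop T2).and (eventually_ge_atTop T3))
  obtain ⟨T0, hT0⟩ := eventually_atTop.mp e7
  refine ⟨c', max T0 1, hc', fun T hT => ?_⟩
  obtain ⟨⟨⟨s1, s2⟩, s3, s4⟩, s5, s6⟩ := hT0 T ((le_max_left _ _).trans hT)
  have h1T : 1 ≤ T := (le_max_right _ _).trans hT
  have hTpos : 0 < T := by linarith
  refine (measure_mono ?_).trans (hmeas T s3)
  rintro t0 ⟨ht0, hno⟩
  refine ⟨ht0, ?_⟩
  by_contra hcon
  rw [not_lt] at hcon
  set X := ⌊T ^ κ⌋₊ with hX
  have hTκ1 : 1 ≤ T ^ κ := Real.one_le_rpow h1T (by linarith)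
  have hXle : (X:ℝ) ≤ T ^ κ := Nat.floor_le (by positivity)
  have hXT : (X:ℝ) ≤ T := hXle.trans (by
    calc T ^ κ ≤ T ^ (1:ℝ) := Real.rpow_le_rpow_of_exponent_le h1T hκ1.le
      _ = T := Real.rpow_one T)
  have hSB : ∑ q ∈ QV X, ‖bV (2 * Real.pi * τ / Real.log T) q‖ * Real.exp (2 * |wV q|) ≤
      T ^ (4:ℝ) := by
    refine (sum_bV_exp_le _ X).trans ?_
    rw [show (4:ℝ) = ((4:ℕ):ℝ) by norm_num, Real.rpow_natCast]
    exact pow_le_pow_left₀ (by positivity) hXT 4
  have hH1 : 1 ≤ T ^ η1 := Real.one_le_rpow h1T (by linarith)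
  have key := hW T s5 t0 ht0.1 ht0.2 (QV X) (bV (2 * Real.pi * τ / Real.log T)) wV
    (fun s => BSV_conj _ X s) (fun t => BSV_re_nonneg _ t X) hSB
    (fun _ => Real.exp 1 * T ^ (4:ℝ) * T ^ C) (fun _ => by positivity)
    (by
      apply Continuous.integrableOn_Icc
      fun_prop)
    (fun t ht s h1 h2 h3 => hFF T s6 (QV X) (bV (2 * Real.pi * τ / Real.log T)) wV _ hSB
      (T ^ η1) t0 hH1 t ht s h1 h2 h3)
  have hempty : Icc (t0 - 2 * T ^ η2) (t0 + 2 * T ^ η2) ∩ EE (2 * Real.pi * τ / Real.log T) = ∅ := by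
    rw [Set.eq_empty_iff_forall_notMem]
    rintro t ⟨ht1, ht2⟩
    have h1 := hno t ht2
    have h2 : |t - t0| ≤ 2 * T ^ η2 := by
      rw [abs_le]; constructor <;> linarith [ht1.1, ht1.2]
    linarith
  rw [hempty, Measure.restrict_empty, integral_zero_measure, Mdiag_eq] at key
  have key2 := hMJ T s4 t0 ht0.1 ht0.2
  have h8 : 3 ≤ c * Real.log T := by
    rw [div_le_iff₀ hc] at s2
    linarith
  have h9 : 3 * T ^ η1 ≤ c * Real.log T * T ^ η1 := by gcongr
  have h11 := key.trans key2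
  linarith

/-- **Small gaps in almost all short intervals** (RH), from the mean square bound; `a < 1`. -/
theorem small_gaps_aa_lt (hMS : NearMSStmt) (hRH : RiemannHypothesis) {a ε : ℝ} (ha : 0 < a)
    (ha1 : a < 1) (hε : 0 < ε) : ∃ c T0 : ℝ, 0 < c ∧ ∀ T : ℝ, T0 ≤ T →
      volume {t ∈ Icc T (2 * T) | ¬ ∃ n : ℕ, 1 ≤ n ∧ t ≤ ordinate n ∧
        ordinate (n + 1) ≤ t + T ^ a ∧ gap n < 2 / (3 + a) + ε} ≤ ENNReal.ofReal (T ^ (1 - c)) := by
  have hpi := Real.pi_pos
  have hpi4 := Real.pi_lt_four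
  have h3a : 0 < 3 + a := by linarith
  have hs : 2 / (3 + a) + (1 + a) / (3 + a) = 1 := by field_simp; ring
  have hs0 : 0 < (1 + a) / (3 + a) := by positivity
  have hp0 : 0 < 2 / (3 + a) := by positivity
  set p := 2 / (3 + a) with hp
  set m := min ε ((1 + a) / (3 + a)) with hm
  have hm0 : 0 < m := lt_min hε hs0
  have hm2 : m ≤ (1 + a) / (3 + a) := min_le_right _ _
  have hm1 : m ≤ 1 := by linarith
  have hmε : m ≤ ε := min_le_left _ _
  have hpm : p + m ≤ 1 := by linarith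
  obtain ⟨η1, hη10, hη1a, c0, T1, hc0, h⟩ := exist_EE_AA_of hMS hRH ha ha1 (τ := p + m / 4)
    (by linarith) (by linarith)
  have hη1c : η1 < 1 := by linarith
  set c1 := min c0 (1 - η1) with hc1
  have hc10 : 0 < c1 := lt_min hc0 (by linarith)
  have hc1a : c1 ≤ c0 := min_le_left _ _
  have hc1b : c1 ≤ 1 - η1 := min_le_right _ _
  have ev1 : ∀ᶠ T : ℝ in atTop, 16 / m ≤ Real.log T :=
    Real.tendsto_log_atTop.eventually_ge_atTop _
  have ev2 : ∀ᶠ T : ℝ in atTop, 3 ≤ T ^ (1 - η1) :=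
    (tendsto_rpow_atTop (by linarith)).eventually_ge_atTop _
  have ev3 : ∀ᶠ T : ℝ in atTop, 8 ≤ T ^ (a - η1) :=
    (tendsto_rpow_atTop (by linarith)).eventually_ge_atTop _
  have ev4 : ∀ᶠ T : ℝ in atTop, 16 ≤ T ^ η1 :=
    (tendsto_rpow_atTop (by linarith)).eventually_ge_atTop _
  have ev5 : ∀ᶠ T : ℝ in atTop, 4 ≤ T ^ (c1 / 2) :=
    (tendsto_rpow_atTop (by linarith)).eventually_ge_atTop _
  obtain ⟨T0, hT0⟩ := eventually_atTop.1
    (ev1.and (ev2.and (ev3.and (ev4.and (ev5.and (eventually_ge_atTop (max T1 1)))))))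
  refine ⟨c1 / 2, T0, by linarith, fun T hT => ?_⟩
  obtain ⟨h1, h2, h3, h4, h4', h5⟩ := hT0 T hT
  have hT1 : T1 ≤ T := (le_max_left _ _).trans h5
  have hTone : 1 ≤ T := (le_max_right _ _).trans h5
  have hTpos : 0 < T := by linarith
  have hL16 : 16 ≤ Real.log T := by
    refine le_trans ?_ h1
    rw [le_div_iff₀ hm0]; linarith
  set L := Real.log T with hL
  have hLpos : 0 < L := by linarith
  set β : ℝ := 2 * Real.pi * (p + m / 2) / L with hβ
  have hαβ : 2 * Real.pi * (p + m / 4) / L < β := by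
    rw [hβ]
    apply div_lt_div_of_pos_right _ hLpos
    have : 0 < 2 * Real.pi := by positivity
    nlinarith
  have hα0 : 0 < 2 * Real.pi * (p + m / 4) / L := by positivity
  have hβ8 : β ≤ 8 := by
    rw [hβ, div_le_iff₀ hLpos]
    nlinarith
  have hη1pos : 0 < T ^ η1 := by positivity
  have e1 : T ^ η1 * 3 ≤ T := by
    have e2 : T = T ^ η1 * T ^ (1 - η1) := by
      rw [← Real.rpow_add hTpos]
      conv_lhs => rw [← Real.rpow_one T]
      congr 1; ring
    calc T ^ η1 * 3 ≤ T ^ η1 * T ^ (1 - η1) := by gcongr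
      _ = T := e2.symm
  have e2 : T ^ η1 * 8 ≤ T ^ a := by
    have e2 : T ^ a = T ^ η1 * T ^ (a - η1) := by
      rw [← Real.rpow_add hTpos]
      congr 1; ring
    rw [e2]
    gcongr
  have e3 : T ^ a ≤ T := by
    conv_rhs => rw [← Real.rpow_one T]
    exact Real.rpow_le_rpow_of_exponent_le hTone ha1.le
  set BE := {t0 ∈ Icc T (2 * T) | ∀ t ∈ EE (2 * Real.pi * (p + m / 4) / Real.log T),
    T ^ η1 < |t - t0|} with hBE
  have hsub : {t ∈ Icc T (2 * T) | ¬ ∃ n : ℕ, 1 ≤ n ∧ t ≤ ordinate n ∧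
      ordinate (n + 1) ≤ t + T ^ a ∧ gap n < p + ε} ⊆
      ((fun t => t + 3 * T ^ η1) ⁻¹' BE) ∪ Icc (2 * T - 3 * T ^ η1) (2 * T) := by
    rintro u ⟨hu, hno⟩
    rcases le_or_gt (u + 3 * T ^ η1) (2 * T) with hc | hc
    · left
      rw [mem_preimage, hBE]
      refine ⟨⟨by linarith [hu.1], hc⟩, ?_⟩
      intro t htE
      by_contra hcon
      rw [not_lt] at hcon
      apply hno
      have ht' := abs_le.mp hcon
      obtain ⟨n, hn1, hn2, hn3, hn4⟩ := exists_ordinate_of_EE hα0 hαβ htE (by linarith [hu.1])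
      have h6 : u ≤ ordinate n := by linarith
      have h7 : ordinate (n + 1) ≤ u + T ^ a := by linarith
      refine ⟨n, hn1, h6, h7, ?_⟩
      refine (gap_le hn1).trans_lt ?_
      have h8 : Real.log (ordinate (n + 1)) ≤ L + 2 := by
        have h9 : ordinate (n + 1) ≤ 4 * T := by linarith [hu.2]
        have h10 : 0 < ordinate (n + 1) := by
          have := ordinate_mono (zeroCount_unbounded (n + 1)) hn1 (by omega : n ≤ n + 1)
          linarith [hu.1]
        calc Real.log (ordinate (n + 1)) ≤ Real.log (4 * T) := Real.log_le_log h10 h9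
          _ = Real.log 4 + L := Real.log_mul (by norm_num) hTpos.ne'
          _ ≤ L + 2 := by
              have : Real.log 4 = 2 * Real.log 2 := by
                rw [show (4:ℝ) = 2 ^ 2 by norm_num, Real.log_pow]; push_cast; ring
              linarith [Real.log_two_lt_d9]
      have h9 : (ordinate (n + 1) - ordinate n) * (Real.log (ordinate (n + 1)) + 1) ≤
          β * (L + 3) := by
        have h11 : 0 ≤ Real.log (ordinate (n + 1)) + 1 := by
          have h12 := ordinate_mono (zeroCount_unbounded (n + 1)) hn1 (by omega : n ≤ n + 1)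
          have : 0 ≤ Real.log (ordinate (n + 1)) := Real.log_nonneg (by linarith [hu.1])
          linarith
        calc (ordinate (n + 1) - ordinate n) * (Real.log (ordinate (n + 1)) + 1)
            ≤ β * (Real.log (ordinate (n + 1)) + 1) := by gcongr
          _ ≤ β * (L + 3) := by
              apply mul_le_mul_of_nonneg_left _ (hα0.trans hαβ).le
              linarith
      calc (ordinate (n + 1) - ordinate n) * (Real.log (ordinate (n + 1)) + 1) / (2 * Real.pi)
          ≤ β * (L + 3) / (2 * Real.pi) := by gcongr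
        _ = (p + m / 2) * (1 + 3 / L) := by rw [hβ]; field_simp
        _ < p + ε := by
            have h12 : 3 / L ≤ m * (3 / 16) := by
              rw [div_le_iff₀ hLpos]
              rw [div_le_iff₀ hm0] at h1
              linarith
            have h13 : 0 < 3 / L := by positivity
            nlinarith
    · right
      exact ⟨by linarith, hu.2⟩
  have hvol1 : volume ((fun t => t + 3 * T ^ η1) ⁻¹' BE) = volume BE :=
    measure_preimage_add_right volume (3 * T ^ η1) BE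
  have hvol2 : volume (Icc (2 * T - 3 * T ^ η1) (2 * T)) = ENNReal.ofReal (3 * T ^ η1) := by
    rw [Real.volume_Icc]; congr 1; ring
  have hBEle := h T hT1
  calc volume {t ∈ Icc T (2 * T) | ¬ ∃ n : ℕ, 1 ≤ n ∧ t ≤ ordinate n ∧
        ordinate (n + 1) ≤ t + T ^ a ∧ gap n < p + ε}
      ≤ volume (((fun t => t + 3 * T ^ η1) ⁻¹' BE) ∪ Icc (2 * T - 3 * T ^ η1) (2 * T)) :=
        measure_mono hsub
    _ ≤ volume ((fun t => t + 3 * T ^ η1) ⁻¹' BE) + volume (Icc (2 * T - 3 * T ^ η1) (2 * T)) :=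
        measure_union_le _ _
    _ ≤ ENNReal.ofReal (T ^ (1 - c0)) + ENNReal.ofReal (3 * T ^ η1) := by
        rw [hvol1, hvol2]
        gcongr
    _ = ENNReal.ofReal (T ^ (1 - c0) + 3 * T ^ η1) := by
        rw [ENNReal.ofReal_add (by positivity) (by positivity)]
    _ ≤ _ := by
        apply ENNReal.ofReal_le_ofReal
        have a1 : T ^ (1 - c0) ≤ T ^ (1 - c1) := Real.rpow_le_rpow_of_exponent_le hTone (by linarith)
        have a2 : T ^ η1 ≤ T ^ (1 - c1) := Real.rpow_le_rpow_of_exponent_le hTone (by linarith)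
        have a3 : T ^ (1 - c1) * T ^ (c1 / 2) = T ^ (1 - c1 / 2) := by
          rw [← Real.rpow_add hTpos]; congr 1; ring
        have a4 : 0 < T ^ (1 - c1) := Real.rpow_pos_of_pos hTpos _
        calc T ^ (1 - c0) + 3 * T ^ η1 ≤ T ^ (1 - c1) * 4 := by linarith
          _ ≤ T ^ (1 - c1) * T ^ (c1 / 2) := by gcongr
          _ = _ := a3

/-- **Small gaps in almost all short intervals** (RH), from the mean square bound. -/
theorem small_gaps_aa_of (hMS : NearMSStmt) (hRH : RiemannHypothesis) {a ε : ℝ} (ha : 0 < a)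
    (ha1 : a ≤ 1) (hε : 0 < ε) : ∃ c T0 : ℝ, 0 < c ∧ ∀ T : ℝ, T0 ≤ T →
      volume {t ∈ Icc T (2 * T) | ¬ ∃ n : ℕ, 1 ≤ n ∧ t ≤ ordinate n ∧
        ordinate (n + 1) ≤ t + T ^ a ∧ gap n < 2 / (3 + a) + ε} ≤ ENNReal.ofReal (T ^ (1 - c)) := by
  rcases ha1.lt_or_eq with h1 | rfl
  · exact small_gaps_aa_lt hMS hRH ha h1 hε
  · set a' : ℝ := max (1 / 2) (1 - ε) with ha'
    have hl : 1 / 2 ≤ a' := le_max_left _ _
    have hr : 1 - ε ≤ a' := le_max_right _ _
    have h1' : a' < 1 := max_lt (by norm_num) (by linarith)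
    obtain ⟨c, T0, hc, h⟩ := small_gaps_aa_lt hMS hRH (a := a') (ε := ε / 2) (by linarith) h1'
      (by linarith)
    refine ⟨c, max T0 1, hc, fun T hT => (measure_mono ?_).trans (h T ((le_max_left _ _).trans hT))⟩
    have hT1 : 1 ≤ T := (le_max_right _ _).trans hT
    rintro t ⟨ht, hno⟩
    refine ⟨ht, ?_⟩
    rintro ⟨n, h2, h3, h4, h5⟩
    apply hno
    refine ⟨n, h2, h3, ?_, ?_⟩
    · have : T ^ a' ≤ T ^ (1:ℝ) := Real.rpow_le_rpow_of_exponent_le hT1 h1'.le
      linarith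
    · have : 2 / (3 + a') ≤ 2 / (3 + 1) + ε / 2 := by
        rw [div_le_iff₀ (by linarith)]
        nlinarith
      linarith

end Pool.Agent.ZShortAA
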