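import Pool.Agent.ZShort.AAFinal

/-!
# Small and large gaps in almost every block, with any admissible constant for the large gaps
-/

namespace Pool.Agent.ZShort

open MeasureTheory Set Filter Pool.Agent.Hadamard Pool.Agent.ZetaGaps Pool.Agent.ShortPos
open Pool.Agent.ZGap.Res

/-- The numeric inequality of the resonator for the constant `d` and the length exponent `α`. -/
def NumOK (α d : ℝ) : Prop :=
  ∃ r θ c a b : ℝ, ∃ m : ℕ, m ≠ 0 ∧ 0 ≤ r ∧ 0 < θ ∧ 2 * θ < α ∧ d < c ∧ 0 ≤ a ∧ 0 ≤ b ∧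
    a + b ≤ 1 ∧ 0 < a + b ∧
    |c - 1| * Den a b (r ^ 2) < 2 / Real.pi * (|r| * Num (Real.pi * c * θ) a b (r ^ 2) m)

namespace AAFin

/-- The constant for the large gaps. -/
theorem large_all_d (hRH : RiemannHypothesis) {a d : ℝ} (ha : 0 < a) (ha1 : a < 1)
    (hd : 1.89 < d → NumOK ((1 + a) / 2) d) :
    AllBlocks a (fun n => max 1.89 d < gap n) := by
  rcases le_or_gt d 1.89 with h | h
  · rw [max_eq_left h]
    exact large_all_of_num hRH (r := 6 / 5) (θ := 2499 / 10000) (c := 18905 / 10000)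
      (a' := 7 / 10) (b' := 3 / 10) (m := 2) (by norm_num) (by norm_num) ha ha1 (by linarith)
      (by norm_num) (by norm_num) (by norm_num) (by norm_num) (by norm_num) (by norm_num)
      (by norm_num) num_quarter
  · rw [max_eq_right h.le]
    obtain ⟨r, θ, c, a', b', m, hm, hr, hθ, hθa, hc, ha', hb', hab, h0, hgap⟩ := hd h
    exact large_all_of_num hRH hm hθ ha ha1 (by linarith) (by linarith) hc ha' hb' hab h0 hr hgap

end AAFin

open Classical AAFin in
/-- **Small and large gaps in almost every block** (RH), for any admissible constant `d`. -/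
theorem almost_all_blocks_d (hRH : RiemannHypothesis) {a d ε : ℝ} (ha : 0 < a) (ha1 : a < 1)
    (hε : 0 < ε) (hd : 1.89 < d → NumOK ((1 + a) / 2) d) :
    ∃ κ c : ℝ, 0 < κ ∧ 0 < c ∧ ∃ N₀ : ℕ, ∀ N : ℕ, N₀ ≤ N →
      (({n ∈ Finset.Icc 1 N | ¬ ∀ M : ℕ, (n:ℝ) ^ a ≤ M →
        κ * M ≤ (({k ∈ Finset.Ioc n (n + M) | gap k < 2 / (3 + a) + ε} : Finset ℕ).card : ℝ) ∧
        κ * M ≤ (({k ∈ Finset.Ioc n (n + M) | max 1.89 d < gap k} : Finset ℕ).card : ℝ)} :
          Finset ℕ).card : ℝ) ≤ (N:ℝ) ^ (1 - c) := by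
  obtain ⟨κ, c, N0, hκ, hc, h⟩ := both (small_all hRH ha ha1 hε) (large_all_d hRH ha ha1 hd)
  refine ⟨κ, c, hκ, hc, N0, fun N hN => h N hN _ fun n hn => ?_⟩
  rw [Finset.mem_filter, Finset.mem_Icc] at hn
  obtain ⟨⟨n1, n2⟩, n3⟩ := hn
  push Not at n3
  obtain ⟨M, m1, m2⟩ := n3
  refine ⟨n1, n2, M, m1, ?_⟩
  by_cases hh : (({k ∈ Finset.Ioc n (n + M) | gap k < 2 / (3 + a) + ε} :
      Finset ℕ).card : ℝ) < κ * M
  · left
    simpa using hh
  · right
    have := m2 (not_lt.1 hh)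
    simpa using this

end Pool.Agent.ZShort
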