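import Pool.Agent.ZetaGaps.RvMCount

/-!
# The common format of the almost-all results: a small set of bad centres
-/

namespace Pool.Agent.ZShort

open MeasureTheory Set Pool.Agent.ZetaGaps

/-- Off a small set `B` of centres every window of length at least `T ^ a` contains a positive
proportion of the `n` with `P n`. -/
def BForm (a : ℝ) (P : ℕ → Prop) [DecidablePred P] : Prop :=
  ∃ κ c T0 : ℝ, 0 < κ ∧ 0 < c ∧ ∀ T : ℝ, T0 ≤ T → ∃ B : Set ℝ, MeasurableSet B ∧
    B ⊆ Set.Icc T (2 * T) ∧ volume.real B ≤ T ^ (1 - c) ∧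
    ∀ y H : ℝ, T ≤ y → y + H ≤ 2 * T → T ^ a ≤ H → volume.real (B ∩ Set.Icc y (y + H)) ≤ H / 8 →
      κ * (H * Real.log T) ≤
        (({n ∈ Finset.Ioo (zeroCount (y - 1)) (zeroCount (y + H + 1)) | P n} : Finset ℕ).card : ℝ)

end Pool.Agent.ZShort
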