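import Pool.Agent.ZGap.PS.Index
import Pool.Agent.ZShort.BForm

/-!
# From almost all windows in height to almost all blocks of indices
-/

namespace Pool.Agent.ZShort

open MeasureTheory Set Filter Pool.Agent.Hadamard Pool.Agent.ZetaGaps Pool.Agent.ShortPos
open scoped Topology

/-- The windows `[y, y + H]`, `H ≥ T ^ a`, which meet a small set `B` in at most an eighth of their
length contain a positive proportion of indices with the property `P`. (The largest of the windows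
of indices in use.) -/
def BFormI (a : ℝ) (P : ℕ → Prop) [DecidablePred P] : Prop :=
  ∃ κ c T0 : ℝ, 0 < κ ∧ 0 < c ∧ ∀ T : ℝ, T0 ≤ T → ∃ B : Set ℝ, MeasurableSet B ∧
    B ⊆ Set.Icc T (2 * T) ∧ volume.real B ≤ T ^ (1 - c) ∧
    ∀ y H : ℝ, T ≤ y → y + H ≤ 2 * T → T ^ a ≤ H →
      volume.real (B ∩ Set.Icc y (y + H)) ≤ H / 8 →
      κ * (H * Real.log T) ≤
        (({n ∈ Finset.Icc (zeroCount (y - 1)) (zeroCount (y + H + 1)) | P n} :
          Finset ℕ).card : ℝ)

lemma BForm.toI {a : ℝ} {P : ℕ → Prop} [DecidablePred P] (h : BForm a P) : BFormI a P := by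
  obtain ⟨κ, c, T0, h1, h2, h⟩ := h
  refine ⟨κ, c, T0, h1, h2, fun T hT => ?_⟩
  obtain ⟨B, hB, hBs, hBv, h⟩ := h T hT
  refine ⟨B, hB, hBs, hBv, fun y H hy hyH hH hBy => (h y H hy hyH hH hBy).trans ?_⟩
  rw [Nat.cast_le]
  apply Finset.card_le_card
  intro n hn
  rw [Finset.mem_filter, Finset.mem_Ioo] at hn
  rw [Finset.mem_filter, Finset.mem_Icc]
  exact ⟨⟨hn.1.1.le, hn.1.2.le⟩, hn.2⟩

namespace AAIdx

/-- Greedy covering. -/
lemma greedy (y H : ℕ → ℝ) {D : ℝ} (hD : 0 ≤ D) : ∀ (k : ℕ) (Z : Finset ℕ), Z.card ≤ k →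
    ∀ B : Set ℝ, MeasurableSet B → volume B ≠ ⊤ → (∀ n ∈ Z, 0 ≤ H n) →
    (∀ n ∈ Z, H n / 8 ≤ volume.real (B ∩ Set.Icc (y n) (y n + H n))) →
    (∀ n ∈ Z, (({m ∈ Z | y n ≤ y m ∧ y m ≤ y n + H n} : Finset ℕ).card : ℝ) ≤ D * H n) →
    (Z.card : ℝ) ≤ 8 * D * volume.real B := by
  classical
  intro k
  induction k with
  | zero =>
    intro Z hZ B _ _ _ _ _
    have : Z.card = 0 := by omega
    rw [this]
    simp only [Nat.cast_zero]
    positivity
  | succ k ih =>
    intro Z hZ B hB hBf h0 h1 h2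
    rcases Z.eq_empty_or_nonempty with rfl | hne
    · simp only [Finset.card_empty, Nat.cast_zero]
      positivity
    obtain ⟨n0, hn0, hmin⟩ := Z.exists_min_image y hne
    set Z1 := Z.filter fun m => y m ≤ y n0 + H n0 with hZ1
    set Z2 := Z.filter fun m => ¬ y m ≤ y n0 + H n0 with hZ2
    have hcard : Z1.card + Z2.card = Z.card :=
      Finset.card_filter_add_card_filter_not (s := Z) (fun m => y m ≤ y n0 + H n0)
    have hZ1eq : Z1 = ({m ∈ Z | y n0 ≤ y m ∧ y m ≤ y n0 + H n0} : Finset ℕ) := by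
      ext m
      rw [hZ1, Finset.mem_filter, Finset.mem_filter]
      constructor
      · rintro ⟨a, b⟩; exact ⟨a, hmin m a, b⟩
      · rintro ⟨a, -, b⟩; exact ⟨a, b⟩
    have hc1 : (Z1.card : ℝ) ≤ D * H n0 := by
      rw [hZ1eq]; exact h2 n0 hn0
    have hV := h1 n0 hn0
    set B1 := B ∩ Set.Icc (y n0) (y n0 + H n0) with hB1
    set B2 := B ∩ Set.Ioi (y n0 + H n0) with hB2
    have hfin1 : volume B1 ≠ ⊤ := ne_top_of_le_ne_top hBf (measure_mono Set.inter_subset_left)
    have hfin2 : volume B2 ≠ ⊤ := ne_top_of_le_ne_top hBf (measure_mono Set.inter_subset_left)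
    have hdisj : Disjoint B1 B2 := by
      rw [Set.disjoint_left]
      rintro t ⟨-, -, t1⟩ ⟨-, t2⟩
      exact absurd t1 (not_le.2 t2)
    have hB2m : MeasurableSet B2 := hB.inter measurableSet_Ioi
    have hun : volume.real B1 + volume.real B2 ≤ volume.real B := by
      rw [← measureReal_union hdisj hB2m hfin1 hfin2]
      exact measureReal_mono (Set.union_subset Set.inter_subset_left Set.inter_subset_left) hBf
    have hH0 := h0 n0 hn0
    have hn0Z1 : n0 ∈ Z1 := by
      rw [hZ1, Finset.mem_filter]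
      exact ⟨hn0, by linarith⟩
    have hZ1pos : 0 < Z1.card := Finset.card_pos.2 ⟨n0, hn0Z1⟩
    have hc2 := ih Z2 (by omega) B2 hB2m hfin2 (fun n hn => by
      rw [hZ2, Finset.mem_filter] at hn
      exact h0 n hn.1) (fun n hn => by
      rw [hZ2, Finset.mem_filter, not_le] at hn
      refine (h1 n hn.1).trans (le_of_eq ?_)
      congr 1
      ext t
      simp only [hB2, Set.mem_inter_iff, Set.mem_Icc, Set.mem_Ioi]
      constructor
      · rintro ⟨a, b, c⟩; exact ⟨⟨a, lt_of_lt_of_le hn.2 b⟩, b, c⟩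
      · rintro ⟨⟨a, -⟩, b, c⟩; exact ⟨a, b, c⟩) (fun n hn => by
      rw [hZ2, Finset.mem_filter] at hn
      refine le_trans ?_ (h2 n hn.1)
      rw [Nat.cast_le]
      apply Finset.card_le_card
      intro m hm
      rw [Finset.mem_filter] at hm ⊢
      exact ⟨(Finset.mem_filter.1 (by rw [hZ2] at hm; exact hm.1)).1, hm.2⟩)
    have e : (Z.card : ℝ) = Z1.card + Z2.card := by
      rw [← hcard]; push_cast; ring
    rw [e]
    have h3 : D * H n0 ≤ 8 * D * volume.real B1 := by nlinarith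
    nlinarith

/-- Lower bound for the number of zeros. -/
lemma zc_lower : ∃ T0 : ℝ, ∀ u : ℝ, T0 ≤ u → u * Real.log u / 8 ≤ zeroCount (u - 1) := by
  obtain ⟨C, hC, hN⟩ := zeroCount_asymp
  have hpi := Real.pi_pos
  have hpi4 := Real.pi_lt_d2
  obtain ⟨E, hE⟩ : ∃ E : ℝ, E = 2 * Real.pi * Real.exp 1 := ⟨_, rfl⟩
  have hE0 : 0 < E := by rw [hE]; positivity
  have hE1 : 0 ≤ Real.log E := by
    apply Real.log_nonneg
    rw [hE]
    have := Real.exp_one_gt_d9
    have := Real.pi_gt_three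
    nlinarith
  obtain ⟨T0, hT0⟩ := eventually_atTop.1
    ((Real.tendsto_log_atTop.eventually_ge_atTop (16 * (1 + Real.log E))).and
      (eventually_ge_atTop (max 4 (100 * (C + 1)))))
  refine ⟨T0, fun u hu => ?_⟩
  obtain ⟨h2, h3⟩ := hT0 u hu
  have hu4 : 4 ≤ u := (le_max_left _ _).trans h3
  have huC : 100 * (C + 1) ≤ u := (le_max_right _ _).trans h3
  have hu0 : 0 < u := by linarith
  have hu1 : 0 < u - 1 := by linarith
  have k2 := abs_le.1 (hN (u - 1) (by linarith))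
  rw [← hE, Real.log_div hu1.ne' hE0.ne'] at k2
  have hl : Real.log u - 1 ≤ Real.log (u - 1) := by
    have h5 : Real.log u - Real.log (u - 1) ≤ u / (u - 1) - 1 := by
      rw [← Real.log_div hu0.ne' hu1.ne']
      exact Real.log_le_sub_one_of_pos (by positivity)
    have h6 : u / (u - 1) - 1 ≤ 1 := by
      rw [sub_le_iff_le_add, div_le_iff₀ hu1]
      linarith
    linarith
  have hlu : Real.log (u - 1) ≤ Real.log u := Real.log_le_log hu1 (by linarith)
  set x := Real.log u with hx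
  have hx0 : 16 ≤ x := by nlinarith
  have e1 : 15 / 16 * x ≤ Real.log (u - 1) - Real.log E := by linarith
  have e2 : (u - 1) / 6.3 ≤ (u - 1) / (2 * Real.pi) :=
    div_le_div_of_nonneg_left hu1.le (by positivity) (by linarith)
  have e3 : (u - 1) / 6.3 * (15 / 16 * x) ≤
      (u - 1) / (2 * Real.pi) * (Real.log (u - 1) - Real.log E) := by
    apply mul_le_mul e2 e1 (by positivity) (by positivity)
  have e4 : C * Real.log (u - 1) ≤ C * x := by gcongr
  have e5 : u * x / 8 ≤ (u - 1) / 6.3 * (15 / 16 * x) - C * x := by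
    have : u / 8 ≤ (u - 1) / 6.3 * (15 / 16) - C := by
      rw [div_mul_eq_mul_div, le_sub_iff_add_le, le_div_iff₀ (by norm_num)]
      nlinarith
    nlinarith
  linarith [k2.1]

/-- The indices whose block has few `P`'s, at height `T`. -/
lemma local_bad {a b κ c T0 : ℝ} (ha : 0 < a) (hab : a < b) (hb : b < 1) (hκ : 0 < κ) (hc : 0 < c)
    {P : ℕ → Prop} [DecidablePred P]
    (h : ∀ T : ℝ, T0 ≤ T → ∃ B : Set ℝ, MeasurableSet B ∧
      B ⊆ Set.Icc T (2 * T) ∧ volume.real B ≤ T ^ (1 - c) ∧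
      ∀ y H : ℝ, T ≤ y → y + H ≤ 2 * T → T ^ a ≤ H →
        volume.real (B ∩ Set.Icc y (y + H)) ≤ H / 8 →
        κ * (H * Real.log T) ≤
          (({n ∈ Finset.Icc (zeroCount (y - 1)) (zeroCount (y + H + 1)) | P n} :
            Finset ℕ).card : ℝ)) :
    ∃ T1 : ℝ, ∀ T : ℝ, T1 ≤ T → ∀ (Z : Finset ℕ) (M : ℕ → ℕ), (∀ n ∈ Z, 1 ≤ n ∧
      T ≤ ordinate n ∧ ordinate n ≤ 3 / 2 * T ∧ (n:ℝ) ^ b ≤ M n ∧ (M n : ℝ) ≤ T ∧
      (({k ∈ Finset.Ioc n (n + M n) | P k} : Finset ℕ).card : ℝ) < κ / 16 * M n) →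
        (Z.card : ℝ) ≤ T ^ (1 - c / 2) := by
  obtain ⟨C, T2, hC, hzc⟩ := zc_short
  obtain ⟨T3, hzl⟩ := zc_lower
  have hb0 : 0 < b := by linarith
  have ev1 : ∀ᶠ u : ℝ in atTop, 16 * u ^ a * Real.log u ≤ u ^ b := by
    have h1 := (isLittleO_log_rpow_atTop (show 0 < b - a by linarith)).bound
      (show (0:ℝ) < 1 / 16 by norm_num)
    filter_upwards [h1, eventually_gt_atTop 1] with u hu hu1
    have hu0 : 0 < u := by linarith
    rw [Real.norm_of_nonneg (Real.log_pos hu1).le,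
      Real.norm_of_nonneg (Real.rpow_pos_of_pos hu0 _).le] at hu
    have h2 : u ^ b = u ^ a * u ^ (b - a) := by
      rw [← Real.rpow_add hu0]; congr 1; ring
    rw [h2]
    have h3 : 0 < u ^ a := Real.rpow_pos_of_pos hu0 _
    nlinarith
  have evg : ∀ K : ℝ, 0 < K → ∀ e : ℝ, 0 < e → ∀ᶠ u : ℝ in atTop, K * Real.log u ≤ u ^ e := by
    intro K hK e he
    have h1 := (isLittleO_log_rpow_atTop he).bound (show (0:ℝ) < 1 / K by positivity)
    filter_upwards [h1, eventually_gt_atTop 1] with u hu hu1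
    have hu0 : 0 < u := by linarith
    rw [Real.norm_of_nonneg (Real.log_pos hu1).le,
      Real.norm_of_nonneg (Real.rpow_pos_of_pos hu0 _).le, one_div, inv_mul_eq_div,
      le_div_iff₀ hK] at hu
    linarith
  obtain ⟨K, hKdef⟩ : ∃ K : ℝ, K = 16 / κ + 100 * (1 + C) := ⟨_, rfl⟩
  have hK0 : 0 < K := by rw [hKdef]; positivity
  obtain ⟨T4, hT4⟩ := eventually_atTop.1 ((((ev1.and (evg K hK0 b hb0)).and
    (evg 1 one_pos (1 - b) (by linarith))).and (evg 8 (by norm_num) (c / 2) (by positivity))).and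
    ((Real.tendsto_log_atTop.eventually_ge_atTop 4).and
      (eventually_ge_atTop (max (max T0 (2 * T2)) (max T3 (100 + 100 * C))))))
  refine ⟨T4, fun T hT Z M hZ => ?_⟩
  obtain ⟨⟨⟨⟨s1, s2⟩, s3⟩, s4⟩, s5, s6⟩ := hT4 T hT
  have hTT0 : T0 ≤ T := (le_max_left _ _).trans ((le_max_left _ _).trans s6)
  have hTT2 : 2 * T2 ≤ T := (le_max_right _ _).trans ((le_max_left _ _).trans s6)
  have hTT3 : T3 ≤ T := (le_max_left _ _).trans ((le_max_right _ _).trans s6)
  have hTC : 100 + 100 * C ≤ T := (le_max_right _ _).trans ((le_max_right _ _).trans s6)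
  have hT0 : 0 < T := by linarith
  have hT1 : 1 ≤ T := by linarith
  obtain ⟨L, hLdef⟩ : ∃ L : ℝ, L = Real.log T := ⟨_, rfl⟩
  rw [← hLdef] at s1 s2 s3 s4 s5
  have hL0 : 0 < L := by linarith
  obtain ⟨N1, hN1⟩ : ∃ N1 : ℕ, N1 = zeroCount (T - 1) := ⟨_, rfl⟩
  have hT2T : T2 ≤ T := by
    rcases le_or_gt 0 T2 with h0 | h0 <;> linarith
  obtain ⟨z1, z2, z3⟩ := hzc T hT2T
  have z4 := hzl T hTT3
  rw [← hN1] at z2 z3 z4
  rw [← hLdef] at z1 z3 z4
  have hKC : 100 * (1 + C) ≤ K := by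
    rw [hKdef]
    have : 0 < 16 / κ := by positivity
    linarith
  have hTa : 1 ≤ T ^ a := Real.one_le_rpow hT1 ha.le
  -- the lengths of the windows
  obtain ⟨H, hH⟩ : ∃ H : ℕ → ℝ, H = fun n => (M n : ℝ) / (4 * L) - 3 := ⟨_, rfl⟩
  have hfacts : ∀ n ∈ Z, zeroCount (ordinate n - 1) < n ∧ T ^ b ≤ M n ∧
      H n * L = M n / 4 - 3 * L ∧ 22 + 25 * C ≤ H n ∧ T ^ a ≤ H n ∧ H n ≤ T / 16 := by
    intro n hn
    obtain ⟨hn1, hn2, hn3, hn4, hn5, -⟩ := hZ n hn
    have i2 : zeroCount (ordinate n - 1) < n := by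
      by_contra hc
      push Not at hc
      rw [le_zeroCount_iff (zeroCount_unbounded n) hn1] at hc
      linarith
    have i3 : N1 < n := by
      refine lt_of_le_of_lt ?_ i2
      rw [hN1]
      exact zeroCount_mono (by linarith)
    have i5 : (N1:ℝ) ≤ n := by exact_mod_cast i3.le
    have hM0T : T ^ b ≤ M n :=
      (Real.rpow_le_rpow hT0.le (z2.trans i5) hb0.le).trans hn4
    have hM0K : K * L ≤ M n := s2.trans hM0T
    have hH1 : K / 4 ≤ H n + 3 := by
      rw [hH]
      have : K / 4 ≤ (M n : ℝ) / (4 * L) := by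
        rw [div_le_div_iff₀ (by norm_num) (by positivity)]
        linarith
      simp only
      linarith
    refine ⟨i2, hM0T, ?_, by linarith, ?_, ?_⟩
    · rw [hH]
      simp only
      field_simp
    · have h1 : 16 * T ^ a * L ≤ M n := s1.trans hM0T
      have h2 : 4 * T ^ a ≤ (M n : ℝ) / (4 * L) := by
        rw [le_div_iff₀ (by positivity)]
        linarith
      rw [hH]
      simp only
      linarith
    · have h1 : (M n : ℝ) / (4 * L) ≤ T / 16 := by
        rw [div_le_div_iff₀ (by positivity) (by norm_num)]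
        nlinarith
      rw [hH]
      simp only
      linarith
  have hlog2 : ∀ u : ℝ, 0 < u → u ≤ 2 * T → Real.log u ≤ 2 * L := by
    intro u hu0 hu
    calc Real.log u ≤ Real.log (T * T) := Real.log_le_log hu0 (by nlinarith)
      _ = 2 * L := by rw [Real.log_mul hT0.ne' hT0.ne', hLdef]; ring
  obtain ⟨B, hBm, hBs, hBv, hBw⟩ := h T hTT0
  have hBf : volume B ≠ ⊤ := by
    refine ne_top_of_le_ne_top ?_ (measure_mono hBs)
    rw [Real.volume_Icc]
    exact ENNReal.ofReal_ne_top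
  -- every index of `Z` gives a window which meets `B` a lot
  have hbig : ∀ n ∈ Z, H n / 8 ≤
      volume.real (B ∩ Set.Icc (ordinate n + 1) (ordinate n + 1 + H n)) := by
    intro n hn
    obtain ⟨hn1, hn2, hn3, -, hn5, hn4⟩ := hZ n hn
    obtain ⟨i2, hM0T, hHL, hHC, hHa, hHT⟩ := hfacts n hn
    by_contra hcon
    push Not at hcon
    obtain ⟨u, hu⟩ : ∃ u : ℝ, u = ordinate n := ⟨_, rfl⟩
    rw [← hu] at hn2 hn3 hcon i2
    have g := hBw (u + 1) (H n) (by linarith) (by linarith) hHa hcon.le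
    have hu0 : 0 < u := by linarith
    obtain ⟨-, -, w3⟩ := hzc u (by linarith)
    have i1 : n ≤ zeroCount u := by
      rw [le_zeroCount_iff (zeroCount_unbounded n) hn1, hu]
    have hM0K : K * L ≤ M n := s2.trans hM0T
    have i8 : zeroCount (u + 1 + H n + 1) ≤ n + M n := by
      have h1 := w3 (u + 1 + H n + 1) (by linarith) (by linarith)
      have h2 : Real.log u ≤ 2 * L := hlog2 u hu0 (by linarith)
      have h3 : ((u + 1 + H n + 1 - u + 1) / 3 + C) * Real.log u ≤
          ((u + 1 + H n + 1 - u + 1) / 3 + C) * (2 * L) := by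
        gcongr
        have : 0 ≤ (u + 1 + H n + 1 - u + 1) / 3 := by
          have e : u + 1 + H n + 1 - u + 1 = H n + 3 := by ring
          rw [e]
          linarith
        linarith
      have h4 : ((u + 1 + H n + 1 - u + 1) / 3 + C) * (2 * L) =
          2 / 3 * (H n * L) + 2 * (1 + C) * L := by ring
      have h5 : (zeroCount (u - 1) : ℝ) ≤ n := by exact_mod_cast i2.le
      have h6 : (zeroCount (u + 1 + H n + 1) : ℝ) ≤ n + M n := by
        have : 100 * (1 + C) * L ≤ M n := by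
          refine le_trans ?_ hM0K
          gcongr
        have : 0 ≤ C * L := by positivity
        nlinarith
      exact_mod_cast h6
    have hsub : ({k ∈ Finset.Icc (zeroCount (u + 1 - 1)) (zeroCount (u + 1 + H n + 1)) | P k} :
        Finset ℕ) ⊆ insert n {k ∈ Finset.Ioc n (n + M n) | P k} := by
      intro k hk
      rw [Finset.mem_filter, Finset.mem_Icc] at hk
      obtain ⟨⟨k1, k2⟩, k3⟩ := hk
      rw [Finset.mem_insert, Finset.mem_filter, Finset.mem_Ioc]
      have k4 : zeroCount (u + 1 - 1) = zeroCount u := by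
        congr 1; ring
      rw [k4] at k1
      rcases Nat.eq_or_lt_of_le (i1.trans k1) with k5 | k5
      · exact Or.inl k5.symm
      · exact Or.inr ⟨⟨k5, k2.trans i8⟩, k3⟩
    have hcard := (Finset.card_le_card hsub).trans (Finset.card_insert_le _ _)
    have hcard' : (({k ∈ Finset.Icc (zeroCount (u + 1 - 1)) (zeroCount (u + 1 + H n + 1)) | P k} :
        Finset ℕ).card : ℝ) ≤
        (({k ∈ Finset.Ioc n (n + M n) | P k} : Finset ℕ).card : ℝ) + 1 := by
      exact_mod_cast hcard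
    rw [← hLdef, hHL] at g
    have h10 : κ * (M n / 4 - 3 * L) < κ / 16 * M n + 1 := by linarith
    have h11 : κ * (K * L) ≤ κ * M n := by gcongr
    have h12 : κ * (K * L) = 16 * L + 100 * (1 + C) * κ * L := by
      rw [hKdef]; field_simp
    have h13 : 0 ≤ C * κ * L := by positivity
    have h14 : 0 ≤ κ * L := by positivity
    nlinarith
  -- the multiplicity
  have hmult : ∀ n ∈ Z, (({m ∈ Z | ordinate n + 1 ≤ ordinate m + 1 ∧
      ordinate m + 1 ≤ ordinate n + 1 + H n} : Finset ℕ).card : ℝ) ≤ L * H n := by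
    intro n hn
    obtain ⟨hn1, hn2, hn3, -, hn5, -⟩ := hZ n hn
    obtain ⟨-, -, -, hHC, -, hHT⟩ := hfacts n hn
    obtain ⟨u, hu⟩ : ∃ u : ℝ, u = ordinate n := ⟨_, rfl⟩
    rw [← hu] at hn2 hn3 ⊢
    have hsub : ({m ∈ Z | u + 1 ≤ ordinate m + 1 ∧ ordinate m + 1 ≤ u + 1 + H n} : Finset ℕ) ⊆
        Finset.Ioc (zeroCount (u - 1)) (zeroCount (u + H n)) := by
      intro m hm
      rw [Finset.mem_filter] at hm
      obtain ⟨hm0, hm1, hm2⟩ := hm
      obtain ⟨hm3, -⟩ := hZ m hm0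
      rw [Finset.mem_Ioc]
      constructor
      · by_contra hc
        push Not at hc
        rw [le_zeroCount_iff (zeroCount_unbounded m) hm3] at hc
        linarith
      · rw [le_zeroCount_iff (zeroCount_unbounded m) hm3]
        linarith
    have h1 := Finset.card_le_card hsub
    rw [Nat.card_Ioc] at h1
    have h2 : zeroCount (u - 1) ≤ zeroCount (u + H n) := zeroCount_mono (by linarith)
    have h3 : (({m ∈ Z | u + 1 ≤ ordinate m + 1 ∧ ordinate m + 1 ≤ u + 1 + H n} :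
        Finset ℕ).card : ℝ) ≤ (zeroCount (u + H n) : ℝ) - zeroCount (u - 1) := by
      rw [← Nat.cast_sub h2]
      exact_mod_cast h1
    obtain ⟨-, -, w3⟩ := hzc u (by linarith)
    have h4 := w3 (u + H n) (by linarith) (by linarith)
    have h5 : Real.log u ≤ 2 * L := hlog2 _ (by linarith) (by linarith)
    have e : u + H n - u + 1 = H n + 1 := by ring
    rw [e] at h4
    calc _ ≤ ((H n + 1) / 3 + C) * Real.log u := h3.trans h4
      _ ≤ ((H n + 1) / 3 + C) * (2 * L) := by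
          gcongr
          linarith
      _ ≤ H n / 2 * (2 * L) := by
          gcongr
          linarith
      _ = L * H n := by ring
  have hgr := greedy (fun n => ordinate n + 1) H hL0.le Z.card Z le_rfl B hBm hBf
    (fun n hn => by
      obtain ⟨-, -, -, hHC, -, -⟩ := hfacts n hn
      linarith) hbig hmult
  have h2 : (Z.card : ℝ) ≤ 8 * L * T ^ (1 - c) := by
    refine hgr.trans ?_
    gcongr
  refine h2.trans ?_
  have h3 : T ^ (1 - c / 2) = T ^ (c / 2) * T ^ (1 - c) := by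
    rw [← Real.rpow_add hT0]; congr 1; ring
  rw [h3]
  gcongr

end AAIdx

open AAIdx in
/-- **From the `B`-form to all blocks which begin at almost every index.** -/
theorem index_of_BFormI {a b b2 κE : ℝ} (ha : 0 < a) (hab : a < b) (hb : b < 1) (hb2 : b2 < 1)
    {P : ℕ → Prop} [DecidablePred P] (h : BFormI a P) (hκE : 0 < κE) {NE : ℕ}
    (hE : ∀ N M : ℕ, NE ≤ N → (N:ℝ) ^ b2 ≤ M →
      κE * M ≤ (({n ∈ Finset.Ioc N (N + M) | P n} : Finset ℕ).card : ℝ)) :
    ∃ κ c : ℝ, ∃ N0 : ℕ, 0 < κ ∧ 0 < c ∧ ∀ N : ℕ, N0 ≤ N → ∀ Z : Finset ℕ,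
      (∀ n ∈ Z, 1 ≤ n ∧ n ≤ N ∧ ∃ M : ℕ, (n:ℝ) ^ b ≤ M ∧
        (({k ∈ Finset.Ioc n (n + M) | P k} : Finset ℕ).card : ℝ) < κ * M) →
      (Z.card : ℝ) ≤ (N:ℝ) ^ (1 - c) := by
  classical
  obtain ⟨κ, c0, T0, hκ, hc0, h⟩ := h
  obtain ⟨c, hcdef⟩ : ∃ c : ℝ, c = min c0 1 := ⟨_, rfl⟩
  have hc : 0 < c := by rw [hcdef]; exact lt_min hc0 one_pos
  have hc1 : c ≤ 1 := by rw [hcdef]; exact min_le_right _ _
  have hcc : c ≤ c0 := by rw [hcdef]; exact min_le_left _ _
  obtain ⟨T1, hT1⟩ := local_bad (c := c) (T0 := max T0 1) ha hab hb hκ hc (P := P)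
    (fun T hT => by
      obtain ⟨B, h1, h2, h3, h4⟩ := h T ((le_max_left _ _).trans hT)
      refine ⟨B, h1, h2, h3.trans ?_, h4⟩
      exact Real.rpow_le_rpow_of_exponent_le ((le_max_right _ _).trans hT) (by linarith))
  obtain ⟨C, T2, hC, hzc⟩ := zc_short
  -- `n ^ b2` is small compared with the ordinate
  obtain ⟨T5, hT5⟩ : ∃ T5 : ℝ, ∀ u : ℝ, T5 ≤ u → (u * Real.log u) ^ (max b2 0) ≤ 2 / 3 * u := by
    obtain ⟨b3, hb3⟩ : ∃ b3 : ℝ, b3 = max b2 0 := ⟨_, rfl⟩
    have hb30 : 0 ≤ b3 := by rw [hb3]; exact le_max_right _ _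
    have hb31 : b3 < 1 := by rw [hb3]; exact max_lt hb2 one_pos
    have h1 := (isLittleO_log_rpow_atTop (show 0 < 1 - b3 by linarith)).bound
      (show (0:ℝ) < 2 / 3 by norm_num)
    obtain ⟨T5, hT5⟩ := eventually_atTop.1 (h1.and (eventually_ge_atTop (3:ℝ)))
    refine ⟨T5, fun u hu => ?_⟩
    obtain ⟨hu1, hu2⟩ := hT5 u hu
    have hu0 : 0 < u := by linarith
    have hl1 : 1 ≤ Real.log u := by
      rw [Real.le_log_iff_exp_le hu0]
      have := Real.exp_one_lt_d9
      linarith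
    rw [Real.norm_of_nonneg (by linarith),
      Real.norm_of_nonneg (Real.rpow_pos_of_pos hu0 _).le] at hu1
    rw [← hb3, Real.mul_rpow hu0.le (by linarith)]
    have h2 : Real.log u ^ b3 ≤ Real.log u ^ (1:ℝ) :=
      Real.rpow_le_rpow_of_exponent_le hl1 hb31.le
    rw [Real.rpow_one] at h2
    have h3 : 0 < u ^ b3 := Real.rpow_pos_of_pos hu0 _
    calc u ^ b3 * Real.log u ^ b3 ≤ u ^ b3 * (2 / 3 * u ^ (1 - b3)) := by
          gcongr
          exact h2.trans hu1
      _ = 2 / 3 * (u ^ b3 * u ^ (1 - b3)) := by ring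
      _ = 2 / 3 * u := by
          rw [← Real.rpow_add hu0]
          simp
  obtain ⟨TE, hTE⟩ : ∃ TE : ℝ, ∀ u : ℝ, TE ≤ u → NE ≤ zeroCount (u - 1) := by
    refine ⟨max T2 NE, fun u hu => ?_⟩
    obtain ⟨-, w2, -⟩ := hzc u ((le_max_left _ _).trans hu)
    have : (NE:ℝ) ≤ zeroCount (u - 1) := ((le_max_right _ _).trans hu).trans w2
    exact_mod_cast this
  obtain ⟨X, hX⟩ : ∃ X : ℝ, X = max (max (max T1 T2) (max T5 TE)) 1 := ⟨_, rfl⟩
  have hXT1 : T1 ≤ X := by
    rw [hX]; exact (le_max_left _ _).trans ((le_max_left _ _).trans (le_max_left _ _))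
  have hXT2 : T2 ≤ X := by
    rw [hX]; exact (le_max_right _ _).trans ((le_max_left _ _).trans (le_max_left _ _))
  have hXT5 : T5 ≤ X := by
    rw [hX]; exact (le_max_left _ _).trans ((le_max_right _ _).trans (le_max_left _ _))
  have hXTE : TE ≤ X := by
    rw [hX]; exact (le_max_right _ _).trans ((le_max_right _ _).trans (le_max_left _ _))
  have hX1 : 1 ≤ X := by rw [hX]; exact le_max_right _ _
  obtain ⟨N2, hN2⟩ : ∃ N2 : ℕ, N2 = zeroCount (3 / 2 * X) := ⟨_, rfl⟩
  have ev : ∀ᶠ x : ℝ in atTop, (N2:ℝ) + (3 * Real.log x + 1) * x ^ (1 - c / 2) ≤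
      x ^ (1 - c / 4) := by
    have h1 := (isLittleO_log_rpow_atTop (show 0 < c / 4 by linarith)).bound
      (show (0:ℝ) < 1 / 12 by norm_num)
    have h2 : Tendsto (fun x : ℝ => x ^ (c / 4)) atTop atTop := tendsto_rpow_atTop (by linarith)
    filter_upwards [h1, eventually_gt_atTop 1, h2.eventually_ge_atTop (4 * (N2 + 1))]
      with x hx hx1 hx2
    have hx0 : 0 < x := by linarith
    rw [Real.norm_of_nonneg (Real.log_pos hx1).le,
      Real.norm_of_nonneg (Real.rpow_pos_of_pos hx0 _).le] at hx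
    have e1 : x ^ (1 - c / 4) = x ^ (c / 4) * x ^ (1 - c / 2) := by
      rw [← Real.rpow_add hx0]; congr 1; ring
    have e2 : 1 ≤ x ^ (1 - c / 2) := Real.one_le_rpow hx1.le (by linarith)
    rw [e1]
    have e3 : (0:ℝ) ≤ N2 := Nat.cast_nonneg _
    have e4 : (N2:ℝ) ≤ N2 * x ^ (1 - c / 2) := le_mul_of_one_le_right e3 e2
    have e5 : ((N2:ℝ) + (3 * Real.log x + 1)) * x ^ (1 - c / 2) ≤
        x ^ (c / 4) * x ^ (1 - c / 2) := by
      gcongr
      linarith
    linarith
  obtain ⟨X3, hX3⟩ := eventually_atTop.1 ev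
  obtain ⟨N3, hN3⟩ := exists_nat_ge X3
  refine ⟨min (κ / 16) κE, c / 4, max N3 1, lt_min (by positivity) hκE, by positivity,
    fun N hN bad hbad => ?_⟩
  have hN1 : 1 ≤ N := (le_max_right _ _).trans hN
  have hNR : (1:ℝ) ≤ N := by exact_mod_cast hN1
  have hfin := hX3 N (hN3.trans (by exact_mod_cast (le_max_left _ _).trans hN))
  refine le_trans ?_ hfin
  -- choose the lengths
  have hch : ∀ n : ℕ, ∃ M : ℕ, n ∈ bad → (n:ℝ) ^ b ≤ M ∧
        (({k ∈ Finset.Ioc n (n + M) | P k} : Finset ℕ).card : ℝ) < min (κ / 16) κE * M := by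
    intro n
    by_cases hn : n ∈ bad
    · obtain ⟨-, -, M, h1, h2⟩ := hbad n hn
      exact ⟨M, fun _ => ⟨h1, h2⟩⟩
    · exact ⟨0, fun h => absurd h hn⟩
  choose M hM using hch
  set J : ℕ := ⌊3 * Real.log N⌋₊ + 1 with hJ
  set Zf : ℕ → Finset ℕ := fun j => {n ∈ bad | T1 ≤ (3 / 2 : ℝ) ^ j ∧ (3 / 2 : ℝ) ^ j ≤ N ∧
    (3 / 2 : ℝ) ^ j ≤ ordinate n ∧ ordinate n ≤ 3 / 2 * (3 / 2 : ℝ) ^ j ∧
    (M n : ℝ) ≤ (3 / 2 : ℝ) ^ j} with hZf
  have hcov : bad ⊆ Finset.Icc 1 N2 ∪ (Finset.range J).biUnion Zf := by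
    intro n hn
    obtain ⟨n1, n2, -⟩ := hbad n hn
    rw [Finset.mem_union, Finset.mem_Icc, Finset.mem_biUnion]
    by_cases hnN : n ≤ N2
    · exact Or.inl ⟨n1, hnN⟩
    right
    have h1 : 3 / 2 * X < ordinate n := by
      by_contra hcon
      push Not at hcon
      rw [← le_zeroCount_iff (zeroCount_unbounded n) n1, ← hN2] at hcon
      exact hnN hcon
    obtain ⟨j, hj1, hj2⟩ := exists_nat_pow_near (x := ordinate n) (y := (3 / 2 : ℝ))
      (by linarith) (by norm_num)
    have h3' : zeroCount (ordinate n - 1) < n := by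
      by_contra hc'
      push Not at hc'
      rw [le_zeroCount_iff (zeroCount_unbounded n) n1] at hc'
      linarith
    obtain ⟨w1, w2, -⟩ := hzc (ordinate n) (by linarith)
    have h2 : ordinate n ≤ N := by
      have h4 : (zeroCount (ordinate n - 1) : ℝ) ≤ N := by
        exact_mod_cast h3'.le.trans n2
      exact w2.trans h4
    have h3 : X < (3 / 2 : ℝ) ^ j := by
      rw [pow_succ] at hj2
      linarith
    obtain ⟨m1, m2⟩ := hM n hn
    -- the block is short
    have hMs : (M n : ℝ) ≤ 2 / 3 * ordinate n := by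
      by_contra hcon
      push Not at hcon
      have hNEn : NE ≤ n := (hTE (ordinate n) (by linarith)).trans h3'.le
      have hnu : (n:ℝ) ≤ ordinate n * Real.log (ordinate n) := by
        refine le_trans ?_ w1
        have : n ≤ zeroCount (ordinate n) := by
          rw [le_zeroCount_iff (zeroCount_unbounded n) n1]
        exact_mod_cast this
      have hn1R : (1:ℝ) ≤ n := by exact_mod_cast n1
      have q1 : (n:ℝ) ^ b2 ≤ M n := by
        calc (n:ℝ) ^ b2 ≤ (n:ℝ) ^ (max b2 0) :=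
              Real.rpow_le_rpow_of_exponent_le hn1R (le_max_left _ _)
          _ ≤ (ordinate n * Real.log (ordinate n)) ^ (max b2 0) :=
              Real.rpow_le_rpow (by linarith) hnu (le_max_right _ _)
          _ ≤ 2 / 3 * ordinate n := hT5 _ (by linarith)
          _ ≤ M n := hcon.le
      have q2 := hE n (M n) hNEn q1
      have q3 : min (κ / 16) κE * M n ≤ κE * M n := by
        gcongr
        exact min_le_right _ _
      linarith
    refine ⟨j, ?_, ?_⟩
    · rw [Finset.mem_range, hJ, Nat.lt_add_one_iff]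
      apply Nat.le_floor
      have h4 : (3 / 2 : ℝ) ^ j ≤ N := hj1.trans h2
      have h5 := Real.log_le_log (by positivity) h4
      rw [Real.log_pow] at h5
      have h6 : (1:ℝ) / 3 ≤ Real.log (3 / 2) := by
        have := Real.one_sub_inv_le_log_of_pos (show (0:ℝ) < 3 / 2 by norm_num)
        norm_num at this ⊢
        linarith
      have h7 : (j:ℝ) * (1 / 3) ≤ j * Real.log (3 / 2) := by gcongr
      linarith
    · rw [hZf]
      simp only [Finset.mem_filter]
      rw [pow_succ] at hj2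
      exact ⟨hn, by linarith, hj1.trans h2, hj1, by linarith, by linarith⟩
  have hcard := (Finset.card_le_card hcov).trans ((Finset.card_union_le _ _).trans
    (Nat.add_le_add_left Finset.card_biUnion_le _))
  rw [Nat.card_Icc, Nat.add_sub_cancel] at hcard
  have hcard' : (bad.card : ℝ) ≤ N2 + ∑ j ∈ Finset.range J, ((Zf j).card : ℝ) := by
    exact_mod_cast hcard
  refine hcard'.trans ?_
  have hZ : ∀ j ∈ Finset.range J, ((Zf j).card : ℝ) ≤ (N:ℝ) ^ (1 - c / 2) := by
    intro j _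
    rcases (Zf j).eq_empty_or_nonempty with h0 | ⟨n0, hn0⟩
    · rw [h0]
      simp only [Finset.card_empty, Nat.cast_zero]
      positivity
    · rw [hZf] at hn0
      simp only [Finset.mem_filter] at hn0
      obtain ⟨-, q1, q2, -⟩ := hn0
      have h1 := hT1 _ q1 (Zf j) M (fun n hn => by
        rw [hZf] at hn
        simp only [Finset.mem_filter] at hn
        obtain ⟨hn1, -, -, hn2, hn3, hn4⟩ := hn
        obtain ⟨m1, m2⟩ := hM n hn1
        refine ⟨(hbad n hn1).1, hn2, hn3, m1, hn4, m2.trans_le ?_⟩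
        gcongr
        exact min_le_left _ _)
      refine h1.trans ?_
      exact Real.rpow_le_rpow (by positivity) q2 (by linarith)
  have hsum : ∑ j ∈ Finset.range J, ((Zf j).card : ℝ) ≤ J * (N:ℝ) ^ (1 - c / 2) := by
    have := Finset.sum_le_card_nsmul _ _ _ hZ
    rwa [Finset.card_range, nsmul_eq_mul] at this
  have hJ' : (J:ℝ) ≤ 3 * Real.log N + 1 := by
    rw [hJ]
    push_cast
    have := Nat.floor_le (show 0 ≤ 3 * Real.log N by
      have := Real.log_nonneg hNR
      positivity)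
    linarith
  have : (J:ℝ) * (N:ℝ) ^ (1 - c / 2) ≤ (3 * Real.log N + 1) * (N:ℝ) ^ (1 - c / 2) := by
    gcongr
  linarith

end Pool.Agent.ZShort
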