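import Pool.Agent.ZetaGaps.VoidCount

/-!
# A positive proportion of large gaps in a window
-/

open Filter Topology Finset MeasureTheory
open Pool.Agent.Hadamard (ntz mult)
open Pool.Agent.ZetaGaps

namespace Pool.Agent.ZShort

/-- **From void centres to large gaps, in a window.** The centres of voids of half-length
`π c / log T` cover a positive proportion of the window, the centres of voids of half-length
`π K / log T` at most half of that: then a positive proportion of the gaps is larger than
`d < c`. -/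
theorem count_void_win (hRH : RiemannHypothesis) {c d κ0 K : ℝ} (hc : 0 < c) (hd : d < c)
    (hκ : 0 < κ0) (hK : 0 < K) :
    ∃ κ T0 : ℝ, 0 < κ ∧ ∀ T : ℝ, T0 ≤ T → ∀ y H : ℝ, T ≤ y → y + H ≤ 2 * T → 1 ≤ H →
      κ0 * H ≤ volume.real {t : ℝ | t ∈ Set.Icc y (y + H) ∧
        ∀ ρ ∈ ntz, Real.pi * c / Real.log T < |ρ.im - t|} →
      volume.real {t : ℝ | t ∈ Set.Icc y (y + H) ∧
        ∀ ρ ∈ ntz, Real.pi * K / Real.log T ≤ |ρ.im - t|} ≤ κ0 / 2 * H →
      κ * (H * Real.log T) ≤
        (#{n ∈ Finset.Icc (zeroCount y) (zeroCount (y + H)) | d < gap n} : ℝ) := by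
  obtain ⟨T1, hT1⟩ := exists_bigT hRH
  have hpi := Real.pi_pos
  set d' := max d 0 with hd'
  have hd'c : d' < c := max_lt hd hc
  have hev : ∀ᶠ T : ℝ in atTop, c * 2 / (c - d') ≤ Real.log T :=
    Real.tendsto_log_atTop.eventually_ge_atTop _
  obtain ⟨T2, hT2⟩ := eventually_atTop.mp hev
  refine ⟨κ0 / (4 * (Real.pi * K)), max T1 T2, by positivity,
    fun T hT y H hy hyH hH hV hW => ?_⟩
  obtain ⟨hT4, hL10, hcnt⟩ := hT1 T ((le_max_left _ _).trans hT)
  have hlogT := hT2 T ((le_max_right _ _).trans hT)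
  have hT0' : 0 < T := by linarith
  set L := Real.log T with hL
  have hL0 : 0 < L := by linarith
  set R := Real.pi * K / L with hR
  have hR0 : 0 < R := by positivity
  set A := {n ∈ Finset.Icc (zeroCount y) (zeroCount (y + H)) | d < gap n} with hA
  have hl4 : Real.log 4 ≤ 2 := by
    have : Real.log 4 = 2 * Real.log 2 := by
      rw [show (4:ℝ) = 2 ^ 2 by norm_num, Real.log_pow]; norm_num
    have := Real.log_two_lt_d9
    linarith
  have hlog4 : L - 2 ≤ Real.log (T / 4) := by
    rw [Real.log_div hT0'.ne' (by norm_num)]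
    linarith
  have hy1 : 1 ≤ zeroCount y := by
    have : zeroCount (T / 2) ≤ zeroCount y := zeroCount_mono (by linarith)
    omega
  -- covering
  have hcov : {t : ℝ | t ∈ Set.Icc y (y + H) ∧ ∀ ρ ∈ ntz, Real.pi * c / L < |ρ.im - t|} ⊆
      {t : ℝ | t ∈ Set.Icc y (y + H) ∧ ∀ ρ ∈ ntz, R ≤ |ρ.im - t|} ∪
      ⋃ n ∈ A, (Set.Icc (ordinate n) (ordinate n + R) ∪
        Set.Icc (ordinate (n + 1) - R) (ordinate (n + 1))) := by
    rintro t ⟨⟨ht1, ht2⟩, hvoid⟩
    by_cases hlong : ∀ ρ ∈ ntz, R ≤ |ρ.im - t|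
    · exact Or.inl ⟨⟨ht1, ht2⟩, hlong⟩
    right
    push Not at hlong
    obtain ⟨ρ0, hρ0, hρR⟩ := hlong
    set n := zeroCount t with hn
    have hny : zeroCount y ≤ n := zeroCount_mono ht1
    have hnyH : n ≤ zeroCount (y + H) := zeroCount_mono ht2
    have hn1 : 1 ≤ n := by omega
    have h1 : ordinate n ≤ t := (le_zeroCount_iff (zeroCount_unbounded n) hn1).mp le_rfl
    have h2 : t < ordinate (n + 1) := by
      by_contra hcon
      push Not at hcon
      have := (le_zeroCount_iff (zeroCount_unbounded (n + 1)) (by omega)).mpr hcon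
      omega
    have h3 : T / 4 < ordinate n := by
      by_contra hcon
      push Not at hcon
      have h3a := (le_zeroCount_iff (zeroCount_unbounded n) hn1).mpr hcon
      have h3b : zeroCount (T / 2) ≤ n := zeroCount_mono (by linarith)
      omega
    obtain ⟨ρ, hρ, hρ2⟩ := exists_zero_ordinate (zeroCount_unbounded n) hn1
    obtain ⟨ρ', hρ', hρ2'⟩ := exists_zero_ordinate (zeroCount_unbounded (n + 1)) (by omega)
    have h4 := hvoid ρ hρ
    have h5 := hvoid ρ' hρ'
    rw [hρ2, abs_sub_comm, abs_of_nonneg (by linarith)] at h4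
    rw [hρ2', abs_of_nonneg (by linarith)] at h5
    have h6 : 2 * (Real.pi * c / L) < ordinate (n + 1) - ordinate n := by linarith
    have h7 := gap_ge hn1
    have h8 : L - 2 ≤ Real.log (ordinate n) :=
      hlog4.trans (Real.log_le_log (by positivity) h3.le)
    have h9 : d' < gap n := by
      have e1 : 2 * (Real.pi * c / L) * (L - 2) < 2 * Real.pi * gap n := by
        refine lt_of_lt_of_le ?_ h7
        have e2 : 0 < L - 2 := by linarith
        calc 2 * (Real.pi * c / L) * (L - 2) < (ordinate (n + 1) - ordinate n) * (L - 2) := by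
              gcongr
          _ ≤ _ := by
              have : 0 ≤ ordinate (n + 1) - ordinate n := by linarith
              gcongr
      have e3 : 2 * (Real.pi * c / L) * (L - 2) = 2 * Real.pi * (c - c * 2 / L) := by
        have e6 : L * L⁻¹ = 1 := mul_inv_cancel₀ hL0.ne'
        rw [div_eq_mul_inv, div_eq_mul_inv]
        linear_combination (2 * Real.pi * c) * e6
      rw [e3] at e1
      have e4 : c - c * 2 / L < gap n := lt_of_mul_lt_mul_left e1 (by positivity)
      have e5 : c * 2 / L ≤ c - d' := by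
        rw [div_le_iff₀ (by linarith)] at hlogT
        rw [div_le_iff₀ hL0]
        linarith
      linarith
    have hnA : n ∈ A := by
      rw [hA, Finset.mem_filter, Finset.mem_Icc]
      exact ⟨⟨hny, hnyH⟩, lt_of_le_of_lt (le_max_left _ _) h9⟩
    simp only [Set.mem_iUnion, exists_prop]
    refine ⟨n, hnA, ?_⟩
    rcases le_or_gt ρ0.im (ordinate n) with h10 | h10
    · left
      rw [abs_sub_comm, abs_of_nonneg (by linarith)] at hρR
      exact ⟨h1, by linarith⟩
    · right
      have h11 := no_zero_between (zeroCount_unbounded (n + 1)) hn1 hρ0 h10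
      rw [abs_of_nonneg (by linarith)] at hρR
      exact ⟨by linarith, h2.le⟩
  have hfinI : ∀ n : ℕ, volume (Set.Icc (ordinate n) (ordinate n + R) ∪
      Set.Icc (ordinate (n + 1) - R) (ordinate (n + 1))) ≠ ⊤ := by
    intro n
    refine ne_top_of_le_ne_top ?_ (measure_union_le _ _)
    rw [Real.volume_Icc, Real.volume_Icc]
    exact ENNReal.add_ne_top.mpr ⟨ENNReal.ofReal_ne_top, ENNReal.ofReal_ne_top⟩
  have hfinU : volume (⋃ n ∈ A, (Set.Icc (ordinate n) (ordinate n + R) ∪
      Set.Icc (ordinate (n + 1) - R) (ordinate (n + 1)))) ≠ ⊤ := by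
    refine ne_top_of_le_ne_top ?_ (measure_biUnion_finset_le A _)
    exact ENNReal.sum_ne_top.mpr fun n _ => hfinI n
  have hfinW : volume {t : ℝ | t ∈ Set.Icc y (y + H) ∧ ∀ ρ ∈ ntz, R ≤ |ρ.im - t|} ≠ ⊤ := by
    refine ne_top_of_le_ne_top ?_ (measure_mono (t := Set.Icc y (y + H)) fun t ht => ht.1)
    rw [Real.volume_Icc]; exact ENNReal.ofReal_ne_top
  have hmeasU : volume.real (⋃ n ∈ A, (Set.Icc (ordinate n) (ordinate n + R) ∪
      Set.Icc (ordinate (n + 1) - R) (ordinate (n + 1)))) ≤ #A * (2 * R) := by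
    refine (measureReal_biUnion_finset_le A _).trans ?_
    rw [← nsmul_eq_mul]
    refine Finset.sum_le_card_nsmul _ _ _ fun n _ => ?_
    refine (measureReal_union_le _ _).trans ?_
    rw [Real.volume_real_Icc, Real.volume_real_Icc, max_eq_left (by linarith),
      max_eq_left (by linarith)]
    linarith
  have hmain : κ0 * H ≤ κ0 / 2 * H + #A * (2 * R) := by
    refine hV.trans ?_
    refine (measureReal_mono hcov ?_).trans ?_
    · exact measure_union_ne_top hfinW hfinU
    · exact (measureReal_union_le _ _).trans (add_le_add hW hmeasU)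
  have h1 : κ0 * H * L ≤ #A * (4 * (Real.pi * K)) := by
    have e1 : R * L = Real.pi * K := by
      rw [hR, div_mul_cancel₀ _ hL0.ne']
    have e2 : κ0 / 2 * H ≤ #A * (2 * R) := by linarith
    have e3 : κ0 / 2 * H * L ≤ #A * (2 * R) * L := by gcongr
    have e4 : (#A : ℝ) * (2 * R) * L = #A * (2 * (Real.pi * K)) := by
      rw [← e1]; ring
    rw [e4] at e3
    linarith
  rw [div_mul_eq_mul_div, div_le_iff₀ (by positivity)]
  linarith

end Pool.Agent.ZShort
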