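import Pool.Agent.ZShort.LamNum2A

/-!
# The numeric inequality for large gaps in short intervals, sharper form: end
-/

set_option autoImplicit false

namespace Pool.Agent.ZShort.LN2

open Pool.Agent.ZGap.Res Filter Topology

lemma cert13 : (((35217/10000) : ℝ) - 1) * Den (11/128) (117/128) ((91/40) ^ 2) < 91/40 *
      (4 * ((35217/10000) * (983/2000)) * term (11/128) (117/128) 0 (rho ((91/40) ^ 2))
      - 2 / 3 * 9.86961 * ((35217/10000) * (983/2000)) ^ 3 * term (11/128) (117/128) 1 (rho ((91/40) ^ 2))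
      + 1 / 30 * 9.8696 ^ 2 * ((35217/10000) * (983/2000)) ^ 5 * term (11/128) (117/128) 2 (rho ((91/40) ^ 2))
      - 1 / 1260 * 9.86961 ^ 3 * ((35217/10000) * (983/2000)) ^ 7 * term (11/128) (117/128) 3 (rho ((91/40) ^ 2))
      + 1 / 90720 * 9.8696 ^ 4 * ((35217/10000) * (983/2000)) ^ 9 * term (11/128) (117/128) 4 (rho ((91/40) ^ 2))
      - 1 / 9979200 * 9.86961 ^ 5 * ((35217/10000) * (983/2000)) ^ 11 * term (11/128) (117/128) 5 (rho ((91/40) ^ 2))) := by
  unfold Den Pool.Agent.ZGap.Res.term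
  simp only [rho, Nat.cast_ofNat, Nat.cast_zero, Nat.cast_one, mul_zero, mul_one, zero_add]
  norm_num

lemma cert14 : (((7071/2000) : ℝ) - 1) * Den (11/128) (117/128) ((91/40) ^ 2) < 91/40 *
      (4 * ((7071/2000) * (987/2000)) * term (11/128) (117/128) 0 (rho ((91/40) ^ 2))
      - 2 / 3 * 9.86961 * ((7071/2000) * (987/2000)) ^ 3 * term (11/128) (117/128) 1 (rho ((91/40) ^ 2))
      + 1 / 30 * 9.8696 ^ 2 * ((7071/2000) * (987/2000)) ^ 5 * term (11/128) (117/128) 2 (rho ((91/40) ^ 2))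
      - 1 / 1260 * 9.86961 ^ 3 * ((7071/2000) * (987/2000)) ^ 7 * term (11/128) (117/128) 3 (rho ((91/40) ^ 2))
      + 1 / 90720 * 9.8696 ^ 4 * ((7071/2000) * (987/2000)) ^ 9 * term (11/128) (117/128) 4 (rho ((91/40) ^ 2))
      - 1 / 9979200 * 9.86961 ^ 5 * ((7071/2000) * (987/2000)) ^ 11 * term (11/128) (117/128) 5 (rho ((91/40) ^ 2))) := by
  unfold Den Pool.Agent.ZGap.Res.term
  simp only [rho, Nat.cast_ofNat, Nat.cast_zero, Nat.cast_one, mul_zero, mul_one, zero_add]
  norm_num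

lemma cert15 : (((1773/500) : ℝ) - 1) * Den (5/64) (59/64) ((23/10) ^ 2) < 23/10 *
      (4 * ((1773/500) * (99/200)) * term (5/64) (59/64) 0 (rho ((23/10) ^ 2))
      - 2 / 3 * 9.86961 * ((1773/500) * (99/200)) ^ 3 * term (5/64) (59/64) 1 (rho ((23/10) ^ 2))
      + 1 / 30 * 9.8696 ^ 2 * ((1773/500) * (99/200)) ^ 5 * term (5/64) (59/64) 2 (rho ((23/10) ^ 2))
      - 1 / 1260 * 9.86961 ^ 3 * ((1773/500) * (99/200)) ^ 7 * term (5/64) (59/64) 3 (rho ((23/10) ^ 2))
      + 1 / 90720 * 9.8696 ^ 4 * ((1773/500) * (99/200)) ^ 9 * term (5/64) (59/64) 4 (rho ((23/10) ^ 2))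
      - 1 / 9979200 * 9.86961 ^ 5 * ((1773/500) * (99/200)) ^ 11 * term (5/64) (59/64) 5 (rho ((23/10) ^ 2))) := by
  unfold Den Pool.Agent.ZGap.Res.term
  simp only [rho, Nat.cast_ofNat, Nat.cast_zero, Nat.cast_one, mul_zero, mul_one, zero_add]
  norm_num

lemma cert16 : (((17777/5000) : ℝ) - 1) * Den (5/64) (59/64) ((23/10) ^ 2) < 23/10 *
      (4 * ((17777/5000) * (9927/20000)) * term (5/64) (59/64) 0 (rho ((23/10) ^ 2))
      - 2 / 3 * 9.86961 * ((17777/5000) * (9927/20000)) ^ 3 * term (5/64) (59/64) 1 (rho ((23/10) ^ 2))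
      + 1 / 30 * 9.8696 ^ 2 * ((17777/5000) * (9927/20000)) ^ 5 * term (5/64) (59/64) 2 (rho ((23/10) ^ 2))
      - 1 / 1260 * 9.86961 ^ 3 * ((17777/5000) * (9927/20000)) ^ 7 * term (5/64) (59/64) 3 (rho ((23/10) ^ 2))
      + 1 / 90720 * 9.8696 ^ 4 * ((17777/5000) * (9927/20000)) ^ 9 * term (5/64) (59/64) 4 (rho ((23/10) ^ 2))
      - 1 / 9979200 * 9.86961 ^ 5 * ((17777/5000) * (9927/20000)) ^ 11 * term (5/64) (59/64) 5 (rho ((23/10) ^ 2))) := by
  unfold Den Pool.Agent.ZGap.Res.term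
  simp only [rho, Nat.cast_ofNat, Nat.cast_zero, Nat.cast_one, mul_zero, mul_one, zero_add]
  norm_num

lemma cert17 : (((4453/1250) : ℝ) - 1) * Den (5/64) (59/64) ((23/10) ^ 2) < 23/10 *
      (4 * ((4453/1250) * (9947/20000)) * term (5/64) (59/64) 0 (rho ((23/10) ^ 2))
      - 2 / 3 * 9.86961 * ((4453/1250) * (9947/20000)) ^ 3 * term (5/64) (59/64) 1 (rho ((23/10) ^ 2))
      + 1 / 30 * 9.8696 ^ 2 * ((4453/1250) * (9947/20000)) ^ 5 * term (5/64) (59/64) 2 (rho ((23/10) ^ 2))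
      - 1 / 1260 * 9.86961 ^ 3 * ((4453/1250) * (9947/20000)) ^ 7 * term (5/64) (59/64) 3 (rho ((23/10) ^ 2))
      + 1 / 90720 * 9.8696 ^ 4 * ((4453/1250) * (9947/20000)) ^ 9 * term (5/64) (59/64) 4 (rho ((23/10) ^ 2))
      - 1 / 9979200 * 9.86961 ^ 5 * ((4453/1250) * (9947/20000)) ^ 11 * term (5/64) (59/64) 5 (rho ((23/10) ^ 2))) := by
  unfold Den Pool.Agent.ZGap.Res.term
  simp only [rho, Nat.cast_ofNat, Nat.cast_zero, Nat.cast_one, mul_zero, mul_one, zero_add]
  norm_num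

lemma cert18 : (((35669/10000) : ℝ) - 1) * Den (5/64) (59/64) ((23/10) ^ 2) < 23/10 *
      (4 * ((35669/10000) * (249/500)) * term (5/64) (59/64) 0 (rho ((23/10) ^ 2))
      - 2 / 3 * 9.86961 * ((35669/10000) * (249/500)) ^ 3 * term (5/64) (59/64) 1 (rho ((23/10) ^ 2))
      + 1 / 30 * 9.8696 ^ 2 * ((35669/10000) * (249/500)) ^ 5 * term (5/64) (59/64) 2 (rho ((23/10) ^ 2))
      - 1 / 1260 * 9.86961 ^ 3 * ((35669/10000) * (249/500)) ^ 7 * term (5/64) (59/64) 3 (rho ((23/10) ^ 2))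
      + 1 / 90720 * 9.8696 ^ 4 * ((35669/10000) * (249/500)) ^ 9 * term (5/64) (59/64) 4 (rho ((23/10) ^ 2))
      - 1 / 9979200 * 9.86961 ^ 5 * ((35669/10000) * (249/500)) ^ 11 * term (5/64) (59/64) 5 (rho ((23/10) ^ 2))) := by
  unfold Den Pool.Agent.ZGap.Res.term
  simp only [rho, Nat.cast_ofNat, Nat.cast_zero, Nat.cast_one, mul_zero, mul_one, zero_add]
  norm_num

lemma cert19 : (((35703/10000) : ℝ) - 1) * Den (5/64) (59/64) ((23/10) ^ 2) < 23/10 *
      (4 * ((35703/10000) * (997/2000)) * term (5/64) (59/64) 0 (rho ((23/10) ^ 2))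
      - 2 / 3 * 9.86961 * ((35703/10000) * (997/2000)) ^ 3 * term (5/64) (59/64) 1 (rho ((23/10) ^ 2))
      + 1 / 30 * 9.8696 ^ 2 * ((35703/10000) * (997/2000)) ^ 5 * term (5/64) (59/64) 2 (rho ((23/10) ^ 2))
      - 1 / 1260 * 9.86961 ^ 3 * ((35703/10000) * (997/2000)) ^ 7 * term (5/64) (59/64) 3 (rho ((23/10) ^ 2))
      + 1 / 90720 * 9.8696 ^ 4 * ((35703/10000) * (997/2000)) ^ 9 * term (5/64) (59/64) 4 (rho ((23/10) ^ 2))
      - 1 / 9979200 * 9.86961 ^ 5 * ((35703/10000) * (997/2000)) ^ 11 * term (5/64) (59/64) 5 (rho ((23/10) ^ 2))) := by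
  unfold Den Pool.Agent.ZGap.Res.term
  simp only [rho, Nat.cast_ofNat, Nat.cast_zero, Nat.cast_one, mul_zero, mul_one, zero_add]
  norm_num

lemma cert20 : (((17867/5000) : ℝ) - 1) * Den (5/64) (59/64) ((23/10) ^ 2) < 23/10 *
      (4 * ((17867/5000) * (9979/20000)) * term (5/64) (59/64) 0 (rho ((23/10) ^ 2))
      - 2 / 3 * 9.86961 * ((17867/5000) * (9979/20000)) ^ 3 * term (5/64) (59/64) 1 (rho ((23/10) ^ 2))
      + 1 / 30 * 9.8696 ^ 2 * ((17867/5000) * (9979/20000)) ^ 5 * term (5/64) (59/64) 2 (rho ((23/10) ^ 2))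
      - 1 / 1260 * 9.86961 ^ 3 * ((17867/5000) * (9979/20000)) ^ 7 * term (5/64) (59/64) 3 (rho ((23/10) ^ 2))
      + 1 / 90720 * 9.8696 ^ 4 * ((17867/5000) * (9979/20000)) ^ 9 * term (5/64) (59/64) 4 (rho ((23/10) ^ 2))
      - 1 / 9979200 * 9.86961 ^ 5 * ((17867/5000) * (9979/20000)) ^ 11 * term (5/64) (59/64) 5 (rho ((23/10) ^ 2))) := by
  unfold Den Pool.Agent.ZGap.Res.term
  simp only [rho, Nat.cast_ofNat, Nat.cast_zero, Nat.cast_one, mul_zero, mul_one, zero_add]
  norm_num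

lemma cert21 : (((17879/5000) : ℝ) - 1) * Den (5/64) (59/64) ((23/10) ^ 2) < 23/10 *
      (4 * ((17879/5000) * (4993/10000)) * term (5/64) (59/64) 0 (rho ((23/10) ^ 2))
      - 2 / 3 * 9.86961 * ((17879/5000) * (4993/10000)) ^ 3 * term (5/64) (59/64) 1 (rho ((23/10) ^ 2))
      + 1 / 30 * 9.8696 ^ 2 * ((17879/5000) * (4993/10000)) ^ 5 * term (5/64) (59/64) 2 (rho ((23/10) ^ 2))
      - 1 / 1260 * 9.86961 ^ 3 * ((17879/5000) * (4993/10000)) ^ 7 * term (5/64) (59/64) 3 (rho ((23/10) ^ 2))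
      + 1 / 90720 * 9.8696 ^ 4 * ((17879/5000) * (4993/10000)) ^ 9 * term (5/64) (59/64) 4 (rho ((23/10) ^ 2))
      - 1 / 9979200 * 9.86961 ^ 5 * ((17879/5000) * (4993/10000)) ^ 11 * term (5/64) (59/64) 5 (rho ((23/10) ^ 2))) := by
  unfold Den Pool.Agent.ZGap.Res.term
  simp only [rho, Nat.cast_ofNat, Nat.cast_zero, Nat.cast_one, mul_zero, mul_one, zero_add]
  norm_num

lemma cert22 : (((1431/400) : ℝ) - 1) * Den (5/64) (59/64) ((23/10) ^ 2) < 23/10 *
      (4 * ((1431/400) * (9991/20000)) * term (5/64) (59/64) 0 (rho ((23/10) ^ 2))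
      - 2 / 3 * 9.86961 * ((1431/400) * (9991/20000)) ^ 3 * term (5/64) (59/64) 1 (rho ((23/10) ^ 2))
      + 1 / 30 * 9.8696 ^ 2 * ((1431/400) * (9991/20000)) ^ 5 * term (5/64) (59/64) 2 (rho ((23/10) ^ 2))
      - 1 / 1260 * 9.86961 ^ 3 * ((1431/400) * (9991/20000)) ^ 7 * term (5/64) (59/64) 3 (rho ((23/10) ^ 2))
      + 1 / 90720 * 9.8696 ^ 4 * ((1431/400) * (9991/20000)) ^ 9 * term (5/64) (59/64) 4 (rho ((23/10) ^ 2))
      - 1 / 9979200 * 9.86961 ^ 5 * ((1431/400) * (9991/20000)) ^ 11 * term (5/64) (59/64) 5 (rho ((23/10) ^ 2))) := by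
  unfold Den Pool.Agent.ZGap.Res.term
  simp only [rho, Nat.cast_ofNat, Nat.cast_zero, Nat.cast_one, mul_zero, mul_one, zero_add]
  norm_num

lemma cert23 : (((17893/5000) : ℝ) - 1) * Den (5/64) (59/64) ((23/10) ^ 2) < 23/10 *
      (4 * ((17893/5000) * (4997/10000)) * term (5/64) (59/64) 0 (rho ((23/10) ^ 2))
      - 2 / 3 * 9.86961 * ((17893/5000) * (4997/10000)) ^ 3 * term (5/64) (59/64) 1 (rho ((23/10) ^ 2))
      + 1 / 30 * 9.8696 ^ 2 * ((17893/5000) * (4997/10000)) ^ 5 * term (5/64) (59/64) 2 (rho ((23/10) ^ 2))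
      - 1 / 1260 * 9.86961 ^ 3 * ((17893/5000) * (4997/10000)) ^ 7 * term (5/64) (59/64) 3 (rho ((23/10) ^ 2))
      + 1 / 90720 * 9.8696 ^ 4 * ((17893/5000) * (4997/10000)) ^ 9 * term (5/64) (59/64) 4 (rho ((23/10) ^ 2))
      - 1 / 9979200 * 9.86961 ^ 5 * ((17893/5000) * (4997/10000)) ^ 11 * term (5/64) (59/64) 5 (rho ((23/10) ^ 2))) := by
  unfold Den Pool.Agent.ZGap.Res.term
  simp only [rho, Nat.cast_ofNat, Nat.cast_zero, Nat.cast_one, mul_zero, mul_one, zero_add]
  norm_num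

lemma cert24 : (((8949/2500) : ℝ) - 1) * Den (5/64) (59/64) ((23/10) ^ 2) < 23/10 *
      (4 * ((8949/2500) * (9997/20000)) * term (5/64) (59/64) 0 (rho ((23/10) ^ 2))
      - 2 / 3 * 9.86961 * ((8949/2500) * (9997/20000)) ^ 3 * term (5/64) (59/64) 1 (rho ((23/10) ^ 2))
      + 1 / 30 * 9.8696 ^ 2 * ((8949/2500) * (9997/20000)) ^ 5 * term (5/64) (59/64) 2 (rho ((23/10) ^ 2))
      - 1 / 1260 * 9.86961 ^ 3 * ((8949/2500) * (9997/20000)) ^ 7 * term (5/64) (59/64) 3 (rho ((23/10) ^ 2))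
      + 1 / 90720 * 9.8696 ^ 4 * ((8949/2500) * (9997/20000)) ^ 9 * term (5/64) (59/64) 4 (rho ((23/10) ^ 2))
      - 1 / 9979200 * 9.86961 ^ 5 * ((8949/2500) * (9997/20000)) ^ 11 * term (5/64) (59/64) 5 (rho ((23/10) ^ 2))) := by
  unfold Den Pool.Agent.ZGap.Res.term
  simp only [rho, Nat.cast_ofNat, Nat.cast_zero, Nat.cast_one, mul_zero, mul_one, zero_add]
  norm_num

lemma cert25 : (((35803/10000) : ℝ) - 1) * Den (5/64) (59/64) ((93/40) ^ 2) < 93/40 *
      (4 * ((35803/10000) * (9999/20000)) * term (5/64) (59/64) 0 (rho ((93/40) ^ 2))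
      - 2 / 3 * 9.86961 * ((35803/10000) * (9999/20000)) ^ 3 * term (5/64) (59/64) 1 (rho ((93/40) ^ 2))
      + 1 / 30 * 9.8696 ^ 2 * ((35803/10000) * (9999/20000)) ^ 5 * term (5/64) (59/64) 2 (rho ((93/40) ^ 2))
      - 1 / 1260 * 9.86961 ^ 3 * ((35803/10000) * (9999/20000)) ^ 7 * term (5/64) (59/64) 3 (rho ((93/40) ^ 2))
      + 1 / 90720 * 9.8696 ^ 4 * ((35803/10000) * (9999/20000)) ^ 9 * term (5/64) (59/64) 4 (rho ((93/40) ^ 2))
      - 1 / 9979200 * 9.86961 ^ 5 * ((35803/10000) * (9999/20000)) ^ 11 * term (5/64) (59/64) 5 (rho ((93/40) ^ 2))) := by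
  unfold Den Pool.Agent.ZGap.Res.term
  simp only [rho, Nat.cast_ofNat, Nat.cast_zero, Nat.cast_one, mul_zero, mul_one, zero_add]
  norm_num

lemma num_core2 {α : ℝ} (h0 : 0 < α) (h1 : α ≤ 13 / 20) :
    0 < 2 * ((1 + α + α ^ 2 + 0.58 * α ^ 3) * (α / 2)) -
      Real.pi ^ 2 * ((1 + α + α ^ 2 + 0.58 * α ^ 3) * (α / 2)) ^ 3 / 18 -
      ((1 + α + α ^ 2 + 0.58 * α ^ 3) - 1) := by
  obtain ⟨c, hc⟩ : ∃ c : ℝ, c = 1 + α + α ^ 2 + 0.58 * α ^ 3 := ⟨_, rfl⟩
  have hc0 : 0 < c := by rw [hc]; positivity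
  have hc1 : c ≤ 1 + 1.896 * α := by
    have : α * (0.896 - α - 0.58 * α ^ 2) ≥ 0 := by
      apply mul_nonneg h0.le
      nlinarith
    rw [hc]
    nlinarith
  have h2 : c ^ 3 ≤ (1 + 1.896 * α) ^ 3 := by gcongr
  have h3 : (1 + 1.896 * α) ^ 3 ≤ 1 + 15.6 * α := by
    have : 0 ≤ α * (15.6 - 3 * 1.896 - 3 * 1.896 ^ 2 * α - 1.896 ^ 3 * α ^ 2) := by
      apply mul_nonneg h0.le
      nlinarith
    nlinarith
  have b1 := Real.pi_gt_d6
  have b2 := Real.pi_lt_d6
  have p2 : Real.pi ^ 2 ≤ 9.86961 := by nlinarith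
  have h4 : Real.pi ^ 2 * c ^ 3 ≤ 9.86961 * (1 + 15.6 * α) := by
    have h5 : 0 ≤ c ^ 3 := by positivity
    calc Real.pi ^ 2 * c ^ 3 ≤ 9.86961 * c ^ 3 := mul_le_mul_of_nonneg_right p2 h5
      _ ≤ 9.86961 * (1 + 15.6 * α) := by
        apply mul_le_mul_of_nonneg_left (h2.trans h3) (by norm_num)
  have e : 2 * ((1 + α + α ^ 2 + 0.58 * α ^ 3) * (α / 2)) -
      Real.pi ^ 2 * ((1 + α + α ^ 2 + 0.58 * α ^ 3) * (α / 2)) ^ 3 / 18 -
      ((1 + α + α ^ 2 + 0.58 * α ^ 3) - 1) =
      α ^ 3 * (144 * (0.42 + 0.58 * α) - Real.pi ^ 2 * c ^ 3) / 144 := by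
    rw [hc]; ring
  rw [e]
  have h6 : 0 < α ^ 3 := by positivity
  have h7 : 0 < 144 * (0.42 + 0.58 * α) - Real.pi ^ 2 * c ^ 3 := by linarith
  positivity

lemma lam_small2 {α : ℝ} (h0 : 0 < α) (h1 : α ≤ 13 / 20) :
    HasPar α (1 + α + α ^ 2 + 0.58 * α ^ 3) := by
  obtain ⟨c0, hc0⟩ : ∃ c : ℝ, c = 1 + α + α ^ 2 + 0.58 * α ^ 3 := ⟨_, rfl⟩
  have hcore := num_core2 h0 h1
  rw [← hc0] at hcore ⊢
  have hf : Continuous fun t : ℝ => 2 * ((c0 + t) * (α / 2 - t)) -
      Real.pi ^ 2 * ((c0 + t) * (α / 2 - t)) ^ 3 / 18 - ((c0 + t) - 1) := by fun_prop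
  have h2 : ∀ᶠ t in 𝓝[>] (0 : ℝ), 0 < 2 * ((c0 + t) * (α / 2 - t)) -
      Real.pi ^ 2 * ((c0 + t) * (α / 2 - t)) ^ 3 / 18 - ((c0 + t) - 1) := by
    have h4 : 0 < 2 * ((c0 + 0) * (α / 2 - 0)) -
      Real.pi ^ 2 * ((c0 + 0) * (α / 2 - 0)) ^ 3 / 18 - ((c0 + 0) - 1) := by
      rw [add_zero, sub_zero]
      exact hcore
    have h3 := (hf.tendsto 0).eventually (lt_mem_nhds h4)
    exact h3.filter_mono nhdsWithin_le_nhds
  have h3 : ∀ᶠ t in 𝓝[>] (0 : ℝ), t < α / 4 :=
    (gt_mem_nhds (by positivity)).filter_mono nhdsWithin_le_nhds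
  obtain ⟨t, ht1, ht2, ht3⟩ := (h2.and (h3.and self_mem_nhdsWithin)).exists
  have ht0 : 0 < t := ht3
  have hc1 : 0 < c0 + t - 1 := by
    have h5 : 0 < α ^ 2 := by positivity
    have h6 : 0 < α ^ 3 := by positivity
    rw [hc0]
    linarith
  refine ⟨1, α / 2 - t, c0 + t, 1, 0, 1, one_ne_zero, zero_le_one, by linarith, by linarith,
    by linarith, zero_le_one, le_rfl, by norm_num, by norm_num, ?_⟩
  rw [num_one, den_one, mul_one, abs_of_pos hc1]
  linarith

/-- **The numeric inequality**: for every `0 < α ≤ 1` there are parameters with `2 θ < α` and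
`c > 1 + α + α ^ 2 + 0.58 * α ^ 3`. -/
theorem lam_num2' {α : ℝ} (h0 : 0 < α) (h1 : α ≤ 1) :
    HasPar α (1 + α + α ^ 2 + 0.58 * α ^ 3) := by
  rcases le_or_gt α (13 / 20) with h | g
  · exact lam_small2 h0 h
  rcases le_or_gt α (693/1000) with h | g
  · exact step (c := 23671/10000) (θ := 13/40) (a := 49/128) (b := 79/128) (r := 59/40) (by norm_num) (by norm_num)
      (by norm_num) (by norm_num) (by norm_num) (by norm_num) (by linarith)
      ((lam_mono h0 h).trans_lt (by norm_num)) cert0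
  rcases le_or_gt α (92/125) with h | g
  · exact step (c := 6279/2500) (θ := 693/2000) (a := 5/16) (b := 11/16) (r := 63/40) (by norm_num) (by norm_num)
      (by norm_num) (by norm_num) (by norm_num) (by norm_num) (by linarith)
      ((lam_mono h0 h).trans_lt (by norm_num)) cert1
  rcases le_or_gt α (389/500) with h | g
  · exact step (c := 26589/10000) (θ := 46/125) (a := 33/128) (b := 95/128) (r := 67/40) (by norm_num) (by norm_num)
      (by norm_num) (by norm_num) (by norm_num) (by norm_num) (by linarith)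
      ((lam_mono h0 h).trans_lt (by norm_num)) cert2
  rcases le_or_gt α (409/500) with h | g
  · exact step (c := 14023/5000) (θ := 389/1000) (a := 27/128) (b := 101/128) (r := 71/40) (by norm_num) (by norm_num)
      (by norm_num) (by norm_num) (by norm_num) (by norm_num) (by linarith)
      ((lam_mono h0 h).trans_lt (by norm_num)) cert3
  rcases le_or_gt α (853/1000) with h | g
  · exact step (c := 7361/2500) (θ := 409/1000) (a := 11/64) (b := 53/64) (r := 15/8) (by norm_num) (by norm_num)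
      (by norm_num) (by norm_num) (by norm_num) (by norm_num) (by linarith)
      ((lam_mono h0 h).trans_lt (by norm_num)) cert4
  rcases le_or_gt α (221/250) with h | g
  · exact step (c := 30671/10000) (θ := 853/2000) (a := 19/128) (b := 109/128) (r := 39/20) (by norm_num) (by norm_num)
      (by norm_num) (by norm_num) (by norm_num) (by norm_num) (by linarith)
      ((lam_mono h0 h).trans_lt (by norm_num)) cert5
  rcases le_or_gt α (91/100) with h | g
  · exact step (c := 15879/5000) (θ := 221/500) (a := 17/128) (b := 111/128) (r := 81/40) (by norm_num) (by norm_num)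
      (by norm_num) (by norm_num) (by norm_num) (by norm_num) (by linarith)
      ((lam_mono h0 h).trans_lt (by norm_num)) cert6
  rcases le_or_gt α (931/1000) with h | g
  · exact step (c := 32669/10000) (θ := 91/200) (a := 7/64) (b := 57/64) (r := 21/10) (by norm_num) (by norm_num)
      (by norm_num) (by norm_num) (by norm_num) (by norm_num) (by linarith)
      ((lam_mono h0 h).trans_lt (by norm_num)) cert7
  rcases le_or_gt α (947/1000) with h | g
  · exact step (c := 6681/2000) (θ := 931/2000) (a := 13/128) (b := 115/128) (r := 43/20) (by norm_num) (by norm_num)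
      (by norm_num) (by norm_num) (by norm_num) (by norm_num) (by linarith)
      ((lam_mono h0 h).trans_lt (by norm_num)) cert8
  rcases le_or_gt α (24/25) with h | g
  · exact step (c := 33963/10000) (θ := 947/2000) (a := 13/128) (b := 115/128) (r := 87/40) (by norm_num) (by norm_num)
      (by norm_num) (by norm_num) (by norm_num) (by norm_num) (by linarith)
      ((lam_mono h0 h).trans_lt (by norm_num)) cert9
  rcases le_or_gt α (97/100) with h | g
  · exact step (c := 2151/625) (θ := 12/25) (a := 3/32) (b := 29/32) (r := 11/5) (by norm_num) (by norm_num)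
      (by norm_num) (by norm_num) (by norm_num) (by norm_num) (by linarith)
      ((lam_mono h0 h).trans_lt (by norm_num)) cert10
  rcases le_or_gt α (977/1000) with h | g
  · exact step (c := 6953/2000) (θ := 97/200) (a := 11/128) (b := 117/128) (r := 9/4) (by norm_num) (by norm_num)
      (by norm_num) (by norm_num) (by norm_num) (by norm_num) (by linarith)
      ((lam_mono h0 h).trans_lt (by norm_num)) cert11
  rcases le_or_gt α (983/1000) with h | g
  · exact step (c := 35009/10000) (θ := 977/2000) (a := 11/128) (b := 117/128) (r := 9/4) (by norm_num) (by norm_num)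
      (by norm_num) (by norm_num) (by norm_num) (by norm_num) (by linarith)
      ((lam_mono h0 h).trans_lt (by norm_num)) cert12
  rcases le_or_gt α (987/1000) with h | g
  · exact step (c := 35217/10000) (θ := 983/2000) (a := 11/128) (b := 117/128) (r := 91/40) (by norm_num) (by norm_num)
      (by norm_num) (by norm_num) (by norm_num) (by norm_num) (by linarith)
      ((lam_mono h0 h).trans_lt (by norm_num)) cert13
  rcases le_or_gt α (99/100) with h | g
  · exact step (c := 7071/2000) (θ := 987/2000) (a := 11/128) (b := 117/128) (r := 91/40) (by norm_num) (by norm_num)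
      (by norm_num) (by norm_num) (by norm_num) (by norm_num) (by linarith)
      ((lam_mono h0 h).trans_lt (by norm_num)) cert14
  rcases le_or_gt α (9927/10000) with h | g
  · exact step (c := 1773/500) (θ := 99/200) (a := 5/64) (b := 59/64) (r := 23/10) (by norm_num) (by norm_num)
      (by norm_num) (by norm_num) (by norm_num) (by norm_num) (by linarith)
      ((lam_mono h0 h).trans_lt (by norm_num)) cert15
  rcases le_or_gt α (9947/10000) with h | g
  · exact step (c := 17777/5000) (θ := 9927/20000) (a := 5/64) (b := 59/64) (r := 23/10) (by norm_num) (by norm_num)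
      (by norm_num) (by norm_num) (by norm_num) (by norm_num) (by linarith)
      ((lam_mono h0 h).trans_lt (by norm_num)) cert16
  rcases le_or_gt α (249/250) with h | g
  · exact step (c := 4453/1250) (θ := 9947/20000) (a := 5/64) (b := 59/64) (r := 23/10) (by norm_num) (by norm_num)
      (by norm_num) (by norm_num) (by norm_num) (by norm_num) (by linarith)
      ((lam_mono h0 h).trans_lt (by norm_num)) cert17
  rcases le_or_gt α (997/1000) with h | g
  · exact step (c := 35669/10000) (θ := 249/500) (a := 5/64) (b := 59/64) (r := 23/10) (by norm_num) (by norm_num)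
      (by norm_num) (by norm_num) (by norm_num) (by norm_num) (by linarith)
      ((lam_mono h0 h).trans_lt (by norm_num)) cert18
  rcases le_or_gt α (9979/10000) with h | g
  · exact step (c := 35703/10000) (θ := 997/2000) (a := 5/64) (b := 59/64) (r := 23/10) (by norm_num) (by norm_num)
      (by norm_num) (by norm_num) (by norm_num) (by norm_num) (by linarith)
      ((lam_mono h0 h).trans_lt (by norm_num)) cert19
  rcases le_or_gt α (4993/5000) with h | g
  · exact step (c := 17867/5000) (θ := 9979/20000) (a := 5/64) (b := 59/64) (r := 23/10) (by norm_num) (by norm_num)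
      (by norm_num) (by norm_num) (by norm_num) (by norm_num) (by linarith)
      ((lam_mono h0 h).trans_lt (by norm_num)) cert20
  rcases le_or_gt α (9991/10000) with h | g
  · exact step (c := 17879/5000) (θ := 4993/10000) (a := 5/64) (b := 59/64) (r := 23/10) (by norm_num) (by norm_num)
      (by norm_num) (by norm_num) (by norm_num) (by norm_num) (by linarith)
      ((lam_mono h0 h).trans_lt (by norm_num)) cert21
  rcases le_or_gt α (4997/5000) with h | g
  · exact step (c := 1431/400) (θ := 9991/20000) (a := 5/64) (b := 59/64) (r := 23/10) (by norm_num) (by norm_num)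
      (by norm_num) (by norm_num) (by norm_num) (by norm_num) (by linarith)
      ((lam_mono h0 h).trans_lt (by norm_num)) cert22
  rcases le_or_gt α (9997/10000) with h | g
  · exact step (c := 17893/5000) (θ := 4997/10000) (a := 5/64) (b := 59/64) (r := 23/10) (by norm_num) (by norm_num)
      (by norm_num) (by norm_num) (by norm_num) (by norm_num) (by linarith)
      ((lam_mono h0 h).trans_lt (by norm_num)) cert23
  rcases le_or_gt α (9999/10000) with h | g
  · exact step (c := 8949/2500) (θ := 9997/20000) (a := 5/64) (b := 59/64) (r := 23/10) (by norm_num) (by norm_num)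
      (by norm_num) (by norm_num) (by norm_num) (by norm_num) (by linarith)
      ((lam_mono h0 h).trans_lt (by norm_num)) cert24
  exact step (c := 35803/10000) (θ := 9999/20000) (a := 5/64) (b := 59/64) (r := 93/40) (by norm_num) (by norm_num)
      (by norm_num) (by norm_num) (by norm_num) (by norm_num) (by linarith)
      ((lam_mono h0 h1).trans_lt (by norm_num)) cert25

end LN2

open Pool.Agent.ZGap.Res

/-- **The numeric inequality**, written out. -/
theorem lam_num2 {α : ℝ} (h0 : 0 < α) (h1 : α ≤ 1) : ∃ r θ c a b : ℝ, ∃ m : ℕ, m ≠ 0 ∧ 0 ≤ r ∧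
    0 < θ ∧ 2 * θ < α ∧ 1 + α + α ^ 2 + 0.58 * α ^ 3 < c ∧ 0 ≤ a ∧ 0 ≤ b ∧ a + b ≤ 1 ∧
    0 < a + b ∧
    |c - 1| * Den a b (r ^ 2) < 2 / Real.pi * (|r| * Num (Real.pi * c * θ) a b (r ^ 2) m) :=
  LN2.lam_num2' h0 h1

end Pool.Agent.ZShort
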