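import Pool.Agent.ZShort.LamNum

/-!
# The numeric inequality for large gaps in short intervals, sharper form

For every `0 < α ≤ 1` the resonance inequality holds for some `c > 1 + α + α ^ 2 + 0.58 * α ^ 3`
and some length exponent `θ < α / 2`.
-/

set_option autoImplicit false

namespace Pool.Agent.ZShort.LN2

open Pool.Agent.ZGap.Res Filter Topology

/-- The existence of admissible parameters with `2 θ < α` and `v < c`. -/
def HasPar (α v : ℝ) : Prop := ∃ r θ c a b : ℝ, ∃ m : ℕ, m ≠ 0 ∧ 0 ≤ r ∧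
    0 < θ ∧ 2 * θ < α ∧ v < c ∧ 0 ≤ a ∧ 0 ≤ b ∧ a + b ≤ 1 ∧ 0 < a + b ∧
    |c - 1| * Den a b (r ^ 2) < 2 / Real.pi * (|r| * Num (Real.pi * c * θ) a b (r ^ 2) m)

lemma term_nn {a b q : ℝ} (ha : 0 ≤ a) (hb : 0 ≤ b) (hq : 0 ≤ q) (k : ℕ) :
    0 ≤ term a b k (rho q) := by
  unfold Pool.Agent.ZGap.Res.term
  have h1 := rho_nonneg hq (2 * k + 1)
  have h2 := rho_nonneg hq (2 * k + 2)
  have h3 := rho_nonneg hq (2 * k + 3)
  positivity

/-- The inequality without `π` gives the resonance inequality, six terms of the sine series. -/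
lemma of_six {c θ a b r : ℝ} (hc : 1 ≤ c) (hθ : 0 < θ) (ha : 0 ≤ a) (hb : 0 ≤ b) (hr : 0 ≤ r)
    (h : (c - 1) * Den a b (r ^ 2) < r *
      (4 * (c * θ) * term a b 0 (rho (r ^ 2))
      - 2 / 3 * 9.86961 * (c * θ) ^ 3 * term a b 1 (rho (r ^ 2))
      + 1 / 30 * 9.8696 ^ 2 * (c * θ) ^ 5 * term a b 2 (rho (r ^ 2))
      - 1 / 1260 * 9.86961 ^ 3 * (c * θ) ^ 7 * term a b 3 (rho (r ^ 2))
      + 1 / 90720 * 9.8696 ^ 4 * (c * θ) ^ 9 * term a b 4 (rho (r ^ 2))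
      - 1 / 9979200 * 9.86961 ^ 5 * (c * θ) ^ 11 * term a b 5 (rho (r ^ 2)))) :
    |c - 1| * Den a b (r ^ 2) <
      2 / Real.pi * (|r| * Num (Real.pi * c * θ) a b (r ^ 2) 3) := by
  have hpi := Real.pi_pos
  have e : 2 / Real.pi * (|r| * Num (Real.pi * c * θ) a b (r ^ 2) 3) = r *
      (4 * (c * θ) * term a b 0 (rho (r ^ 2))
      - 2 / 3 * Real.pi ^ 2 * (c * θ) ^ 3 * term a b 1 (rho (r ^ 2))
      + 1 / 30 * (Real.pi ^ 2) ^ 2 * (c * θ) ^ 5 * term a b 2 (rho (r ^ 2))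
      - 1 / 1260 * (Real.pi ^ 2) ^ 3 * (c * θ) ^ 7 * term a b 3 (rho (r ^ 2))
      + 1 / 90720 * (Real.pi ^ 2) ^ 4 * (c * θ) ^ 9 * term a b 4 (rho (r ^ 2))
      - 1 / 9979200 * (Real.pi ^ 2) ^ 5 * (c * θ) ^ 11 * term a b 5 (rho (r ^ 2))) := by
    rw [abs_of_nonneg hr]
    unfold Pool.Agent.ZGap.Res.Num sk
    simp only [Finset.sum_range_succ, Finset.sum_range_zero, Nat.factorial, show 2 * 3 = 6 from rfl]
    push_cast
    field_simp
    ring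
  rw [e, abs_of_nonneg (by linarith)]
  have b1 := Real.pi_gt_d6
  have b2 := Real.pi_lt_d6
  have p1 : 9.8696 ≤ Real.pi ^ 2 := by nlinarith
  have p2 : Real.pi ^ 2 ≤ 9.86961 := by nlinarith
  have hx : 0 ≤ c * θ := by positivity
  have hq : (0 : ℝ) ≤ r ^ 2 := by positivity
  have t1 := term_nn ha hb hq 1
  have t2 := term_nn ha hb hq 2
  have t3 := term_nn ha hb hq 3
  have t4 := term_nn ha hb hq 4
  have t5 := term_nn ha hb hq 5
  refine h.trans_le (mul_le_mul_of_nonneg_left ?_ hr)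
  have q1 : 2 / 3 * Real.pi ^ 2 * (c * θ) ^ 3 * term a b 1 (rho (r ^ 2)) ≤
      2 / 3 * 9.86961 * (c * θ) ^ 3 * term a b 1 (rho (r ^ 2)) := by gcongr
  have q2 : 1 / 30 * 9.8696 ^ 2 * (c * θ) ^ 5 * term a b 2 (rho (r ^ 2)) ≤
      1 / 30 * (Real.pi ^ 2) ^ 2 * (c * θ) ^ 5 * term a b 2 (rho (r ^ 2)) := by gcongr
  have q3 : 1 / 1260 * (Real.pi ^ 2) ^ 3 * (c * θ) ^ 7 * term a b 3 (rho (r ^ 2)) ≤
      1 / 1260 * 9.86961 ^ 3 * (c * θ) ^ 7 * term a b 3 (rho (r ^ 2)) := by gcongr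
  have q4 : 1 / 90720 * 9.8696 ^ 4 * (c * θ) ^ 9 * term a b 4 (rho (r ^ 2)) ≤
      1 / 90720 * (Real.pi ^ 2) ^ 4 * (c * θ) ^ 9 * term a b 4 (rho (r ^ 2)) := by gcongr
  have q5 : 1 / 9979200 * (Real.pi ^ 2) ^ 5 * (c * θ) ^ 11 * term a b 5 (rho (r ^ 2)) ≤
      1 / 9979200 * 9.86961 ^ 5 * (c * θ) ^ 11 * term a b 5 (rho (r ^ 2)) := by gcongr
  linarith

/-- One step of the chain. -/
lemma step {α v c θ a b r : ℝ} (hc : 1 ≤ c) (hθ : 0 < θ) (ha : 0 ≤ a) (hb : 0 ≤ b)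
    (hab : a + b = 1) (hr : 0 ≤ r) (hα : 2 * θ < α) (hv : v < c)
    (h : (c - 1) * Den a b (r ^ 2) < r *
      (4 * (c * θ) * term a b 0 (rho (r ^ 2))
      - 2 / 3 * 9.86961 * (c * θ) ^ 3 * term a b 1 (rho (r ^ 2))
      + 1 / 30 * 9.8696 ^ 2 * (c * θ) ^ 5 * term a b 2 (rho (r ^ 2))
      - 1 / 1260 * 9.86961 ^ 3 * (c * θ) ^ 7 * term a b 3 (rho (r ^ 2))
      + 1 / 90720 * 9.8696 ^ 4 * (c * θ) ^ 9 * term a b 4 (rho (r ^ 2))
      - 1 / 9979200 * 9.86961 ^ 5 * (c * θ) ^ 11 * term a b 5 (rho (r ^ 2)))) : HasPar α v :=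
  ⟨r, θ, c, a, b, 3, three_ne_zero, hr, hθ, hα, hv, ha, hb, hab.le, by rw [hab]; exact one_pos,
    of_six hc hθ ha hb hr h⟩

lemma lam_mono {α β : ℝ} (h0 : 0 < α) (h : α ≤ β) :
    1 + α + α ^ 2 + 0.58 * α ^ 3 ≤ 1 + β + β ^ 2 + 0.58 * β ^ 3 := by
  have h1 : α ^ 2 ≤ β ^ 2 := by gcongr
  have h2 : α ^ 3 ≤ β ^ 3 := by gcongr
  linarith

lemma cert0 : (((23671/10000) : ℝ) - 1) * Den (49/128) (79/128) ((59/40) ^ 2) < 59/40 *
      (4 * ((23671/10000) * (13/40)) * term (49/128) (79/128) 0 (rho ((59/40) ^ 2))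
      - 2 / 3 * 9.86961 * ((23671/10000) * (13/40)) ^ 3 * term (49/128) (79/128) 1 (rho ((59/40) ^ 2))
      + 1 / 30 * 9.8696 ^ 2 * ((23671/10000) * (13/40)) ^ 5 * term (49/128) (79/128) 2 (rho ((59/40) ^ 2))
      - 1 / 1260 * 9.86961 ^ 3 * ((23671/10000) * (13/40)) ^ 7 * term (49/128) (79/128) 3 (rho ((59/40) ^ 2))
      + 1 / 90720 * 9.8696 ^ 4 * ((23671/10000) * (13/40)) ^ 9 * term (49/128) (79/128) 4 (rho ((59/40) ^ 2))
      - 1 / 9979200 * 9.86961 ^ 5 * ((23671/10000) * (13/40)) ^ 11 * term (49/128) (79/128) 5 (rho ((59/40) ^ 2))) := by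
  unfold Den Pool.Agent.ZGap.Res.term
  simp only [rho, Nat.cast_ofNat, Nat.cast_zero, Nat.cast_one, mul_zero, mul_one, zero_add]
  norm_num

lemma cert1 : (((6279/2500) : ℝ) - 1) * Den (5/16) (11/16) ((63/40) ^ 2) < 63/40 *
      (4 * ((6279/2500) * (693/2000)) * term (5/16) (11/16) 0 (rho ((63/40) ^ 2))
      - 2 / 3 * 9.86961 * ((6279/2500) * (693/2000)) ^ 3 * term (5/16) (11/16) 1 (rho ((63/40) ^ 2))
      + 1 / 30 * 9.8696 ^ 2 * ((6279/2500) * (693/2000)) ^ 5 * term (5/16) (11/16) 2 (rho ((63/40) ^ 2))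
      - 1 / 1260 * 9.86961 ^ 3 * ((6279/2500) * (693/2000)) ^ 7 * term (5/16) (11/16) 3 (rho ((63/40) ^ 2))
      + 1 / 90720 * 9.8696 ^ 4 * ((6279/2500) * (693/2000)) ^ 9 * term (5/16) (11/16) 4 (rho ((63/40) ^ 2))
      - 1 / 9979200 * 9.86961 ^ 5 * ((6279/2500) * (693/2000)) ^ 11 * term (5/16) (11/16) 5 (rho ((63/40) ^ 2))) := by
  unfold Den Pool.Agent.ZGap.Res.term
  simp only [rho, Nat.cast_ofNat, Nat.cast_zero, Nat.cast_one, mul_zero, mul_one, zero_add]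
  norm_num

lemma cert2 : (((26589/10000) : ℝ) - 1) * Den (33/128) (95/128) ((67/40) ^ 2) < 67/40 *
      (4 * ((26589/10000) * (46/125)) * term (33/128) (95/128) 0 (rho ((67/40) ^ 2))
      - 2 / 3 * 9.86961 * ((26589/10000) * (46/125)) ^ 3 * term (33/128) (95/128) 1 (rho ((67/40) ^ 2))
      + 1 / 30 * 9.8696 ^ 2 * ((26589/10000) * (46/125)) ^ 5 * term (33/128) (95/128) 2 (rho ((67/40) ^ 2))
      - 1 / 1260 * 9.86961 ^ 3 * ((26589/10000) * (46/125)) ^ 7 * term (33/128) (95/128) 3 (rho ((67/40) ^ 2))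
      + 1 / 90720 * 9.8696 ^ 4 * ((26589/10000) * (46/125)) ^ 9 * term (33/128) (95/128) 4 (rho ((67/40) ^ 2))
      - 1 / 9979200 * 9.86961 ^ 5 * ((26589/10000) * (46/125)) ^ 11 * term (33/128) (95/128) 5 (rho ((67/40) ^ 2))) := by
  unfold Den Pool.Agent.ZGap.Res.term
  simp only [rho, Nat.cast_ofNat, Nat.cast_zero, Nat.cast_one, mul_zero, mul_one, zero_add]
  norm_num

lemma cert3 : (((14023/5000) : ℝ) - 1) * Den (27/128) (101/128) ((71/40) ^ 2) < 71/40 *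
      (4 * ((14023/5000) * (389/1000)) * term (27/128) (101/128) 0 (rho ((71/40) ^ 2))
      - 2 / 3 * 9.86961 * ((14023/5000) * (389/1000)) ^ 3 * term (27/128) (101/128) 1 (rho ((71/40) ^ 2))
      + 1 / 30 * 9.8696 ^ 2 * ((14023/5000) * (389/1000)) ^ 5 * term (27/128) (101/128) 2 (rho ((71/40) ^ 2))
      - 1 / 1260 * 9.86961 ^ 3 * ((14023/5000) * (389/1000)) ^ 7 * term (27/128) (101/128) 3 (rho ((71/40) ^ 2))
      + 1 / 90720 * 9.8696 ^ 4 * ((14023/5000) * (389/1000)) ^ 9 * term (27/128) (101/128) 4 (rho ((71/40) ^ 2))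
      - 1 / 9979200 * 9.86961 ^ 5 * ((14023/5000) * (389/1000)) ^ 11 * term (27/128) (101/128) 5 (rho ((71/40) ^ 2))) := by
  unfold Den Pool.Agent.ZGap.Res.term
  simp only [rho, Nat.cast_ofNat, Nat.cast_zero, Nat.cast_one, mul_zero, mul_one, zero_add]
  norm_num

lemma cert4 : (((7361/2500) : ℝ) - 1) * Den (11/64) (53/64) ((15/8) ^ 2) < 15/8 *
      (4 * ((7361/2500) * (409/1000)) * term (11/64) (53/64) 0 (rho ((15/8) ^ 2))
      - 2 / 3 * 9.86961 * ((7361/2500) * (409/1000)) ^ 3 * term (11/64) (53/64) 1 (rho ((15/8) ^ 2))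
      + 1 / 30 * 9.8696 ^ 2 * ((7361/2500) * (409/1000)) ^ 5 * term (11/64) (53/64) 2 (rho ((15/8) ^ 2))
      - 1 / 1260 * 9.86961 ^ 3 * ((7361/2500) * (409/1000)) ^ 7 * term (11/64) (53/64) 3 (rho ((15/8) ^ 2))
      + 1 / 90720 * 9.8696 ^ 4 * ((7361/2500) * (409/1000)) ^ 9 * term (11/64) (53/64) 4 (rho ((15/8) ^ 2))
      - 1 / 9979200 * 9.86961 ^ 5 * ((7361/2500) * (409/1000)) ^ 11 * term (11/64) (53/64) 5 (rho ((15/8) ^ 2))) := by
  unfold Den Pool.Agent.ZGap.Res.term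
  simp only [rho, Nat.cast_ofNat, Nat.cast_zero, Nat.cast_one, mul_zero, mul_one, zero_add]
  norm_num

lemma cert5 : (((30671/10000) : ℝ) - 1) * Den (19/128) (109/128) ((39/20) ^ 2) < 39/20 *
      (4 * ((30671/10000) * (853/2000)) * term (19/128) (109/128) 0 (rho ((39/20) ^ 2))
      - 2 / 3 * 9.86961 * ((30671/10000) * (853/2000)) ^ 3 * term (19/128) (109/128) 1 (rho ((39/20) ^ 2))
      + 1 / 30 * 9.8696 ^ 2 * ((30671/10000) * (853/2000)) ^ 5 * term (19/128) (109/128) 2 (rho ((39/20) ^ 2))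
      - 1 / 1260 * 9.86961 ^ 3 * ((30671/10000) * (853/2000)) ^ 7 * term (19/128) (109/128) 3 (rho ((39/20) ^ 2))
      + 1 / 90720 * 9.8696 ^ 4 * ((30671/10000) * (853/2000)) ^ 9 * term (19/128) (109/128) 4 (rho ((39/20) ^ 2))
      - 1 / 9979200 * 9.86961 ^ 5 * ((30671/10000) * (853/2000)) ^ 11 * term (19/128) (109/128) 5 (rho ((39/20) ^ 2))) := by
  unfold Den Pool.Agent.ZGap.Res.term
  simp only [rho, Nat.cast_ofNat, Nat.cast_zero, Nat.cast_one, mul_zero, mul_one, zero_add]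
  norm_num

lemma cert6 : (((15879/5000) : ℝ) - 1) * Den (17/128) (111/128) ((81/40) ^ 2) < 81/40 *
      (4 * ((15879/5000) * (221/500)) * term (17/128) (111/128) 0 (rho ((81/40) ^ 2))
      - 2 / 3 * 9.86961 * ((15879/5000) * (221/500)) ^ 3 * term (17/128) (111/128) 1 (rho ((81/40) ^ 2))
      + 1 / 30 * 9.8696 ^ 2 * ((15879/5000) * (221/500)) ^ 5 * term (17/128) (111/128) 2 (rho ((81/40) ^ 2))
      - 1 / 1260 * 9.86961 ^ 3 * ((15879/5000) * (221/500)) ^ 7 * term (17/128) (111/128) 3 (rho ((81/40) ^ 2))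
      + 1 / 90720 * 9.8696 ^ 4 * ((15879/5000) * (221/500)) ^ 9 * term (17/128) (111/128) 4 (rho ((81/40) ^ 2))
      - 1 / 9979200 * 9.86961 ^ 5 * ((15879/5000) * (221/500)) ^ 11 * term (17/128) (111/128) 5 (rho ((81/40) ^ 2))) := by
  unfold Den Pool.Agent.ZGap.Res.term
  simp only [rho, Nat.cast_ofNat, Nat.cast_zero, Nat.cast_one, mul_zero, mul_one, zero_add]
  norm_num

lemma cert7 : (((32669/10000) : ℝ) - 1) * Den (7/64) (57/64) ((21/10) ^ 2) < 21/10 *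
      (4 * ((32669/10000) * (91/200)) * term (7/64) (57/64) 0 (rho ((21/10) ^ 2))
      - 2 / 3 * 9.86961 * ((32669/10000) * (91/200)) ^ 3 * term (7/64) (57/64) 1 (rho ((21/10) ^ 2))
      + 1 / 30 * 9.8696 ^ 2 * ((32669/10000) * (91/200)) ^ 5 * term (7/64) (57/64) 2 (rho ((21/10) ^ 2))
      - 1 / 1260 * 9.86961 ^ 3 * ((32669/10000) * (91/200)) ^ 7 * term (7/64) (57/64) 3 (rho ((21/10) ^ 2))
      + 1 / 90720 * 9.8696 ^ 4 * ((32669/10000) * (91/200)) ^ 9 * term (7/64) (57/64) 4 (rho ((21/10) ^ 2))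
      - 1 / 9979200 * 9.86961 ^ 5 * ((32669/10000) * (91/200)) ^ 11 * term (7/64) (57/64) 5 (rho ((21/10) ^ 2))) := by
  unfold Den Pool.Agent.ZGap.Res.term
  simp only [rho, Nat.cast_ofNat, Nat.cast_zero, Nat.cast_one, mul_zero, mul_one, zero_add]
  norm_num

lemma cert8 : (((6681/2000) : ℝ) - 1) * Den (13/128) (115/128) ((43/20) ^ 2) < 43/20 *
      (4 * ((6681/2000) * (931/2000)) * term (13/128) (115/128) 0 (rho ((43/20) ^ 2))
      - 2 / 3 * 9.86961 * ((6681/2000) * (931/2000)) ^ 3 * term (13/128) (115/128) 1 (rho ((43/20) ^ 2))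
      + 1 / 30 * 9.8696 ^ 2 * ((6681/2000) * (931/2000)) ^ 5 * term (13/128) (115/128) 2 (rho ((43/20) ^ 2))
      - 1 / 1260 * 9.86961 ^ 3 * ((6681/2000) * (931/2000)) ^ 7 * term (13/128) (115/128) 3 (rho ((43/20) ^ 2))
      + 1 / 90720 * 9.8696 ^ 4 * ((6681/2000) * (931/2000)) ^ 9 * term (13/128) (115/128) 4 (rho ((43/20) ^ 2))
      - 1 / 9979200 * 9.86961 ^ 5 * ((6681/2000) * (931/2000)) ^ 11 * term (13/128) (115/128) 5 (rho ((43/20) ^ 2))) := by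
  unfold Den Pool.Agent.ZGap.Res.term
  simp only [rho, Nat.cast_ofNat, Nat.cast_zero, Nat.cast_one, mul_zero, mul_one, zero_add]
  norm_num

lemma cert9 : (((33963/10000) : ℝ) - 1) * Den (13/128) (115/128) ((87/40) ^ 2) < 87/40 *
      (4 * ((33963/10000) * (947/2000)) * term (13/128) (115/128) 0 (rho ((87/40) ^ 2))
      - 2 / 3 * 9.86961 * ((33963/10000) * (947/2000)) ^ 3 * term (13/128) (115/128) 1 (rho ((87/40) ^ 2))
      + 1 / 30 * 9.8696 ^ 2 * ((33963/10000) * (947/2000)) ^ 5 * term (13/128) (115/128) 2 (rho ((87/40) ^ 2))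
      - 1 / 1260 * 9.86961 ^ 3 * ((33963/10000) * (947/2000)) ^ 7 * term (13/128) (115/128) 3 (rho ((87/40) ^ 2))
      + 1 / 90720 * 9.8696 ^ 4 * ((33963/10000) * (947/2000)) ^ 9 * term (13/128) (115/128) 4 (rho ((87/40) ^ 2))
      - 1 / 9979200 * 9.86961 ^ 5 * ((33963/10000) * (947/2000)) ^ 11 * term (13/128) (115/128) 5 (rho ((87/40) ^ 2))) := by
  unfold Den Pool.Agent.ZGap.Res.term
  simp only [rho, Nat.cast_ofNat, Nat.cast_zero, Nat.cast_one, mul_zero, mul_one, zero_add]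
  norm_num

lemma cert10 : (((2151/625) : ℝ) - 1) * Den (3/32) (29/32) ((11/5) ^ 2) < 11/5 *
      (4 * ((2151/625) * (12/25)) * term (3/32) (29/32) 0 (rho ((11/5) ^ 2))
      - 2 / 3 * 9.86961 * ((2151/625) * (12/25)) ^ 3 * term (3/32) (29/32) 1 (rho ((11/5) ^ 2))
      + 1 / 30 * 9.8696 ^ 2 * ((2151/625) * (12/25)) ^ 5 * term (3/32) (29/32) 2 (rho ((11/5) ^ 2))
      - 1 / 1260 * 9.86961 ^ 3 * ((2151/625) * (12/25)) ^ 7 * term (3/32) (29/32) 3 (rho ((11/5) ^ 2))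
      + 1 / 90720 * 9.8696 ^ 4 * ((2151/625) * (12/25)) ^ 9 * term (3/32) (29/32) 4 (rho ((11/5) ^ 2))
      - 1 / 9979200 * 9.86961 ^ 5 * ((2151/625) * (12/25)) ^ 11 * term (3/32) (29/32) 5 (rho ((11/5) ^ 2))) := by
  unfold Den Pool.Agent.ZGap.Res.term
  simp only [rho, Nat.cast_ofNat, Nat.cast_zero, Nat.cast_one, mul_zero, mul_one, zero_add]
  norm_num

lemma cert11 : (((6953/2000) : ℝ) - 1) * Den (11/128) (117/128) ((9/4) ^ 2) < 9/4 *
      (4 * ((6953/2000) * (97/200)) * term (11/128) (117/128) 0 (rho ((9/4) ^ 2))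
      - 2 / 3 * 9.86961 * ((6953/2000) * (97/200)) ^ 3 * term (11/128) (117/128) 1 (rho ((9/4) ^ 2))
      + 1 / 30 * 9.8696 ^ 2 * ((6953/2000) * (97/200)) ^ 5 * term (11/128) (117/128) 2 (rho ((9/4) ^ 2))
      - 1 / 1260 * 9.86961 ^ 3 * ((6953/2000) * (97/200)) ^ 7 * term (11/128) (117/128) 3 (rho ((9/4) ^ 2))
      + 1 / 90720 * 9.8696 ^ 4 * ((6953/2000) * (97/200)) ^ 9 * term (11/128) (117/128) 4 (rho ((9/4) ^ 2))
      - 1 / 9979200 * 9.86961 ^ 5 * ((6953/2000) * (97/200)) ^ 11 * term (11/128) (117/128) 5 (rho ((9/4) ^ 2))) := by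
  unfold Den Pool.Agent.ZGap.Res.term
  simp only [rho, Nat.cast_ofNat, Nat.cast_zero, Nat.cast_one, mul_zero, mul_one, zero_add]
  norm_num

lemma cert12 : (((35009/10000) : ℝ) - 1) * Den (11/128) (117/128) ((9/4) ^ 2) < 9/4 *
      (4 * ((35009/10000) * (977/2000)) * term (11/128) (117/128) 0 (rho ((9/4) ^ 2))
      - 2 / 3 * 9.86961 * ((35009/10000) * (977/2000)) ^ 3 * term (11/128) (117/128) 1 (rho ((9/4) ^ 2))
      + 1 / 30 * 9.8696 ^ 2 * ((35009/10000) * (977/2000)) ^ 5 * term (11/128) (117/128) 2 (rho ((9/4) ^ 2))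
      - 1 / 1260 * 9.86961 ^ 3 * ((35009/10000) * (977/2000)) ^ 7 * term (11/128) (117/128) 3 (rho ((9/4) ^ 2))
      + 1 / 90720 * 9.8696 ^ 4 * ((35009/10000) * (977/2000)) ^ 9 * term (11/128) (117/128) 4 (rho ((9/4) ^ 2))
      - 1 / 9979200 * 9.86961 ^ 5 * ((35009/10000) * (977/2000)) ^ 11 * term (11/128) (117/128) 5 (rho ((9/4) ^ 2))) := by
  unfold Den Pool.Agent.ZGap.Res.term
  simp only [rho, Nat.cast_ofNat, Nat.cast_zero, Nat.cast_one, mul_zero, mul_one, zero_add]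
  norm_num

end Pool.Agent.ZShort.LN2
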