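import Pool.Agent.ZShort.Void
import Pool.Agent.ZShort.GapL
import Pool.Agent.ZShort.LamNum

/-!
# Every interval `[T, T + T ^ a]` contains a gap above `1 + a + a²` (RH)
-/

namespace Pool.Agent.ZShort

open Pool.Agent.ZGap.Res Pool.Agent.ZetaGaps

/-- Large gaps in every short interval, from the numerical inequality. -/
theorem large_short_of_num (hRH : RiemannHypothesis) {r θ c a b α : ℝ} {m : ℕ} (hm : m ≠ 0)
    (hθ : 0 < θ) (hθα : 2 * θ < α) (hα1 : α ≤ 1) (hc1 : 1 ≤ c) (ha : 0 ≤ a) (hb : 0 ≤ b)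
    (hab : a + b ≤ 1) (h0 : 0 < a + b) (hr : 0 ≤ r)
    (hgap : |c - 1| * Den a b (r ^ 2) <
      2 / Real.pi * (|r| * Num (Real.pi * c * θ) a b (r ^ 2) m)) :
    ∃ T0 : ℝ, ∀ T : ℝ, T0 ≤ T →
      ∃ n : ℕ, 1 ≤ n ∧ T ≤ ordinate n ∧ ordinate (n + 1) ≤ T + T ^ α ∧ c ≤ gap n := by
  have hpi := Real.pi_pos
  have hc : 0 < c := by linarith
  obtain ⟨κ, hκ, e, he, main⟩ := arith_sum hm hθ (by linarith) hc.le ha hb hab h0 hgap
  set ep := min e (θ / 4) with hep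
  have hep0 : 0 < ep := lt_min he (by linarith)
  have hep1 : ep ≤ θ / 4 := min_le_right _ _
  set δ := min e (1 / 2) with hδ
  have hδ0 : 0 < δ := lt_min he (by norm_num)
  obtain ⟨R, hRth, hRep, hRr, hLP⟩ := exists_linProf (th := θ) (ep := ep) (δ := δ) r hep0
    (by linarith) (by linarith) ha hb hab hδ0 (min_le_right _ _)
  set e' := min e (Real.pi * κ) with he'
  have he'0 : 0 < e' := lt_min he (by positivity)
  obtain ⟨ψ, hψ, hψ00, hψle, hψ1, hψ0, ⟨K, M, hK, hlip, hbd⟩, hclose⟩ := exists_majorant hc he'0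
  obtain ⟨T1, hT1, harith⟩ := main R hRr hRth (by rw [hRep]; exact min_le_left _ _) δ
    (min_le_left _ _) hLP (chat ψ) K M e' 1 hK hlip hbd he'0.le (min_le_left _ _)
    (fun x _ _ => hclose x) (by norm_num) (by rw [abs_of_nonneg hr]; ring)
  have hF : ∀ x, 0 ≤ x → R.F x ≤ 1 := fun x hx => hLP.F_le_one hx
  have hF0 : 0 < R.F 0 := by
    rw [hLP.eq 0 le_rfl (by linarith [hLP.hδ'])]
    linarith
  have hψc : chat ψ 0 / (2 * Real.pi) ≤ c + κ / 2 := by
    have h1 := (abs_le.mp (hclose 0)).2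
    have h2 : k0 c 0 = 2 * (Real.pi * c) := by unfold k0; simp
    have h3 : e' ≤ Real.pi * κ := min_le_right _ _
    rw [div_le_iff₀ (by positivity)]
    rw [h2] at h1
    linarith only [h1, h3]
  obtain ⟨T2, hvoid⟩ := void_short hRH R hF hF0 (α := θ + α / 2) (a := α) (by linarith)
    (by rw [hRth]; linarith) (by linarith) hα1 hκ hψ hψ00 hψle hψ1 hψ0 hψc (T1 := T1)
    (fun T hT => by
      have h1 := harith T hT ⌊T⌋₊ le_rfl
      rw [abs_of_nonneg (by linarith)] at h1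
      linarith)
  have hα0 : 0 < α := by linarith
  obtain ⟨T3, hgapT⟩ := gap_of_void hc hα0 hα1
  refine ⟨max (max T2 T3) 1, fun T hT => ?_⟩
  have hT2 : T2 ≤ T := (le_max_left _ _).trans ((le_max_left _ _).trans hT)
  have hT3 : T3 ≤ T := (le_max_right _ _).trans ((le_max_left _ _).trans hT)
  have hT4 : 1 ≤ T := (le_max_right _ _).trans hT
  have hp0 : 0 < T ^ α := Real.rpow_pos_of_pos (by linarith) α
  have hp1 : T ^ α ≤ T := by
    calc T ^ α ≤ T ^ (1:ℝ) := Real.rpow_le_rpow_of_exponent_le hT4 hα1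
      _ = T := Real.rpow_one T
  obtain ⟨t, ht, hv⟩ := hvoid T hT2 (T + T ^ α / 2) ⟨by linarith, by linarith⟩
  have ht' := abs_le.mp ht
  exact hgapT T hT3 t (by linarith [ht'.1]) (by linarith [ht'.2]) hv

/-- **Large gaps in every short interval** (RH). -/
theorem large_short (hRH : RiemannHypothesis) {a : ℝ} (ha : 0 < a) (ha1 : a ≤ 1) :
    ∃ T0 : ℝ, ∀ T : ℝ, T0 ≤ T →
      ∃ n : ℕ, 1 ≤ n ∧ T ≤ ordinate n ∧ ordinate (n + 1) ≤ T + T ^ a ∧
        1 + a + a ^ 2 < gap n := by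
  obtain ⟨r, θ, c, a', b', m, hm, hr, hθ, hθa, hc, ha', hb', hab, h0, hgap⟩ := lam_num ha ha1
  obtain ⟨T0, h⟩ := large_short_of_num hRH hm hθ hθa ha1 (by nlinarith [sq_nonneg a]) ha' hb' hab
    h0 hr hgap
  refine ⟨T0, fun T hT => ?_⟩
  obtain ⟨n, h1, h2, h3, h4⟩ := h T hT
  exact ⟨n, h1, h2, h3, lt_of_lt_of_le hc h4⟩

end Pool.Agent.ZShort
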