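import Pool.Agent.ZShort.LargePos2
import Pool.Agent.ZShort.LamNum2

/-!
# A positive proportion of gaps larger than `1 + a + a ^ 2 + 0.58 * a ^ 3` in every interval
# `[T, T + H]`, `H ≥ T ^ a` (RH)
-/

namespace Pool.Agent.ZShort

open MeasureTheory Pool.Agent.ZGap.Res Pool.Agent.ZetaGaps

/-- **A positive proportion of large gaps in every short interval** (RH), one formula for all
`0 < a ≤ 1`. -/
theorem large_every3 (hRH : RiemannHypothesis) {a : ℝ} (ha : 0 < a) (ha1 : a ≤ 1) :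
    ∃ κ : ℝ, 0 < κ ∧
      (∃ T₀ : ℝ, ∀ T H : ℝ, T₀ ≤ T → T ^ a ≤ H →
        κ * ((zeroCount (T + H) : ℝ) - zeroCount T) ≤
          (({n ∈ Finset.Ioo (zeroCount T) (zeroCount (T + H)) |
            1 + a + a ^ 2 + 0.58 * a ^ 3 < gap n} : Finset ℕ).card : ℝ)) ∧
      (∃ N₀ : ℕ, ∀ N M : ℕ, N₀ ≤ N → (N : ℝ) ^ a ≤ M →
        κ * M ≤ (({n ∈ Finset.Ioc N (N + M) |
          1 + a + a ^ 2 + 0.58 * a ^ 3 < gap n} : Finset ℕ).card : ℝ)) := by
  obtain ⟨r, θ, c, a', b', m, hm, hr, hθ, hθa, hc, ha', hb', hab, h0, hgap⟩ := lam_num2 ha ha1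
  have hc1 : 1 ≤ c := by
    have : 0 < a + a ^ 2 + 0.58 * a ^ 3 := by positivity
    linarith
  exact large_every_of_num hRH hm hθ hθa ha1 hc1 hc ha' hb' hab h0 hr hgap

end Pool.Agent.ZShort
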