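import Pool.Agent.ZShort.AAFinal2

/-!
# Certificates for the numeric inequality of the resonator
-/

set_option autoImplicit false

namespace Pool.Agent.ZShort

open Pool.Agent.ZGap.Res

/-- The series with two pairs of terms. -/
lemma num_two {r s a b : ℝ} (hr : 0 ≤ r) : 2 / Real.pi * (|r| * Num (Real.pi * s) a b (r ^ 2) 2) =
    r * (4 * s * term a b 0 (rho (r ^ 2)) - 2 / 3 * Real.pi ^ 2 * s ^ 3 * term a b 1 (rho (r ^ 2)) +
      1 / 30 * Real.pi ^ 4 * s ^ 5 * term a b 2 (rho (r ^ 2)) -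
      1 / 1260 * Real.pi ^ 6 * s ^ 7 * term a b 3 (rho (r ^ 2))) := by
  have hpi := Real.pi_pos
  rw [abs_of_nonneg hr]
  unfold Pool.Agent.ZGap.Res.Num sk
  simp only [Finset.sum_range_succ, Finset.sum_range_zero, Nat.factorial, show 2 * 2 = 4 from rfl]
  field_simp
  ring

lemma term_nonneg {a b q : ℝ} (ha : 0 ≤ a) (hb : 0 ≤ b) (hq : 0 ≤ q) (k : ℕ) :
    0 ≤ term a b k (rho q) := by
  have h1 := rho_nonneg hq (2 * k + 1)
  have h2 := rho_nonneg hq (2 * k + 2)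
  have h3 := rho_nonneg hq (2 * k + 3)
  unfold term
  positivity

/-- **The certificate on an interval of exponents.** -/
theorem numOK_on {lo r s θ c a b d : ℝ} (h1 : 2 * θ < lo) (h0 : 0 < θ) (hr : 0 ≤ r) (ha : 0 ≤ a)
    (hb : 0 ≤ b) (hab : a + b ≤ 1) (hab0 : 0 < a + b) (hc1 : 1 ≤ c) (hs : s = c * θ)
    (hd : d < c)
    (hval : (c - 1) * Den a b (r ^ 2) < r * (4 * s * term a b 0 (rho (r ^ 2)) -
      2 / 3 * (3.141593 ^ 2) * s ^ 3 * term a b 1 (rho (r ^ 2)) +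
      1 / 30 * (3.141592 ^ 4) * s ^ 5 * term a b 2 (rho (r ^ 2)) -
      1 / 1260 * (3.141593 ^ 6) * s ^ 7 * term a b 3 (rho (r ^ 2))))
    {α : ℝ} (hα : lo ≤ α) : NumOK α d := by
  refine ⟨r, θ, c, a, b, 2, two_ne_zero, hr, h0, by linarith, hd, ha, hb, hab, hab0, ?_⟩
  have e : Real.pi * c * θ = Real.pi * s := by rw [hs]; ring
  rw [e, num_two hr, abs_of_nonneg (by linarith)]
  have hs0 : 0 ≤ s := by rw [hs]; positivity
  have b1 := Real.pi_gt_d6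
  have b2 := Real.pi_lt_d6
  have hpi := Real.pi_pos
  have p2 : Real.pi ^ 2 ≤ 3.141593 ^ 2 := by gcongr
  have p4 : (3.141592 : ℝ) ^ 4 ≤ Real.pi ^ 4 := by gcongr
  have p6 : Real.pi ^ 6 ≤ 3.141593 ^ 6 := by gcongr
  have t1 := term_nonneg ha hb (sq_nonneg r) 1
  have t2 := term_nonneg ha hb (sq_nonneg r) 2
  have t3 := term_nonneg ha hb (sq_nonneg r) 3
  refine hval.trans_le ?_
  apply mul_le_mul_of_nonneg_left _ hr
  have q1 : 2 / 3 * Real.pi ^ 2 * s ^ 3 * term a b 1 (rho (r ^ 2)) ≤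
      2 / 3 * (3.141593 ^ 2) * s ^ 3 * term a b 1 (rho (r ^ 2)) := by gcongr
  have q2 : 1 / 30 * (3.141592 ^ 4) * s ^ 5 * term a b 2 (rho (r ^ 2)) ≤
      1 / 30 * Real.pi ^ 4 * s ^ 5 * term a b 2 (rho (r ^ 2)) := by gcongr
  have q3 : 1 / 1260 * Real.pi ^ 6 * s ^ 7 * term a b 3 (rho (r ^ 2)) ≤
      1 / 1260 * (3.141593 ^ 6) * s ^ 7 * term a b 3 (rho (r ^ 2)) := by gcongr
  linarith

end Pool.Agent.ZShort
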