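import Pool.Agent.ZShort.LinNum

/-!
# Certificates for the numeric inequality, exponents from 0.80382 to 1.0
-/

set_option autoImplicit false

namespace Pool.Agent.ZShort

lemma lin_0 {α : ℝ} (h1 : 49801 / 50000 ≤ α) (h2 : α ≤ 1) : NumOK α (41 / 500 + 87 / 25 * α) :=
  numOK_on (lo := 49801 / 50000) (r := 58 / 25) (s := 8869629 / 5000000) (θ := 249 / 500) (c := 35621 / 10000)
    (a := 2 / 25) (b := 23 / 25) (by norm_num) (by norm_num) (by norm_num) (by norm_num) (by norm_num)
    (by norm_num) (by norm_num) (by norm_num) (by norm_num) (by linarith)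
    (by norm_num [Pool.Agent.ZGap.Res.term, Pool.Agent.ZGap.Res.rho, Pool.Agent.ZGap.Res.Den]) h1

lemma lin_1 {α : ℝ} (h1 : 49597 / 50000 ≤ α) (h2 : α ≤ 49801 / 50000) : NumOK α (41 / 500 + 87 / 25 * α) :=
  numOK_on (lo := 49597 / 50000) (r := 23 / 10) (s := 3437089593 / 1953125000) (θ := 12399 / 25000) (c := 277207 / 78125)
    (a := 2 / 25) (b := 23 / 25) (by norm_num) (by norm_num) (by norm_num) (by norm_num) (by norm_num)
    (by norm_num) (by norm_num) (by norm_num) (by norm_num) (by linarith)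
    (by norm_num [Pool.Agent.ZGap.Res.term, Pool.Agent.ZGap.Res.rho, Pool.Agent.ZGap.Res.Den]) h1

lemma lin_2 {α : ℝ} (h1 : 49391 / 50000 ≤ α) (h2 : α ≤ 49597 / 50000) : NumOK α (41 / 500 + 87 / 25 * α) :=
  numOK_on (lo := 49391 / 50000) (r := 23 / 10) (s := 5454587149 / 3125000000) (θ := 4939 / 10000) (c := 1104391 / 312500)
    (a := 2 / 25) (b := 23 / 25) (by norm_num) (by norm_num) (by norm_num) (by norm_num) (by norm_num)
    (by norm_num) (by norm_num) (by norm_num) (by norm_num) (by linarith)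
    (by norm_num [Pool.Agent.ZGap.Res.term, Pool.Agent.ZGap.Res.rho, Pool.Agent.ZGap.Res.Den]) h1

lemma lin_3 {α : ℝ} (h1 : 24591 / 25000 ≤ α) (h2 : α ≤ 49391 / 50000) : NumOK α (41 / 500 + 87 / 25 * α) :=
  numOK_on (lo := 24591 / 25000) (r := 57 / 25) (s := 108189396601 / 62500000000) (θ := 49181 / 100000) (c := 2199821 / 625000)
    (a := 2 / 25) (b := 23 / 25) (by norm_num) (by norm_num) (by norm_num) (by norm_num) (by norm_num)
    (by norm_num) (by norm_num) (by norm_num) (by norm_num) (by linarith)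
    (by norm_num [Pool.Agent.ZGap.Res.term, Pool.Agent.ZGap.Res.rho, Pool.Agent.ZGap.Res.Den]) h1

lemma lin_4 {α : ℝ} (h1 : 48971 / 50000 ≤ α) (h2 : α ≤ 24591 / 25000) : NumOK α (41 / 500 + 87 / 25 * α) :=
  numOK_on (lo := 48971 / 50000) (r := 57 / 25) (s := 21456004723 / 12500000000) (θ := 4897 / 10000) (c := 4381459 / 1250000)
    (a := 2 / 25) (b := 23 / 25) (by norm_num) (by norm_num) (by norm_num) (by norm_num) (by norm_num)
    (by norm_num) (by norm_num) (by norm_num) (by norm_num) (by linarith)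
    (by norm_num [Pool.Agent.ZGap.Res.term, Pool.Agent.ZGap.Res.rho, Pool.Agent.ZGap.Res.Den]) h1

lemma lin_5 {α : ℝ} (h1 : 1219 / 1250 ≤ α) (h2 : α ≤ 48971 / 50000) : NumOK α (41 / 500 + 87 / 25 * α) :=
  numOK_on (lo := 1219 / 1250) (r := 57 / 25) (s := 106370245209 / 62500000000) (θ := 48759 / 100000) (c := 2181551 / 625000)
    (a := 2 / 25) (b := 23 / 25) (by norm_num) (by norm_num) (by norm_num) (by norm_num) (by norm_num)
    (by norm_num) (by norm_num) (by norm_num) (by norm_num) (by linarith)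
    (by norm_num [Pool.Agent.ZGap.Res.term, Pool.Agent.ZGap.Res.rho, Pool.Agent.ZGap.Res.Den]) h1

lemma lin_6 {α : ℝ} (h1 : 24273 / 25000 ≤ α) (h2 : α ≤ 1219 / 1250) : NumOK α (41 / 500 + 87 / 25 * α) :=
  numOK_on (lo := 24273 / 25000) (r := 56 / 25) (s := 8436625841 / 5000000000) (θ := 9709 / 20000) (c := 868949 / 250000)
    (a := 9 / 100) (b := 91 / 100) (by norm_num) (by norm_num) (by norm_num) (by norm_num) (by norm_num)
    (by norm_num) (by norm_num) (by norm_num) (by norm_num) (by linarith)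
    (by norm_num [Pool.Agent.ZGap.Res.term, Pool.Agent.ZGap.Res.rho, Pool.Agent.ZGap.Res.Den]) h1

lemma lin_7 {α : ℝ} (h1 : 48329 / 50000 ≤ α) (h2 : α ≤ 24273 / 25000) : NumOK α (41 / 500 + 87 / 25 * α) :=
  numOK_on (lo := 48329 / 50000) (r := 56 / 25) (s := 26134133207 / 15625000000) (θ := 6041 / 12500) (c := 4326127 / 1250000)
    (a := 9 / 100) (b := 91 / 100) (by norm_num) (by norm_num) (by norm_num) (by norm_num) (by norm_num)
    (by norm_num) (by norm_num) (by norm_num) (by norm_num) (by linarith)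
    (by norm_num [Pool.Agent.ZGap.Res.term, Pool.Agent.ZGap.Res.rho, Pool.Agent.ZGap.Res.Den]) h1

lemma lin_8 {α : ℝ} (h1 : 4811 / 5000 ≤ α) (h2 : α ≤ 48329 / 50000) : NumOK α (41 / 500 + 87 / 25 * α) :=
  numOK_on (lo := 4811 / 5000) (r := 111 / 50) (s := 12951087127 / 7812500000) (θ := 48109 / 100000) (c := 269203 / 78125)
    (a := 9 / 100) (b := 91 / 100) (by norm_num) (by norm_num) (by norm_num) (by norm_num) (by norm_num)
    (by norm_num) (by norm_num) (by norm_num) (by norm_num) (by linarith)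
    (by norm_num [Pool.Agent.ZGap.Res.term, Pool.Agent.ZGap.Res.rho, Pool.Agent.ZGap.Res.Den]) h1

lemma lin_9 {α : ℝ} (h1 : 47889 / 50000 ≤ α) (h2 : α ≤ 4811 / 5000) : NumOK α (41 / 500 + 87 / 25 * α) :=
  numOK_on (lo := 47889 / 50000) (r := 111 / 50) (s := 2566913527 / 1562500000) (θ := 2993 / 6250) (c := 857639 / 250000)
    (a := 9 / 100) (b := 91 / 100) (by norm_num) (by norm_num) (by norm_num) (by norm_num) (by norm_num)
    (by norm_num) (by norm_num) (by norm_num) (by norm_num) (by linarith)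
    (by norm_num [Pool.Agent.ZGap.Res.term, Pool.Agent.ZGap.Res.rho, Pool.Agent.ZGap.Res.Den]) h1

lemma lin_10 {α : ℝ} (h1 : 11917 / 12500 ≤ α) (h2 : α ≤ 47889 / 50000) : NumOK α (41 / 500 + 87 / 25 * α) :=
  numOK_on (lo := 11917 / 12500) (r := 111 / 50) (s := 25436112207 / 15625000000) (θ := 47667 / 100000) (c := 533621 / 156250)
    (a := 9 / 100) (b := 91 / 100) (by norm_num) (by norm_num) (by norm_num) (by norm_num) (by norm_num)
    (by norm_num) (by norm_num) (by norm_num) (by norm_num) (by linarith)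
    (by norm_num [Pool.Agent.ZGap.Res.term, Pool.Agent.ZGap.Res.rho, Pool.Agent.ZGap.Res.Den]) h1

lemma lin_11 {α : ℝ} (h1 : 47447 / 50000 ≤ α) (h2 : α ≤ 11917 / 12500) : NumOK α (41 / 500 + 87 / 25 * α) :=
  numOK_on (lo := 47447 / 50000) (r := 11 / 5) (s := 100816605743 / 62500000000) (θ := 23723 / 50000) (c := 4249741 / 1250000)
    (a := 9 / 100) (b := 91 / 100) (by norm_num) (by norm_num) (by norm_num) (by norm_num) (by norm_num)
    (by norm_num) (by norm_num) (by norm_num) (by norm_num) (by linarith)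
    (by norm_num [Pool.Agent.ZGap.Res.term, Pool.Agent.ZGap.Res.rho, Pool.Agent.ZGap.Res.Den]) h1

lemma lin_12 {α : ℝ} (h1 : 47223 / 50000 ≤ α) (h2 : α ≤ 47447 / 50000) : NumOK α (41 / 500 + 87 / 25 * α) :=
  numOK_on (lo := 47223 / 50000) (r := 109 / 50) (s := 49943333027 / 31250000000) (θ := 23611 / 50000) (c := 2115257 / 625000)
    (a := 1 / 10) (b := 9 / 10) (by norm_num) (by norm_num) (by norm_num) (by norm_num) (by norm_num)
    (by norm_num) (by norm_num) (by norm_num) (by norm_num) (by linarith)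
    (by norm_num [Pool.Agent.ZGap.Res.term, Pool.Agent.ZGap.Res.rho, Pool.Agent.ZGap.Res.Den]) h1

lemma lin_13 {α : ℝ} (h1 : 23499 / 25000 ≤ α) (h2 : α ≤ 47223 / 50000) : NumOK α (41 / 500 + 87 / 25 * α) :=
  numOK_on (lo := 23499 / 25000) (r := 109 / 50) (s := 98952794461 / 62500000000) (θ := 46997 / 100000) (c := 2105513 / 625000)
    (a := 1 / 10) (b := 9 / 10) (by norm_num) (by norm_num) (by norm_num) (by norm_num) (by norm_num)
    (by norm_num) (by norm_num) (by norm_num) (by norm_num) (by linarith)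
    (by norm_num [Pool.Agent.ZGap.Res.term, Pool.Agent.ZGap.Res.rho, Pool.Agent.ZGap.Res.Den]) h1

lemma lin_14 {α : ℝ} (h1 : 11693 / 12500 ≤ α) (h2 : α ≤ 23499 / 25000) : NumOK α (41 / 500 + 87 / 25 * α) :=
  numOK_on (lo := 11693 / 12500) (r := 54 / 25) (s := 196038354721 / 125000000000) (θ := 46771 / 100000) (c := 4191451 / 1250000)
    (a := 1 / 10) (b := 9 / 10) (by norm_num) (by norm_num) (by norm_num) (by norm_num) (by norm_num)
    (by norm_num) (by norm_num) (by norm_num) (by norm_num) (by linarith)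
    (by norm_num [Pool.Agent.ZGap.Res.term, Pool.Agent.ZGap.Res.rho, Pool.Agent.ZGap.Res.Den]) h1

lemma lin_15 {α : ℝ} (h1 : 23273 / 25000 ≤ α) (h2 : α ≤ 11693 / 12500) : NumOK α (41 / 500 + 87 / 25 * α) :=
  numOK_on (lo := 23273 / 25000) (r := 54 / 25) (s := 38835183801 / 25000000000) (θ := 9309 / 20000) (c := 4171789 / 1250000)
    (a := 1 / 10) (b := 9 / 10) (by norm_num) (by norm_num) (by norm_num) (by norm_num) (by norm_num)
    (by norm_num) (by norm_num) (by norm_num) (by norm_num) (by linarith)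
    (by norm_num [Pool.Agent.ZGap.Res.term, Pool.Agent.ZGap.Res.rho, Pool.Agent.ZGap.Res.Den]) h1

lemma lin_16 {α : ℝ} (h1 : 46321 / 50000 ≤ α) (h2 : α ≤ 23273 / 25000) : NumOK α (41 / 500 + 87 / 25 * α) :=
  numOK_on (lo := 46321 / 50000) (r := 107 / 50) (s := 2404081533 / 1562500000) (θ := 579 / 1250) (c := 4152127 / 1250000)
    (a := 1 / 10) (b := 9 / 10) (by norm_num) (by norm_num) (by norm_num) (by norm_num) (by norm_num)
    (by norm_num) (by norm_num) (by norm_num) (by norm_num) (by linarith)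
    (by norm_num [Pool.Agent.ZGap.Res.term, Pool.Agent.ZGap.Res.rho, Pool.Agent.ZGap.Res.Den]) h1

lemma lin_17 {α : ℝ} (h1 : 23047 / 25000 ≤ α) (h2 : α ≤ 46321 / 50000) : NumOK α (41 / 500 + 87 / 25 * α) :=
  numOK_on (lo := 23047 / 25000) (r := 53 / 25) (s := 23810214917 / 15625000000) (θ := 46093 / 100000) (c := 516569 / 156250)
    (a := 11 / 100) (b := 89 / 100) (by norm_num) (by norm_num) (by norm_num) (by norm_num) (by norm_num)
    (by norm_num) (by norm_num) (by norm_num) (by norm_num) (by linarith)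
    (by norm_num [Pool.Agent.ZGap.Res.term, Pool.Agent.ZGap.Res.rho, Pool.Agent.ZGap.Res.Den]) h1

lemma lin_18 {α : ℝ} (h1 : 45867 / 50000 ≤ α) (h2 : α ≤ 23047 / 25000) : NumOK α (41 / 500 + 87 / 25 * α) :=
  numOK_on (lo := 45867 / 50000) (r := 53 / 25) (s := 94318911199 / 62500000000) (θ := 22933 / 50000) (c := 4112803 / 1250000)
    (a := 11 / 100) (b := 89 / 100) (by norm_num) (by norm_num) (by norm_num) (by norm_num) (by norm_num)
    (by norm_num) (by norm_num) (by norm_num) (by norm_num) (by linarith)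
    (by norm_num [Pool.Agent.ZGap.Res.term, Pool.Agent.ZGap.Res.rho, Pool.Agent.ZGap.Res.Den]) h1

lemma lin_19 {α : ℝ} (h1 : 1141 / 1250 ≤ α) (h2 : α ≤ 45867 / 50000) : NumOK α (41 / 500 + 87 / 25 * α) :=
  numOK_on (lo := 1141 / 1250) (r := 21 / 10) (s := 93401445753 / 62500000000) (θ := 45639 / 100000) (c := 2046527 / 625000)
    (a := 11 / 100) (b := 89 / 100) (by norm_num) (by norm_num) (by norm_num) (by norm_num) (by norm_num)
    (by norm_num) (by norm_num) (by norm_num) (by norm_num) (by linarith)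
    (by norm_num [Pool.Agent.ZGap.Res.term, Pool.Agent.ZGap.Res.rho, Pool.Agent.ZGap.Res.Den]) h1

lemma lin_20 {α : ℝ} (h1 : 45413 / 50000 ≤ α) (h2 : α ≤ 1141 / 1250) : NumOK α (41 / 500 + 87 / 25 * α) :=
  numOK_on (lo := 45413 / 50000) (r := 21 / 10) (s := 9248846333 / 6250000000) (θ := 11353 / 25000) (c := 814661 / 250000)
    (a := 11 / 100) (b := 89 / 100) (by norm_num) (by norm_num) (by norm_num) (by norm_num) (by norm_num)
    (by norm_num) (by norm_num) (by norm_num) (by norm_num) (by linarith)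
    (by norm_num [Pool.Agent.ZGap.Res.term, Pool.Agent.ZGap.Res.rho, Pool.Agent.ZGap.Res.Den]) h1

lemma lin_21 {α : ℝ} (h1 : 45187 / 50000 ≤ α) (h2 : α ≤ 45413 / 50000) : NumOK α (41 / 500 + 87 / 25 * α) :=
  numOK_on (lo := 45187 / 50000) (r := 52 / 25) (s := 22895497677 / 15625000000) (θ := 22593 / 50000) (c := 1013389 / 312500)
    (a := 3 / 25) (b := 22 / 25) (by norm_num) (by norm_num) (by norm_num) (by norm_num) (by norm_num)
    (by norm_num) (by norm_num) (by norm_num) (by norm_num) (by linarith)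
    (by norm_num [Pool.Agent.ZGap.Res.term, Pool.Agent.ZGap.Res.rho, Pool.Agent.ZGap.Res.Den]) h1

lemma lin_22 {α : ℝ} (h1 : 44961 / 50000 ≤ α) (h2 : α ≤ 45187 / 50000) : NumOK α (41 / 500 + 87 / 25 * α) :=
  numOK_on (lo := 44961 / 50000) (r := 103 / 50) (s := 566762107 / 390625000) (θ := 281 / 625) (c := 2016947 / 625000)
    (a := 3 / 25) (b := 22 / 25) (by norm_num) (by norm_num) (by norm_num) (by norm_num) (by norm_num)
    (by norm_num) (by norm_num) (by norm_num) (by norm_num) (by linarith)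
    (by norm_num [Pool.Agent.ZGap.Res.term, Pool.Agent.ZGap.Res.rho, Pool.Agent.ZGap.Res.Den]) h1

lemma lin_23 {α : ℝ} (h1 : 8947 / 10000 ≤ α) (h2 : α ≤ 44961 / 50000) : NumOK α (41 / 500 + 87 / 25 * α) :=
  numOK_on (lo := 8947 / 10000) (r := 103 / 50) (s := 11223290893 / 7812500000) (θ := 22367 / 50000) (c := 501779 / 156250)
    (a := 3 / 25) (b := 22 / 25) (by norm_num) (by norm_num) (by norm_num) (by norm_num) (by norm_num)
    (by norm_num) (by norm_num) (by norm_num) (by norm_num) (by linarith)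
    (by norm_num [Pool.Agent.ZGap.Res.term, Pool.Agent.ZGap.Res.rho, Pool.Agent.ZGap.Res.Den]) h1

lemma lin_24 {α : ℝ} (h1 : 4451 / 5000 ≤ α) (h2 : α ≤ 8947 / 10000) : NumOK α (41 / 500 + 87 / 25 * α) :=
  numOK_on (lo := 4451 / 5000) (r := 103 / 50) (s := 17779431613 / 12500000000) (θ := 44509 / 100000) (c := 399457 / 125000)
    (a := 3 / 25) (b := 22 / 25) (by norm_num) (by norm_num) (by norm_num) (by norm_num) (by norm_num)
    (by norm_num) (by norm_num) (by norm_num) (by norm_num) (by linarith)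
    (by norm_num [Pool.Agent.ZGap.Res.term, Pool.Agent.ZGap.Res.rho, Pool.Agent.ZGap.Res.Den]) h1

lemma lin_25 {α : ℝ} (h1 : 22143 / 25000 ≤ α) (h2 : α ≤ 4451 / 5000) : NumOK α (41 / 500 + 87 / 25 * α) :=
  numOK_on (lo := 22143 / 25000) (r := 51 / 25) (s := 7041306143 / 5000000000) (θ := 8857 / 20000) (c := 794999 / 250000)
    (a := 13 / 100) (b := 87 / 100) (by norm_num) (by norm_num) (by norm_num) (by norm_num) (by norm_num)
    (by norm_num) (by norm_num) (by norm_num) (by norm_num) (by linarith)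
    (by norm_num [Pool.Agent.ZGap.Res.term, Pool.Agent.ZGap.Res.rho, Pool.Agent.ZGap.Res.Den]) h1

lemma lin_26 {α : ℝ} (h1 : 22031 / 25000 ≤ α) (h2 : α ≤ 22143 / 25000) : NumOK α (41 / 500 + 87 / 25 * α) :=
  numOK_on (lo := 22031 / 25000) (r := 101 / 50) (s := 174283593927 / 125000000000) (θ := 44061 / 100000) (c := 3955507 / 1250000)
    (a := 13 / 100) (b := 87 / 100) (by norm_num) (by norm_num) (by norm_num) (by norm_num) (by norm_num)
    (by norm_num) (by norm_num) (by norm_num) (by norm_num) (by linarith)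
    (by norm_num [Pool.Agent.ZGap.Res.term, Pool.Agent.ZGap.Res.rho, Pool.Agent.ZGap.Res.Den]) h1

lemma lin_27 {α : ℝ} (h1 : 21919 / 25000 ≤ α) (h2 : α ≤ 22031 / 25000) : NumOK α (41 / 500 + 87 / 25 * α) :=
  numOK_on (lo := 21919 / 25000) (r := 101 / 50) (s := 172543264903 / 125000000000) (θ := 43837 / 100000) (c := 3936019 / 1250000)
    (a := 13 / 100) (b := 87 / 100) (by norm_num) (by norm_num) (by norm_num) (by norm_num) (by norm_num)
    (by norm_num) (by norm_num) (by norm_num) (by norm_num) (by linarith)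
    (by norm_num [Pool.Agent.ZGap.Res.term, Pool.Agent.ZGap.Res.rho, Pool.Agent.ZGap.Res.Den]) h1

lemma lin_28 {α : ℝ} (h1 : 43617 / 50000 ≤ α) (h2 : α ≤ 21919 / 25000) : NumOK α (41 / 500 + 87 / 25 * α) :=
  numOK_on (lo := 43617 / 50000) (r := 2) (s := 5338231753 / 3906250000) (θ := 1363 / 3125) (c := 3916531 / 1250000)
    (a := 7 / 50) (b := 43 / 50) (by norm_num) (by norm_num) (by norm_num) (by norm_num) (by norm_num)
    (by norm_num) (by norm_num) (by norm_num) (by norm_num) (by linarith)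
    (by norm_num [Pool.Agent.ZGap.Res.term, Pool.Agent.ZGap.Res.rho, Pool.Agent.ZGap.Res.Den]) h1

lemma lin_29 {α : ℝ} (h1 : 10849 / 12500 ≤ α) (h2 : α ≤ 43617 / 50000) : NumOK α (41 / 500 + 87 / 25 * α) :=
  numOK_on (lo := 10849 / 12500) (r := 99 / 50) (s := 4228087677 / 3125000000) (θ := 8679 / 20000) (c := 487163 / 156250)
    (a := 7 / 50) (b := 43 / 50) (by norm_num) (by norm_num) (by norm_num) (by norm_num) (by norm_num)
    (by norm_num) (by norm_num) (by norm_num) (by norm_num) (by linarith)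
    (by norm_num [Pool.Agent.ZGap.Res.term, Pool.Agent.ZGap.Res.rho, Pool.Agent.ZGap.Res.Den]) h1

lemma lin_30 {α : ℝ} (h1 : 1727 / 2000 ≤ α) (h2 : α ≤ 10849 / 12500) : NumOK α (41 / 500 + 87 / 25 * α) :=
  numOK_on (lo := 1727 / 2000) (r := 99 / 50) (s := 83716048199 / 62500000000) (θ := 21587 / 50000) (c := 3878077 / 1250000)
    (a := 7 / 50) (b := 43 / 50) (by norm_num) (by norm_num) (by norm_num) (by norm_num) (by norm_num)
    (by norm_num) (by norm_num) (by norm_num) (by norm_num) (by linarith)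
    (by norm_num [Pool.Agent.ZGap.Res.term, Pool.Agent.ZGap.Res.rho, Pool.Agent.ZGap.Res.Den]) h1

lemma lin_31 {α : ℝ} (h1 : 8591 / 10000 ≤ α) (h2 : α ≤ 1727 / 2000) : NumOK α (41 / 500 + 87 / 25 * α) :=
  numOK_on (lo := 8591 / 10000) (r := 99 / 50) (s := 1657530429 / 1250000000) (θ := 21477 / 50000) (c := 77177 / 25000)
    (a := 7 / 50) (b := 43 / 50) (by norm_num) (by norm_num) (by norm_num) (by norm_num) (by norm_num)
    (by norm_num) (by norm_num) (by norm_num) (by norm_num) (by linarith)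
    (by norm_num [Pool.Agent.ZGap.Res.term, Pool.Agent.ZGap.Res.rho, Pool.Agent.ZGap.Res.Den]) h1

lemma lin_32 {α : ℝ} (h1 : 42737 / 50000 ≤ α) (h2 : α ≤ 8591 / 10000) : NumOK α (41 / 500 + 87 / 25 * α) :=
  numOK_on (lo := 42737 / 50000) (r := 49 / 25) (s := 1025586541 / 781250000) (θ := 2671 / 6250) (c := 383971 / 125000)
    (a := 3 / 20) (b := 17 / 20) (by norm_num) (by norm_num) (by norm_num) (by norm_num) (by norm_num)
    (by norm_num) (by norm_num) (by norm_num) (by norm_num) (by linarith)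
    (by norm_num [Pool.Agent.ZGap.Res.term, Pool.Agent.ZGap.Res.rho, Pool.Agent.ZGap.Res.Den]) h1

lemma lin_33 {α : ℝ} (h1 : 1063 / 1250 ≤ α) (h2 : α ≤ 42737 / 50000) : NumOK α (41 / 500 + 87 / 25 * α) :=
  numOK_on (lo := 1063 / 1250) (r := 97 / 50) (s := 20306776767 / 15625000000) (θ := 42519 / 100000) (c := 477593 / 156250)
    (a := 3 / 20) (b := 17 / 20) (by norm_num) (by norm_num) (by norm_num) (by norm_num) (by norm_num)
    (by norm_num) (by norm_num) (by norm_num) (by norm_num) (by linarith)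
    (by norm_num [Pool.Agent.ZGap.Res.term, Pool.Agent.ZGap.Res.rho, Pool.Agent.ZGap.Res.Den]) h1

lemma lin_34 {α : ℝ} (h1 : 42303 / 50000 ≤ α) (h2 : α ≤ 1063 / 1250) : NumOK α (41 / 500 + 87 / 25 * α) :=
  numOK_on (lo := 42303 / 50000) (r := 97 / 50) (s := 16082649323 / 12500000000) (θ := 21151 / 50000) (c := 760373 / 250000)
    (a := 3 / 20) (b := 17 / 20) (by norm_num) (by norm_num) (by norm_num) (by norm_num) (by norm_num)
    (by norm_num) (by norm_num) (by norm_num) (by norm_num) (by linarith)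
    (by norm_num [Pool.Agent.ZGap.Res.term, Pool.Agent.ZGap.Res.rho, Pool.Agent.ZGap.Res.Den]) h1

lemma lin_35 {α : ℝ} (h1 : 5261 / 6250 ≤ α) (h2 : α ≤ 42303 / 50000) : NumOK α (41 / 500 + 87 / 25 * α) :=
  numOK_on (lo := 5261 / 6250) (r := 48 / 25) (s := 79607265891 / 62500000000) (θ := 42087 / 100000) (c := 1891493 / 625000)
    (a := 4 / 25) (b := 21 / 25) (by norm_num) (by norm_num) (by norm_num) (by norm_num) (by norm_num)
    (by norm_num) (by norm_num) (by norm_num) (by norm_num) (by linarith)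
    (by norm_num [Pool.Agent.ZGap.Res.term, Pool.Agent.ZGap.Res.rho, Pool.Agent.ZGap.Res.Den]) h1

lemma lin_36 {α : ℝ} (h1 : 41873 / 50000 ≤ α) (h2 : α ≤ 5261 / 6250) : NumOK α (41 / 500 + 87 / 25 * α) :=
  numOK_on (lo := 41873 / 50000) (r := 48 / 25) (s := 9851123377 / 7812500000) (θ := 2617 / 6250) (c := 3764281 / 1250000)
    (a := 4 / 25) (b := 21 / 25) (by norm_num) (by norm_num) (by norm_num) (by norm_num) (by norm_num)
    (by norm_num) (by norm_num) (by norm_num) (by norm_num) (by linarith)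
    (by norm_num [Pool.Agent.ZGap.Res.term, Pool.Agent.ZGap.Res.rho, Pool.Agent.ZGap.Res.Den]) h1

lemma lin_37 {α : ℝ} (h1 : 2083 / 2500 ≤ α) (h2 : α ≤ 41873 / 50000) : NumOK α (41 / 500 + 87 / 25 * α) :=
  numOK_on (lo := 2083 / 2500) (r := 19 / 10) (s := 19504618823 / 15625000000) (θ := 41659 / 100000) (c := 468197 / 156250)
    (a := 4 / 25) (b := 21 / 25) (by norm_num) (by norm_num) (by norm_num) (by norm_num) (by norm_num)
    (by norm_num) (by norm_num) (by norm_num) (by norm_num) (by linarith)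
    (by norm_num [Pool.Agent.ZGap.Res.term, Pool.Agent.ZGap.Res.rho, Pool.Agent.ZGap.Res.Den]) h1

lemma lin_38 {α : ℝ} (h1 : 5181 / 6250 ≤ α) (h2 : α ≤ 2083 / 2500) : NumOK α (41 / 500 + 87 / 25 * α) :=
  numOK_on (lo := 5181 / 6250) (r := 19 / 10) (s := 30894966823 / 25000000000) (θ := 41447 / 100000) (c := 745409 / 250000)
    (a := 4 / 25) (b := 21 / 25) (by norm_num) (by norm_num) (by norm_num) (by norm_num) (by norm_num)
    (by norm_num) (by norm_num) (by norm_num) (by norm_num) (by linarith)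
    (by norm_num [Pool.Agent.ZGap.Res.term, Pool.Agent.ZGap.Res.rho, Pool.Agent.ZGap.Res.Den]) h1

lemma lin_39 {α : ℝ} (h1 : 10309 / 12500 ≤ α) (h2 : α ≤ 5181 / 6250) : NumOK α (41 / 500 + 87 / 25 * α) :=
  numOK_on (lo := 10309 / 12500) (r := 47 / 25) (s := 30584832447 / 25000000000) (θ := 8247 / 20000) (c := 3708601 / 1250000)
    (a := 17 / 100) (b := 83 / 100) (by norm_num) (by norm_num) (by norm_num) (by norm_num) (by norm_num)
    (by norm_num) (by norm_num) (by norm_num) (by norm_num) (by linarith)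
    (by norm_num [Pool.Agent.ZGap.Res.term, Pool.Agent.ZGap.Res.rho, Pool.Agent.ZGap.Res.Den]) h1

lemma lin_40 {α : ℝ} (h1 : 1641 / 2000 ≤ α) (h2 : α ≤ 10309 / 12500) : NumOK α (41 / 500 + 87 / 25 * α) :=
  numOK_on (lo := 1641 / 2000) (r := 47 / 25) (s := 2365390637 / 1953125000) (θ := 1282 / 3125) (c := 3690157 / 1250000)
    (a := 17 / 100) (b := 83 / 100) (by norm_num) (by norm_num) (by norm_num) (by norm_num) (by norm_num)
    (by norm_num) (by norm_num) (by norm_num) (by norm_num) (by linarith)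
    (by norm_num [Pool.Agent.ZGap.Res.term, Pool.Agent.ZGap.Res.rho, Pool.Agent.ZGap.Res.Den]) h1

lemma lin_41 {α : ℝ} (h1 : 8163 / 10000 ≤ α) (h2 : α ≤ 1641 / 2000) : NumOK α (41 / 500 + 87 / 25 * α) :=
  numOK_on (lo := 8163 / 10000) (r := 93 / 50) (s := 374652113 / 312500000) (θ := 20407 / 50000) (c := 18359 / 6250)
    (a := 9 / 50) (b := 41 / 50) (by norm_num) (by norm_num) (by norm_num) (by norm_num) (by norm_num)
    (by norm_num) (by norm_num) (by norm_num) (by norm_num) (by linarith)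
    (by norm_num [Pool.Agent.ZGap.Res.term, Pool.Agent.ZGap.Res.rho, Pool.Agent.ZGap.Res.Den]) h1

lemma lin_42 {α : ℝ} (h1 : 20303 / 25000 ≤ α) (h2 : α ≤ 8163 / 10000) : NumOK α (41 / 500 + 87 / 25 * α) :=
  numOK_on (lo := 20303 / 25000) (r := 93 / 50) (s := 2967031713 / 2500000000) (θ := 8121 / 20000) (c := 365353 / 125000)
    (a := 9 / 50) (b := 41 / 50) (by norm_num) (by norm_num) (by norm_num) (by norm_num) (by norm_num)
    (by norm_num) (by norm_num) (by norm_num) (by norm_num) (by linarith)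
    (by norm_num [Pool.Agent.ZGap.Res.term, Pool.Agent.ZGap.Res.rho, Pool.Agent.ZGap.Res.Den]) h1

lemma lin_43 {α : ℝ} (h1 : 20199 / 25000 ≤ α) (h2 : α ≤ 20303 / 25000) : NumOK α (41 / 500 + 87 / 25 * α) :=
  numOK_on (lo := 20199 / 25000) (r := 46 / 25) (s := 146857112759 / 125000000000) (θ := 40397 / 100000) (c := 3635347 / 1250000)
    (a := 9 / 50) (b := 41 / 50) (by norm_num) (by norm_num) (by norm_num) (by norm_num) (by norm_num)
    (by norm_num) (by norm_num) (by norm_num) (by norm_num) (by linarith)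
    (by norm_num [Pool.Agent.ZGap.Res.term, Pool.Agent.ZGap.Res.rho, Pool.Agent.ZGap.Res.Den]) h1

lemma lin_44 {α : ℝ} (h1 : 40191 / 50000 ≤ α) (h2 : α ≤ 20199 / 25000) : NumOK α (41 / 500 + 87 / 25 * α) :=
  numOK_on (lo := 40191 / 50000) (r := 46 / 25) (s := 14537731769 / 12500000000) (θ := 4019 / 10000) (c := 3617251 / 1250000)
    (a := 9 / 50) (b := 41 / 50) (by norm_num) (by norm_num) (by norm_num) (by norm_num) (by norm_num)
    (by norm_num) (by norm_num) (by norm_num) (by norm_num) (by linarith)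
    (by norm_num [Pool.Agent.ZGap.Res.term, Pool.Agent.ZGap.Res.rho, Pool.Agent.ZGap.Res.Den]) h1

theorem num_linA {α : ℝ} (h1 : 40191 / 50000 ≤ α) (h2 : α ≤ 1) : NumOK α (41 / 500 + 87 / 25 * α) := by
  rcases le_total (49801 / 50000) α with h | h
  · exact lin_0 h h2
  clear h2; rename _ => h2
  rcases le_total (49597 / 50000) α with h | h
  · exact lin_1 h h2
  clear h2; rename _ => h2
  rcases le_total (49391 / 50000) α with h | h
  · exact lin_2 h h2
  clear h2; rename _ => h2
  rcases le_total (24591 / 25000) α with h | h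
  · exact lin_3 h h2
  clear h2; rename _ => h2
  rcases le_total (48971 / 50000) α with h | h
  · exact lin_4 h h2
  clear h2; rename _ => h2
  rcases le_total (1219 / 1250) α with h | h
  · exact lin_5 h h2
  clear h2; rename _ => h2
  rcases le_total (24273 / 25000) α with h | h
  · exact lin_6 h h2
  clear h2; rename _ => h2
  rcases le_total (48329 / 50000) α with h | h
  · exact lin_7 h h2
  clear h2; rename _ => h2
  rcases le_total (4811 / 5000) α with h | h
  · exact lin_8 h h2
  clear h2; rename _ => h2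
  rcases le_total (47889 / 50000) α with h | h
  · exact lin_9 h h2
  clear h2; rename _ => h2
  rcases le_total (11917 / 12500) α with h | h
  · exact lin_10 h h2
  clear h2; rename _ => h2
  rcases le_total (47447 / 50000) α with h | h
  · exact lin_11 h h2
  clear h2; rename _ => h2
  rcases le_total (47223 / 50000) α with h | h
  · exact lin_12 h h2
  clear h2; rename _ => h2
  rcases le_total (23499 / 25000) α with h | h
  · exact lin_13 h h2
  clear h2; rename _ => h2
  rcases le_total (11693 / 12500) α with h | h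
  · exact lin_14 h h2
  clear h2; rename _ => h2
  rcases le_total (23273 / 25000) α with h | h
  · exact lin_15 h h2
  clear h2; rename _ => h2
  rcases le_total (46321 / 50000) α with h | h
  · exact lin_16 h h2
  clear h2; rename _ => h2
  rcases le_total (23047 / 25000) α with h | h
  · exact lin_17 h h2
  clear h2; rename _ => h2
  rcases le_total (45867 / 50000) α with h | h
  · exact lin_18 h h2
  clear h2; rename _ => h2
  rcases le_total (1141 / 1250) α with h | h
  · exact lin_19 h h2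
  clear h2; rename _ => h2
  rcases le_total (45413 / 50000) α with h | h
  · exact lin_20 h h2
  clear h2; rename _ => h2
  rcases le_total (45187 / 50000) α with h | h
  · exact lin_21 h h2
  clear h2; rename _ => h2
  rcases le_total (44961 / 50000) α with h | h
  · exact lin_22 h h2
  clear h2; rename _ => h2
  rcases le_total (8947 / 10000) α with h | h
  · exact lin_23 h h2
  clear h2; rename _ => h2
  rcases le_total (4451 / 5000) α with h | h
  · exact lin_24 h h2
  clear h2; rename _ => h2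
  rcases le_total (22143 / 25000) α with h | h
  · exact lin_25 h h2
  clear h2; rename _ => h2
  rcases le_total (22031 / 25000) α with h | h
  · exact lin_26 h h2
  clear h2; rename _ => h2
  rcases le_total (21919 / 25000) α with h | h
  · exact lin_27 h h2
  clear h2; rename _ => h2
  rcases le_total (43617 / 50000) α with h | h
  · exact lin_28 h h2
  clear h2; rename _ => h2
  rcases le_total (10849 / 12500) α with h | h
  · exact lin_29 h h2
  clear h2; rename _ => h2
  rcases le_total (1727 / 2000) α with h | h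
  · exact lin_30 h h2
  clear h2; rename _ => h2
  rcases le_total (8591 / 10000) α with h | h
  · exact lin_31 h h2
  clear h2; rename _ => h2
  rcases le_total (42737 / 50000) α with h | h
  · exact lin_32 h h2
  clear h2; rename _ => h2
  rcases le_total (1063 / 1250) α with h | h
  · exact lin_33 h h2
  clear h2; rename _ => h2
  rcases le_total (42303 / 50000) α with h | h
  · exact lin_34 h h2
  clear h2; rename _ => h2
  rcases le_total (5261 / 6250) α with h | h
  · exact lin_35 h h2
  clear h2; rename _ => h2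
  rcases le_total (41873 / 50000) α with h | h
  · exact lin_36 h h2
  clear h2; rename _ => h2
  rcases le_total (2083 / 2500) α with h | h
  · exact lin_37 h h2
  clear h2; rename _ => h2
  rcases le_total (5181 / 6250) α with h | h
  · exact lin_38 h h2
  clear h2; rename _ => h2
  rcases le_total (10309 / 12500) α with h | h
  · exact lin_39 h h2
  clear h2; rename _ => h2
  rcases le_total (1641 / 2000) α with h | h
  · exact lin_40 h h2
  clear h2; rename _ => h2
  rcases le_total (8163 / 10000) α with h | h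
  · exact lin_41 h h2
  clear h2; rename _ => h2
  rcases le_total (20303 / 25000) α with h | h
  · exact lin_42 h h2
  clear h2; rename _ => h2
  rcases le_total (20199 / 25000) α with h | h
  · exact lin_43 h h2
  clear h2; rename _ => h2
  exact lin_44 h1 h2

end Pool.Agent.ZShort
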