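import Pool.Agent.ZShort.Void

/-!
# Windows of width `T ^ α`: the resonated mass of the void set of one window
-/

namespace Pool.Agent.ZShort.LargeAA

open MeasureTheory Real Set Pool.Agent.ZGap.Res Pool.Agent.TypBlk Pool.Agent.Hadamard
  Pool.Agent.ZetaGaps

/-- The local mean is at most the mass of the void set plus the tail. -/
lemma int_le_void {V N : ℝ → ℝ} (hV : ∀ t, 0 ≤ V t) (hN : ∀ t, 0 ≤ N t) (hVi : Integrable V)
    (hVN : Integrable fun t => V t * N t) {t0 r : ℝ} {S : Set ℝ} (hS : MeasurableSet S)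
    (h1 : ∀ t, |t - t0| ≤ r → t ∉ S → 1 ≤ N t) :
    (∫ t, V t) - (∫ t, V t * N t) ≤ (∫ t in {t : ℝ | |t - t0| ≤ r ∧ t ∈ S}, V t) +
      ∫ t in {t : ℝ | r < |t - t0|}, V t * (1 + N t) := by
  have hm : MeasurableSet {t : ℝ | r < |t - t0|} :=
    (isOpen_lt continuous_const (by fun_prop)).measurableSet
  have hm2 : MeasurableSet {t : ℝ | |t - t0| ≤ r ∧ t ∈ S} := by
    have h2 : MeasurableSet {t : ℝ | |t - t0| ≤ r} :=
      (isClosed_le (by fun_prop) continuous_const).measurableSet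
    exact h2.inter hS
  have hi : Integrable fun t => V t * (1 + N t) := by
    have := hVi.add hVN
    refine this.congr (Filter.Eventually.of_forall fun t => ?_)
    simp only [Pi.add_apply]
    ring
  rw [← integral_sub hVi hVN, ← integral_indicator hm, ← integral_indicator hm2,
    ← integral_add (hVi.indicator hm2) (hi.indicator hm)]
  refine integral_mono (hVi.sub hVN) ((hVi.indicator hm2).add (hi.indicator hm)) fun t => ?_
  simp only
  have hnn := mul_nonneg (hV t) (hN t)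
  by_cases ht : r < |t - t0|
  · rw [indicator_of_mem (show t ∈ {t : ℝ | r < |t - t0|} from ht),
      indicator_of_notMem (show t ∉ {t : ℝ | |t - t0| ≤ r ∧ t ∈ S} from
        fun h => absurd h.1 (not_le.mpr ht))]
    nlinarith
  · rw [indicator_of_notMem (show t ∉ {t : ℝ | r < |t - t0|} from ht)]
    by_cases hs : t ∈ S
    · rw [indicator_of_mem (show t ∈ {t : ℝ | |t - t0| ≤ r ∧ t ∈ S} from ⟨not_lt.mp ht, hs⟩)]
      linarith
    · rw [indicator_of_notMem (show t ∉ {t : ℝ | |t - t0| ≤ r ∧ t ∈ S} from fun h => hs h.2)]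
      have h2 := mul_le_mul_of_nonneg_left (h1 t (not_lt.mp ht) hs) (hV t)
      linarith

/-- The void set of a window of width `T ^ a` carries a positive part of the resonated mass. -/
theorem local_void (hRH : RiemannHypothesis) (R : ResData) (hF : ∀ x, 0 ≤ x → R.F x ≤ 1)
    (hF0 : 0 < R.F 0) {α a : ℝ} (h0 : 0 < α) (hα1 : α < 1) (hαa : α < a) (ha : a ≤ 1)
    {c κ e : ℝ} (hκ : 0 < κ) {ψ : ℝ → ℝ} (hψ : RS ψ)
    (hψ00 : ∀ x, 0 ≤ ψ x) (hψle : ∀ x, ψ x ≤ 1) (hψ1 : ∀ x, |x| ≤ π * c → ψ x = 1)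
    (hψ0 : ∀ x, e ≤ |x| → ψ x = 0)
    (hψc : chat ψ 0 / (2 * π) ≤ c + κ / 2) {T1 : ℝ}
    (harith : ∀ T : ℝ, T1 ≤ T → (c - 1 + κ) * Sig R T ≤ (π * Real.log T)⁻¹ *
      ∑ n ∈ Finset.Icc 1 ⌊T⌋₊, ArithmeticFunction.vonMangoldt n / Real.sqrt n *
        chat ψ (Real.log n / Real.log T) * CC R T n) :
    ∃ m1 T0 : ℝ, 0 < m1 ∧ Real.exp 3 ≤ T0 ∧ ∀ T : ℝ, T0 ≤ T → ∀ t0 ∈ Icc T (2 * T),
      -m1 ≤ DT R ψ (T ^ α * Real.log T) T t0 - mT R ψ T →
      (∫ t : ℝ, VL R (T ^ α * Real.log T) T t0 t) ≤ 2 * Sig R T →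
      m1 ≤ ∫ t in {t : ℝ | |t - t0| ≤ T ^ a / 4 ∧
        t ∈ {t : ℝ | ∀ ρ ∈ ntz, π * c / Real.log T < |ρ.im - t|}},
        VL R (T ^ α * Real.log T) T t0 t := by
  set A : ℝ := 1 + e ^ 2 with hA
  have hψA : ∀ x, |ψ x| ≤ A / (1 + x ^ 2) := GoodVAux.psi_bound hψ00 hψle hψ0
  set m0 : ℝ := κ * R.F 0 ^ 4 with hm0
  have hm0p : 0 < m0 := by positivity
  obtain ⟨C6, hC6, hNCle⟩ := exists_NC_le
  have hth0 : 0 < R.th := by linarith [R.ep_pos, R.ep_th]
  have hth1 := R.th_lt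
  obtain ⟨Cc, Tc, hCc, hTc3, hcnt⟩ := exists_cntS hRH R hF h0 hα1
    (β := (1 + 2 * R.th) / 2) (by linarith) (by linarith) (by linarith) hψ
  obtain ⟨Tt, hTt3, htail⟩ := exists_tailS R hF h0 hαa ha hψ00 hψ.continuous hψA
  obtain ⟨Tw, hTw3, hwin⟩ := exists_winS R hF h0 hα1 (β := (1 + 2 * R.th) / 2) (by linarith)
  refine ⟨m0 / 8, max (max (max T1 Tc) (max Tt Tw)) (max (max (16 * Cc / m0) (16 / m0))
    (Real.exp (16 * Cc / κ))), by positivity,
    hTc3.trans ((le_max_right _ _).trans ((le_max_left _ _).trans (le_max_left _ _))),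
    fun T hT t0 ht0 hd hmass => ?_⟩
  have hT1 : T1 ≤ T := (le_max_left _ _).trans ((le_max_left _ _).trans ((le_max_left _ _).trans hT))
  have hTc : Tc ≤ T := (le_max_right _ _).trans ((le_max_left _ _).trans ((le_max_left _ _).trans hT))
  have hTt : Tt ≤ T := (le_max_left _ _).trans ((le_max_right _ _).trans ((le_max_left _ _).trans hT))
  have hTw : Tw ≤ T := (le_max_right _ _).trans ((le_max_right _ _).trans ((le_max_left _ _).trans hT))
  have hT5 : 16 * Cc / m0 ≤ T := (le_max_left _ _).trans ((le_max_left _ _).trans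
    ((le_max_right _ _).trans hT))
  have hT6 : 16 / m0 ≤ T := (le_max_right _ _).trans ((le_max_left _ _).trans
    ((le_max_right _ _).trans hT))
  have hT7 : Real.exp (16 * Cc / κ) ≤ T := (le_max_right _ _).trans ((le_max_right _ _).trans hT)
  have hTe : Real.exp 3 ≤ T := hTc3.trans hTc
  have h1T : 1 < T := lt_of_lt_of_le (Real.one_lt_exp_iff.mpr (by norm_num)) hTe
  have hTp : 0 < T := by linarith
  have hL3 : 3 ≤ Real.log T := by rw [Real.le_log_iff_exp_le hTp]; exact hTe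
  have hL1 : 1 ≤ Real.log T := by linarith
  have hL : 0 < Real.log T := by linarith
  have hLC : 16 * Cc / κ ≤ Real.log T := by
    rw [Real.le_log_iff_exp_le hTp]; exact hT7
  have hmT : κ / 2 * Sig R T ≤ mT R ψ T := mT_geS R hψc h1T.le (harith T hT1)
  have hSig : R.F 0 ^ 4 ≤ Sig R T := le_Sig
  have hc1 := hcnt T hTc t0 ht0
  obtain ⟨⟨Mw, hWt⟩, -, -⟩ := hwin T hTw t0 ht0
  have hiV : Integrable (VL R (T ^ α * Real.log T) T t0) := hWt.integrable
  have hiVN : Integrable (fun t => VL R (T ^ α * Real.log T) T t0 t * NC ψ T t) := by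
    have hcont : Continuous (NC ψ T) := NC_continuous hψ.continuous hψA hL1
    refine hWt.integrable_mul (A := C6 * A * 2) hcont fun t => ?_
    refine (hNCle ψ A T hψA hL1 t).trans ?_
    have := log_abs_add_two_le t
    have hA0 : 0 ≤ A := by rw [hA]; positivity
    calc C6 * A * Real.log (|t| + 2) ≤ C6 * A * (2 * (1 + t ^ 2)) :=
          mul_le_mul_of_nonneg_left this (by positivity)
      _ = _ := by ring
  have hNCnn : ∀ t, 0 ≤ NC ψ T t := fun t =>
    tsum_nonneg fun ρ => mul_nonneg (Nat.cast_nonneg _) (hψ00 _)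
  have hN1 : ∀ t, |t - t0| ≤ T ^ a / 4 →
      t ∉ {t : ℝ | ∀ ρ ∈ ntz, π * c / Real.log T < |ρ.im - t|} → 1 ≤ NC ψ T t := by
    intro t _ ht
    rw [mem_setOf_eq] at ht
    push Not at ht
    obtain ⟨ρ, hρ, hρt⟩ := ht
    exact one_le_NC hL1 hψ00 hψA hψ1 hρ hρt
  have h4 := int_le_void hWt.nonneg hNCnn hiV hiVN (measurableSet_void _) hN1
  have h5 := (abs_le.mp hc1).1
  have h6 := htail T hTt t0 ht0
  have hSig0 : 0 ≤ Sig R T := le_trans (by positivity) hSig
  have h7 : Cc / Real.log T * (∫ t : ℝ, VL R (T ^ α * Real.log T) T t0 t) ≤ κ / 8 * Sig R T := by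
    calc Cc / Real.log T * (∫ t : ℝ, VL R (T ^ α * Real.log T) T t0 t) ≤
          Cc / Real.log T * (2 * Sig R T) := mul_le_mul_of_nonneg_left hmass (by positivity)
      _ = (2 * (Cc / Real.log T)) * Sig R T := by ring
      _ ≤ κ / 8 * Sig R T := by
          apply mul_le_mul_of_nonneg_right _ hSig0
          rw [div_le_iff₀ hκ] at hLC
          rw [← mul_div_assoc, div_le_iff₀ hL]
          linarith
  have h8 : Cc / T ≤ m0 / 16 := by
    rw [div_le_iff₀ hm0p] at hT5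
    rw [div_le_iff₀ hTp]
    linarith
  have h9 : 1 / T ≤ m0 / 16 := by
    rw [div_le_iff₀ hm0p] at hT6
    rw [div_le_iff₀ hTp]
    linarith
  have h10 : m0 ≤ κ * Sig R T := mul_le_mul_of_nonneg_left hSig hκ.le
  linarith

end Pool.Agent.ZShort.LargeAA
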