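import Pool.Agent.ZGap.Half.NearDef
import Pool.Agent.ZGap.Half.Off
import Pool.Agent.Lib.ANT.DivBound

/-!
# The near part as a weighted integral of a Dirichlet polynomial over pairs
-/

namespace Pool.Agent.ZShortAA

open Complex Pool.Agent.Hadamard MeasureTheory Pool.Agent.HalfGap Finset
open scoped ArithmeticFunction.Moebius

/-- the near triples -/
noncomputable def S3 (X : ℕ) (dl : ℝ) : Finset ((_ : ℕ × ℕ) × ℕ) :=
  (QV X).sigma fun q => Nr (wV q) dl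

/-- the pair of a triple -/
def ph (x : (_ : ℕ × ℕ) × ℕ) : ℕ × ℕ := (x.1.2, x.1.1 * x.2)

/-- the frequency of a pair -/
noncomputable def lp (p : ℕ × ℕ) : ℝ := Real.log ((p.2 : ℝ) / p.1)

/-- the near pairs -/
noncomputable def FN (X : ℕ) (dl : ℝ) : Finset (ℕ × ℕ) := (S3 X dl).image ph

/-- the coefficients of the near pairs -/
noncomputable def cN (α : ℝ) (X : ℕ) (dl : ℝ) (p : ℕ × ℕ) : ℂ :=
  (∑ x ∈ (S3 X dl).filter (fun x => ph x = p),
    bV α x.1 * (gco α x.2 * (((x.2:ℝ) ^ (-(1:ℝ) / 2) : ℝ) : ℂ))) * Complex.exp (-(3 / 2 : ℂ) * (lp p : ℂ))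

/-- the near Dirichlet polynomial -/
noncomputable def DN (α : ℝ) (X : ℕ) (dl : ℝ) (t : ℝ) : ℂ :=
  ∑ p ∈ FN X dl, cN α X dl p * Complex.exp (-((t * lp p : ℝ) : ℂ) * Complex.I)

lemma mem_S3 {X : ℕ} {dl : ℝ} {x : (_ : ℕ × ℕ) × ℕ} (hx : x ∈ S3 X dl) :
    (1 ≤ x.1.1 ∧ x.1.1 ≤ X) ∧ (1 ≤ x.1.2 ∧ x.1.2 ≤ X) ∧ 1 ≤ x.2 ∧
      wV x.1 + Real.log x.2 = lp (ph x) ∧ lp (ph x) ≠ 0 ∧ |lp (ph x)| < dl := by
  unfold S3 at hx
  rw [mem_sigma, QV, mem_product, mem_Icc, mem_Icc, mem_Nr] at hx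
  obtain ⟨⟨h1, h2⟩, h3, h4, h5⟩ := hx
  have e : wV x.1 + Real.log x.2 = lp (ph x) := by
    have a1 : (0:ℝ) < x.1.1 := by exact_mod_cast h1.1
    have a2 : (0:ℝ) < x.1.2 := by exact_mod_cast h2.1
    have a3 : (0:ℝ) < x.2 := by exact_mod_cast h3
    unfold lp ph wV
    simp only
    push_cast
    rw [Real.log_div (by positivity) a2.ne', Real.log_mul a1.ne' a3.ne']
    ring
  rw [← e]
  exact ⟨h1, h2, h3, rfl, h4, h5⟩

theorem near_eq (α H t0 U dl : ℝ) (X : ℕ) :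
    Near (QV X) (bV α) wV α H t0 U dl =
      ∫ t in (t0 - U)..(t0 + U), Og H t0 (2 + t * I) * gam α (2 + t * I) * DN α X dl t := by
  have h1 : Near (QV X) (bV α) wV α H t0 U dl =
      ∑ x ∈ S3 X dl, bV α x.1 * (gco α x.2 * (((x.2:ℝ) ^ (-(1:ℝ) / 2) : ℝ) : ℂ)) *
        Iexp α H t0 U (lp (ph x)) := by
    unfold Near S3
    rw [Finset.sum_sigma]
    refine Finset.sum_congr rfl fun q hq => ?_
    rw [Finset.mul_sum]
    refine Finset.sum_congr rfl fun n hn => ?_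
    have := (mem_S3 (X := X) (dl := dl) (x := ⟨q, n⟩) (by
      unfold S3; rw [mem_sigma]; exact ⟨hq, hn⟩)).2.2.2.1
    simp only at this
    rw [this]
    ring
  have h2 : ∀ p : ℕ × ℕ, Iexp α H t0 U (lp p) = ∫ t in (t0 - U)..(t0 + U),
      Og H t0 (2 + t * I) * gam α (2 + t * I) *
        (Complex.exp (-(3 / 2 : ℂ) * (lp p : ℂ)) * Complex.exp (-((t * lp p : ℝ) : ℂ) * Complex.I)) := by
    intro p
    unfold Iexp
    refine intervalIntegral.integral_congr fun t _ => ?_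
    rw [← Complex.exp_add]
    congr 2
    push_cast
    ring
  have hc : Continuous (fun t : ℝ => Og H t0 (2 + t * I) * gam α (2 + t * I)) :=
    (continuous_Og_line H t0).mul (continuous_gam_line α)
  rw [h1, ← Finset.sum_fiberwise_of_maps_to (g := ph) (t := FN X dl)
    (fun x hx => by unfold FN; exact Finset.mem_image_of_mem _ hx)]
  unfold DN
  simp_rw [Finset.mul_sum]
  rw [intervalIntegral.integral_finsetSum]
  · refine Finset.sum_congr rfl fun p hp => ?_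
    have h3 : ∀ x ∈ (S3 X dl).filter (fun x => ph x = p),
        bV α x.1 * (gco α x.2 * (((x.2:ℝ) ^ (-(1:ℝ) / 2) : ℝ) : ℂ)) * Iexp α H t0 U (lp (ph x)) =
        bV α x.1 * (gco α x.2 * (((x.2:ℝ) ^ (-(1:ℝ) / 2) : ℝ) : ℂ)) * Iexp α H t0 U (lp p) := by
      intro x hx
      rw [(Finset.mem_filter.mp hx).2]
    rw [Finset.sum_congr rfl h3, ← Finset.sum_mul, h2, ← intervalIntegral.integral_const_mul]
    refine intervalIntegral.integral_congr fun t _ => ?_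
    simp only [cN]
    ring
  · intro p _
    refine (hc.mul (continuous_const.mul ?_)).intervalIntegrable _ _
    fun_prop

lemma DN_continuous (α : ℝ) (X : ℕ) (dl : ℝ) : Continuous (DN α X dl) := by
  unfold DN
  fun_prop

lemma norm_bV_le' (α : ℝ) (p : ℕ × ℕ) : ‖bV α p‖ ≤ ((p.1 : ℝ) * p.2) ^ (-(1:ℝ) / 2) := by
  unfold bV
  have h1 : ∀ k : ℕ, ‖(((μ k : ℤ) : ℂ))‖ ≤ 1 := by
    intro k
    rw [Complex.norm_intCast]
    exact_mod_cast (ArithmeticFunction.abs_moebius_le_one (n := k))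
  rw [norm_mul, norm_mul, norm_mul, Complex.norm_exp_ofReal_mul_I, mul_one, Complex.norm_real,
    Real.norm_of_nonneg (by positivity)]
  have h2 : 0 ≤ ((p.1 : ℝ) * p.2) ^ (-(1:ℝ) / 2) := by positivity
  calc _ ≤ 1 * 1 * ((p.1 : ℝ) * p.2) ^ (-(1:ℝ) / 2) :=
        mul_le_mul_of_nonneg_right (mul_le_mul (h1 _) (h1 _) (norm_nonneg _) zero_le_one) h2
    _ = _ := by ring

/-- The properties of the near pairs. -/
theorem FN_props {X : ℕ} {dl : ℝ} (hdl : dl ≤ 1 / 4) {p : ℕ × ℕ} (hp : p ∈ FN X dl) :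
    1 ≤ p.1 ∧ p.1 ≤ X ∧ 1 ≤ p.2 ∧ p.1 ≠ p.2 ∧ |(p.1 : ℝ) - p.2| ≤ 2 * dl * p.1 ∧
      (p.2 : ℝ) ≤ 2 * p.1 ∧ (p.1 : ℝ) ≤ 2 * p.2 ∧ |lp p| < dl := by
  unfold FN at hp
  rw [Finset.mem_image] at hp
  obtain ⟨x, hx, rfl⟩ := hp
  obtain ⟨h1, h2, h3, -, h5, h6⟩ := mem_S3 hx
  have a1 : (0:ℝ) < (ph x).1 := by unfold ph; exact_mod_cast h2.1
  have hB : 1 ≤ (ph x).2 := by unfold ph; exact Nat.mul_pos h1.1 h3
  have a2 : (0:ℝ) < (ph x).2 := by exact_mod_cast hB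
  have hr : (0:ℝ) < (ph x).2 / (ph x).1 := by positivity
  have e1 : Real.exp (lp (ph x)) = (ph x).2 / (ph x).1 := by unfold lp; rw [Real.exp_log hr]
  have h7 : |Real.exp (lp (ph x)) - 1| ≤ 2 * |lp (ph x)| := Real.abs_exp_sub_one_le (by linarith)
  have h8 : |((ph x).2 : ℝ) / (ph x).1 - 1| ≤ 2 * dl := by
    rw [← e1]; linarith
  have h9 : |((ph x).1 : ℝ) - (ph x).2| ≤ 2 * dl * (ph x).1 := by
    have e2 : ((ph x).1 : ℝ) - (ph x).2 = -((((ph x).2 : ℝ) / (ph x).1 - 1) * (ph x).1) := by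
      field_simp; ring
    rw [e2, abs_neg, abs_mul, abs_of_pos a1]
    gcongr
  have h10 := abs_le.mp h9
  have h11 : 2 * dl * (ph x).1 ≤ 1 / 2 * (ph x).1 := by gcongr; linarith
  refine ⟨h2.1, h2.2, hB, ?_, h9, ?_, ?_, h6⟩
  · intro h
    apply h5
    unfold lp
    rw [h, div_self a2.ne', Real.log_one]
  · linarith [h10.1]
  · linarith [h10.2]

theorem norm_cN_le (α : ℝ) {X : ℕ} {dl : ℝ} (hdl : dl ≤ 1 / 4) {p : ℕ × ℕ} (hp : p ∈ FN X dl) :
    ‖cN α X dl p‖ * p.1 ≤ 4 * dv p.2 ^ 2 := by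
  obtain ⟨h1, h2, h3, h4, h5, h6, h7, h8⟩ := FN_props hdl hp
  have a1 : (0:ℝ) < p.1 := by exact_mod_cast h1
  have a2 : (0:ℝ) < p.2 := by exact_mod_cast h3
  unfold cN
  rw [norm_mul]
  have e1 : ‖Complex.exp (-(3 / 2 : ℂ) * (lp p : ℂ))‖ ≤ 2 := by
    have : -(3 / 2 : ℂ) * (lp p : ℂ) = ((-(3 / 2) * lp p : ℝ) : ℂ) := by push_cast; ring
    rw [this, ← Complex.ofReal_exp, Complex.norm_real, Real.norm_of_nonneg (Real.exp_pos _).le]
    have h9 : -(3 / 2) * lp p ≤ 1 / 2 := by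
      have := (abs_lt.mp h8).1
      linarith
    have h10 : Real.exp (1 / 2) ≤ 2 := by
      have h11 : Real.exp (1 / 2) * Real.exp (1 / 2) = Real.exp 1 := by
        rw [← Real.exp_add]; norm_num
      have h12 : Real.exp 1 < 2.7182818286 := Real.exp_one_lt_d9
      nlinarith [Real.exp_pos (1 / 2 : ℝ)]
    exact (Real.exp_le_exp.mpr h9).trans h10
  have hterm : ∀ x ∈ (S3 X dl).filter (fun x => ph x = p),
      ‖bV α x.1 * (gco α x.2 * (((x.2:ℝ) ^ (-(1:ℝ) / 2) : ℝ) : ℂ))‖ ≤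
        ((p.1 : ℝ) * p.2) ^ (-(1:ℝ) / 2) * dv p.2 := by
    intro x hx
    rw [Finset.mem_filter] at hx
    obtain ⟨hx1, rfl⟩ := hx
    obtain ⟨b1, b2, b3, -⟩ := mem_S3 hx1
    have c1 : (0:ℝ) < x.1.1 := by exact_mod_cast b1.1
    have c2 : (0:ℝ) < x.1.2 := by exact_mod_cast b2.1
    have c3 : (0:ℝ) < x.2 := by exact_mod_cast b3
    rw [norm_mul, norm_mul, Complex.norm_real, Real.norm_of_nonneg (by positivity)]
    have d1 := norm_bV_le' α x.1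
    have d2 : ‖gco α x.2‖ ≤ dv (ph x).2 := by
      refine (norm_gco_le α x.2).trans ?_
      unfold dv
      have : x.2.divisors.card ≤ (ph x).2.divisors.card := by
        apply Finset.card_le_card
        apply Nat.divisors_subset_of_dvd
        · unfold ph; exact (Nat.mul_pos b1.1 b3).ne'
        · unfold ph; exact Dvd.intro_left _ rfl
      exact_mod_cast this
    have e : ((((ph x).1 : ℝ) * (ph x).2)) ^ (-(1:ℝ) / 2) =
        ((x.1.1 : ℝ) * x.1.2) ^ (-(1:ℝ) / 2) * (x.2:ℝ) ^ (-(1:ℝ) / 2) := by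
      rw [← Real.mul_rpow (by positivity) (by positivity)]
      congr 1
      unfold ph
      push_cast
      ring
    rw [e]
    have hd := dv_nonneg (ph x).2
    calc ‖bV α x.1‖ * (‖gco α x.2‖ * (x.2:ℝ) ^ (-(1:ℝ) / 2))
        ≤ ((x.1.1 : ℝ) * x.1.2) ^ (-(1:ℝ) / 2) * (dv (ph x).2 * (x.2:ℝ) ^ (-(1:ℝ) / 2)) := by
          gcongr
      _ = _ := by ring
  have hcard : (((S3 X dl).filter (fun x => ph x = p)).card : ℝ) ≤ dv p.2 := by
    unfold dv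
    have : ((S3 X dl).filter (fun x => ph x = p)).card ≤ p.2.divisors.card := by
      refine Finset.card_le_card_of_injOn (fun x => x.2) ?_ ?_
      · intro x hx
        rw [Finset.mem_coe, Finset.mem_filter] at hx
        obtain ⟨hx1, rfl⟩ := hx
        rw [Finset.mem_coe, Nat.mem_divisors]
        refine ⟨?_, by omega⟩
        unfold ph
        exact Dvd.intro_left _ rfl
      · intro x hx y hy hxy
        rw [Finset.mem_coe, Finset.mem_filter] at hx hy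
        obtain ⟨hx1, hx2⟩ := hx
        obtain ⟨hy1, hy2⟩ := hy
        have b3 := (mem_S3 hx1).2.2.1
        have hp1 : ph x = ph y := hx2.trans hy2.symm
        unfold ph at hp1
        rw [Prod.mk.injEq] at hp1
        simp only at hxy
        obtain ⟨⟨m, k⟩, n⟩ := x
        obtain ⟨⟨m', k'⟩, n'⟩ := y
        simp only at hp1 hxy b3
        obtain ⟨e1, e2⟩ := hp1
        subst hxy
        subst e1
        have : m = m' := Nat.eq_of_mul_eq_mul_right (by omega) e2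
        subst this
        rfl
    exact_mod_cast this
  have hsum : ‖∑ x ∈ (S3 X dl).filter (fun x => ph x = p),
      bV α x.1 * (gco α x.2 * (((x.2:ℝ) ^ (-(1:ℝ) / 2) : ℝ) : ℂ))‖ ≤
      dv p.2 * (((p.1 : ℝ) * p.2) ^ (-(1:ℝ) / 2) * dv p.2) := by
    refine (norm_sum_le _ _).trans ((Finset.sum_le_card_nsmul _ _ _ hterm).trans ?_)
    rw [nsmul_eq_mul]
    have hd := dv_nonneg p.2
    gcongr
  have hroot : ((p.1 : ℝ) * p.2) ^ (-(1:ℝ) / 2) * p.1 ≤ 2 := by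
    have e : (p.1 : ℝ) = ((p.1 : ℝ) ^ 2) ^ ((1:ℝ) / 2) := by
      rw [← Real.sqrt_eq_rpow, Real.sqrt_sq a1.le]
    have h9 : ((p.1 : ℝ) * p.2) ^ (-(1:ℝ) / 2) * ((p.1 : ℝ) ^ 2) ^ ((1:ℝ) / 2) =
        ((p.1 : ℝ) / p.2) ^ ((1:ℝ) / 2) := by
      have e3 : ((p.1 : ℝ) / p.2) = ((p.1 : ℝ) ^ 2) / ((p.1 : ℝ) * p.2) := by
        field_simp
      rw [e3, Real.div_rpow (by positivity) (by positivity),
        show (-(1:ℝ) / 2) = -((1:ℝ) / 2) by ring, Real.rpow_neg (by positivity)]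
      ring
    calc ((p.1 : ℝ) * p.2) ^ (-(1:ℝ) / 2) * p.1
        = ((p.1 : ℝ) * p.2) ^ (-(1:ℝ) / 2) * ((p.1 : ℝ) ^ 2) ^ ((1:ℝ) / 2) := by rw [← e]
      _ = ((p.1 : ℝ) / p.2) ^ ((1:ℝ) / 2) := h9
      _ ≤ (4:ℝ) ^ ((1:ℝ) / 2) := by
          apply Real.rpow_le_rpow (by positivity) _ (by norm_num)
          rw [div_le_iff₀ a2]; linarith
      _ = 2 := by
          rw [show (4:ℝ) = 2 ^ (2:ℝ) by norm_num, ← Real.rpow_mul (by norm_num)]
          norm_num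
  have hd := dv_nonneg p.2
  calc _ ≤ dv p.2 * (((p.1 : ℝ) * p.2) ^ (-(1:ℝ) / 2) * dv p.2) * 2 * p.1 := by
        gcongr
    _ = dv p.2 ^ 2 * 2 * (((p.1 : ℝ) * p.2) ^ (-(1:ℝ) / 2) * p.1) := by ring
    _ ≤ dv p.2 ^ 2 * 2 * 2 := by gcongr
    _ = _ := by ring

end Pool.Agent.ZShortAA
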