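import Mathlib

/-!
# Near-diagonal sums: counting
-/

namespace Pool.Agent.ZShort

open Finset

namespace NearAux

lemma ap_range (a s : ℝ) (ha : 0 < a) (hs : 0 < s) (n : ℕ) :
    ∑ j ∈ range (n + 1), 1 / (a + s * j) ^ 2 ≤
      1 / a ^ 2 + (1 / s) * (1 / a - 1 / (a + s * n)) := by
  induction n with
  | zero => simp
  | succ n ih =>
    rw [sum_range_succ]
    have h1 : 0 < a + s * n := by positivity
    have h2 : 0 < a + s * ((n:ℝ) + 1) := by positivity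
    have h3 : 1 / (a + s * ((n:ℝ) + 1)) ^ 2 ≤
        (1 / s) * (1 / (a + s * n) - 1 / (a + s * ((n:ℝ) + 1))) := by
      have : (1 / s) * (1 / (a + s * n) - 1 / (a + s * ((n:ℝ) + 1))) =
          1 / ((a + s * n) * (a + s * ((n:ℝ) + 1))) := by
        field_simp
        ring
      rw [this]
      apply one_div_le_one_div_of_le (by positivity)
      rw [sq]
      have : a + s * n ≤ a + s * ((n:ℝ) + 1) := by nlinarith
      gcongr
    push_cast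
    calc _ ≤ (1 / a ^ 2 + (1 / s) * (1 / a - 1 / (a + s * n))) +
          (1 / s) * (1 / (a + s * n) - 1 / (a + s * ((n:ℝ) + 1))) := add_le_add ih h3
      _ = _ := by ring

/-- Sum of `1 / a ^ 2` over a set of naturals `≥ m`, congruent modulo `s`. -/
lemma ap_sum (A : Finset ℕ) (s : ℕ) (hs : 1 ≤ s) (m : ℝ) (hm : 0 < m)
    (h1 : ∀ a ∈ A, m ≤ a) (h2 : ∀ a ∈ A, ∀ b ∈ A, a ≤ b → s ∣ (b - a)) :
    ∑ a ∈ A, 1 / (a:ℝ) ^ 2 ≤ 1 / m ^ 2 + 1 / (s * m) := by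
  rcases A.eq_empty_or_nonempty with rfl | hA
  · simp only [sum_empty]
    have : (0:ℝ) < s := by exact_mod_cast hs
    positivity
  obtain ⟨a0, ha0, hmin⟩ := A.exists_min_image id hA
  simp only [id] at hmin
  have hs0 : (0:ℝ) < s := by exact_mod_cast hs
  have ha0m := h1 a0 ha0
  have ha0p : (0:ℝ) < a0 := hm.trans_le ha0m
  set N := A.sup id with hN
  have key : ∑ a ∈ A, 1 / (a:ℝ) ^ 2 ≤ ∑ j ∈ range (N + 1), 1 / ((a0:ℝ) + s * j) ^ 2 := by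
    have e1 : ∀ a ∈ A, 1 / (a:ℝ) ^ 2 = 1 / ((a0:ℝ) + s * (((a - a0) / s : ℕ) : ℝ)) ^ 2 := by
      intro a ha
      have h3 := h2 a0 ha0 a ha (hmin a ha)
      have h4 : s * ((a - a0) / s) = a - a0 := Nat.mul_div_cancel' h3
      have h5 : a0 + s * ((a - a0) / s) = a := by
        rw [h4]
        have := hmin a ha
        omega
      have h6 : (a0:ℝ) + s * (((a - a0) / s : ℕ) : ℝ) = a := by exact_mod_cast h5
      rw [h6]
    rw [sum_congr rfl e1]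
    have e2 : Set.InjOn (fun a => (a - a0) / s) (A : Set ℕ) := by
      intro a ha b hb hab
      simp only at hab
      have ha' := mem_coe.1 ha
      have hb' := mem_coe.1 hb
      have h3 : s * ((a - a0) / s) = a - a0 := Nat.mul_div_cancel' (h2 a0 ha0 a ha' (hmin a ha'))
      have h4 : s * ((b - a0) / s) = b - a0 := Nat.mul_div_cancel' (h2 a0 ha0 b hb' (hmin b hb'))
      have h5 := hmin a ha'
      have h6 := hmin b hb'
      rw [hab] at h3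
      omega
    rw [← sum_image (f := fun j : ℕ => 1 / ((a0:ℝ) + s * j) ^ 2) e2]
    refine sum_le_sum_of_subset_of_nonneg ?_ fun _ _ _ => by positivity
    intro j hj
    obtain ⟨a, ha, rfl⟩ := mem_image.1 hj
    rw [mem_range]
    have h3 : a ≤ N := le_sup (f := id) ha
    have h4 : (a - a0) / s ≤ a - a0 := Nat.div_le_self _ _
    omega
  refine key.trans ((ap_range a0 s ha0p hs0 N).trans ?_)
  have h7 : 0 < 1 / ((a0:ℝ) + s * N) := by positivity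
  have h8 : 1 / (a0:ℝ) ^ 2 ≤ 1 / m ^ 2 := by gcongr
  have h9 : (1 / (s:ℝ)) * (1 / a0 - 1 / ((a0:ℝ) + s * N)) ≤ 1 / (s * m) := by
    calc _ ≤ (1 / (s:ℝ)) * (1 / m) := by
          have : 1 / (a0:ℝ) ≤ 1 / m := by gcongr
          gcongr
          linarith
      _ = _ := by rw [one_div_mul_one_div]
  linarith

open Classical in
/-- The pairs `(A, A')` for given `u, u'`. -/
noncomputable def PP (X M η : ℝ) (u u' : ℕ) : Finset (ℕ × ℕ) :=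
  (Icc 1 ⌊X⌋₊ ×ˢ Icc 1 ⌊X⌋₊).filter fun a =>
    (u:ℝ) ≤ η * a.1 ∧ (u':ℝ) ≤ η * a.2 ∧ |(u:ℝ) * a.2 - u' * a.1| ≤ M * (a.1 * a.2)

lemma mem_PP {X M η : ℝ} (hX : 1 ≤ X) {u u' : ℕ} {a : ℕ × ℕ} (ha : a ∈ PP X M η u u') :
    (1:ℝ) ≤ a.1 ∧ (a.1:ℝ) ≤ X ∧ (1:ℝ) ≤ a.2 ∧ (a.2:ℝ) ≤ X ∧ (u:ℝ) ≤ η * a.1 ∧
      (u':ℝ) ≤ η * a.2 ∧ |(u:ℝ) * a.2 - u' * a.1| ≤ M * (a.1 * a.2) := by
  classical
  unfold PP at ha
  rw [mem_filter, mem_product, mem_Icc, mem_Icc] at ha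
  obtain ⟨⟨⟨h1, h2⟩, h3, h4⟩, h5, h6, h7⟩ := ha
  have h8 : (⌊X⌋₊:ℝ) ≤ X := Nat.floor_le (by linarith)
  refine ⟨by exact_mod_cast h1, ?_, by exact_mod_cast h3, ?_, h5, h6, h7⟩
  · exact le_trans (by exact_mod_cast h2) h8
  · exact le_trans (by exact_mod_cast h4) h8

lemma PP_ratio {X M η : ℝ} (hX : 1 ≤ X) (hM : 0 ≤ M) (hMX : M * X ≤ 1 / 2) {u u' : ℕ}
    (hu : 1 ≤ u) (hu' : 1 ≤ u') {a : ℕ × ℕ} (ha : a ∈ PP X M η u u') :
    (u':ℝ) * a.1 ≤ 2 * (u * a.2) ∧ (u:ℝ) * a.2 ≤ 2 * (u' * a.1) := by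
  obtain ⟨h1, h2, h3, h4, -, -, h7⟩ := mem_PP hX ha
  have hu1 : (1:ℝ) ≤ u := by exact_mod_cast hu
  have hu1' : (1:ℝ) ≤ u' := by exact_mod_cast hu'
  obtain ⟨h8, h9⟩ := abs_le.1 h7
  have h10 : M * (a.1 * a.2) ≤ a.1 / 2 := by
    have : M * a.2 ≤ 1 / 2 := (mul_le_mul_of_nonneg_left h4 hM).trans hMX
    nlinarith
  have h11 : M * (a.1 * a.2) ≤ a.2 / 2 := by
    have : M * a.1 ≤ 1 / 2 := (mul_le_mul_of_nonneg_left h2 hM).trans hMX
    nlinarith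
  constructor <;> nlinarith

lemma PP_dvd {u u' : ℕ} (hu : 1 ≤ u) {a a' b b' : ℕ} (hab : a ≤ b)
    (h : (u:ℤ) * a' - u' * a = u * b' - u' * b) : (u / Nat.gcd u u') ∣ (b - a) := by
  obtain ⟨s, s', hc, hs, hs'⟩ := Nat.exists_coprime u u'
  have hg : 0 < Nat.gcd u u' := Nat.gcd_pos_of_pos_left _ hu
  have e1 : u / Nat.gcd u u' = s := Nat.div_eq_of_eq_mul_left hg hs
  rw [e1]
  obtain ⟨d, rfl⟩ := Nat.exists_eq_add_of_le hab
  rw [Nat.add_sub_cancel_left]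
  have h1 : (u:ℤ) * (b' - a') = u' * d := by
    push_cast at h
    linarith
  have h2 : (s:ℤ) * (b' - a') = s' * d := by
    have hgz : ((Nat.gcd u u' : ℕ) : ℤ) ≠ 0 := by exact_mod_cast hg.ne'
    apply mul_left_cancel₀ hgz
    have e2 : (u:ℤ) = s * (Nat.gcd u u' : ℕ) := by exact_mod_cast hs
    have e3 : (u':ℤ) = s' * (Nat.gcd u u' : ℕ) := by exact_mod_cast hs'
    calc ((Nat.gcd u u' : ℕ) : ℤ) * (s * (b' - a')) = u * (b' - a') := by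
          conv_rhs => rw [e2]
          ring
      _ = u' * d := h1
      _ = _ := by
          conv_lhs => rw [e3]
          ring
  have h3 : (s:ℤ) ∣ (s':ℤ) * d := ⟨_, h2.symm⟩
  have h4 : s ∣ s' * d := by exact_mod_cast h3
  exact hc.dvd_of_dvd_mul_left h4

lemma fix_uu {X M η : ℝ} (hX : 1 ≤ X) (hM : 0 ≤ M) (hMX : M * X ≤ 1 / 2) (hη : 0 < η)
    (hη1 : η ≤ 1) {u u' : ℕ} (hu' : 1 ≤ u') (huu : u' ≤ u) :
    ∑ a ∈ PP X M η u u', 1 / ((a.1:ℝ) * a.2) ≤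
      4 * (Nat.gcd u u' : ℕ) * η / (u * u') + 16 * M * X ^ 2 * η / u ^ 2 := by
  have hu : 1 ≤ u := hu'.trans huu
  set g : ℕ := Nat.gcd u u' with hg
  have hg0 : 0 < g := Nat.gcd_pos_of_pos_left _ hu
  have hgR : (0:ℝ) < g := by exact_mod_cast hg0
  have hgR1 : (1:ℝ) ≤ g := by exact_mod_cast hg0
  have hu1 : (1:ℝ) ≤ u := by exact_mod_cast hu
  have hu1' : (1:ℝ) ≤ u' := by exact_mod_cast hu'
  have hu0 : (0:ℝ) < u := by linarith
  have hu0' : (0:ℝ) < u' := by linarith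
  -- step 1
  have s1 : ∑ a ∈ PP X M η u u', 1 / ((a.1:ℝ) * a.2) ≤
      2 * u / u' * ∑ a ∈ PP X M η u u', 1 / (a.1:ℝ) ^ 2 := by
    rw [mul_sum]
    refine sum_le_sum fun a ha => ?_
    obtain ⟨h1, h2⟩ := PP_ratio hX hM hMX hu hu' ha
    obtain ⟨h3, -, h4, -⟩ := mem_PP hX ha
    have h5 : (0:ℝ) < a.1 := by linarith
    have h6 : (0:ℝ) < a.2 := by linarith
    rw [div_mul_div_comm, mul_one, div_le_div_iff₀ (by positivity) (by positivity)]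
    nlinarith [mul_le_mul_of_nonneg_left h1 h5.le]
  -- step 2
  set hm : ℝ := 2 * M * X ^ 2 * u' / u with hhm
  have hm0 : 0 ≤ hm := by positivity
  set H : ℕ := ⌊hm / g⌋₊ with hH
  have s2 : ∑ a ∈ PP X M η u u', 1 / (a.1:ℝ) ^ 2 ≤
      (2 * hm / g + 1) * ((η ^ 2 + g * η) / u ^ 2) := by
    have hmap : ∀ a ∈ PP X M η u u', ((u:ℤ) * a.2 - u' * a.1) / g ∈ Icc (-(H:ℤ)) H := by
      intro a ha
      obtain ⟨h1, h2⟩ := PP_ratio hX hM hMX hu hu' ha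
      obtain ⟨h3, h4, h5, h6, -, -, h7⟩ := mem_PP hX ha
      have hd : (g:ℤ) ∣ (u:ℤ) * a.2 - u' * a.1 := by
        apply dvd_sub
        · exact Dvd.dvd.mul_right (by exact_mod_cast Nat.gcd_dvd_left u u') _
        · exact Dvd.dvd.mul_right (by exact_mod_cast Nat.gcd_dvd_right u u') _
      obtain ⟨k, hk⟩ := hd
      have hg0z : (g:ℤ) ≠ 0 := by exact_mod_cast hg0.ne'
      rw [hk, Int.mul_ediv_cancel_left _ hg0z]
      have h8 : |(g:ℝ) * k| ≤ hm := by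
        have e : (g:ℝ) * k = (u:ℝ) * a.2 - u' * a.1 := by
          have := congrArg (fun z : ℤ => (z:ℝ)) hk
          push_cast at this
          linarith
        rw [e]
        refine h7.trans ?_
        have h9 : (a.2:ℝ) ≤ 2 * u' * X / u := by
          rw [le_div_iff₀ hu0]
          nlinarith
        calc M * (a.1 * a.2) ≤ M * (X * (2 * u' * X / u)) := by gcongr
          _ = hm := by rw [hhm]; ring
      have h10 : |(k:ℝ)| ≤ hm / g := by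
        rw [abs_mul, abs_of_pos hgR] at h8
        rw [le_div_iff₀ hgR]
        linarith
      have h11 : (k.natAbs : ℝ) ≤ hm / g := by
        rw [Nat.cast_natAbs, Int.cast_abs]
        exact h10
      have h12 : k.natAbs ≤ H := Nat.le_floor h11
      rw [mem_Icc]
      omega
    rw [← sum_fiberwise_of_maps_to hmap]
    have hEq : ∀ (a : ℕ × ℕ) (k : ℤ), ((u:ℤ) * a.2 - u' * a.1) / g = k →
        (u:ℤ) * a.2 - u' * a.1 = g * k := by
      intro a k hk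
      have hd : (g:ℤ) ∣ (u:ℤ) * a.2 - u' * a.1 := by
        apply dvd_sub
        · exact Dvd.dvd.mul_right (by exact_mod_cast Nat.gcd_dvd_left u u') _
        · exact Dvd.dvd.mul_right (by exact_mod_cast Nat.gcd_dvd_right u u') _
      rw [← hk, Int.mul_ediv_cancel' hd]
    have hfib : ∀ k ∈ Icc (-(H:ℤ)) H,
        ∑ a ∈ (PP X M η u u').filter (fun a => ((u:ℤ) * a.2 - u' * a.1) / g = k),
          1 / (a.1:ℝ) ^ 2 ≤ (η ^ 2 + g * η) / u ^ 2 := by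
      intro k _
      have hinj : Set.InjOn (fun a : ℕ × ℕ => a.1)
          ((PP X M η u u').filter (fun a => ((u:ℤ) * a.2 - u' * a.1) / g = k) : Finset _) := by
        intro a ha b hb hab
        simp only at hab
        rw [mem_coe, mem_filter] at ha hb
        obtain ⟨ha1, ha2⟩ := ha
        obtain ⟨hb1, hb2⟩ := hb
        have hE := hEq a k ha2
        have hE' := hEq b k hb2
        rw [hab] at hE
        have h1 : (u:ℤ) * a.2 = u * b.2 := by linarith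
        have h2 : (a.2:ℤ) = b.2 := by
          have hu0z : (u:ℤ) ≠ 0 := by exact_mod_cast (Nat.pos_iff_ne_zero.1 hu)
          exact mul_left_cancel₀ hu0z h1
        have h3 : a.2 = b.2 := by exact_mod_cast h2
        exact Prod.ext hab h3
      have e1 : ∑ a ∈ (PP X M η u u').filter (fun a => ((u:ℤ) * a.2 - u' * a.1) / g = k),
          1 / (a.1:ℝ) ^ 2 = ∑ j ∈ (((PP X M η u u').filter
            (fun a => ((u:ℤ) * a.2 - u' * a.1) / g = k)).image (fun a : ℕ × ℕ => a.1) : Finset ℕ),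
              1 / (j:ℝ) ^ 2 := by
        rw [sum_image hinj]
      rw [e1]
      have hs1 : 1 ≤ u / g := (Nat.one_le_div_iff hg0).2 (Nat.le_of_dvd hu (Nat.gcd_dvd_left u u'))
      have hap := ap_sum (((PP X M η u u').filter
            (fun a => ((u:ℤ) * a.2 - u' * a.1) / g = k)).image (fun a : ℕ × ℕ => a.1)) (u / g) hs1
            (u / η) (by positivity) ?_ ?_
      · refine hap.trans (le_of_eq ?_)
        have e2 : ((u / g : ℕ) : ℝ) = (u:ℝ) / g := by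
          rw [Nat.cast_div (Nat.gcd_dvd_left u u') hgR.ne']
        rw [e2]
        field_simp
      · intro j hj
        obtain ⟨a, ha, rfl⟩ := mem_image.1 hj
        obtain ⟨-, -, -, -, h5, -, -⟩ := mem_PP hX (mem_filter.1 ha).1
        rw [div_le_iff₀ hη]
        linarith
      · intro j hj j' hj' hjj
        obtain ⟨a, ha, rfl⟩ := mem_image.1 hj
        obtain ⟨b, hb, rfl⟩ := mem_image.1 hj'
        refine PP_dvd hu hjj ?_ (a' := a.2) (b' := b.2)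
        rw [← sub_eq_zero]
        have hE := hEq a k (mem_filter.1 ha).2
        have hE' := hEq b k (mem_filter.1 hb).2
        linarith
    refine (sum_le_card_nsmul _ _ _ hfib).trans ?_
    rw [Int.card_Icc, nsmul_eq_mul]
    have h1 : (((H:ℤ) + 1 - -(H:ℤ)).toNat : ℝ) = 2 * H + 1 := by
      have : ((H:ℤ) + 1 - -(H:ℤ)).toNat = 2 * H + 1 := by omega
      rw [this]; push_cast; ring
    rw [h1]
    have h2 : (H:ℝ) ≤ hm / g := Nat.floor_le (by positivity)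
    have h3 : 2 * (H:ℝ) + 1 ≤ 2 * hm / g + 1 := by
      have : 2 * hm / g = 2 * (hm / g) := by ring
      rw [this]; linarith
    gcongr
  -- step 3
  calc _ ≤ 2 * u / u' * ((2 * hm / g + 1) * ((η ^ 2 + g * η) / u ^ 2)) := by
        refine s1.trans ?_
        gcongr
    _ ≤ 2 * u / u' * ((2 * hm / g + 1) * ((2 * (g * η)) / u ^ 2)) := by
        have : η ^ 2 ≤ g * η := by nlinarith
        gcongr
        linarith
    _ = _ := by
        rw [hhm]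
        field_simp
        ring

lemma PP_swap (X M η : ℝ) (u u' : ℕ) :
    ∑ a ∈ PP X M η u u', 1 / ((a.1:ℝ) * a.2) = ∑ a ∈ PP X M η u' u, 1 / ((a.1:ℝ) * a.2) := by
  classical
  refine sum_nbij' (fun a => (a.2, a.1)) (fun a => (a.2, a.1)) ?_ ?_ ?_ ?_ ?_
  · intro a ha
    unfold PP at ha ⊢
    rw [mem_filter, mem_product] at ha ⊢
    obtain ⟨⟨h1, h2⟩, h3, h4, h5⟩ := ha
    refine ⟨⟨h2, h1⟩, h4, h3, ?_⟩
    rw [abs_sub_comm]
    simpa [mul_comm] using h5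
  · intro a ha
    unfold PP at ha ⊢
    rw [mem_filter, mem_product] at ha ⊢
    obtain ⟨⟨h1, h2⟩, h3, h4, h5⟩ := ha
    refine ⟨⟨h2, h1⟩, h4, h3, ?_⟩
    rw [abs_sub_comm]
    simpa [mul_comm] using h5
  · intro a _; rfl
  · intro a _; rfl
  · intro a _
    simp only
    rw [mul_comm]

lemma fix_all {X M η : ℝ} (hX : 1 ≤ X) (hM : 0 ≤ M) (hMX : M * X ≤ 1 / 2) (hη : 0 < η)
    (hη1 : η ≤ 1) {u u' : ℕ} (hu : 1 ≤ u) (hu' : 1 ≤ u') :
    ∑ a ∈ PP X M η u u', 1 / ((a.1:ℝ) * a.2) ≤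
      4 * η * ((Nat.gcd u u' : ℕ) / ((u:ℝ) * u')) + 16 * M * X ^ 2 * η * (1 / ((u:ℝ) * u')) := by
  have hu1 : (1:ℝ) ≤ u := by exact_mod_cast hu
  have hu1' : (1:ℝ) ≤ u' := by exact_mod_cast hu'
  have hu0 : (0:ℝ) < u := by linarith
  have hu0' : (0:ℝ) < u' := by linarith
  rcases le_total u' u with h | h
  · refine (fix_uu hX hM hMX hη hη1 hu' h).trans ?_
    have h1 : (u':ℝ) ≤ u := by exact_mod_cast h
    have h2 : 1 / (u:ℝ) ^ 2 ≤ 1 / ((u:ℝ) * u') := by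
      rw [sq]
      gcongr
    have h3 : 16 * M * X ^ 2 * η * (1 / (u:ℝ) ^ 2) ≤ 16 * M * X ^ 2 * η * (1 / ((u:ℝ) * u')) := by
      gcongr
    have h4 : 4 * ((Nat.gcd u u' : ℕ):ℝ) * η / (u * u') =
      4 * η * ((Nat.gcd u u' : ℕ) / ((u:ℝ) * u')) := by ring
    have h5 : 16 * M * X ^ 2 * η / (u:ℝ) ^ 2 = 16 * M * X ^ 2 * η * (1 / (u:ℝ) ^ 2) := by ring
    rw [h4, h5]
    linarith
  · rw [PP_swap]
    refine (fix_uu hX hM hMX hη hη1 hu h).trans ?_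
    have h1 : (u:ℝ) ≤ u' := by exact_mod_cast h
    have h2 : 1 / (u':ℝ) ^ 2 ≤ 1 / ((u:ℝ) * u') := by
      rw [sq]
      gcongr
    have h3 : 16 * M * X ^ 2 * η * (1 / (u':ℝ) ^ 2) ≤ 16 * M * X ^ 2 * η * (1 / ((u:ℝ) * u')) := by
      gcongr
    have h4 : 4 * ((Nat.gcd u' u : ℕ):ℝ) * η / (u' * u) =
      4 * η * ((Nat.gcd u u' : ℕ) / ((u:ℝ) * u')) := by
      rw [Nat.gcd_comm]
      ring
    have h5 : 16 * M * X ^ 2 * η / (u':ℝ) ^ 2 = 16 * M * X ^ 2 * η * (1 / (u':ℝ) ^ 2) := by ring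
    rw [h4, h5]
    linarith

lemma harm {X : ℝ} (hX : 1 ≤ X) : ∑ n ∈ Icc 1 ⌊X⌋₊, 1 / (n:ℝ) ≤ 1 + Real.log X := by
  have h := harmonic_floor_le_one_add_log X hX
  rw [harmonic_eq_sum_Icc] at h
  push_cast at h
  simpa [one_div] using h

lemma harm2 {X : ℝ} (hX : 1 ≤ X) :
    ∑ p ∈ Icc 1 ⌊X⌋₊ ×ˢ Icc 1 ⌊X⌋₊, 1 / ((p.1:ℝ) * p.2) ≤ (1 + Real.log X) ^ 2 := by
  have e : ∑ p ∈ Icc 1 ⌊X⌋₊ ×ˢ Icc 1 ⌊X⌋₊, 1 / ((p.1:ℝ) * p.2) =
      (∑ n ∈ Icc 1 ⌊X⌋₊, 1 / (n:ℝ)) * ∑ n ∈ Icc 1 ⌊X⌋₊, 1 / (n:ℝ) := by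
    rw [sum_mul_sum, sum_product]
    refine sum_congr rfl fun a _ => sum_congr rfl fun b _ => ?_
    rw [one_div_mul_one_div]
  rw [e, sq]
  have h0 : 0 ≤ ∑ n ∈ Icc 1 ⌊X⌋₊, 1 / (n:ℝ) := sum_nonneg fun _ _ => by positivity
  have hL : 0 ≤ Real.log X := Real.log_nonneg hX
  have := harm hX
  gcongr

lemma gcd_sum {X : ℝ} (hX : 1 ≤ X) :
    ∑ p ∈ Icc 1 ⌊X⌋₊ ×ˢ Icc 1 ⌊X⌋₊, ((Nat.gcd p.1 p.2 : ℕ):ℝ) / ((p.1:ℝ) * p.2) ≤
      (1 + Real.log X) ^ 3 := by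
  set N := ⌊X⌋₊ with hN
  set f : ℕ × ℕ × ℕ → ℝ := fun q => 1 / ((q.1:ℝ) * (q.2.1 * q.2.2)) with hf
  set φ : ℕ × ℕ → ℕ × ℕ × ℕ := fun p => (Nat.gcd p.1 p.2, p.1 / Nat.gcd p.1 p.2,
    p.2 / Nat.gcd p.1 p.2) with hφ
  have h1 : ∀ p ∈ Icc 1 N ×ˢ Icc 1 N,
      ((Nat.gcd p.1 p.2 : ℕ):ℝ) / ((p.1:ℝ) * p.2) = f (φ p) := by
    intro p hp
    rw [mem_product, mem_Icc, mem_Icc] at hp
    have hg : 0 < Nat.gcd p.1 p.2 := Nat.gcd_pos_of_pos_left _ hp.1.1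
    have hgR : (0:ℝ) < (Nat.gcd p.1 p.2 : ℕ) := by exact_mod_cast hg
    have hp1 : (0:ℝ) < p.1 := by exact_mod_cast hp.1.1
    have hp2 : (0:ℝ) < p.2 := by exact_mod_cast hp.2.1
    simp only [hf, hφ]
    rw [Nat.cast_div (Nat.gcd_dvd_left _ _) hgR.ne', Nat.cast_div (Nat.gcd_dvd_right _ _) hgR.ne']
    field_simp
  have h2 : Set.InjOn φ (Icc 1 N ×ˢ Icc 1 N : Finset (ℕ × ℕ)) := by
    intro p hp q hq hpq
    simp only [hφ, Prod.mk.injEq] at hpq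
    obtain ⟨e1, e2, e3⟩ := hpq
    have a1 := Nat.div_mul_cancel (Nat.gcd_dvd_left p.1 p.2)
    have a2 := Nat.div_mul_cancel (Nat.gcd_dvd_left q.1 q.2)
    have a3 := Nat.div_mul_cancel (Nat.gcd_dvd_right p.1 p.2)
    have a4 := Nat.div_mul_cancel (Nat.gcd_dvd_right q.1 q.2)
    rw [e2, e1, a2] at a1
    rw [e3, e1, a4] at a3
    exact Prod.ext a1.symm a3.symm
  have h3 : ∑ p ∈ Icc 1 N ×ˢ Icc 1 N, ((Nat.gcd p.1 p.2 : ℕ):ℝ) / ((p.1:ℝ) * p.2) ≤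
      ∑ q ∈ Icc 1 N ×ˢ (Icc 1 N ×ˢ Icc 1 N), f q := by
    rw [sum_congr rfl h1, ← sum_image (f := f) h2]
    refine sum_le_sum_of_subset_of_nonneg ?_ fun _ _ _ => by simp only [hf]; positivity
    intro q hq
    obtain ⟨p, hp, rfl⟩ := mem_image.1 hq
    rw [mem_product, mem_Icc, mem_Icc] at hp
    obtain ⟨⟨b1, b2⟩, b3, b4⟩ := hp
    have hg : 0 < Nat.gcd p.1 p.2 := Nat.gcd_pos_of_pos_left _ b1
    simp only [hφ, mem_product, mem_Icc]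
    have c1 := Nat.le_of_dvd b1 (Nat.gcd_dvd_left p.1 p.2)
    have c2 := Nat.le_of_dvd b3 (Nat.gcd_dvd_right p.1 p.2)
    have c3 := (Nat.one_le_div_iff hg).2 c1
    have c4 := (Nat.one_le_div_iff hg).2 c2
    have c5 := Nat.div_le_self p.1 (Nat.gcd p.1 p.2)
    have c6 := Nat.div_le_self p.2 (Nat.gcd p.1 p.2)
    exact ⟨⟨hg, c1.trans b2⟩, ⟨c3, c5.trans b2⟩, ⟨c4, c6.trans b4⟩⟩
  refine h3.trans ?_
  have e : ∑ q ∈ Icc 1 N ×ˢ (Icc 1 N ×ˢ Icc 1 N), f q =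
      (∑ n ∈ Icc 1 N, 1 / (n:ℝ)) * ∑ p ∈ Icc 1 N ×ˢ Icc 1 N, 1 / ((p.1:ℝ) * p.2) := by
    rw [sum_mul_sum, sum_product]
    refine sum_congr rfl fun a _ => sum_congr rfl fun b _ => ?_
    simp only [hf]
    rw [one_div_mul_one_div]
  rw [e]
  have e2 : (1 + Real.log X) ^ 3 = (1 + Real.log X) * (1 + Real.log X) ^ 2 := by ring
  rw [e2]
  have hL : 0 ≤ Real.log X := Real.log_nonneg hX
  have := harm hX
  have := harm2 hX
  gcongr

/-- The sum over quadruples. -/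
lemma quad {X M η : ℝ} (hX : 1 ≤ X) (hM : 0 ≤ M) (hMX : M * X ≤ 1 / 2) (hη : 0 < η)
    (hη1 : η ≤ 1) :
    ∑ p ∈ Icc 1 ⌊X⌋₊ ×ˢ Icc 1 ⌊X⌋₊, ∑ a ∈ PP X M η p.1 p.2, 1 / ((a.1:ℝ) * a.2) ≤
      16 * η * (1 + Real.log X) ^ 3 * (1 + M * X ^ 2) := by
  have h1 : ∀ p ∈ Icc 1 ⌊X⌋₊ ×ˢ Icc 1 ⌊X⌋₊, ∑ a ∈ PP X M η p.1 p.2, 1 / ((a.1:ℝ) * a.2) ≤
      4 * η * (((Nat.gcd p.1 p.2 : ℕ):ℝ) / ((p.1:ℝ) * p.2)) +
        16 * M * X ^ 2 * η * (1 / ((p.1:ℝ) * p.2)) := by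
    intro p hp
    rw [mem_product, mem_Icc, mem_Icc] at hp
    exact fix_all hX hM hMX hη hη1 hp.1.1 hp.2.1
  refine (sum_le_sum h1).trans ?_
  rw [sum_add_distrib, ← mul_sum, ← mul_sum]
  have hL : 0 ≤ Real.log X := Real.log_nonneg hX
  have h2 := gcd_sum hX
  have h3 := harm2 hX
  have h4 : (1 + Real.log X) ^ 2 ≤ (1 + Real.log X) ^ 3 :=
    pow_le_pow_right₀ (by linarith) (by norm_num)
  have h5 : 0 ≤ (1 + Real.log X) ^ 3 := by positivity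
  calc _ ≤ 4 * η * (1 + Real.log X) ^ 3 + 16 * M * X ^ 2 * η * (1 + Real.log X) ^ 3 := by
        have : ∑ p ∈ Icc 1 ⌊X⌋₊ ×ˢ Icc 1 ⌊X⌋₊, 1 / ((p.1:ℝ) * p.2) ≤ (1 + Real.log X) ^ 3 :=
          h3.trans h4
        gcongr
    _ ≤ _ := by
        have : 0 ≤ η * (1 + Real.log X) ^ 3 := by positivity
        nlinarith

end NearAux

end Pool.Agent.ZShort
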