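import Pool.Agent.ZShort.NearAlg

/-!
# The mean square of the near part over the centres
-/

namespace Pool.Agent.ZShortAA

open Complex Pool.Agent.Hadamard MeasureTheory Pool.Agent.HalfGap Set

lemma integral_gauss1 {H : ℝ} (hH : 0 < H) (t : ℝ) :
    ∫ t0 : ℝ, Real.exp (-((t - t0) ^ 2 / H ^ 2)) = Real.sqrt Real.pi * H := by
  have h1 : (fun t0 : ℝ => Real.exp (-((t - t0) ^ 2 / H ^ 2))) =
      fun t0 : ℝ => (fun x : ℝ => Real.exp (-(1 / H ^ 2) * x ^ 2)) (t - t0) := by
    funext t0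
    simp only
    congr 1
    ring
  rw [h1, integral_sub_left_eq_self (fun x : ℝ => Real.exp (-(1 / H ^ 2) * x ^ 2)) volume t,
    integral_gaussian]
  rw [show Real.pi / (1 / H ^ 2) = Real.pi * H ^ 2 by field_simp,
    Real.sqrt_mul (by positivity), Real.sqrt_sq hH.le]

lemma integrable_gauss1 {H : ℝ} (hH : 0 < H) (t : ℝ) :
    Integrable (fun t0 : ℝ => Real.exp (-((t - t0) ^ 2 / H ^ 2))) := by
  have h1 : (fun t0 : ℝ => Real.exp (-((t - t0) ^ 2 / H ^ 2))) =
      fun t0 : ℝ => (fun x : ℝ => Real.exp (-(1 / H ^ 2) * x ^ 2)) (t - t0) := by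
    funext t0
    simp only
    congr 1
    ring
  rw [h1]
  exact (integrable_exp_neg_mul_sq (by positivity)).comp_sub_left t

/-- the weighted Cauchy–Schwarz inequality -/
lemma cs_weight {S : Set ℝ} {g f : ℝ → ℝ} (hg0 : ∀ t, 0 ≤ g t) (h1 : IntegrableOn g S)
    (h2 : IntegrableOn (fun t => g t * f t) S) (h3 : IntegrableOn (fun t => g t * f t ^ 2) S) :
    (∫ t in S, g t * f t) ^ 2 ≤ (∫ t in S, g t) * ∫ t in S, g t * f t ^ 2 := by
  have key : ∀ x : ℝ, 0 ≤ (∫ t in S, g t) * (x * x) + (-2 * ∫ t in S, g t * f t) * x +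
      ∫ t in S, g t * f t ^ 2 := by
    intro x
    have e : (∫ t in S, g t) * (x * x) + (-2 * ∫ t in S, g t * f t) * x +
        ∫ t in S, g t * f t ^ 2 = ∫ t in S, g t * (f t - x) ^ 2 := by
      have e1 : ∀ t, g t * (f t - x) ^ 2 = (x * x) * g t + (-2 * x) * (g t * f t) + g t * f t ^ 2 := by
        intro t; ring
      simp_rw [e1]
      have i1 : Integrable (fun t => (x * x) * g t) (volume.restrict S) := h1.const_mul _
      have i2 : Integrable (fun t => (-2 * x) * (g t * f t)) (volume.restrict S) := h2.const_mul _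
      have i12 : Integrable (fun t => (x * x) * g t + (-2 * x) * (g t * f t))
        (volume.restrict S) := i1.add i2
      rw [integral_add i12 h3, integral_add i1 i2, integral_const_mul, integral_const_mul]
      ring
    rw [e]
    exact integral_nonneg fun t => mul_nonneg (hg0 t) (sq_nonneg _)
  have h4 := discrim_le_zero key
  unfold discrim at h4
  nlinarith

/-- pointwise bound by a Gaussian mean square -/
theorem near_sq {α H t0 U dl T : ℝ} (hα : 0 ≤ α) (hH : 1 ≤ H) (hU : 0 ≤ U) (h1 : 1 ≤ t0 - U)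
    (hl : T / 2 ≤ t0 - U) (hr : t0 + U ≤ 3 * T) (X : ℕ) :
    ‖Near (QV X) (bV α) wV α H t0 U dl‖ ^ 2 ≤ (Real.exp 7 * (4 * Real.exp (14 * α))) ^ 2 *
      (Real.sqrt Real.pi * H) *
      ∫ t in Icc (T / 2) (3 * T), Real.exp (-((t - t0) ^ 2 / H ^ 2)) * ‖DN α X dl t‖ ^ 2 := by
  have hH0 : 0 < H := by linarith
  set K := Real.exp 7 * (4 * Real.exp (14 * α)) with hK
  have hK0 : 0 < K := by positivity
  have hg : Continuous (fun t : ℝ => Real.exp (-((t - t0) ^ 2 / H ^ 2))) := by fun_prop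
  have hD : Continuous (fun t : ℝ => ‖DN α X dl t‖) := (DN_continuous α X dl).norm
  have h2 : ‖Near (QV X) (bV α) wV α H t0 U dl‖ ≤
      K * ∫ t in Icc (T / 2) (3 * T), Real.exp (-((t - t0) ^ 2 / H ^ 2)) * ‖DN α X dl t‖ := by
    rw [near_eq]
    have h3 : ‖∫ t in (t0 - U)..(t0 + U), Og H t0 (2 + t * I) * gam α (2 + t * I) * DN α X dl t‖ ≤
        ∫ t in (t0 - U)..(t0 + U), K * (Real.exp (-((t - t0) ^ 2 / H ^ 2)) * ‖DN α X dl t‖) := by
      refine intervalIntegral.norm_integral_le_of_norm_le (by linarith)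
        (Filter.Eventually.of_forall fun t ht => ?_) ?_
      · rw [norm_mul, norm_mul]
        have e1 : ‖Og H t0 (2 + t * I)‖ ≤ Real.exp 7 * Real.exp (-((t - t0) ^ 2 / H ^ 2)) := by
          have := norm_Og_le (H := H) (t0 := t0) (x := 2) (y := t) hH (by simp; linarith)
          simpa using this
        have e2 : ‖gam α (2 + t * I)‖ ≤ 4 * Real.exp (14 * α) :=
          GB.gam_bound hα (by simp; linarith [ht.1])
        calc ‖Og H t0 (2 + t * I)‖ * ‖gam α (2 + t * I)‖ * ‖DN α X dl t‖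
            ≤ (Real.exp 7 * Real.exp (-((t - t0) ^ 2 / H ^ 2))) * (4 * Real.exp (14 * α)) *
              ‖DN α X dl t‖ := by gcongr
          _ = _ := by rw [hK]; ring
      · exact (continuous_const.mul (hg.mul hD)).intervalIntegrable _ _
    refine h3.trans ?_
    rw [intervalIntegral.integral_const_mul, intervalIntegral.integral_of_le (by linarith)]
    refine mul_le_mul_of_nonneg_left ?_ hK0.le
    refine setIntegral_mono_set ((hg.mul hD).continuousOn.integrableOn_compact isCompact_Icc)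
      (Filter.Eventually.of_forall fun t => ?_) ?_
    · exact mul_nonneg (Real.exp_pos _).le (norm_nonneg _)
    · refine Filter.Eventually.of_forall fun t ht => ?_
      exact ⟨by linarith [ht.1], by linarith [ht.2]⟩
  have h4 := cs_weight (S := Icc (T / 2) (3 * T)) (g := fun t : ℝ => Real.exp (-((t - t0) ^ 2 / H ^ 2)))
    (f := fun t => ‖DN α X dl t‖) (fun t => (Real.exp_pos _).le)
    (hg.continuousOn.integrableOn_compact isCompact_Icc)
    ((hg.mul hD).continuousOn.integrableOn_compact isCompact_Icc)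
    ((hg.mul (hD.pow 2)).continuousOn.integrableOn_compact isCompact_Icc)
  have h5 : ∫ t in Icc (T / 2) (3 * T), Real.exp (-((t - t0) ^ 2 / H ^ 2)) ≤ Real.sqrt Real.pi * H := by
    rw [← integral_gauss1 hH0 t0]
    have e : ∀ t : ℝ, Real.exp (-((t - t0) ^ 2 / H ^ 2)) = Real.exp (-((t0 - t) ^ 2 / H ^ 2)) := by
      intro t; congr 3; ring
    simp_rw [e]
    exact setIntegral_le_integral (integrable_gauss1 hH0 t0)
      (Filter.Eventually.of_forall fun _ => (Real.exp_pos _).le)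
  have h6 : 0 ≤ ∫ t in Icc (T / 2) (3 * T), Real.exp (-((t - t0) ^ 2 / H ^ 2)) * ‖DN α X dl t‖ ^ 2 :=
    integral_nonneg fun t => by positivity
  calc ‖Near (QV X) (bV α) wV α H t0 U dl‖ ^ 2
      ≤ (K * ∫ t in Icc (T / 2) (3 * T), Real.exp (-((t - t0) ^ 2 / H ^ 2)) * ‖DN α X dl t‖) ^ 2 := by
        gcongr
    _ = K ^ 2 * (∫ t in Icc (T / 2) (3 * T), Real.exp (-((t - t0) ^ 2 / H ^ 2)) * ‖DN α X dl t‖) ^ 2 := by
        ring
    _ ≤ K ^ 2 * ((∫ t in Icc (T / 2) (3 * T), Real.exp (-((t - t0) ^ 2 / H ^ 2))) *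
        ∫ t in Icc (T / 2) (3 * T), Real.exp (-((t - t0) ^ 2 / H ^ 2)) * ‖DN α X dl t‖ ^ 2) := by
        gcongr
    _ ≤ K ^ 2 * ((Real.sqrt Real.pi * H) *
        ∫ t in Icc (T / 2) (3 * T), Real.exp (-((t - t0) ^ 2 / H ^ 2)) * ‖DN α X dl t‖ ^ 2) := by
        gcongr
    _ = _ := by ring

/-- integration over the centres -/
theorem fub_centres {T H : ℝ} (hH : 0 < H) {f : ℝ → ℝ} (hf : Continuous f) (hf0 : ∀ t, 0 ≤ f t) :
    IntegrableOn (fun t0 => ∫ t in Icc (T / 2) (3 * T), Real.exp (-((t - t0) ^ 2 / H ^ 2)) * f t)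
      (Icc T (2 * T)) ∧
    ∫ t0 in Icc T (2 * T), ∫ t in Icc (T / 2) (3 * T), Real.exp (-((t - t0) ^ 2 / H ^ 2)) * f t ≤
      Real.sqrt Real.pi * H * ∫ t in Icc (T / 2) (3 * T), f t := by
  set F : ℝ → ℝ → ℝ := fun t0 t => Real.exp (-((t - t0) ^ 2 / H ^ 2)) * f t with hF
  have hint : Integrable (Function.uncurry F)
      ((volume.restrict (Icc T (2 * T))).prod (volume.restrict (Icc (T / 2) (3 * T)))) := by
    rw [Measure.prod_restrict]
    have hc : Continuous (Function.uncurry F) := by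
      simp only [hF, Function.uncurry]
      have h1 : Continuous fun p : ℝ × ℝ => f p.2 := hf.comp continuous_snd
      have h2 : Continuous fun p : ℝ × ℝ => Real.exp (-((p.2 - p.1) ^ 2 / H ^ 2)) := by fun_prop
      exact h2.mul h1
    exact hc.continuousOn.integrableOn_compact (isCompact_Icc.prod isCompact_Icc)
  refine ⟨hint.integral_prod_left, ?_⟩
  have hswap := integral_integral_swap hint
  refine hswap.le.trans ?_
  rw [← integral_const_mul]
  have hfi : IntegrableOn f (Icc (T / 2) (3 * T)) := hf.continuousOn.integrableOn_compact isCompact_Icc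
  refine integral_mono hint.integral_prod_right (hfi.const_mul _) (fun t => ?_)
  simp only [hF]
  rw [integral_mul_const]
  refine mul_le_mul_of_nonneg_right ?_ (hf0 t)
  rw [← integral_gauss1 hH t]
  exact setIntegral_le_integral (integrable_gauss1 hH t)
    (Filter.Eventually.of_forall fun _ => (Real.exp_pos _).le)

/-- **Chebyshev for the near part.** -/
theorem near_cheb {α H U dl T : ℝ} (hα : 0 ≤ α) (hH : 1 ≤ H) (hU : 0 ≤ U)
    (hUT : 2 * U ≤ T) (hT : 2 ≤ T) (X : ℕ) :
    volume {t0 ∈ Icc T (2 * T) | H < ‖Near (QV X) (bV α) wV α H t0 U dl‖} ≤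
      ENNReal.ofReal ((Real.exp 7 * (4 * Real.exp (14 * α))) ^ 2 * Real.pi *
        ∫ t in Icc (T / 2) (3 * T), ‖DN α X dl t‖ ^ 2) := by
  have hH0 : 0 < H := by linarith
  have hpi := Real.pi_pos
  set K := Real.exp 7 * (4 * Real.exp (14 * α)) with hK
  have hK0 : 0 < K := by positivity
  set Φ : ℝ → ℝ := fun t0 => ∫ t in Icc (T / 2) (3 * T),
    Real.exp (-((t - t0) ^ 2 / H ^ 2)) * ‖DN α X dl t‖ ^ 2 with hΦ
  have hDc : Continuous (fun t => ‖DN α X dl t‖ ^ 2) := (DN_continuous α X dl).norm.pow 2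
  obtain ⟨f1, f2⟩ := fub_centres (T := T) hH0 hDc (fun t => by positivity)
  have hΦ0 : ∀ t0, 0 ≤ Φ t0 := fun t0 => integral_nonneg fun t => by positivity
  set lam := H / (K ^ 2 * Real.sqrt Real.pi) with hlam
  have hsp : 0 < Real.sqrt Real.pi := Real.sqrt_pos.mpr hpi
  have hlam0 : 0 < lam := by positivity
  have hsub : {t0 ∈ Icc T (2 * T) | H < ‖Near (QV X) (bV α) wV α H t0 U dl‖} ⊆
      {t0 | lam ≤ Φ t0} ∩ Icc T (2 * T) := by
    rintro t0 ⟨ht, hN⟩
    refine ⟨?_, ht⟩
    have h1 := near_sq (α := α) (H := H) (t0 := t0) (U := U) (dl := dl) (T := T) hα hH hU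
      (by linarith [ht.1]) (by linarith [ht.1]) (by linarith [ht.2]) X
    have h2 : H ^ 2 < ‖Near (QV X) (bV α) wV α H t0 U dl‖ ^ 2 := by gcongr
    have h3 : H ^ 2 < K ^ 2 * (Real.sqrt Real.pi * H) * Φ t0 := h2.trans_le h1
    have h4 : H < K ^ 2 * Real.sqrt Real.pi * Φ t0 := by
      have h5 : H * H < H * (K ^ 2 * Real.sqrt Real.pi * Φ t0) := by nlinarith
      exact lt_of_mul_lt_mul_left h5 hH0.le
    show lam ≤ Φ t0
    rw [hlam, div_le_iff₀ (by positivity)]
    linarith
  have hM := mul_meas_ge_le_integral_of_nonneg (μ := volume.restrict (Icc T (2 * T)))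
    (f := Φ) (Filter.Eventually.of_forall hΦ0) f1 lam
  have hfin : (volume.restrict (Icc T (2 * T))) {x | lam ≤ Φ x} ≠ ⊤ := by
    refine ne_of_lt (lt_of_le_of_lt (measure_mono (subset_univ _)) ?_)
    rw [Measure.restrict_apply_univ]
    exact measure_Icc_lt_top
  calc volume {t0 ∈ Icc T (2 * T) | H < ‖Near (QV X) (bV α) wV α H t0 U dl‖}
      ≤ volume ({t0 | lam ≤ Φ t0} ∩ Icc T (2 * T)) := measure_mono hsub
    _ = (volume.restrict (Icc T (2 * T))) {x | lam ≤ Φ x} := by
        rw [Measure.restrict_apply' measurableSet_Icc]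
    _ = ENNReal.ofReal ((volume.restrict (Icc T (2 * T))).real {x | lam ≤ Φ x}) := by
        rw [measureReal_def, ENNReal.ofReal_toReal hfin]
    _ ≤ _ := by
        apply ENNReal.ofReal_le_ofReal
        have h7 : (volume.restrict (Icc T (2 * T))).real {x | lam ≤ Φ x} ≤
            (Real.sqrt Real.pi * H * ∫ t in Icc (T / 2) (3 * T), ‖DN α X dl t‖ ^ 2) / lam := by
          rw [le_div_iff₀ hlam0, mul_comm]
          exact hM.trans f2
        refine h7.trans (le_of_eq ?_)
        rw [hlam]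
        have hs2 : Real.sqrt Real.pi * Real.sqrt Real.pi = Real.pi := Real.mul_self_sqrt hpi.le
        generalize (∫ t in Icc (T / 2) (3 * T), ‖DN α X dl t‖ ^ 2) = J
        calc Real.sqrt Real.pi * H * J / (H / (K ^ 2 * Real.sqrt Real.pi))
            = K ^ 2 * (Real.sqrt Real.pi * Real.sqrt Real.pi) * J := by field_simp
          _ = K ^ 2 * Real.pi * J := by rw [hs2]

end Pool.Agent.ZShortAA
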