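import Pool.Agent.ZShort.NearMean

/-!
# The near part is small for almost all centres
-/

namespace Pool.Agent.ZShortAA

open Complex Pool.Agent.Hadamard MeasureTheory Pool.Agent.HalfGap Set Filter

/-- The mean square bound for near pairs, as a statement. -/
def NearMSStmt : Prop :=
  ∃ C M0 : ℝ, 0 < C ∧ 0 < M0 ∧ ∀ (T X η K : ℝ), 1 ≤ X → X ≤ M0 * T → 0 < η → η ≤ 1 / 2 → 0 ≤ K →
    ∀ (F : Finset (ℕ × ℕ)) (c : ℕ × ℕ → ℂ),
    (∀ p ∈ F, 1 ≤ p.1 ∧ (p.1 : ℝ) ≤ X ∧ p.1 ≠ p.2 ∧ |(p.1 : ℝ) - p.2| ≤ η * p.1 ∧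
      ‖c p‖ * p.1 ≤ K) →
    ∫ t in (T / 2)..(3 * T), ‖∑ p ∈ F, c p *
      Complex.exp (-((t * Real.log (p.2 / p.1) : ℝ) : ℂ) * Complex.I)‖ ^ 2 ≤
      C * K ^ 2 * T * η * (1 + Real.log X) ^ 3 * (1 + X ^ 2 / T)

/-- the exponents -/
lemma final_exponents {κ κ' ρ : ℝ} (hρ1 : ρ ≤ κ') (hρ2 : ρ ≤ 1 + κ' - 2 * κ)
    {T : ℝ} (hT : 1 ≤ T) : T * T ^ (-κ') * (1 + (T ^ κ) ^ 2 / T) ≤ 2 * T ^ (1 - ρ) := by
  have hT0 : 0 < T := by linarith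
  have e1 : T * T ^ (-κ') = T ^ (1 - κ') := by
    rw [sub_eq_add_neg, Real.rpow_add hT0, Real.rpow_one]
  have e2 : T * T ^ (-κ') * ((T ^ κ) ^ 2 / T) = T ^ (2 * κ - κ') := by
    have h1 : (T ^ κ) ^ 2 = T ^ (2 * κ) := by
      rw [← Real.rpow_natCast, ← Real.rpow_mul hT0.le]; congr 1; push_cast; ring
    rw [h1, sub_eq_add_neg (2 * κ) κ', Real.rpow_add hT0]
    field_simp
  have h3 : T ^ (1 - κ') ≤ T ^ (1 - ρ) := Real.rpow_le_rpow_of_exponent_le hT (by linarith)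
  have h4 : T ^ (2 * κ - κ') ≤ T ^ (1 - ρ) := Real.rpow_le_rpow_of_exponent_le hT (by linarith)
  calc T * T ^ (-κ') * (1 + (T ^ κ) ^ 2 / T)
      = T * T ^ (-κ') + T * T ^ (-κ') * ((T ^ κ) ^ 2 / T) := by ring
    _ = T ^ (1 - κ') + T ^ (2 * κ - κ') := by rw [e2, e1]
    _ ≤ _ := by linarith

theorem near_meas_of (hMS : NearMSStmt) {τ κ κ' η1 η2 : ℝ} (hτ : 0 < τ) (hτ1 : τ < 1) (hκ : 0 < κ)
    (hκ1 : κ < 1) (hκ' : 0 < κ') (h6 : 2 * κ < 1 + κ') (h0 : 0 < η1) (h12 : η1 < η2) (h2 : η2 < 1) :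
    ∃ c T0 : ℝ, 0 < c ∧ ∀ T : ℝ, T0 ≤ T →
      volume {t0 ∈ Set.Icc T (2 * T) | T ^ η1 < ‖Near (QV ⌊T ^ κ⌋₊)
        (bV (2 * Real.pi * τ / Real.log T)) wV (2 * Real.pi * τ / Real.log T) (T ^ η1) t0 (T ^ η2)
        (T ^ (-κ') / 2)‖} ≤ ENNReal.ofReal (T ^ (1 - c)) := by
  have hpi := Real.pi_pos
  obtain ⟨C, M0, hC, hM0, hms⟩ := hMS
  set ρ := min κ' (1 + κ' - 2 * κ) with hρ
  have hρ0 : 0 < ρ := lt_min hκ' (by linarith)
  have hρ1 : ρ ≤ κ' := min_le_left _ _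
  have hρ2 : ρ ≤ 1 + κ' - 2 * κ := min_le_right _ _
  obtain ⟨Cτ, hCτ, htau⟩ := Pool.Agent.ANT.tauR_le_rpow (ε := ρ / 16) (by positivity)
  set K0 := Real.exp 7 * (4 * Real.exp (14 * (2 * Real.pi))) with hK0
  have hK00 : 0 < K0 := by positivity
  set M := K0 ^ 2 * Real.pi * (C * (16 * Cτ ^ 4 * 2 ^ (ρ / 4)) * (1 + 12 / ρ) ^ 3 * 2) with hM
  have hMpos : 0 < M := by positivity
  have e1 : ∀ᶠ T : ℝ in atTop, M ≤ T ^ (ρ / 4) :=
    (tendsto_rpow_atTop (by positivity : 0 < ρ / 4)).eventually_ge_atTop _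
  have e2 : ∀ᶠ T : ℝ in atTop, 2 ≤ T ^ (1 - η2) :=
    (tendsto_rpow_atTop (by linarith : 0 < 1 - η2)).eventually_ge_atTop _
  have e3 : ∀ᶠ T : ℝ in atTop, 1 / M0 ≤ T ^ (1 - κ) :=
    (tendsto_rpow_atTop (by linarith : 0 < 1 - κ)).eventually_ge_atTop _
  have e4 : ∀ᶠ T : ℝ in atTop, 4 ≤ T ^ κ' := (tendsto_rpow_atTop hκ').eventually_ge_atTop _
  have e5 : ∀ᶠ T : ℝ in atTop, 1 ≤ Real.log T := Real.tendsto_log_atTop.eventually_ge_atTop 1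
  obtain ⟨T0, hT0⟩ := eventually_atTop.mp ((e1.and e2).and ((e3.and e4).and
    (e5.and (eventually_ge_atTop 2))))
  refine ⟨ρ / 4, T0, by positivity, fun T hT => ?_⟩
  obtain ⟨⟨s1, s2⟩, ⟨s3, s4⟩, s5, s6⟩ := hT0 T hT
  have hT1 : 1 ≤ T := by linarith
  have hTpos : 0 < T := by linarith
  set L := Real.log T with hL
  set α := 2 * Real.pi * τ / L with hα
  have hα0 : 0 ≤ α := by positivity
  have hα1 : α ≤ 2 * Real.pi := by
    rw [hα, div_le_iff₀ (by linarith)]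
    have : 2 * Real.pi * τ ≤ 2 * Real.pi * 1 := by gcongr
    have h3 : 2 * Real.pi * 1 ≤ 2 * Real.pi * L := by gcongr
    linarith
  set X := ⌊T ^ κ⌋₊ with hX
  set dl := T ^ (-κ') / 2 with hdl
  have hTκ1 : 1 ≤ T ^ κ := Real.one_le_rpow hT1 hκ.le
  have hX1 : 1 ≤ X := by rw [hX]; exact Nat.le_floor (by simpa using hTκ1)
  have hX1r : (1:ℝ) ≤ X := by exact_mod_cast hX1
  have hXle : (X:ℝ) ≤ T ^ κ := Nat.floor_le (by positivity)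
  have hTκT : T ^ κ ≤ T := by
    calc T ^ κ ≤ T ^ (1:ℝ) := Real.rpow_le_rpow_of_exponent_le hT1 hκ1.le
      _ = T := Real.rpow_one T
  have hXT : (X:ℝ) ≤ T := hXle.trans hTκT
  have hinv : T ^ (-κ') ≤ 1 / 4 := by
    rw [Real.rpow_neg hTpos.le, inv_eq_one_div]
    exact one_div_le_one_div_of_le (by norm_num) s4
  have hinv0 : 0 < T ^ (-κ') := Real.rpow_pos_of_pos hTpos _
  have hdl4 : dl ≤ 1 / 4 := by rw [hdl]; linarith
  -- the mean square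
  set K := 4 * (Cτ * (2 * T) ^ (ρ / 16)) ^ 2 with hK
  have hK0' : 0 ≤ K := by positivity
  have hms1 := hms T X (T ^ (-κ')) K hX1r (by
      refine hXle.trans ?_
      have h3 : T ^ κ * T ^ (1 - κ) = T := by
        rw [← Real.rpow_add hTpos]; simp
      have h4 : T ^ κ * (1 / M0) ≤ T := by
        calc T ^ κ * (1 / M0) ≤ T ^ κ * T ^ (1 - κ) := by gcongr
          _ = T := h3
      rw [mul_one_div, div_le_iff₀ hM0] at h4
      linarith) hinv0 (by linarith) hK0' (FN X dl) (cN α X dl) (by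
      intro p hp
      obtain ⟨a1, a2, a3, a4, a5, a6, a7, a8⟩ := FN_props hdl4 hp
      refine ⟨a1, by exact_mod_cast a2, a4, ?_, ?_⟩
      · have h3 : 2 * dl = T ^ (-κ') := by rw [hdl]; ring
        rw [h3] at a5
        exact a5
      · refine (norm_cN_le α hdl4 hp).trans ?_
        rw [hK]
        have h3 : dv p.2 ≤ Cτ * (2 * T) ^ (ρ / 16) := by
          refine (htau p.2 (by omega)).trans ?_
          have h4 : ((p.2 : ℕ) : ℝ) ≤ 2 * T := by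
            have h5 : (p.1 : ℝ) ≤ X := by exact_mod_cast a2
            linarith
          have h5 : ((p.2 : ℕ) : ℝ) ^ (ρ / 16) ≤ (2 * T) ^ (ρ / 16) :=
            Real.rpow_le_rpow (by positivity) h4 (by positivity)
          gcongr
        have := dv_nonneg p.2
        gcongr)
  have hlog : 1 + Real.log X ≤ (1 + 12 / ρ) * T ^ (ρ / 12) := by
    have h3 : Real.log X ≤ T ^ (ρ / 12) / (ρ / 12) := by
      refine (Real.log_le_log (by linarith) hXT).trans ?_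
      exact Real.log_le_rpow_div hTpos.le (by positivity)
    have h4 : 1 ≤ T ^ (ρ / 12) := Real.one_le_rpow hT1 (by positivity)
    have h5 : T ^ (ρ / 12) / (ρ / 12) = 12 / ρ * T ^ (ρ / 12) := by field_simp
    rw [h5] at h3
    linarith
  have hlog0 : 0 ≤ Real.log X := Real.log_nonneg hX1r
  have hlog3 : (1 + Real.log X) ^ 3 ≤ (1 + 12 / ρ) ^ 3 * T ^ (ρ / 4) := by
    calc (1 + Real.log X) ^ 3 ≤ ((1 + 12 / ρ) * T ^ (ρ / 12)) ^ 3 := by gcongr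
      _ = (1 + 12 / ρ) ^ 3 * (T ^ (ρ / 12)) ^ 3 := by ring
      _ = _ := by
        congr 1
        rw [← Real.rpow_natCast, ← Real.rpow_mul hTpos.le]
        congr 1
        push_cast; ring
  have hKsq : K ^ 2 = 16 * Cτ ^ 4 * 2 ^ (ρ / 4) * T ^ (ρ / 4) := by
    have h3 : ((2 * T) ^ (ρ / 16)) ^ 4 = 2 ^ (ρ / 4) * T ^ (ρ / 4) := by
      rw [← Real.rpow_natCast, ← Real.rpow_mul (by positivity), ← Real.mul_rpow (by norm_num) hTpos.le]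
      congr 1
      push_cast; ring
    calc K ^ 2 = 16 * Cτ ^ 4 * ((2 * T) ^ (ρ / 16)) ^ 4 := by rw [hK]; ring
      _ = _ := by rw [h3]; ring
  have hexp := final_exponents (κ := κ) hρ1 hρ2 hT1
  have hX2 : (1 + (X:ℝ) ^ 2 / T) ≤ 1 + (T ^ κ) ^ 2 / T := by gcongr
  have hDint : ∫ t in Icc (T / 2) (3 * T), ‖DN α X dl t‖ ^ 2 ≤
      C * (16 * Cτ ^ 4 * 2 ^ (ρ / 4)) * (1 + 12 / ρ) ^ 3 * 2 * T ^ (1 - ρ / 2) := by
    have h3 : ∫ t in Icc (T / 2) (3 * T), ‖DN α X dl t‖ ^ 2 =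
        ∫ t in (T / 2)..(3 * T), ‖∑ p ∈ FN X dl, cN α X dl p *
          Complex.exp (-((t * Real.log (p.2 / p.1) : ℝ) : ℂ) * Complex.I)‖ ^ 2 := by
      rw [intervalIntegral.integral_of_le (by linarith), integral_Icc_eq_integral_Ioc]
      rfl
    rw [h3]
    refine hms1.trans ?_
    have h4 : T ^ (ρ / 4) * T ^ (ρ / 4) * T ^ (1 - ρ) = T ^ (1 - ρ / 2) := by
      rw [← Real.rpow_add hTpos, ← Real.rpow_add hTpos]
      congr 1; ring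
    calc C * K ^ 2 * T * T ^ (-κ') * (1 + Real.log X) ^ 3 * (1 + (X:ℝ) ^ 2 / T)
        = C * K ^ 2 * (1 + Real.log X) ^ 3 * (T * T ^ (-κ') * (1 + (X:ℝ) ^ 2 / T)) := by ring
      _ ≤ C * K ^ 2 * ((1 + 12 / ρ) ^ 3 * T ^ (ρ / 4)) *
          (T * T ^ (-κ') * (1 + (T ^ κ) ^ 2 / T)) := by gcongr
      _ ≤ C * K ^ 2 * ((1 + 12 / ρ) ^ 3 * T ^ (ρ / 4)) * (2 * T ^ (1 - ρ)) := by gcongr
      _ = C * (16 * Cτ ^ 4 * 2 ^ (ρ / 4)) * (1 + 12 / ρ) ^ 3 * 2 *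
          (T ^ (ρ / 4) * T ^ (ρ / 4) * T ^ (1 - ρ)) := by rw [hKsq]; ring
      _ = _ := by rw [h4]
  have hcheb := near_cheb (α := α) (H := T ^ η1) (U := T ^ η2) (dl := dl) (T := T) hα0
    (Real.one_le_rpow hT1 h0.le) (by positivity) (by
      have h3 : T ^ (1 - η2) * T ^ η2 = T := by rw [← Real.rpow_add hTpos]; simp
      have h4 : 0 < T ^ η2 := Real.rpow_pos_of_pos hTpos _
      calc 2 * T ^ η2 ≤ T ^ (1 - η2) * T ^ η2 := by gcongr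
        _ = T := h3) s6 X
  refine hcheb.trans (ENNReal.ofReal_le_ofReal ?_)
  have hint0 : 0 ≤ ∫ t in Icc (T / 2) (3 * T), ‖DN α X dl t‖ ^ 2 := integral_nonneg fun t => by positivity
  have hK1 : (Real.exp 7 * (4 * Real.exp (14 * α))) ^ 2 ≤ K0 ^ 2 := by
    rw [hK0]
    gcongr
  have h5 : T ^ (1 - ρ / 2) * T ^ (ρ / 4) = T ^ (1 - ρ / 4) := by
    rw [← Real.rpow_add hTpos]; congr 1; ring
  calc (Real.exp 7 * (4 * Real.exp (14 * α))) ^ 2 * Real.pi *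
        ∫ t in Icc (T / 2) (3 * T), ‖DN α X dl t‖ ^ 2
      ≤ K0 ^ 2 * Real.pi * (C * (16 * Cτ ^ 4 * 2 ^ (ρ / 4)) * (1 + 12 / ρ) ^ 3 * 2 *
        T ^ (1 - ρ / 2)) := by gcongr
    _ = T ^ (1 - ρ / 2) * M := by rw [hM]; ring
    _ ≤ T ^ (1 - ρ / 2) * T ^ (ρ / 4) := by gcongr
    _ = _ := h5

end Pool.Agent.ZShortAA
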