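import Pool.Agent.ZShort.Win
import Pool.Agent.ZShort.Diag
import Pool.Agent.ZShort.Tail
import Pool.Agent.TypBlk.GoodV

/-!
# Every window of width `T ^ a` contains a void window
-/

namespace Pool.Agent.ZShort

open MeasureTheory Real Set Pool.Agent.ZGap.Res Pool.Agent.TypBlk Pool.Agent.Hadamard
  Pool.Agent.ZetaGaps

lemma mT_geS (R : ResData) {c κ : ℝ} {ψ : ℝ → ℝ}
    (hψc : chat ψ 0 / (2 * π) ≤ c + κ / 2) {T : ℝ} (hT : 1 ≤ T)
    (h : (c - 1 + κ) * Sig R T ≤ (π * Real.log T)⁻¹ *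
      ∑ n ∈ Finset.Icc 1 ⌊T⌋₊, ArithmeticFunction.vonMangoldt n / Real.sqrt n *
        chat ψ (Real.log n / Real.log T) * CC R T n) : κ / 2 * Sig R T ≤ mT R ψ T := by
  rw [GoodVAux.mT_eq R ψ hT]
  have hS : 0 ≤ Sig R T := Finset.sum_nonneg fun _ _ => sq_nonneg _
  have h1 : (1 - (c + κ / 2)) * Sig R T ≤ (1 - chat ψ 0 / (2 * π)) * Sig R T :=
    mul_le_mul_of_nonneg_right (by linarith) hS
  have h3 : (1 - (c + κ / 2)) * Sig R T + (c - 1 + κ) * Sig R T = κ / 2 * Sig R T := by ring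
  linarith

/-- Every window of width `T ^ a` contains the centre of a void window. -/
theorem void_short (hRH : RiemannHypothesis) (R : ResData) (hF : ∀ x, 0 ≤ x → R.F x ≤ 1)
    (hF0 : 0 < R.F 0) {α a : ℝ} (h0 : 0 < α) (hth : 2 * R.th < α) (hαa : α < a) (ha : a ≤ 1)
    {c κ e : ℝ} (hκ : 0 < κ) {ψ : ℝ → ℝ} (hψ : RS ψ)
    (hψ00 : ∀ x, 0 ≤ ψ x) (hψle : ∀ x, ψ x ≤ 1) (hψ1 : ∀ x, |x| ≤ π * c → ψ x = 1)
    (hψ0 : ∀ x, e ≤ |x| → ψ x = 0)
    (hψc : chat ψ 0 / (2 * π) ≤ c + κ / 2) {T1 : ℝ}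
    (harith : ∀ T : ℝ, T1 ≤ T → (c - 1 + κ) * Sig R T ≤ (π * Real.log T)⁻¹ *
      ∑ n ∈ Finset.Icc 1 ⌊T⌋₊, ArithmeticFunction.vonMangoldt n / Real.sqrt n *
        chat ψ (Real.log n / Real.log T) * CC R T n) :
    ∃ T0 : ℝ, ∀ T : ℝ, T0 ≤ T → ∀ t0 ∈ Icc T (2 * T), ∃ t : ℝ, |t - t0| ≤ T ^ a / 4 ∧
      ∀ ρ ∈ ntz, π * c / Real.log T < |ρ.im - t| := by
  set A : ℝ := 1 + e ^ 2 with hA
  have hψA : ∀ x, |ψ x| ≤ A / (1 + x ^ 2) := GoodVAux.psi_bound hψ00 hψle hψ0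
  have hth0 : 0 < R.th := by linarith [R.ep_pos, R.ep_th]
  set m0 : ℝ := κ * R.F 0 ^ 4 with hm0
  have hm0p : 0 < m0 := by positivity
  obtain ⟨C6, hC6, hNCle⟩ := exists_NC_le
  obtain ⟨Cc, Tc, hCc, hTc3, hcnt⟩ := exists_cntS hRH R hF h0 (by linarith : α < 1) hth h0
    (by linarith : α < 1) hψ
  obtain ⟨Tt, hTt3, htail⟩ := exists_tailS R hF h0 hαa ha hψ00 hψ.continuous hψA
  obtain ⟨Tw, hTw3, hwin⟩ := exists_winS R hF h0 (by linarith : α < 1) hth
  have hδ : 0 < α - 2 * R.th := by linarith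
  refine ⟨max (max (max T1 Tc) (max Tt Tw)) (max (max (16 * Cc / m0) (16 / m0))
    (max (Real.exp (8 * Cc / κ)) (2 ^ (1 / (α - 2 * R.th))))), fun T hT t0 ht0 => ?_⟩
  have hT1 : T1 ≤ T := (le_max_left _ _).trans ((le_max_left _ _).trans ((le_max_left _ _).trans hT))
  have hTc : Tc ≤ T := (le_max_right _ _).trans ((le_max_left _ _).trans ((le_max_left _ _).trans hT))
  have hTt : Tt ≤ T := (le_max_left _ _).trans ((le_max_right _ _).trans ((le_max_left _ _).trans hT))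
  have hTw : Tw ≤ T := (le_max_right _ _).trans ((le_max_right _ _).trans ((le_max_left _ _).trans hT))
  have hT5 : 16 * Cc / m0 ≤ T := (le_max_left _ _).trans ((le_max_left _ _).trans
    ((le_max_right _ _).trans hT))
  have hT6 : 16 / m0 ≤ T := (le_max_right _ _).trans ((le_max_left _ _).trans
    ((le_max_right _ _).trans hT))
  have hT7 : Real.exp (8 * Cc / κ) ≤ T := (le_max_left _ _).trans ((le_max_right _ _).trans
    ((le_max_right _ _).trans hT))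
  have hT8 : (2:ℝ) ^ (1 / (α - 2 * R.th)) ≤ T := (le_max_right _ _).trans ((le_max_right _ _).trans
    ((le_max_right _ _).trans hT))
  have hTe : Real.exp 3 ≤ T := hTc3.trans hTc
  have h1T : 1 < T := lt_of_lt_of_le (Real.one_lt_exp_iff.mpr (by norm_num)) hTe
  have hTp : 0 < T := by linarith
  have hL3 : 3 ≤ Real.log T := by rw [Real.le_log_iff_exp_le hTp]; exact hTe
  have hL1 : 1 ≤ Real.log T := by linarith
  have hL : 0 < Real.log T := by linarith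
  have hLC : 8 * Cc / κ ≤ Real.log T := by
    rw [Real.le_log_iff_exp_le hTp]; exact hT7
  have hpow : 2 ≤ T ^ (α - 2 * R.th) := by
    calc (2:ℝ) = ((2:ℝ) ^ (1 / (α - 2 * R.th))) ^ (α - 2 * R.th) := by
          rw [← Real.rpow_mul (by norm_num), one_div, inv_mul_cancel₀ hδ.ne', Real.rpow_one]
      _ ≤ _ := Real.rpow_le_rpow (by positivity) hT8 hδ.le
  have hmT : κ / 2 * Sig R T ≤ mT R ψ T := mT_geS R hψc h1T.le (harith T hT1)
  have hSig : R.F 0 ^ 4 ≤ Sig R T := le_Sig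
  have hc1 := hcnt T hTc t0 ht0
  rw [DT_eq_mT h1T hpow, int_VL h1T hpow] at hc1
  by_contra hno
  push Not at hno
  obtain ⟨⟨Mw, hWt⟩, -, -⟩ := hwin T hTw t0 ht0
  have hiV : Integrable (VL R (T ^ α * Real.log T) T t0) := hWt.integrable
  have hiVN : Integrable (fun t => VL R (T ^ α * Real.log T) T t0 t * NC ψ T t) := by
    have hcont : Continuous (NC ψ T) := NC_continuous hψ.continuous hψA hL1
    refine hWt.integrable_mul (A := C6 * A * 2) hcont fun t => ?_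
    refine (hNCle ψ A T hψA hL1 t).trans ?_
    have := log_abs_add_two_le t
    have hA0 : 0 ≤ A := by rw [hA]; positivity
    calc C6 * A * Real.log (|t| + 2) ≤ C6 * A * (2 * (1 + t ^ 2)) :=
          mul_le_mul_of_nonneg_left this (by positivity)
      _ = _ := by ring
  have hNCnn : ∀ t, 0 ≤ NC ψ T t := fun t =>
    tsum_nonneg fun ρ => mul_nonneg (Nat.cast_nonneg _) (hψ00 _)
  have hN1 : ∀ t, |t - t0| ≤ T ^ a / 4 → 1 ≤ NC ψ T t := by
    intro t ht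
    obtain ⟨ρ, hρ, hρt⟩ := hno t ht
    exact one_le_NC hL1 hψ00 hψA hψ1 hρ hρt
  have h4 := GoodVAux.int_le_tail hWt.nonneg hNCnn hiV hiVN hN1
  rw [int_VL h1T hpow] at h4
  have h5 := (abs_le.mp hc1).1
  have h6 := htail T hTt t0 ht0
  have h7 : Cc / Real.log T * Sig R T ≤ κ / 8 * Sig R T := by
    apply mul_le_mul_of_nonneg_right _ (le_trans (by positivity) hSig)
    rw [div_le_iff₀ hL]
    rw [div_le_iff₀ hκ] at hLC
    linarith
  have h8 : Cc / T ≤ m0 / 16 := by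
    rw [div_le_iff₀ hm0p] at hT5
    rw [div_le_iff₀ hTp]
    linarith
  have h9 : 1 / T ≤ m0 / 16 := by
    rw [div_le_iff₀ hm0p] at hT6
    rw [div_le_iff₀ hTp]
    linarith
  have h10 : m0 ≤ κ * Sig R T := mul_le_mul_of_nonneg_left hSig hκ.le
  linarith

end Pool.Agent.ZShort
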