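import Pool.Agent.ZShort.Local
import Pool.Agent.ZShort.VarNear
import Pool.Agent.ZGap.PS.Box

/-!
# Void sets of positive measure in almost every window of width `T ^ α`
-/

namespace Pool.Agent.ZShort.LargeAA

open MeasureTheory Real Set Pool.Agent.ZGap.Res Pool.Agent.TypBlk Pool.Agent.Hadamard
  Pool.Agent.ZetaGaps

/-- The total mass of the window weight over the centres. -/
lemma ww_centres {K T : ℝ} (hK : 0 < K) (hT : 1 < T) (t : ℝ) :
    Integrable (fun t0 => ww K T t0 t) ∧ ∫ t0 : ℝ, ww K T t0 t = 1 := by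
  have hL : 0 < Real.log T := Real.log_pos hT
  have hc : 0 < Real.log T / K := by positivity
  have h1 : Integrable (fun u : ℝ => Real.log T / K * WW (u * (Real.log T / K))) :=
    (WW_integrable.comp_mul_right' hc.ne').const_mul _
  unfold ww
  constructor
  · exact h1.comp_sub_left t
  · rw [integral_sub_left_eq_self (fun u : ℝ => Real.log T / K * WW (u * (Real.log T / K)))
      (volume : Measure ℝ) t, integral_const_mul, Measure.integral_comp_mul_right (fun u => WW u),
      WW_integral, abs_of_pos (by positivity), smul_eq_mul, mul_one, mul_inv_cancel₀ hc.ne']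

lemma ww_cont2 (K T : ℝ) : Continuous (fun p : ℝ × ℝ => ww K T p.1 p.2) := by
  have := WW_continuous
  unfold ww
  fun_prop

/-- Fubini over the centres. -/
lemma centres (R : ResData) {K T : ℝ} (hK : 0 < K) (hT : 1 < T) {a b a' b' m : ℝ} {G E : Set ℝ}
    (hG : MeasurableSet G) (hE : MeasurableSet E) (hGI : G ⊆ Icc a b) (hEI : E ⊆ Icc a' b')
    (h : ∀ t0 ∈ G, m ≤ ∫ t in E, VL R K T t0 t) :
    m * volume.real G ≤ ∫ t in E, ‖Amp R T t‖ ^ 2 := by
  have hGf : volume G ≠ ⊤ := by
    refine ne_top_of_le_ne_top ?_ (measure_mono hGI)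
    rw [Real.volume_Icc]; exact ENNReal.ofReal_ne_top
  have hcA : Continuous (fun t => ‖Amp R T t‖ ^ 2) := ((Amp_continuous R T).norm).pow 2
  have hc : Continuous (fun p : ℝ × ℝ => VL R K T p.1 p.2) := by
    unfold VL
    exact (ww_cont2 K T).mul (hcA.comp continuous_snd)
  have hint : Integrable (Function.uncurry fun t0 t => VL R K T t0 t)
      ((volume.restrict G).prod (volume.restrict E)) := by
    rw [Measure.prod_restrict]
    have h1 : IntegrableOn (Function.uncurry fun t0 t => VL R K T t0 t)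
        (Icc a b ×ˢ Icc a' b') (volume.prod volume) := by
      rw [← Measure.volume_eq_prod]
      exact ContinuousOn.integrableOn_compact (isCompact_Icc.prod isCompact_Icc) hc.continuousOn
    exact h1.mono_set (Set.prod_mono hGI hEI)
  have h2 : m * volume.real G ≤ ∫ t0 in G, ∫ t in E, VL R K T t0 t := by
    have h3 : ∫ _ in G, m = m * volume.real G := by
      rw [setIntegral_const, smul_eq_mul, mul_comm]
    rw [← h3]
    exact setIntegral_mono_on (integrableOn_const hGf) hint.integral_prod_left hG h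
  refine h2.trans ?_
  rw [integral_integral_swap hint]
  apply setIntegral_mono_on hint.integral_prod_right
    ((hcA.integrableOn_Icc (a := a') (b := b')).mono_set hEI) hE
  intro t _
  have e1 : ∫ t0 in G, VL R K T t0 t = (∫ t0 in G, ww K T t0 t) * ‖Amp R T t‖ ^ 2 := by
    unfold VL
    rw [integral_mul_const]
  show (∫ t0 in G, VL R K T t0 t) ≤ ‖Amp R T t‖ ^ 2
  rw [e1]
  obtain ⟨i1, i2⟩ := ww_centres hK hT t
  have h4 : ∫ t0 in G, ww K T t0 t ≤ 1 := by
    rw [← i2]
    exact setIntegral_le_integral i1 (Filter.Eventually.of_forall fun t0 =>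
      WinAux.ww_nonneg hK hT t0 t)
  calc (∫ t0 in G, ww K T t0 t) * ‖Amp R T t‖ ^ 2 ≤ 1 * ‖Amp R T t‖ ^ 2 :=
        mul_le_mul_of_nonneg_right h4 (by positivity)
    _ = _ := one_mul _

/-- From the second moment over a set to its measure. -/
lemma measure_of_mass (R : ResData) {T y H C m : ℝ} (hH : 0 ≤ H) {E : Set ℝ}
    (hE : MeasurableSet E) (hEI : E ⊆ Icc y (y + H)) (hC : 0 < C) (hm : 0 < m)
    (h4 : ∫ t in y..(y + H), ‖Amp R T t‖ ^ 4 ≤ C * H)
    (h2 : m * H ≤ ∫ t in E, ‖Amp R T t‖ ^ 2) : m ^ 2 / C * H ≤ volume.real E := by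
  have hEf : volume E ≠ ⊤ := by
    refine ne_top_of_le_ne_top ?_ (measure_mono hEI)
    rw [Real.volume_Icc]; exact ENNReal.ofReal_ne_top
  set μ : ℝ := m / C with hμ
  have hμ0 : 0 < μ := by positivity
  have hc4 : Continuous (fun t => ‖Amp R T t‖ ^ 4) := ((Amp_continuous R T).norm).pow 4
  have hc2 : Continuous (fun t => ‖Amp R T t‖ ^ 2) := ((Amp_continuous R T).norm).pow 2
  have i4 : IntegrableOn (fun t => ‖Amp R T t‖ ^ 4) E :=
    (hc4.integrableOn_Icc (a := y) (b := y + H)).mono_set hEI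
  have i2 : IntegrableOn (fun t => ‖Amp R T t‖ ^ 2) E :=
    (hc2.integrableOn_Icc (a := y) (b := y + H)).mono_set hEI
  have e1 : ∫ t in E, ‖Amp R T t‖ ^ 2 ≤ ∫ t in E, (μ / 2 * ‖Amp R T t‖ ^ 4 + 1 / (2 * μ)) := by
    apply setIntegral_mono_on i2 ((i4.const_mul _).add (integrableOn_const hEf)) hE
    intro t _
    have h3 : 0 ≤ (μ * ‖Amp R T t‖ ^ 2 - 1) ^ 2 / (2 * μ) := by positivity
    have h5 : (μ * ‖Amp R T t‖ ^ 2 - 1) ^ 2 / (2 * μ) =
        μ / 2 * ‖Amp R T t‖ ^ 4 + 1 / (2 * μ) - ‖Amp R T t‖ ^ 2 := by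
      field_simp
      ring
    show ‖Amp R T t‖ ^ 2 ≤ μ / 2 * ‖Amp R T t‖ ^ 4 + 1 / (2 * μ)
    linarith
  have e2 : ∫ t in E, (μ / 2 * ‖Amp R T t‖ ^ 4 + 1 / (2 * μ)) =
      μ / 2 * (∫ t in E, ‖Amp R T t‖ ^ 4) + volume.real E * (1 / (2 * μ)) := by
    rw [integral_add (i4.const_mul _) (integrableOn_const hEf), integral_const_mul,
      setIntegral_const, smul_eq_mul]
  have e3 : ∫ t in E, ‖Amp R T t‖ ^ 4 ≤ C * H := by
    refine le_trans ?_ h4
    rw [intervalIntegral.integral_of_le (by linarith), ← integral_Icc_eq_integral_Ioc]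
    exact setIntegral_mono_set hc4.integrableOn_Icc
      (Filter.Eventually.of_forall fun t => by positivity) (hEI.eventuallyLE)
  have e4 : m * H ≤ μ / 2 * (C * H) + volume.real E * (1 / (2 * μ)) := by
    have := mul_le_mul_of_nonneg_left e3 (show 0 ≤ μ / 2 by positivity)
    linarith
  have e5 : μ / 2 * (C * H) = m * H / 2 := by rw [hμ]; field_simp
  rw [e5] at e4
  have e6 : m * H / 2 * (2 * μ) ≤ volume.real E * (1 / (2 * μ)) * (2 * μ) :=
    mul_le_mul_of_nonneg_right (by linarith) (by positivity)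
  have e7 : volume.real E * (1 / (2 * μ)) * (2 * μ) = volume.real E := by field_simp
  have e8 : m * H / 2 * (2 * μ) = m ^ 2 / C * H := by rw [hμ]; field_simp
  rw [e7, e8] at e6
  exact e6

/-- Few windows meet a small set in a large set. -/
lemma window_markov {B : Set ℝ} (hB : MeasurableSet B) {H s : ℝ} (hs : 0 < s) :
    volume {y : ℝ | ENNReal.ofReal s ≤ volume (B ∩ Icc y (y + H))} ≤
      ENNReal.ofReal H * volume B / ENNReal.ofReal s := by
  classical
  set S : Set (ℝ × ℝ) := {p : ℝ × ℝ | p.2 ∈ B ∧ p.1 ≤ p.2 ∧ p.2 ≤ p.1 + H} with hS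
  have hSm : MeasurableSet S := by
    have h1 : MeasurableSet {p : ℝ × ℝ | p.2 ∈ B} := measurable_snd hB
    have h2 : MeasurableSet {p : ℝ × ℝ | p.1 ≤ p.2} :=
      (isClosed_le continuous_fst continuous_snd).measurableSet
    have h3 : MeasurableSet {p : ℝ × ℝ | p.2 ≤ p.1 + H} :=
      (isClosed_le continuous_snd (by fun_prop)).measurableSet
    exact h1.inter (h2.inter h3)
  have e1 : ∀ y : ℝ, Prod.mk y ⁻¹' S = B ∩ Icc y (y + H) := by
    intro y
    ext t
    simp only [hS, mem_preimage, mem_setOf_eq, mem_inter_iff, mem_Icc]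
  have e2 : ∀ t : ℝ, (fun y => (y, t)) ⁻¹' S = if t ∈ B then Icc (t - H) t else ∅ := by
    intro t
    ext y
    simp only [hS, mem_preimage, mem_setOf_eq]
    split_ifs with h
    · rw [mem_Icc]
      constructor
      · rintro ⟨_, h1, h2⟩
        exact ⟨by linarith, h1⟩
      · rintro ⟨h1, h2⟩
        exact ⟨h, h2, by linarith⟩
    · simp [h]
  have hm : Measurable (fun y => volume (Prod.mk y ⁻¹' S)) := measurable_measure_prodMk_left hSm
  have h1 : ∫⁻ y, volume (Prod.mk y ⁻¹' S) = ENNReal.ofReal H * volume B := by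
    rw [← Measure.prod_apply hSm, Measure.prod_apply_symm hSm]
    have e3 : ∀ t : ℝ, volume ((fun y => (y, t)) ⁻¹' S) =
        B.indicator (fun _ => ENNReal.ofReal H) t := by
      intro t
      rw [e2 t]
      by_cases h : t ∈ B
      · rw [if_pos h, indicator_of_mem h, Real.volume_Icc]
        congr 1
        ring
      · rw [if_neg h, indicator_of_notMem h, measure_empty]
    simp_rw [e3]
    rw [lintegral_indicator hB, setLIntegral_const]
  have h2 := meas_ge_le_lintegral_div hm.aemeasurable (μ := volume) (ε := ENNReal.ofReal s)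
    (by rw [Ne, ENNReal.ofReal_eq_zero]; exact not_le.mpr hs) ENNReal.ofReal_ne_top
  rw [h1] at h2
  simp_rw [e1] at h2
  exact h2

lemma DT_sub_eq (R : ResData) (ψ : ℝ → ℝ) (K T t0 : ℝ) :
    DT R ψ K T t0 - mT R ψ T = OD R (kap ψ T) K T t0 := by
  unfold DT mT OD
  rw [← Finset.sum_sub_distrib]
  exact Finset.sum_congr rfl fun n _ => by ring

lemma mass_sub_eq (R : ResData) {K T : ℝ} (hT : 1 ≤ T) (t0 : ℝ) :
    (∫ t : ℝ, VL R K T t0 t) - Sig R T =
      OD R (fun n => if n = 1 then 1 else 0) K T t0 := by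
  have h1 : (1 : ℕ) ∈ Finset.Icc 1 ⌊T⌋₊ :=
    Finset.mem_Icc.mpr ⟨le_rfl, Nat.le_floor (by simpa using hT)⟩
  unfold OD
  rw [Finset.sum_eq_single_of_mem 1 h1 (fun n _ hn => by simp only [if_neg hn, zero_mul])]
  simp only [if_true, one_mul, CC_one]
  congr 1
  refine integral_congr_ae (Filter.Eventually.of_forall fun t => ?_)
  simp

/-- The upper deviation. -/
lemma cheb_up {f : ℝ → ℝ} (hf : Continuous f) {a b s B : ℝ} (hab : a ≤ b) (hs : 0 < s)
    (hB : ∫ x in a..b, f x ^ 2 ≤ B) :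
    volume.real {x | x ∈ Icc a b ∧ s < f x} ≤ B / s ^ 2 := by
  have h := GoodVAux.cheb (f := fun x => - f x) hf.neg (m := 0) (B := B) hab hs
    (by
      refine le_trans (le_of_eq ?_) hB
      congr 1
      funext x
      ring) (E := {x | x ∈ Icc a b ∧ s < f x})
    (fun x hx => ⟨hx.1, by
      have := hx.2
      simp only [zero_sub]
      linarith⟩)
  exact h

/-- **Void sets of positive measure in every window of width `T ^ α` which meets a small
exceptional set only in a small part**, from the arithmetic inequality. -/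
theorem void_B (hRH : RiemannHypothesis) (R : ResData) (hF : ∀ x, 0 ≤ x → R.F x ≤ 1)
    (hF0 : 0 < R.F 0) {α : ℝ} (hα0 : 0 < α) (hα1 : α < 1) (hth : 4 * R.th < 1 + α)
    {c κ e : ℝ} (hκ : 0 < κ) {ψ : ℝ → ℝ} (hψ : RS ψ)
    (hψ00 : ∀ x, 0 ≤ ψ x) (hψle : ∀ x, ψ x ≤ 1) (hψ1 : ∀ x, |x| ≤ π * c → ψ x = 1)
    (hψ0 : ∀ x, e ≤ |x| → ψ x = 0)
    (hψc : chat ψ 0 / (2 * π) ≤ c + κ / 2) {T1 : ℝ}
    (harith : ∀ T : ℝ, T1 ≤ T → (c - 1 + κ) * Sig R T ≤ (π * Real.log T)⁻¹ *
      ∑ n ∈ Finset.Icc 1 ⌊T⌋₊, ArithmeticFunction.vonMangoldt n / Real.sqrt n *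
        chat ψ (Real.log n / Real.log T) * CC R T n) :
    ∃ c0 δ T0 : ℝ, 0 < c0 ∧ 0 < δ ∧ ∀ T : ℝ, T0 ≤ T → ∃ B : Set ℝ, MeasurableSet B ∧
      B ⊆ Icc T (2 * T) ∧ volume.real B ≤ T ^ (1 - δ) ∧ ∀ y H : ℝ, T ≤ y → y + H ≤ 2 * T →
        T ^ α ≤ H → volume.real (B ∩ Icc y (y + H)) ≤ H / 8 →
        c0 * H ≤ volume.real {t : ℝ | t ∈ Icc y (y + H) ∧
          ∀ ρ ∈ ntz, π * c / Real.log T < |ρ.im - t|} := by
  set α1 := (α + max 0 (4 * R.th - 1)) / 2 with hα1d
  have hmx : max 0 (4 * R.th - 1) < α := max_lt hα0 (by linarith)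
  have hmx0 : 0 ≤ max 0 (4 * R.th - 1) := le_max_left _ _
  have hmx1 : 4 * R.th - 1 ≤ max 0 (4 * R.th - 1) := le_max_right _ _
  have hα1p : 0 < α1 := by rw [hα1d]; linarith
  have hα1l : α1 < α := by rw [hα1d]; linarith
  have hth1 : 4 * R.th < 1 + α1 := by rw [hα1d]; linarith
  set a1 := (α1 + α) / 2 with ha1
  obtain ⟨m1, Tl, hm1, hTl, hloc⟩ := local_void hRH R hF hF0 hα1p (by linarith) (a := a1)
    (by rw [ha1]; linarith) (by rw [ha1]; linarith) hκ hψ hψ00 hψle hψ1 hψ0 hψc harith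
  obtain ⟨δ, hδ, hvar⟩ := exists_var_near R hF hα1p hth1
  obtain ⟨Ck, hCk, hkap⟩ := VarAux.exists_kap hψ
  obtain ⟨Tv, hTv, hv1⟩ := hvar (max Ck 1) (by positivity)
  obtain ⟨b, hb⟩ := exists_nat_ge (1 / α)
  have hb0 : (0:ℝ) < b := lt_of_lt_of_le (by positivity) hb
  have hb1 : 1 ≤ b := by
    have : 0 < b := by exact_mod_cast hb0
    exact this
  have hbα : 1 / (b : ℝ) ≤ α := by
    rw [div_le_iff₀ hb0]
    rw [div_le_iff₀ hα0] at hb
    linarith
  obtain ⟨K4, T4, hK4, hT4, hfour⟩ := Pool.Agent.ShortPos.fourth_moment_short hRH hb1 R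
  set s0 : ℝ := R.F 0 ^ 4 with hs0
  have hs0p : 0 < s0 := by positivity
  set Q : ℝ := 1 / m1 ^ 2 + 1 / s0 ^ 2 with hQ
  have hQp : 0 < Q := by positivity
  have ev1 : ∀ᶠ T : ℝ in Filter.atTop, Q ≤ T ^ (δ / 2) :=
    (tendsto_rpow_atTop (by positivity)).eventually_ge_atTop _
  obtain ⟨Te, hTe⟩ := Filter.eventually_atTop.1 ev1
  refine ⟨(m1 / 4) ^ 2 / K4, δ / 2, max (max Tl Tv) (max T4 Te), by positivity, by positivity,
    fun T hT => ?_⟩
  have hTTl : Tl ≤ T := (le_max_left _ _).trans ((le_max_left _ _).trans hT)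
  have hTTv : Tv ≤ T := (le_max_right _ _).trans ((le_max_left _ _).trans hT)
  have hTT4 : T4 ≤ T := (le_max_left _ _).trans ((le_max_right _ _).trans hT)
  have hTTe : Te ≤ T := (le_max_right _ _).trans ((le_max_right _ _).trans hT)
  have hT3 : Real.exp 3 ≤ T := hTl.trans hTTl
  have h1T : 1 < T := lt_of_lt_of_le (Real.one_lt_exp_iff.mpr (by norm_num)) hT3
  have hTp : 0 < T := by linarith
  have hL : 0 < Real.log T := Real.log_pos h1T
  have hTa1 : 0 < T ^ a1 := Real.rpow_pos_of_pos hTp _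
  set K := T ^ α1 * Real.log T with hK
  have hKp : 0 < K := mul_pos (Real.rpow_pos_of_pos hTp _) hL
  have hkb0 : ∀ n, 0 ≤ kb T n := fun n => VarAux.kb_nonneg h1T n
  have v1 := hv1 T hTTv (kap ψ T) (fun n => (hkap T hT3 n).trans
    (mul_le_mul_of_nonneg_right (le_max_left _ _) (hkb0 n)))
  have v2 := hv1 T hTTv (fun n => if n = 1 then 1 else 0) (fun n => by
    by_cases hn : n = 1
    · rw [if_pos hn, abs_one]
      unfold kb
      rw [if_pos hn, mul_one]
      exact le_max_right _ _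
    · rw [if_neg hn, abs_zero]
      exact mul_nonneg (by positivity) (hkb0 n))
  have hc1 : Continuous (fun t0 => OD R (kap ψ T) K T t0) := OD_continuous R _ hKp h1T
  have hc2 : Continuous (fun t0 => OD R (fun n => if n = 1 then 1 else 0) K T t0) :=
    OD_continuous R _ hKp h1T
  set S1 : Set ℝ := {x | x ∈ Icc T (2 * T) ∧ m1 < - OD R (kap ψ T) K T x} with hS1
  set S2 : Set ℝ := {x | x ∈ Icc T (2 * T) ∧
    s0 < OD R (fun n => if n = 1 then 1 else 0) K T x} with hS2
  have w1 : volume.real S1 ≤ T ^ (1 - δ) / m1 ^ 2 :=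
    cheb_up (f := fun x => - OD R (kap ψ T) K T x) hc1.neg (by linarith) hm1 (by
      simp only [neg_sq]
      exact v1)
  have w2 : volume.real S2 ≤ T ^ (1 - δ) / s0 ^ 2 := cheb_up hc2 (by linarith) hs0p v2
  have hS1m : MeasurableSet S1 :=
    measurableSet_Icc.inter (isOpen_lt continuous_const hc1.neg).measurableSet
  have hS2m : MeasurableSet S2 :=
    measurableSet_Icc.inter (isOpen_lt continuous_const hc2).measurableSet
  set B : Set ℝ := S1 ∪ S2 with hB
  have hBm : MeasurableSet B := hS1m.union hS2m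
  have hBI : B ⊆ Icc T (2 * T) := by
    rintro x (h | h)
    · exact h.1
    · exact h.1
  have hBf : volume B ≠ ⊤ := by
    refine ne_top_of_le_ne_top ?_ (measure_mono hBI)
    rw [Real.volume_Icc]; exact ENNReal.ofReal_ne_top
  have w3 : volume.real B ≤ (1 / m1 ^ 2 + 1 / s0 ^ 2) * T ^ (1 - δ) := by
    calc volume.real B ≤ volume.real S1 + volume.real S2 := measureReal_union_le _ _
      _ ≤ T ^ (1 - δ) / m1 ^ 2 + T ^ (1 - δ) / s0 ^ 2 := add_le_add w1 w2
      _ = _ := by ring
  refine ⟨B, hBm, hBI, ?_, fun y H hy1 hy2 hH hcon' => ?_⟩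
  · calc volume.real B ≤ Q * T ^ (1 - δ) := w3
      _ ≤ T ^ (δ / 2) * T ^ (1 - δ) :=
          mul_le_mul_of_nonneg_right (hTe T hTTe) (by positivity)
      _ = T ^ (1 - δ / 2) := by
          rw [← Real.rpow_add hTp]
          congr 1
          ring
  · have hTa : T ^ a1 ≤ H := (Real.rpow_le_rpow_of_exponent_le h1T.le
      (by rw [ha1]; linarith)).trans hH
    have hHp : 0 < H := by linarith
    set E : Set ℝ := {t : ℝ | t ∈ Icc y (y + H) ∧
      ∀ ρ ∈ ntz, π * c / Real.log T < |ρ.im - t|} with hE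
    have hEm : MeasurableSet E := measurableSet_Icc.inter (measurableSet_void _)
    have hEI : E ⊆ Icc y (y + H) := fun t ht => ht.1
    set J : Set ℝ := Icc (y + T ^ a1 / 4) (y + H - T ^ a1 / 4) with hJ
    have hJI : J ⊆ Icc y (y + H) := Icc_subset_Icc (by linarith) (by linarith)
    have hGm : MeasurableSet (J \ B) := measurableSet_Icc.diff hBm
    have hGI : J \ B ⊆ Icc y (y + H) := fun t ht => hJI ht.1
    have hGr : H / 4 ≤ volume.real (J \ B) := by
      have h1 : volume.real J = H - T ^ a1 / 2 := by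
        rw [hJ, Real.volume_real_Icc_of_le (by linarith)]
        ring
      have h2 : volume.real J ≤ volume.real (J \ B) + volume.real (B ∩ Icc y (y + H)) := by
        refine (measureReal_mono (s₂ := (J \ B) ∪ (B ∩ Icc y (y + H))) ?_ ?_).trans
          (measureReal_union_le _ _)
        · intro t ht
          by_cases h : t ∈ B
          · exact Or.inr ⟨h, hJI ht⟩
          · exact Or.inl ⟨ht, h⟩
        · refine ne_top_of_le_ne_top ?_ (measure_mono (show (J \ B) ∪ (B ∩ Icc y (y + H)) ⊆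
            Icc y (y + H) from ?_))
          · rw [Real.volume_Icc]; exact ENNReal.ofReal_ne_top
          · exact union_subset hGI inter_subset_right
      linarith
    have hmass : ∀ t0 ∈ J \ B, m1 ≤ ∫ t in E, VL R K T t0 t := by
      rintro t0 ⟨ht0, ht0B⟩
      have ht0I : t0 ∈ Icc T (2 * T) := by
        have := hJI ht0
        exact ⟨by linarith [this.1], by linarith [this.2]⟩
      have g1 : -m1 ≤ DT R ψ K T t0 - mT R ψ T := by
        rw [DT_sub_eq]
        by_contra hcon2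
        exact ht0B (Or.inl ⟨ht0I, by linarith⟩)
      have g2 : (∫ t : ℝ, VL R K T t0 t) ≤ 2 * Sig R T := by
        have g3 : OD R (fun n => if n = 1 then 1 else 0) K T t0 ≤ s0 := by
          by_contra hcon2
          exact ht0B (Or.inr ⟨ht0I, not_le.mp hcon2⟩)
        have g4 := mass_sub_eq R (K := K) h1T.le t0
        have g5 : s0 ≤ Sig R T := le_Sig
        linarith
      refine (hloc T hTTl t0 ht0I g1 g2).trans ?_
      have hcV : Continuous (VL R K T t0) := by
        have h1 := WinAux.ww_continuous K T t0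
        have h2 := Amp_continuous R T
        unfold VL
        fun_prop
      apply setIntegral_mono_set ((hcV.integrableOn_Icc (a := y) (b := y + H)).mono_set hEI)
      · exact Filter.Eventually.of_forall fun t =>
          mul_nonneg (WinAux.ww_nonneg hKp h1T t0 t) (by positivity)
      · apply HasSubset.Subset.eventuallyLE
        rintro t ⟨ht1, ht2⟩
        have ht1' := abs_le.mp ht1
        exact ⟨⟨by linarith [ht0.1, ht1'.1], by linarith [ht0.2, ht1'.2]⟩, ht2⟩
    have hcen := centres R hKp h1T hGm hEm hGI hEI hmass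
    have h4 : ∫ t in y..(y + H), ‖Amp R T t‖ ^ 4 ≤ K4 * H := by
      have := hfour T hTT4 y H (by linarith) (by linarith)
        ((Real.rpow_le_rpow_of_exponent_le h1T.le hbα).trans hH) 0
      simpa using this
    have h5 : m1 / 4 * H ≤ ∫ t in E, ‖Amp R T t‖ ^ 2 := by
      refine le_trans ?_ hcen
      calc m1 / 4 * H = m1 * (H / 4) := by ring
        _ ≤ _ := mul_le_mul_of_nonneg_left hGr hm1.le
    exact measure_of_mass R hHp.le hEm hEI hK4 (by positivity) h4 h5

end Pool.Agent.ZShort.LargeAA
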